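import Pool.Agent.Lib.MP_458f0b_nt.Grow.Defs

open Finset Filter Topology

namespace Pool.Agent.Lib.MP_458f0b_nt.Grow

open Pool.Agent.Lib.MP_458f0b_nt.Pois

lemma BonfX_key {μ : ℝ} (n : ℕ) (h0 : 0 ≤ μ) (hn : 20 * μ ≤ n) :
    Real.exp μ * (μ ^ n / n.factorial) ≤ Real.exp (-(n : ℝ)) := by
  have h1 := Real.pow_div_factorial_le_exp (10 * μ) (by positivity) n
  have h2 : μ ^ n / n.factorial = (10 * μ) ^ n / n.factorial / 10 ^ n := by
    rw [mul_pow]
    field_simp
  have h3 : Real.exp 2 ≤ 10 := by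
    have h4 : Real.exp 2 = Real.exp 1 * Real.exp 1 := by
      rw [← Real.exp_add]
      norm_num
    have h5 := Real.exp_one_lt_d9
    have h6 := Real.exp_pos 1
    rw [h4]
    nlinarith
  have h7 : Real.exp (n * 2) ≤ 10 ^ n := by
    rw [Real.exp_nat_mul]
    exact pow_le_pow_left₀ (Real.exp_pos 2).le h3 n
  have hn0 : (0 : ℝ) ≤ n := Nat.cast_nonneg _
  calc Real.exp μ * (μ ^ n / n.factorial)
      ≤ Real.exp μ * (Real.exp (10 * μ) / Real.exp (n * 2)) := by
        rw [h2]
        gcongr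
    _ = Real.exp (μ + (10 * μ - n * 2)) := by rw [Real.exp_add, Real.exp_sub]
    _ ≤ Real.exp (-(n : ℝ)) := Real.exp_le_exp.2 (by linarith)

lemma BonfX_main {α : Type} (A : Finset α) (N : α → ℕ) (k m : ℕ) {μ : ℝ} (h0 : 0 ≤ μ)
    (hm : 2 * μ ≤ (m + 1 : ℕ)) :
    |((A.filter (fun a => N a = k)).card : ℝ) - A.card * pois μ k| ≤
      3 * (μ ^ k / k.factorial * (μ ^ (m + 1) / (m + 1).factorial)) * A.card +
        ∑ i ∈ range (m + 2),
        |((∑ a ∈ A, (N a).descFactorial (k + i) : ℕ) : ℝ) - A.card * μ ^ (k + i)| := by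
  set n : ℝ := (A.card : ℝ) with hn
  have hn0 : 0 ≤ n := Nat.cast_nonneg _
  set M : ℕ → ℝ := fun i => ((∑ a ∈ A, (N a).descFactorial (k + i) : ℕ) : ℝ) with hM
  set τ : ℝ := μ ^ k / k.factorial * (μ ^ (m + 1) / (m + 1).factorial) with hτ
  have e1 : |((A.filter (fun a => N a = k)).card : ℝ) -
      ∑ i ∈ range (m + 1), (-1) ^ i * (M i / (k.factorial * i.factorial))| ≤
      M (m + 1) / (k.factorial * (m + 1).factorial) := by
    have h1 : ((A.filter (fun a => N a = k)).card : ℝ) -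
        ∑ i ∈ range (m + 1), (-1) ^ i * (M i / (k.factorial * i.factorial)) =
        ∑ a ∈ A, ((if N a = k then (1 : ℝ) else 0) - ∑ i ∈ range (m + 1),
          (-1) ^ i * (((N a).descFactorial (k + i) : ℝ) / (k.factorial * i.factorial))) := by
      rw [Finset.sum_sub_distrib, Finset.sum_boole, Finset.sum_comm]
      congr 1
      refine Finset.sum_congr rfl fun i _ => ?_
      rw [← Finset.mul_sum, ← Finset.sum_div, hM]
      push_cast
      rfl
    rw [h1]
    refine (Finset.abs_sum_le_sum_abs _ _).trans ?_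
    refine (Finset.sum_le_sum fun a _ => bonf_point (N a) k m).trans (le_of_eq ?_)
    rw [← Finset.sum_div, hM]
    push_cast
    rfl
  have e2 : M (m + 1) / (k.factorial * (m + 1).factorial) ≤
      τ * n + |M (m + 1) - n * μ ^ (k + (m + 1))| := by
    have h1 : M (m + 1) ≤ n * μ ^ (k + (m + 1)) + |M (m + 1) - n * μ ^ (k + (m + 1))| := by
      linarith [le_abs_self (M (m + 1) - n * μ ^ (k + (m + 1)))]
    refine (div_le_div_of_nonneg_right h1 (by positivity)).trans ?_
    rw [add_div]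
    refine add_le_add (le_of_eq ?_) (div_le_self (abs_nonneg _) (bonf_one_le _ _))
    rw [hτ, pow_add μ k]
    field_simp
  have e3 : |∑ i ∈ range (m + 1), (-1) ^ i * (M i / (k.factorial * i.factorial)) -
      ∑ i ∈ range (m + 1), (-1) ^ i * (n * μ ^ (k + i) / (k.factorial * i.factorial))| ≤
      ∑ i ∈ range (m + 1), |M i - n * μ ^ (k + i)| := by
    rw [← Finset.sum_sub_distrib]
    refine (Finset.abs_sum_le_sum_abs _ _).trans (Finset.sum_le_sum fun i _ => ?_)
    rw [← mul_sub, ← sub_div, abs_mul, abs_pow, abs_neg, abs_one, one_pow, one_mul, abs_div,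
      abs_of_pos (by positivity : (0 : ℝ) < k.factorial * i.factorial)]
    exact div_le_self (abs_nonneg _) (bonf_one_le _ _)
  have e4 : |∑ i ∈ range (m + 1), (-1) ^ i * (n * μ ^ (k + i) / (k.factorial * i.factorial)) -
      n * pois μ k| ≤ 2 * τ * n := by
    have h1 : ∑ i ∈ range (m + 1), (-1) ^ i * (n * μ ^ (k + i) / (k.factorial * i.factorial)) -
        n * pois μ k = -(n * (μ ^ k / k.factorial)) *
          (Real.exp (-μ) - ∑ i ∈ range (m + 1), (-μ) ^ i / i.factorial) := by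
      rw [mul_sub, Finset.mul_sum, pois]
      have : ∀ i : ℕ, (-1) ^ i * (n * μ ^ (k + i) / (k.factorial * i.factorial)) =
          -(-(n * (μ ^ k / k.factorial)) * ((-μ) ^ i / i.factorial)) := fun i => by
        rw [neg_pow μ, pow_add]
        field_simp
      simp only [this, Finset.sum_neg_distrib]
      ring
    rw [h1, abs_mul, abs_neg, abs_of_nonneg (by positivity)]
    refine (mul_le_mul_of_nonneg_left (bonf_exp h0 le_rfl hm) (by positivity)).trans (le_of_eq ?_)
    rw [hτ]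
    ring
  rw [Finset.sum_range_succ _ (m + 1)]
  have t1 := abs_sub_le ((A.filter (fun a => N a = k)).card : ℝ)
    (∑ i ∈ range (m + 1), (-1) ^ i * (M i / (k.factorial * i.factorial))) (n * pois μ k)
  have t2 := abs_sub_le (∑ i ∈ range (m + 1), (-1) ^ i * (M i / (k.factorial * i.factorial)))
    (∑ i ∈ range (m + 1), (-1) ^ i * (n * μ ^ (k + i) / (k.factorial * i.factorial)))
    (n * pois μ k)
  linarith

theorem bonf_sharp {α : Type} (A : Finset α) (N : α → ℕ) {μ : ℝ} (n : ℕ) (h0 : 0 ≤ μ)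
    (hn : 20 * μ ≤ n) :
    ∑ k ∈ range n, |((A.filter (fun a => N a = k)).card : ℝ) - A.card * pois μ k| ≤
      3 * Real.exp (-(n : ℝ)) * A.card + n * ∑ j ∈ range (2 * n),
        |((∑ a ∈ A, (N a).descFactorial j : ℕ) : ℝ) - A.card * μ ^ j| := by
  rcases n with _ | m
  · simp
  set e : ℕ → ℝ := fun j => |((∑ a ∈ A, (N a).descFactorial j : ℕ) : ℝ) - A.card * μ ^ j| with he
  have he0 : ∀ j, 0 ≤ e j := fun j => abs_nonneg _
  have h1 : ∀ k ∈ range (m + 1),
      |((A.filter (fun a => N a = k)).card : ℝ) - A.card * pois μ k| ≤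
        μ ^ k / k.factorial * (3 * (μ ^ (m + 1) / (m + 1).factorial) * A.card) +
          ∑ j ∈ range (2 * (m + 1)), e j := by
    intro k hk
    have hk' := Finset.mem_range.1 hk
    refine (BonfX_main A N k m h0 (by linarith)).trans (add_le_add (le_of_eq (by ring)) ?_)
    have h2 := Finset.sum_range_add e k (m + 2)
    have h3 : 0 ≤ ∑ j ∈ range k, e j := Finset.sum_nonneg fun j _ => he0 j
    have h4 : ∑ j ∈ range (k + (m + 2)), e j ≤ ∑ j ∈ range (2 * (m + 1)), e j :=
      Finset.sum_le_sum_of_subset_of_nonneg (Finset.range_mono (by omega)) fun j _ _ => he0 j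
    change ∑ i ∈ range (m + 2), e (k + i) ≤ _
    linarith
  refine (Finset.sum_le_sum h1).trans ?_
  rw [Finset.sum_add_distrib, ← Finset.sum_mul, Finset.sum_const, Finset.card_range, nsmul_eq_mul]
  refine add_le_add ?_ le_rfl
  have h5 := Real.sum_le_exp_of_nonneg h0 (m + 1)
  have h6 := BonfX_key (m + 1) h0 hn
  calc (∑ k ∈ range (m + 1), μ ^ k / k.factorial) *
        (3 * (μ ^ (m + 1) / (m + 1).factorial) * A.card)
      ≤ Real.exp μ * (3 * (μ ^ (m + 1) / (m + 1).factorial) * A.card) := by gcongr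
    _ = 3 * (Real.exp μ * (μ ^ (m + 1) / (m + 1).factorial)) * A.card := by ring
    _ ≤ _ := by gcongr

lemma BonfX_exp {μ : ℝ} (h0 : 0 ≤ μ) {n : ℕ} (hn : 2 * μ ≤ n) :
    |Real.exp μ - ∑ i ∈ range n, μ ^ i / i.factorial| ≤ μ ^ n / n.factorial * 2 := by
  have hx : ‖((μ : ℝ) : ℂ)‖ = μ := by
    rw [Complex.norm_real, Real.norm_of_nonneg h0]
  have h := Complex.exp_bound' (x := ((μ : ℝ) : ℂ)) (n := n) (by
    rw [hx, div_le_iff₀ (by positivity)]
    push_cast
    linarith)
  rw [hx] at h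
  have h2 : Complex.exp ((μ : ℝ) : ℂ) - ∑ m ∈ range n, ((μ : ℝ) : ℂ) ^ m / m.factorial =
      ((Real.exp μ - ∑ i ∈ range n, μ ^ i / i.factorial : ℝ) : ℂ) := by
    push_cast
    rfl
  rwa [h2, Complex.norm_real, Real.norm_eq_abs] at h

lemma BonfX_sum (μ : ℝ) (K : ℕ) :
    ∑ k ∈ range K, pois μ k = Real.exp (-μ) * ∑ k ∈ range K, μ ^ k / k.factorial := by
  rw [Finset.mul_sum]
  exact Finset.sum_congr rfl fun k _ => by rw [pois, mul_div_assoc]

theorem pois_tail {μ : ℝ} (n : ℕ) (h0 : 0 ≤ μ) (hn : 20 * μ ≤ n) :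
    1 - ∑ k ∈ range n, pois μ k ≤ 2 * Real.exp (-(n : ℝ)) := by
  have h1 := (le_abs_self _).trans (BonfX_exp h0 (n := n) (by linarith))
  have h2 := BonfX_key n h0 hn
  have h3 : Real.exp (-μ) * Real.exp μ = 1 := by rw [← Real.exp_add]; simp
  have h4 : Real.exp (-μ) ≤ Real.exp μ := Real.exp_le_exp.2 (by linarith)
  have h5 : 0 ≤ μ ^ n / n.factorial := by positivity
  rw [BonfX_sum]
  calc 1 - Real.exp (-μ) * ∑ k ∈ range n, μ ^ k / k.factorial
      = Real.exp (-μ) * (Real.exp μ - ∑ k ∈ range n, μ ^ k / k.factorial) := by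
        rw [mul_sub, h3]
    _ ≤ Real.exp (-μ) * (μ ^ n / n.factorial * 2) := by gcongr
    _ ≤ Real.exp μ * (μ ^ n / n.factorial * 2) := by gcongr
    _ ≤ _ := by linarith

theorem pois_sum_le {μ : ℝ} (h0 : 0 ≤ μ) (K : ℕ) : ∑ k ∈ range K, pois μ k ≤ 1 := by
  have h3 : Real.exp (-μ) * Real.exp μ = 1 := by rw [← Real.exp_add]; simp
  rw [BonfX_sum, ← h3]
  exact mul_le_mul_of_nonneg_left (Real.sum_le_exp_of_nonneg h0 K) (Real.exp_pos _).le

lemma BonfX_deriv (k : ℕ) (x : ℝ) : HasDerivAt (fun y => pois y k)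
    (Real.exp (-x) * (k * x ^ (k - 1)) / k.factorial - pois x k) x := by
  have h1 : HasDerivAt (fun y : ℝ => Real.exp (-y)) (Real.exp (-x) * (-1)) x :=
    (hasDerivAt_neg x).exp
  have h2 := ((h1.mul (hasDerivAt_pow k x)).div_const (k.factorial : ℝ))
  have h3 : Real.exp (-x) * (k * x ^ (k - 1)) / k.factorial - pois x k =
      (Real.exp (-x) * (-1) * x ^ k + Real.exp (-x) * (k * x ^ (k - 1))) / k.factorial := by
    unfold pois
    ring
  rw [h3]
  exact h2

theorem pois_lip {μ μ' : ℝ} (h0 : 0 ≤ μ) (h1 : 0 ≤ μ') (k : ℕ) :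
    |pois μ k - pois μ' k| ≤ |μ - μ'| := by
  have hb : ∀ x ∈ Set.Ici (0 : ℝ),
      ‖Real.exp (-x) * (k * x ^ (k - 1)) / k.factorial - pois x k‖ ≤ 1 := by
    intro x hx
    have hx0 : 0 ≤ x := hx
    have h2 := pois_nonneg hx0 k
    have h3 := pois_le_one hx0 k
    have h4 : 0 ≤ Real.exp (-x) * (k * x ^ (k - 1)) / k.factorial := by positivity
    have h5 : Real.exp (-x) * (k * x ^ (k - 1)) / k.factorial ≤ 1 := by
      rcases k with _ | j
      · simp
      · have h6 := pois_le_one hx0 j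
        refine le_of_eq_of_le ?_ h6
        rw [pois, Nat.factorial_succ, Nat.add_sub_cancel]
        push_cast
        field_simp
    rw [Real.norm_eq_abs, abs_le]
    constructor <;> linarith
  have h := (convex_Ici (0 : ℝ)).norm_image_sub_le_of_norm_hasDerivWithin_le
    (f := fun y => pois y k) (fun x _ => (BonfX_deriv k x).hasDerivWithinAt) hb h1 h0
  simpa [Real.norm_eq_abs] using h

theorem share_sum_le (lam : ℝ) (d K : ℕ) : ∑ k ∈ range K, share lam k d ≤ 1 := by
  unfold share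
  rw [← Finset.sum_div]
  refine div_le_one_of_le₀ ?_ (Nat.cast_nonneg _)
  rw [← Nat.cast_sum, Nat.cast_le, Nat.totient_eq_card_coprime, ← Finset.card_biUnion]
  · refine Finset.card_le_card fun a ha => ?_
    obtain ⟨k, -, hk⟩ := Finset.mem_biUnion.1 ha
    rw [Finset.mem_filter] at hk ⊢
    exact ⟨hk.1, hk.2.1.symm⟩
  · intro i _ j _ hij
    refine Finset.disjoint_left.2 fun a ha hb => hij ?_
    rw [Finset.mem_filter] at ha hb
    exact ha.2.2.symm.trans hb.2.2

theorem tv_reduce {lam : ℝ} (n : ℕ) (h0 : 0 ≤ lam) (hn : 20 * lam ≤ n) (d K : ℕ) :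
    ∑ k ∈ range K, |share lam k d - pois lam k| ≤
      2 * ∑ k ∈ range n, |share lam k d - pois lam k| + 4 * Real.exp (-(n : ℝ)) := by
  have hs : ∀ k, 0 ≤ share lam k d := fun k => by
    unfold share
    positivity
  have h1 : 0 ≤ ∑ k ∈ range n, |share lam k d - pois lam k| :=
    Finset.sum_nonneg fun _ _ => abs_nonneg _
  have h2 := Real.exp_pos (-(n : ℝ))
  rcases le_total K n with hK | hK
  · have h3 : ∑ k ∈ range K, |share lam k d - pois lam k| ≤
        ∑ k ∈ range n, |share lam k d - pois lam k| :=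
      Finset.sum_le_sum_of_subset_of_nonneg (Finset.range_mono hK) fun _ _ _ => abs_nonneg _
    linarith
  · have h3 := Finset.sum_range_add_sum_Ico (fun k => |share lam k d - pois lam k|) hK
    have h4 := Finset.sum_range_add_sum_Ico (fun k => share lam k d) hK
    have h5 := Finset.sum_range_add_sum_Ico (fun k => pois lam k) hK
    have h6 : ∑ k ∈ Ico n K, |share lam k d - pois lam k| ≤
        ∑ k ∈ Ico n K, share lam k d + ∑ k ∈ Ico n K, pois lam k := by
      rw [← Finset.sum_add_distrib]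
      refine Finset.sum_le_sum fun k _ => ?_
      have := hs k
      have := pois_nonneg h0 k
      rw [abs_le]
      constructor <;> linarith
    have h7 : ∑ k ∈ range n, pois lam k - ∑ k ∈ range n, share lam k d ≤
        ∑ k ∈ range n, |share lam k d - pois lam k| := by
      rw [← Finset.sum_sub_distrib]
      refine Finset.sum_le_sum fun k _ => ?_
      rw [abs_sub_comm]
      exact le_abs_self _
    have h8 := share_sum_le lam d K
    have h9 := pois_sum_le h0 K
    have h10 := pois_tail n h0 hn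
    linarith

end Pool.Agent.Lib.MP_458f0b_nt.Grow
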