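import Pool.Agent.Lib.MP_458f0b_nt.Grow.FlatFin
import Pool.Agent.Lib.MP_458f0b_nt.Grow.BonfX

open Finset Filter Topology

namespace Pool.Agent.Lib.MP_458f0b_nt.Grow

open Pool.Agent.Lib.MP_458f0b_nt.Pois

/-- the mean at a positive height -/
lemma height_pos {L t δ D G X φ y l ld lx lam : ℝ} (ht : 1 ≤ t) (hL : 2 ≤ L) (hδ : 0 < δ)
    (hδL : 1 ≤ δ * L) (hφ : 0 < φ) (hφy : φ ≤ y) (hy : y ≤ (1 + δ) * φ) (hD : D ≤ 300 * t * y)
    (hG : G ≤ 2 * D * (δ * L)) (hl : L / 2 ≤ l) (h1 : l ≤ ld) (h2 : ld ≤ l + 1) (h3 : l ≤ lx)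
    (h4 : lx ≤ l + 2 * t) (hlam : 0 < lam) (hlt : lam ≤ t / 10) (hX1 : X ≤ lam * φ * ld)
    (hX2 : lam * φ * ld ≤ X + G) :
    X / (y * lx) ≤ 2 * lam ∧ |X / (y * lx) - lam| ≤ 2400 * t ^ 2 * δ := by
  have hy0 : 0 < y := hφ.trans_le hφy
  have hlx : 1 ≤ lx := by linarith
  have hB : 0 < y * lx := by positivity
  have a1 : X ≤ lam * y * (lx + 1) := hX1.trans (by gcongr <;> linarith)
  have a2 : 1 ≤ 2 * δ * lx := by nlinarith
  have a3 : t ≤ t ^ 2 := by nlinarith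
  have a4 : 0 < δ * (y * lx) := by positivity
  refine ⟨?_, abs_le.2 ⟨?_, ?_⟩⟩
  · rw [div_le_iff₀ hB]
    nlinarith [mul_pos hlam hy0]
  · rw [le_sub_iff_add_le, le_div_iff₀ hB]
    have b1 : G ≤ 1200 * t * (δ * (y * lx)) :=
      calc G ≤ 2 * (300 * t * y) * (δ * (2 * lx)) := hG.trans (by gcongr; linarith)
        _ = _ := by ring
    have b2 : y * lx ≤ (1 + δ) * φ * (ld + 2 * t) := by gcongr; linarith
    have b3 : 2 * t + δ * (ld + 2 * t) ≤ 8 * t * (δ * lx) := by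
      have c1 := mul_le_mul_of_nonneg_left a2 (show 0 ≤ t by linarith)
      have c2 : δ * ld ≤ δ * (2 * lx * t) := by
        gcongr
        nlinarith
      have c3 : δ * t ≤ δ * t * lx := le_mul_of_one_le_right (by positivity) hlx
      nlinarith
    have b4 : lam * φ * (2 * t + δ * (ld + 2 * t)) ≤ t / 10 * y * (8 * t * (δ * lx)) := by
      have : 0 ≤ 2 * t + δ * (ld + 2 * t) := by
        have : 0 ≤ ld := by linarith
        positivity
      gcongr
    have b5 := mul_le_mul_of_nonneg_left b2 hlam.le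
    have b6 := mul_le_mul_of_nonneg_right a3 a4.le
    have b7 : 0 ≤ t ^ 2 * (δ * (y * lx)) := by positivity
    nlinarith
  · rw [sub_le_iff_le_add, div_le_iff₀ hB]
    have b1 : lam * y * 1 ≤ t / 10 * y * (2 * δ * lx) := by gcongr
    have b6 := mul_le_mul_of_nonneg_right a3 a4.le
    have b7 : 0 ≤ t ^ 2 * (δ * (y * lx)) := by positivity
    nlinarith

/-- the mean at height zero -/
lemma height_zero {L t δ D G φ ld lam : ℝ} (ht : 1 ≤ t) (hL : 2 ≤ L) (hδ : 0 < δ) (hφ : 0 < φ)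
    (hD : D ≤ 600 * t * φ) (hG : G ≤ 2 * D * (δ * L)) (hl : L / 2 ≤ ld)
    (hX2 : lam * φ * ld ≤ G) : lam ≤ 2400 * t ^ 2 * δ := by
  have h0 : 0 < ld := by linarith
  have b1 : G ≤ 2400 * t ^ 2 * δ * (φ * ld) :=
    calc G ≤ 2 * (600 * t ^ 2 * φ) * (δ * (2 * ld)) := hG.trans (by
          have : t ≤ t ^ 2 := by nlinarith
          have : D ≤ 600 * t ^ 2 * φ := hD.trans (by gcongr)
          gcongr
          linarith)
      _ = _ := by ring
  exact le_of_mul_le_mul_right (by linarith) (mul_pos hφ h0)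

theorem height_cmp : ∃ cg : ℝ, 0 < cg ∧ ∀ c : ℝ, 0 < c → c ≤ cg → ∀ᶠ L : ℝ in atTop,
    ∀ (w D G d X : ℕ) (lam : ℝ), (w : ℝ) ≤ √L → L / 2 ≤ Real.log D → Real.log D ≤ L →
      D * L ^ (1 - c) ≤ G → (G : ℝ) ≤ 2 * D * L ^ (1 - c) → 0 < lam → lam ≤ Real.log L / 10 →
      d ∈ Ico D (2 * D) → d * om w d ≤ (1 + L ^ (-c)) * d.totient →
      X = ⌊lam * (d.totient : ℝ) * Real.log d⌋₊ / G * G →
      (X = 0 ∨ Rg L D X) ∧ tau w X d ≤ 2 * lam ∧ ∀ k : ℕ,
        |share lam k d - pois lam k| ≤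
          |(((Ad w d).filter (fun a => cnt X d a = k)).card : ℝ) / (d * om w d) -
            pois (tau w X d) k| + L ^ (-(c / 2)) := by
  obtain ⟨cg, hcg, hcg2, hgap⟩ := gap_final
  refine ⟨cg, hcg, fun c hc hcc => ?_⟩
  filter_upwards [hgap, ev_log 2, ev_pow 6000 2 (half_pos hc), eventually_ge_atTop 3] with
    L hgp ht hsm hL w D G d X lam hw hD1 hD2 hG1 hG2 hlam hlt hd hy hX
  have hL0 : 0 < L := by linarith
  have hL1 : 1 ≤ L := by linarith
  set t := Real.log L with htd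
  set δ := L ^ (-c) with hδd
  have hδ : 0 < δ := Real.rpow_pos_of_pos hL0 _
  have hδ1 : δ ≤ 1 := Real.rpow_le_one_of_one_le_of_nonpos hL1 (by linarith)
  have hδe : L ^ (1 - c) = δ * L := by
    rw [sub_eq_neg_add, Real.rpow_add hL0, Real.rpow_one]
  have hδL : 1 ≤ δ * L := hδe ▸ Real.one_le_rpow hL1 (by linarith)
  have hδg : L ^ (-cg) ≤ δ := Real.rpow_le_rpow_of_exponent_le hL1 (by linarith)
  have hδs : 6000 * t ^ 2 * δ ≤ L ^ (-(c / 2)) := by
    rw [show -(c / 2) = c / 2 + -c by ring, Real.rpow_add hL0]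
    exact mul_le_mul_of_nonneg_right hsm hδ.le
  rw [hδe] at hG1 hG2
  have hD0 : 0 < D := Nat.pos_of_ne_zero fun e => by
    rw [e, Nat.cast_zero, Real.log_zero] at hD1
    linarith
  obtain ⟨hd1, hd2⟩ := mem_Ico.1 hd
  have hD0' : (0 : ℝ) < D := Nat.cast_pos.2 hD0
  have hd1' : (D : ℝ) ≤ d := Nat.cast_le.2 hd1
  have hd2' : (d : ℝ) ≤ 2 * D := by exact_mod_cast hd2.le
  have hDG' : (D : ℝ) ≤ G := (le_mul_of_one_le_right hD0'.le hδL).trans hG1
  have hDG : D ≤ G := Nat.cast_le.1 hDG'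
  have hφ : (0 : ℝ) < d.totient := Nat.cast_pos.2 (Nat.totient_pos.2 (hD0.trans_le hd1))
  have hφd : (d.totient : ℝ) ≤ d := Nat.cast_le.2 (Nat.totient_le d)
  have hφy := totient_le w d
  have hom := om_pos w d
  have hk : (om w d)⁻¹ ≤ 300 * t := (inv_om_le w d).trans (kap_le hL (hw.trans (by
    rw [Real.sqrt_le_left hL0.le]; nlinarith)))
  have hDy : (D : ℝ) ≤ 300 * t * (d * om w d) :=
    calc (D : ℝ) ≤ (om w d)⁻¹ * (d * om w d) := by
          rw [mul_comm (d : ℝ), inv_mul_cancel_left₀ hom.ne']; exact hd1'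
      _ ≤ _ := mul_le_mul_of_nonneg_right hk (hφ.le.trans hφy)
  have hDφ : (D : ℝ) ≤ 600 * t * d.totient :=
    calc (D : ℝ) ≤ 300 * t * ((1 + 1) * d.totient) :=
          hDy.trans (mul_le_mul_of_nonneg_left (hy.trans (by gcongr)) (by linarith))
      _ = _ := by ring
  have hl1 : Real.log D ≤ Real.log d := Real.log_le_log hD0' hd1'
  have hl2 : Real.log d ≤ Real.log D + 1 := by
    have h1 : Real.log d ≤ Real.log (2 * D) := Real.log_le_log (by linarith) hd2'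
    rw [Real.log_mul (by norm_num) hD0'.ne'] at h1
    linarith [Real.log_le_sub_one_of_pos (show (0 : ℝ) < 2 by norm_num)]
  have hl0 : 0 ≤ Real.log d := by linarith
  set Y := ⌊lam * (d.totient : ℝ) * Real.log d⌋₊ with hYd
  have hXY : X ≤ Y := hX ▸ Nat.div_mul_le_self Y G
  have hYX : Y + 1 ≤ X + G := by
    have h1 := Nat.div_add_mod' Y G
    have h2 := Nat.mod_lt Y (hD0.trans_le hDG)
    omega
  have hX1 : (X : ℝ) ≤ lam * d.totient * Real.log d :=
    (Nat.cast_le.2 hXY).trans (Nat.floor_le (by positivity))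
  have hX2 : lam * d.totient * Real.log d ≤ X + G :=
    (Nat.lt_floor_add_one _).le.trans (by exact_mod_cast hYX)
  have hX3 : (X : ℝ) ≤ D * L * t :=
    calc (X : ℝ) ≤ t / 10 * (2 * D) * (2 * L) := hX1.trans (by gcongr <;> linarith)
      _ ≤ _ := by nlinarith [mul_pos (mul_pos hD0' hL0) (show 0 < t by linarith)]
  have hG3 : (G : ℝ) ≤ D * L * t :=
    calc (G : ℝ) ≤ 2 * D * (1 * L) := hG2.trans (by gcongr)
      _ = D * L * 2 := by ring
      _ ≤ _ := by gcongr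
  have key : (X = 0 ∨ Rg L D X) ∧ tau w X d ≤ 2 * lam ∧ |tau w X d - lam| ≤ 2400 * t ^ 2 * δ := by
    rcases Nat.eq_zero_or_pos X with h0 | h0
    · have e : tau w X d = 0 := by simp [tau, h0]
      rw [h0, Nat.cast_zero, zero_add] at hX2
      rw [e, zero_sub, abs_neg, abs_of_pos hlam]
      exact ⟨Or.inl h0, by positivity,
        height_zero (by linarith) (by linarith) hδ hφ hDφ hG2 (by linarith) hX2⟩
    · have hDX : D ≤ X := hDG.trans (hX ▸ Nat.le_mul_of_pos_left G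
        (Nat.pos_of_mul_pos_right (hX ▸ h0)))
      have h4 : Real.log X ≤ Real.log D + 2 * t := by
        have h1 := Real.log_le_log (Nat.cast_pos.2 h0) hX3
        rw [Real.log_mul (by positivity) (by linarith), Real.log_mul hD0'.ne' hL0.ne'] at h1
        linarith [Real.log_le_sub_one_of_pos (show 0 < t by linarith)]
      exact ⟨Or.inr ⟨hD1, hD2, hDX, hX3⟩, height_pos (by linarith) (by linarith) hδ hδL hφ hφy hy
        hDy hG2 hD1 hl1 hl2 (Real.log_le_log hD0' (Nat.cast_le.2 hDX)) h4 hlam hlt hX1 hX2⟩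
  refine ⟨key.1, key.2.1, fun k => ?_⟩
  have hcmp := compare_height w d k X Y (X + G) (hD0.trans_le hd1) hXY (by omega)
  have hg := hgp D X (X + G) hD1 hD2 (by omega) (by omega) (by push_cast; linarith)
  have hg2 : 2 * (((X + G : ℕ) : ℝ) - X) / L + D * L ^ (-cg) ≤ 3000 * t * δ * d.totient := by
    have h1 : 2 * (((X + G : ℕ) : ℝ) - X) / L ≤ 4 * (D * δ) := by
      rw [div_le_iff₀ hL0]
      push_cast
      linarith
    have h2 := mul_le_mul_of_nonneg_left hδg hD0'.le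
    have h3 := mul_le_mul_of_nonneg_right hDφ hδ.le
    linarith
  have hb : (((Ad w d).filter (fun a => cnt X d a = k)).card : ℝ) ≤ d * om w d := by
    rw [← card_Ad]
    exact Nat.cast_le.2 (card_filter_le _ _)
  have h := grid_aux hφ hφy hy (Nat.cast_nonneg _) hb
    (hcmp.trans (by rw [add_assoc]; exact add_le_add le_rfl hg)) hg2
    ((pois_lip (tau_nonneg w X (Int.natCast_nonneg d)) hlam.le k).trans key.2.2)
  have h5 : t * δ ≤ t ^ 2 * δ := by
    gcongr
    nlinarith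
  have h6 : 1 * δ ≤ t * δ := by
    gcongr
    linarith
  unfold share
  linarith

theorem few_rough_q {c c' : ℝ} (hc' : 0 < c') (h : 3 * c' ≤ c) : ∀ᶠ L : ℝ in atTop,
    ∀ w D : ℕ, L ^ c ≤ w →
      (((Ico D (2 * D)).filter
        (fun d : ℕ => (1 + L ^ (-c')) * d.totient < d * om w d)).card : ℝ) ≤ D * L ^ (-c') := by
  obtain ⟨C, hC, hav⟩ := h1_avg 2 (by norm_num)
  filter_upwards [ev_pow (4 * C) 0 hc', eventually_ge_atTop 1] with L h1 hL w D hw
  rw [pow_zero, mul_one] at h1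
  have hL0 : 0 < L := by linarith
  have e1 : 1 ≤ L ^ c' := Real.one_le_rpow hL hc'.le
  have e2 : L ^ (-c') = (L ^ c')⁻¹ := Real.rpow_neg hL0.le _
  have e3 : (L ^ c') ^ 3 ≤ w := by
    rw [← Real.rpow_mul_natCast hL0.le]
    exact (Real.rpow_le_rpow_of_exponent_le hL (by push_cast; linarith)).trans hw
  rw [e2]
  generalize L ^ c' = u at h1 e1 e3
  have hu : 0 < u := by linarith
  have hw1 : (1 : ℝ) ≤ w := (one_le_pow₀ e1).trans e3
  have e4 : C / w ≤ u⁻¹ * u⁻¹ / 4 := by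
    rw [div_le_iff₀ (by linarith)]
    calc C ≤ u / 4 := by linarith
      _ = u⁻¹ * u⁻¹ / 4 * u ^ 3 := by field_simp
      _ ≤ _ := by gcongr
  have e5 : u⁻¹ * u⁻¹ ≤ 1 :=
    mul_le_one₀ (inv_le_one_of_one_le₀ e1) (by positivity) (inv_le_one_of_one_le₀ e1)
  have e6 : 0 ≤ C / w := by positivity
  have e7 := Real.abs_exp_sub_one_le (x := C / w) (by rw [abs_of_nonneg e6]; linarith)
  rw [abs_of_nonneg e6] at e7
  have h1 := good_markov w D u⁻¹
    ((Ico D (2 * D)).filter (fun d : ℕ => (1 + u⁻¹) * d.totient < d * om w d))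
    (filter_subset _ _) (by
      intro d hd
      obtain ⟨hd1, hd2⟩ := mem_filter.mp hd
      have hd3 := mem_Ico.mp hd1
      have hd4 : 1 ≤ d := by omega
      have h := totient_ge w hd4
      have hφ : (0 : ℝ) < d.totient := by exact_mod_cast Nat.totient_pos.mpr hd4
      have h6 := lt_of_mul_lt_mul_right (hd2.trans_le h) hφ.le
      linarith)
  have h2 := h1.trans (hav w (by exact_mod_cast hw1) (2 * D))
  have h3 : ((2 * D : ℕ) : ℝ) * (Real.exp (C / w) - 1) ≤ D * u⁻¹ * u⁻¹ := by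
    have := mul_le_mul_of_nonneg_left (show Real.exp (C / w) - 1 ≤ u⁻¹ * u⁻¹ / 2 by
      linarith [le_abs_self (Real.exp (C / w) - 1)]) (Nat.cast_nonneg (α := ℝ) D)
    push_cast
    linarith
  exact le_of_mul_le_mul_right (h2.trans h3) (by positivity)

end Pool.Agent.Lib.MP_458f0b_nt.Grow
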