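import Pool.Agent.Lib.MP_458f0b_nt.Grow.FixedX
import Pool.Agent.Lib.MP_458f0b_nt.Grow.Height

open Finset Filter Topology

namespace Pool.Agent.Lib.MP_458f0b_nt.Grow

open Pool.Agent.Lib.MP_458f0b_nt.Pois

lemma block_tv_le {lam : ℝ} (h0 : 0 ≤ lam) (d K : ℕ) :
    ∑ k ∈ range K, |share lam k d - pois lam k| ≤ 2 := by
  have h1 := share_sum_le lam d K
  have h2 := pois_sum_le h0 K
  have h3 : ∑ k ∈ range K, |share lam k d - pois lam k| ≤
      ∑ k ∈ range K, (share lam k d + pois lam k) := Finset.sum_le_sum fun k _ => by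
    have h4 := share_nonneg lam k d
    have h5 := pois_nonneg h0 k
    rw [abs_le]; constructor <;> linarith
  rw [Finset.sum_add_distrib] at h3
  linarith

lemma block_big {c : ℝ} (hc : 0 < c) (A A' : ℝ) : ∀ᶠ L : ℝ in atTop,
    A ≤ c * Real.log L / Real.log (Real.log L) ∧ A' ≤ Real.log (Real.log L) := by
  have h1 : ∀ᶠ t : ℝ in atTop, A ≤ c * t / Real.log t ∧ A' ≤ Real.log t := by
    filter_upwards [ev_pow (A / c) 1 one_pos, ev_log 1, ev_log A'] with t h2 h3 h4
    refine ⟨?_, h4⟩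
    rw [pow_one, Real.rpow_one, div_mul_eq_mul_div, div_le_iff₀ hc] at h2
    rw [le_div_iff₀ (by linarith)]
    linarith
  exact Real.tendsto_log_atTop.eventually h1

lemma block_split {β : Type} [DecidableEq β] (s : Finset β) (P : β → Prop) [DecidablePred P]
    (T : β → ℝ) (hT : ∀ d ∈ s, T d ≤ 2) :
    ∑ d ∈ s, T d ≤ ∑ d ∈ s.filter (fun d => ¬ P d), T d + 2 * (s.filter P).card := by
  rw [← Finset.sum_filter_add_sum_filter_not s P T, add_comm]
  refine add_le_add le_rfl ((Finset.sum_le_card_nsmul _ _ 2 fun d hd =>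
    hT d (mem_filter.1 hd).1).trans ?_)
  rw [nsmul_eq_mul, mul_comm]

theorem block_law : ∃ c c2 : ℝ, 0 < c ∧ 0 < c2 ∧ ∀ᶠ L : ℝ in atTop,
    ∀ (D : ℕ) (lam : ℕ → ℝ) (K : ℕ → ℕ) (S : Finset ℕ),
    L / 2 ≤ Real.log D → Real.log D ≤ L → S ⊆ Ico D (2 * D) →
    (∀ d ∈ S, 0 < lam d ∧ lam d ≤ c * Real.log L / Real.log (Real.log L)) →
      ∑ d ∈ S, ∑ k ∈ range (K d), |share (lam d) k d - pois (lam d) k| ≤
        Real.exp (-20 * (c * Real.log L / Real.log (Real.log L))) * S.card + D * L ^ (-c2) := by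
  obtain ⟨c1, hc1, hc1', hF⟩ := fixed_height
  obtain ⟨cg, hcg, hH⟩ := height_cmp
  set c' := min cg (c1 / 3) with hc'def
  have hc' : 0 < c' := lt_min hcg (by linarith)
  have hc'1 : c' ≤ c1 / 3 := min_le_right _ _
  refine ⟨c1 / 50, c' / 4, by linarith, by linarith, ?_⟩
  filter_upwards [hF, hH c' hc' (min_le_left _ _), few_rough_q (c := c1) hc' (by linarith),
    block_big hc1 50 1, ev_pow 8 1 (b := c' / 4) (by linarith), ev_log 1,
    eventually_ge_atTop 1] with L hF hH hR hbig hpow ht hL1 D lam K S hlo hhi hS hle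
  obtain ⟨w, hw1, hw2, hF⟩ := hF
  obtain ⟨hx, hs1⟩ := hbig
  set t := Real.log L with htdef
  set s := Real.log t with hsdef
  set x := c1 * t / s with hxdef
  have hΛ : c1 / 50 * t / s = x / 50 := by rw [hxdef]; ring
  rw [hΛ] at hle ⊢
  have hxt : x ≤ t / 100 := by
    refine (div_le_self (by positivity) hs1).trans ?_
    nlinarith only [hc1', ht]
  set n := ⌊x⌋₊ with hndef
  have hn1 : (n : ℝ) ≤ x := Nat.floor_le (by linarith)
  have hn2 : x - 1 ≤ n := (Nat.sub_one_lt_floor x).le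
  have hn3 : n * s ≤ c1 * t := by
    rw [hxdef, le_div_iff₀ (by linarith)] at hn1
    exact hn1
  have hD0 : 0 < D := by
    rcases Nat.eq_zero_or_pos D with rfl | h
    · simp at hlo; linarith
    · exact h
  have hD1 : (1 : ℝ) ≤ D := by exact_mod_cast hD0
  have hL0 : 0 < L := by linarith
  have hp1 : 1 ≤ L ^ (1 - c') := Real.one_le_rpow hL1 (by linarith)
  have hDG : 1 ≤ D * L ^ (1 - c') := one_le_mul_of_one_le_of_one_le hD1 hp1
  set G := ⌈D * L ^ (1 - c')⌉₊ with hGdef
  have hG1 : D * L ^ (1 - c') ≤ G := Nat.le_ceil _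
  have hG2 : (G : ℝ) ≤ 2 * D * L ^ (1 - c') := by
    have := (Nat.ceil_lt_add_one (show 0 ≤ D * L ^ (1 - c') by linarith)).le
    linarith
  have hG0 : 0 < G := by
    have : (0 : ℝ) < G := by linarith
    exact_mod_cast this
  let idx : ℕ → ℕ := fun d => ⌊lam d * (d.totient : ℝ) * Real.log d⌋₊ / G
  let bad : ℕ → Prop := fun d => (1 + L ^ (-c')) * d.totient < d * om w d
  let Good := S.filter (fun d => ¬ bad d)
  let U : ℕ → ℕ → ℝ := fun X d => ∑ k ∈ range n,
    |(((Ad w d).filter (fun a => cnt X d a = k)).card : ℝ) / (d * om w d) - pois (tau w X d) k|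
  have hG : ∀ d ∈ Good, (idx d * G = 0 ∨ Rg L D (idx d * G)) ∧ tau w (idx d * G) d ≤ 2 * lam d ∧
      ∀ k : ℕ, |share (lam d) k d - pois (lam d) k| ≤
        |(((Ad w d).filter (fun a => cnt (idx d * G) d a = k)).card : ℝ) / (d * om w d) -
          pois (tau w (idx d * G) d) k| + L ^ (-(c' / 2)) := fun d hd =>
    hH w D G d (idx d * G) (lam d) hw2 hlo hhi hG1 hG2 (hle d (mem_filter.1 hd).1).1
      (by linarith [(hle d (mem_filter.1 hd).1).2]) (hS (mem_filter.1 hd).1)
      (not_lt.1 (mem_filter.1 hd).2) rfl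
  set I := ⌊t * L ^ c'⌋₊ with hIdef
  have hmap : ∀ d ∈ Good, idx d ∈ range (I + 1) := fun d hd => by
    rw [mem_range, Nat.lt_succ_iff]
    rcases (hG d hd).1 with h | h
    · rw [(Nat.mul_eq_zero.1 h).resolve_right hG0.ne']
      exact Nat.zero_le _
    · refine Nat.le_floor ?_
      have h1 := h.x2
      push_cast at h1
      have h2 : (idx d : ℝ) * (D * L ^ (1 - c')) ≤ idx d * G :=
        mul_le_mul_of_nonneg_left hG1 (Nat.cast_nonneg _)
      have h3 : L ^ c' * L ^ (1 - c') = L := by rw [← Real.rpow_add hL0]; simp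
      refine le_of_mul_le_mul_right ?_ (show 0 < D * L ^ (1 - c') by linarith)
      calc _ ≤ D * L * t := h2.trans h1
        _ = D * (L ^ c' * L ^ (1 - c')) * t := by rw [h3]
        _ = _ := by ring
  have he0 := Real.exp_pos (-(n : ℝ))
  have hq1 := Real.rpow_pos_of_pos hL0 (-c1)
  have hq2 := Real.rpow_pos_of_pos hL0 (-(c' / 2))
  have hcell : ∀ i ∈ range (I + 1), ∑ d ∈ Good.filter (fun d => idx d = i), U (idx d * G) d ≤
      3 * Real.exp (-(n : ℝ)) * (Good.filter (fun d => idx d = i)).card + D * L ^ (-c1) := by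
    intro i _
    rcases (Good.filter (fun d => idx d = i)).eq_empty_or_nonempty with h | ⟨d0, hd0⟩
    · rw [h]; simp only [Finset.sum_empty, Finset.card_empty]; positivity
    · have h1 := (hG d0 (mem_filter.1 hd0).1).1
      rw [(mem_filter.1 hd0).2] at h1
      rw [Finset.sum_congr rfl fun d hd => by rw [(mem_filter.1 hd).2]]
      refine hF D (i * G) n _ hD0 h1 hn3
        ((Finset.filter_subset _ _).trans ((Finset.filter_subset _ _).trans hS)) fun d hd => ?_
      have h2 := (hG d (mem_filter.1 hd).1).2.1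
      rw [(mem_filter.1 hd).2] at h2
      linarith [(hle d (mem_filter.1 (mem_filter.1 hd).1).1).2]
  have hGc : (Good.card : ℝ) ≤ S.card := by
    exact_mod_cast Finset.card_filter_le S (fun d => ¬ bad d)
  have hSc : (S.card : ℝ) ≤ D := by
    have := Finset.card_le_card hS
    rw [Nat.card_Ico, show 2 * D - D = D by omega] at this
    exact_mod_cast this
  have hU : ∑ d ∈ Good, U (idx d * G) d ≤
      3 * Real.exp (-(n : ℝ)) * S.card + (I + 1 : ℕ) * (D * L ^ (-c1)) := by
    rw [← Finset.sum_fiberwise_of_maps_to hmap]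
    refine (Finset.sum_le_sum hcell).trans ?_
    rw [Finset.sum_add_distrib, ← Finset.mul_sum, Finset.sum_const, Finset.card_range,
      nsmul_eq_mul, ← Nat.cast_sum, ← Finset.card_eq_sum_card_fiberwise hmap]
    gcongr
  have hGood : ∑ d ∈ Good, ∑ k ∈ range (K d), |share (lam d) k d - pois (lam d) k| ≤
      2 * ∑ d ∈ Good, U (idx d * G) d +
        Good.card * (2 * (n * L ^ (-(c' / 2))) + 4 * Real.exp (-(n : ℝ))) := by
    rw [Finset.mul_sum, ← nsmul_eq_mul, ← Finset.sum_const, ← Finset.sum_add_distrib]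
    refine Finset.sum_le_sum fun d hd => ?_
    have h0 := hle d (mem_filter.1 hd).1
    have h1 := tv_reduce n h0.1.le (by linarith [h0.2]) d (K d)
    have h2 := Finset.sum_le_sum fun k (_ : k ∈ range n) => (hG d hd).2.2 k
    rw [Finset.sum_add_distrib, Finset.sum_const, Finset.card_range, nsmul_eq_mul] at h2
    simp only [U]
    linarith
  have hsplit := block_split S bad
    (fun d => ∑ k ∈ range (K d), |share (lam d) k d - pois (lam d) k|)
    fun d hd => block_tv_le (hle d hd).1.le d (K d)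
  have hbad : ((S.filter bad).card : ℝ) ≤ D * L ^ (-c') := le_trans
    (by exact_mod_cast Finset.card_le_card (Finset.filter_subset_filter _ hS)) (hR w D hw1)
  have ha1 : L ^ (-c') ≤ L ^ (-(c' / 2)) := Real.rpow_le_rpow_of_exponent_le hL1 (by linarith)
  have ha2 : ((I + 1 : ℕ) : ℝ) * L ^ (-c1) ≤ 2 * t * L ^ (-(c' / 2)) := by
    have h1 : 1 ≤ L ^ c' := Real.one_le_rpow hL1 hc'.le
    have h2 : (I : ℝ) ≤ t * L ^ c' := Nat.floor_le (by positivity)
    have h3 : L ^ c' * L ^ (-c1) ≤ L ^ (-(c' / 2)) := by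
      rw [← Real.rpow_add hL0]
      exact Real.rpow_le_rpow_of_exponent_le hL1 (by linarith)
    push_cast
    calc _ ≤ 2 * t * L ^ c' * L ^ (-c1) := by
          refine mul_le_mul_of_nonneg_right ?_ hq1.le
          nlinarith only [h1, h2, ht]
      _ = 2 * t * (L ^ c' * L ^ (-c1)) := by ring
      _ ≤ _ := by gcongr
  have ha3 : 10 * Real.exp (-(n : ℝ)) ≤ Real.exp (-20 * (x / 50)) := by
    have h1 : Real.exp (-(n : ℝ)) * Real.exp (2 * x / 5) ≤ Real.exp (-20 * (x / 50)) := by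
      rw [← Real.exp_add]; exact Real.exp_le_exp.2 (by linarith)
    have h2 := Real.add_one_le_exp (2 * x / 5)
    nlinarith only [h1, h2, he0, hx]
  have ha4 : 8 * t * L ^ (-(c' / 2)) ≤ L ^ (-(c' / 4)) := by
    have h1 : L ^ (c' / 4) * L ^ (-(c' / 2)) = L ^ (-(c' / 4)) := by
      rw [← Real.rpow_add hL0]; congr 1; ring
    rw [pow_one] at hpow
    rw [← h1]
    exact mul_le_mul_of_nonneg_right hpow hq2.le
  have ha5 : (Good.card : ℝ) * (2 * (n * L ^ (-(c' / 2))) + 4 * Real.exp (-(n : ℝ))) ≤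
      D * (2 * (t * L ^ (-(c' / 2)))) + S.card * (4 * Real.exp (-(n : ℝ))) := by
    rw [mul_add]
    refine add_le_add (mul_le_mul (hGc.trans hSc) ?_ (by positivity) (by linarith))
      (mul_le_mul_of_nonneg_right hGc (by positivity))
    have h1 : (n : ℝ) ≤ t := by linarith
    gcongr
  have ha6 : ((I + 1 : ℕ) : ℝ) * (D * L ^ (-c1)) ≤ D * (2 * t * L ^ (-(c' / 2))) := by
    rw [mul_left_comm]; gcongr
  have ha7 : D * L ^ (-c') ≤ D * (t * L ^ (-(c' / 2))) := by
    refine mul_le_mul_of_nonneg_left ?_ (by linarith)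
    nlinarith only [ha1, ht, hq2]
  have ha8 := mul_le_mul_of_nonneg_left ha4 (show (0 : ℝ) ≤ D by linarith)
  have ha9 := mul_le_mul_of_nonneg_right ha3 (Nat.cast_nonneg (α := ℝ) S.card)
  refine hsplit.trans ?_
  change ∑ d ∈ Good, _ + 2 * ((S.filter bad).card : ℝ) ≤ _
  linarith only [hbad, ha5, ha6, ha7, ha8, ha9, hGood, hU]

end Pool.Agent.Lib.MP_458f0b_nt.Grow
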