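import Mathlib

/-! Parseval for residue classes and the large sieve (copied from the library of MP_788af2_nt). -/

namespace Pool.Agent.Lib.MP_458f0b_nt.Grow.LS

open Finset Filter

/-- `e(t)`. -/
noncomputable def ex (t : ℝ) : ℂ := Complex.exp (((2 * Real.pi * t : ℝ) : ℂ) * Complex.I)

/-- The exponential sum. -/
noncomputable def FT (I : Finset ℤ) (H : ℤ → ℂ) (θ : ℝ) : ℂ := ∑ y ∈ I, H y * ex (θ * y)

/-- The mass at the reduced fractions with denominator `q`. -/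
noncomputable def Mq (I : Finset ℤ) (H : ℤ → ℂ) (q : ℕ) : ℝ :=
  ∑ h ∈ range q with h.Coprime q, ‖FT I H ((h : ℝ) / q)‖ ^ 2

/-- The mean square of the sums over residue classes. -/
noncomputable def Vr (I : Finset ℤ) (H : ℤ → ℂ) (D : ℕ) : ℝ :=
  ∑ r ∈ range D, ‖∑ y ∈ I with y % (D : ℤ) = r, H y‖ ^ 2

/-- The squared norm. -/
noncomputable def N2 (I : Finset ℤ) (H : ℤ → ℂ) : ℝ := ∑ y ∈ I, ‖H y‖ ^ 2

lemma ex_add (s t : ℝ) : ex (s + t) = ex s * ex t := by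
  unfold ex; rw [← Complex.exp_add]; congr 1; push_cast; ring

lemma norm_ex (t : ℝ) : ‖ex t‖ = 1 := Complex.norm_exp_ofReal_mul_I _

lemma ex_zero : ex 0 = 1 := by simp [ex]

lemma ex_int (n : ℤ) : ex n = 1 := by
  unfold ex
  rw [← Complex.exp_int_mul_two_pi_mul_I n]; congr 1; push_cast; ring

lemma conj_ex (t : ℝ) : (starRingEnd ℂ) (ex t) = ex (-t) := by
  unfold ex
  rw [← Complex.exp_conj, map_mul, Complex.conj_ofReal, Complex.conj_I]; congr 1
  push_cast; ring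

lemma Mq_nonneg (I : Finset ℤ) (H : ℤ → ℂ) (q : ℕ) : 0 ≤ Mq I H q :=
  sum_nonneg fun _ _ => by positivity

lemma N2_nonneg (I : Finset ℤ) (H : ℤ → ℂ) : 0 ≤ N2 I H := sum_nonneg fun _ _ => by positivity


/-! Parseval for residue classes, geometric sums, Fourier expansion of an interval. -/

lemma pl_ex_pow (t : ℝ) (n : ℕ) : ex (t * n) = ex t ^ n := by
  induction n with
  | zero => simp [ex_zero]
  | succ n ih => rw [Nat.cast_succ, mul_add, mul_one, ex_add, ih, pow_succ]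

lemma pl_ex_sub_int (t : ℝ) (n : ℤ) : ex (t - n) = ex t := by
  have h : ex t = ex (t - n) * ex n := by rw [← ex_add, sub_add_cancel]
  rw [h, ex_int, mul_one]

lemma pl_norm_ex_sub_one (t : ℝ) : 4 * |t - round t| ≤ ‖ex t - 1‖ := by
  rw [← pl_ex_sub_int t (round t)]
  have h1 := abs_sub_round t
  generalize t - round t = s at h1 ⊢
  have hpi := Real.pi_pos
  have h2 : |Real.pi * s| ≤ Real.pi / 2 := by
    rw [abs_mul, abs_of_pos hpi]
    nlinarith
  have h3 := Real.mul_abs_le_abs_sin h2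
  have h4 : 2 / Real.pi * |Real.pi * s| = 2 * |s| := by
    rw [abs_mul, abs_of_pos hpi]
    field_simp
  unfold ex
  rw [mul_comm _ Complex.I, Complex.norm_exp_I_mul_ofReal_sub_one, Real.norm_eq_abs, abs_mul,
    show 2 * Real.pi * s / 2 = Real.pi * s by ring, abs_two]
  linarith

/-- Orthogonality of additive characters. -/
lemma pl_orth {D : ℕ} (hD : 0 < D) (m : ℤ) :
    ∑ h ∈ range D, ex ((h : ℝ) / D * m) = if (D : ℤ) ∣ m then (D : ℂ) else 0 := by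
  have hD' : (D : ℝ) ≠ 0 := by exact_mod_cast hD.ne'
  have h1 : ∀ h : ℕ, ex ((h : ℝ) / D * m) = ex ((m : ℝ) / D) ^ h := by
    intro h
    rw [← pl_ex_pow]
    congr 1
    ring
  simp only [h1]
  split_ifs with hd
  · obtain ⟨k, rfl⟩ := hd
    have h2 : ((((D : ℤ) * k : ℤ) : ℝ) / D) = (k : ℝ) := by
      push_cast
      field_simp
    rw [h2, ex_int]
    simp
  · have h2 : ex ((m : ℝ) / D) - 1 ≠ 0 := by
      intro h3
      have h4 := pl_norm_ex_sub_one ((m : ℝ) / D)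
      rw [h3, norm_zero] at h4
      have h5 : |(m : ℝ) / D - round ((m : ℝ) / D)| = 0 :=
        le_antisymm (by linarith) (abs_nonneg _)
      rw [abs_eq_zero, sub_eq_zero, div_eq_iff hD'] at h5
      apply hd
      refine ⟨round ((m : ℝ) / D), ?_⟩
      have h6 : (m : ℝ) = (((D : ℤ) * round ((m : ℝ) / D) : ℤ) : ℝ) := by
        push_cast
        linarith
      exact_mod_cast h6
    have h3 := geom_sum_mul (ex ((m : ℝ) / D)) D
    rw [← pl_ex_pow, div_mul_cancel₀ _ hD', ex_int, sub_self] at h3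
    exact (mul_eq_zero.1 h3).resolve_right h2

lemma pl_dvd_iff {D : ℕ} {a b : ℤ} (h : |a - b| < D) : (D : ℤ) ∣ a - b ↔ a = b := by
  constructor
  · intro hd
    have := Int.eq_zero_of_abs_lt_dvd hd h
    omega
  · rintro rfl
    simp

/-- Parseval on the residues modulo `D`. -/
lemma pl_pars {D : ℕ} (hD : 0 < D) (S : ℕ → ℂ) :
    ∑ h ∈ range D, ‖∑ r ∈ range D, S r * ex ((h : ℝ) / D * r)‖ ^ 2 =
      D * ∑ r ∈ range D, ‖S r‖ ^ 2 := by
  apply Complex.ofReal_injective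
  push_cast
  simp only [← Complex.mul_conj']
  have h1 : ∀ h : ℕ, (∑ r ∈ range D, S r * ex ((h : ℝ) / D * r)) *
      (starRingEnd ℂ) (∑ r ∈ range D, S r * ex ((h : ℝ) / D * r)) =
      ∑ r ∈ range D, ∑ r' ∈ range D, S r * (starRingEnd ℂ) (S r') *
        ex ((h : ℝ) / D * (((r : ℤ) - (r' : ℤ) : ℤ) : ℝ)) := by
    intro h
    rw [map_sum, sum_mul_sum]
    refine sum_congr rfl fun r _ => sum_congr rfl fun r' _ => ?_
    rw [map_mul, conj_ex, mul_mul_mul_comm, ← ex_add]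
    congr 2
    push_cast
    ring
  simp only [h1]
  rw [sum_comm, mul_sum]
  refine sum_congr rfl fun r hr => ?_
  rw [sum_comm]
  simp only [← mul_sum, pl_orth hD]
  rw [sum_eq_single r]
  · simp [mul_comm]
  · intro r' hr' hne
    rw [mem_range] at hr hr'
    rw [if_neg, mul_zero]
    rw [pl_dvd_iff (by rw [abs_lt]; constructor <;> omega)]
    omega
  · intro h
    exact absurd hr h

lemma pl_FT (I : Finset ℤ) (H : ℤ → ℂ) {D : ℕ} (hD : 0 < D) (h : ℕ) :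
    FT I H ((h : ℝ) / D) =
      ∑ r ∈ range D, (∑ y ∈ I with y % (D : ℤ) = r, H y) * ex ((h : ℝ) / D * r) := by
  have hD' : (D : ℝ) ≠ 0 := by exact_mod_cast hD.ne'
  have hD2 : (0 : ℤ) < D := by exact_mod_cast hD
  unfold FT
  rw [← sum_fiberwise_of_maps_to (s := I) (t := range D) (g := fun y : ℤ => (y % (D : ℤ)).toNat)]
  · refine sum_congr rfl fun r _ => ?_
    rw [sum_mul]
    refine sum_congr ?_ fun y hy => ?_
    · refine filter_congr fun y _ => ?_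
      have := Int.emod_nonneg y hD2.ne'
      omega
    · have h1 := (mem_filter.1 hy).2
      have h2 : (y : ℝ) = r + D * ((y / D : ℤ) : ℝ) := by
        have h3 := Int.emod_add_mul_ediv y D
        rw [h1] at h3
        exact_mod_cast h3.symm
      have h3 : (h : ℝ) / D * y = (h : ℝ) / D * r + (((h : ℤ) * (y / D) : ℤ) : ℝ) := by
        rw [Int.cast_mul, Int.cast_natCast]
        generalize ((y / D : ℤ) : ℝ) = k at h2
        rw [h2]
        field_simp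
      rw [h3, ex_add, ex_int, mul_one]
  · intro y _
    have h1 := Int.emod_nonneg y hD2.ne'
    have h2 := Int.emod_lt_of_pos y hD2
    rw [mem_range]
    omega

/-- Every fraction with denominator `D` has one reduced form. -/
lemma pl_regroup {D : ℕ} (hD : 0 < D) (F : ℝ → ℝ) :
    ∑ h ∈ range D, F ((h : ℝ) / D) =
      ∑ q ∈ D.divisors, ∑ h ∈ range q with h.Coprime q, F ((h : ℝ) / q) := by
  rw [← Nat.sum_div_divisors,
    ← sum_fiberwise_of_maps_to (s := range D) (t := D.divisors) (g := fun h => D.gcd h)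
      fun h _ => Nat.mem_divisors.2 ⟨Nat.gcd_dvd_left _ _, hD.ne'⟩]
  refine sum_congr rfl fun d hd => ?_
  obtain ⟨q, rfl⟩ := (Nat.mem_divisors.1 hd).1
  have hd0 : 0 < d := Nat.pos_of_mul_pos_right hD
  have hq0 : 0 < q := Nat.pos_of_mul_pos_left hD
  rw [Nat.mul_div_cancel_left _ hd0]
  symm
  refine sum_nbij (fun h => d * h) ?_ ?_ ?_ ?_
  · intro h hh
    simp only [mem_filter, mem_range] at hh ⊢
    refine ⟨Nat.mul_lt_mul_of_pos_left hh.1 hd0, ?_⟩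
    rw [Nat.gcd_mul_left, hh.2.symm.gcd_eq_one, mul_one]
  · intro h _ h' _ he
    exact Nat.eq_of_mul_eq_mul_left hd0 he
  · intro h hh
    simp only [coe_filter, mem_range, Set.mem_ofPred_eq] at hh
    have h1 : d ∣ h := hh.2 ▸ Nat.gcd_dvd_right _ _
    obtain ⟨k, rfl⟩ := h1
    refine ⟨k, ?_, rfl⟩
    simp only [coe_filter, mem_range, Set.mem_ofPred_eq]
    refine ⟨Nat.lt_of_mul_lt_mul_left hh.1, ?_⟩
    have h2 := hh.2
    rw [Nat.gcd_mul_left] at h2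
    have h3 : q.gcd k = 1 := Nat.eq_of_mul_eq_mul_left hd0 (by rw [h2, mul_one])
    exact Nat.Coprime.symm h3
  · intro h _
    have h1 : (d : ℝ) ≠ 0 := by exact_mod_cast hd0.ne'
    congr 1
    push_cast
    rw [mul_div_mul_left _ _ h1]

theorem parseval_classes (I : Finset ℤ) (H : ℤ → ℂ) {D : ℕ} (hD : 0 < D) :
    D * Vr I H D = ∑ q ∈ D.divisors, Mq I H q := by
  unfold Vr Mq
  rw [← pl_regroup hD fun t => ‖FT I H t‖ ^ 2, ← pl_pars hD]
  exact sum_congr rfl fun h _ => by rw [pl_FT I H hD]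

lemma pl_tele (x : ℤ) (l : ℕ) (θ : ℝ) :
    (∑ y ∈ Ioc x (x + l), ex (θ * y)) * (ex θ - 1) = ex (θ * (x + l + 1)) - ex (θ * (x + 1)) := by
  induction l with
  | zero => simp
  | succ l ih =>
    have h1 : Ioc x (x + (l + 1 : ℕ)) = insert (x + l + 1) (Ioc x (x + l)) := by
      ext y
      simp only [mem_Ioc, mem_insert]
      push_cast
      omega
    rw [h1, sum_insert (by simp), add_mul, ih, mul_sub, mul_one, ← ex_add]
    push_cast
    rw [show θ * (x + l + 1) + θ = θ * (x + (l + 1) + 1) by ring]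
    ring

/-- Geometric sums; `δ` is a lower bound for the distance from `θ` to the integers. -/
theorem geo_sum_le (x : ℤ) (l : ℕ) {θ δ : ℝ} (hδ : 0 < δ) (h : ∀ n : ℤ, δ ≤ |θ - n|) :
    ‖∑ y ∈ Ioc x (x + l), ex (θ * y)‖ ≤ 1 / (2 * δ) := by
  have h1 := congrArg norm (pl_tele x l θ)
  rw [norm_mul] at h1
  have h2 := norm_sub_le (ex (θ * (x + l + 1))) (ex (θ * (x + 1)))
  rw [norm_ex, norm_ex, ← h1] at h2
  have h3 := pl_norm_ex_sub_one θ
  have h4 := h (round θ)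
  have h5 := norm_nonneg (∑ y ∈ Ioc x (x + l), ex (θ * y))
  rw [le_div_iff₀ (by positivity)]
  nlinarith

/-- Distinct reduced fractions in `[0, 1)` are well spaced modulo one. -/
theorem farey_spaced {Q q h q' h' : ℕ} (hq : q ∈ Icc 1 Q) (hq' : q' ∈ Icc 1 Q) (hh : h < q)
    (hh' : h' < q') (hc : h.Coprime q) (hc' : h'.Coprime q') (hne : (q, h) ≠ (q', h')) (n : ℤ) :
    1 / (Q : ℝ) ^ 2 ≤ |(h : ℝ) / q - (h' : ℝ) / q' - n| := by
  rw [mem_Icc] at hq hq'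
  have hN : (h : ℤ) * q' - h' * q - n * q * q' ≠ 0 := by
    intro h0
    have h1 : q ∣ q' := by
      apply hc.symm.dvd_of_dvd_mul_left
      have : (q : ℤ) ∣ (h : ℤ) * q' := ⟨h' + n * q', by linear_combination h0⟩
      exact_mod_cast this
    have h2 : q' ∣ q := by
      apply hc'.symm.dvd_of_dvd_mul_left
      have : (q' : ℤ) ∣ (h' : ℤ) * q := ⟨h - n * q, by linear_combination -h0⟩
      exact_mod_cast this
    obtain rfl := Nat.dvd_antisymm h1 h2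
    have h3 : (q : ℤ) ≠ 0 := by omega
    have h4 : (h : ℤ) - h' = q * n := by
      apply mul_left_cancel₀ h3
      linear_combination h0
    have h5 := (pl_dvd_iff (D := q) (a := h) (b := h')
      (by rw [abs_lt]; constructor <;> omega)).1 ⟨n, h4⟩
    apply hne
    rw [show h = h' by omega]
  have h1 : (1 : ℝ) ≤ |(((h : ℤ) * q' - h' * q - n * q * q' : ℤ) : ℝ)| := by
    exact_mod_cast Int.one_le_abs hN
  have p1 : (1 : ℝ) ≤ q := by exact_mod_cast hq.1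
  have p2 : (1 : ℝ) ≤ q' := by exact_mod_cast hq'.1
  have p3 : (q : ℝ) ≤ Q := by exact_mod_cast hq.2
  have p4 : (q' : ℝ) ≤ Q := by exact_mod_cast hq'.2
  have h2 : (h : ℝ) / q - (h' : ℝ) / q' - n =
      (((h : ℤ) * q' - h' * q - n * q * q' : ℤ) : ℝ) / (q * q') := by
    push_cast
    field_simp
  rw [h2, abs_div, abs_of_pos (show (0 : ℝ) < q * q' by positivity)]
  refine div_le_div₀ (by positivity) h1 (by positivity) ?_
  rw [sq]
  exact mul_le_mul p3 p4 (by positivity) (by positivity)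



/-! The large sieve inequality. -/

lemma ls_inv_sq (s : Finset ℕ) {k : ℕ} (hk : 0 < k) (hs : ∀ n ∈ s, k < n) :
    ∑ n ∈ s, 1 / (n : ℝ) ^ 2 ≤ 1 / (k : ℝ) := by
  have h1 : ∀ N : ℕ, ∑ n ∈ Ioc k (k + N), 1 / (n : ℝ) ^ 2 ≤ 1 / k - 1 / ((k + N : ℕ) : ℝ) := by
    intro N
    induction N with
    | zero => simp
    | succ N ih =>
      rw [← add_assoc, sum_Ioc_succ_top (Nat.le_add_right k N)]
      have h0 : (0 : ℝ) < ((k + N : ℕ) : ℝ) := by exact_mod_cast Nat.add_pos_left hk N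
      have h2 : 1 / (((k + N + 1 : ℕ) : ℝ)) ^ 2 ≤
          1 / ((k + N : ℕ) : ℝ) - 1 / ((k + N + 1 : ℕ) : ℝ) := by
        rw [Nat.cast_add_one (k + N), div_sub_div _ _ h0.ne' (by positivity),
          div_le_div_iff₀ (by positivity) (by positivity)]
        nlinarith
      linarith
  have h3 : s ⊆ Ioc k (k + s.sup id) := fun n hn =>
    mem_Ioc.2 ⟨hs n hn, (le_sup (f := id) hn).trans (Nat.le_add_left _ _)⟩
  refine (sum_le_sum_of_subset_of_nonneg h3 fun _ _ _ => by positivity).trans ((h1 _).trans ?_)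
  have : (0 : ℝ) ≤ 1 / ((k + s.sup id : ℕ) : ℝ) := by positivity
  linarith

lemma ls_side {ι : Type} (T : Finset ι) (u f : ι → ℝ) {δ a b : ℝ} (hδ : 0 < δ) (ha : 0 ≤ a)
    (hb : 0 ≤ b) {k : ℕ} (hk : 0 < k) (hu : ∀ i ∈ T, 0 ≤ u i)
    (hs : ∀ i ∈ T, ∀ j ∈ T, i ≠ j → δ ≤ |u i - u j|) (h1 : ∀ i ∈ T, f i ≤ a)
    (h2 : ∀ i ∈ T, 0 < u i → f i ≤ b / u i ^ 2) :
    ∑ i ∈ T, f i ≤ a * (k + 1) + b / δ ^ 2 * (1 / k) := by
  classical
  set m : ι → ℕ := fun i => ⌊u i / δ⌋₊ with hm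
  have hlo : ∀ i ∈ T, (m i : ℝ) * δ ≤ u i := fun i hi =>
    (le_div_iff₀ hδ).1 (Nat.floor_le (div_nonneg (hu i hi) hδ.le))
  have hhi : ∀ i, u i < ((m i : ℝ) + 1) * δ := fun i =>
    (div_lt_iff₀ hδ).1 (Nat.lt_floor_add_one _)
  have hinj : Set.InjOn m T := by
    intro i hi j hj hij
    by_contra hne
    have h3 := hs i hi j hj hne
    have h4 := hlo i hi
    have h5 := hlo j hj
    have h6 := hhi i
    have h7 := hhi j
    rw [hij] at h4 h6
    have : |u i - u j| < δ := abs_lt.2 ⟨by linarith, by linarith⟩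
    linarith
  rw [← sum_filter_add_sum_filter_not T fun i => m i ≤ k]
  refine add_le_add ?_ ?_
  · have hc : (T.filter fun i => m i ≤ k).card ≤ k + 1 := by
      rw [← card_range (k + 1)]
      refine card_le_card_of_injOn m (fun i hi => ?_) (hinj.mono (coe_subset.2 (filter_subset _ _)))
      have := (mem_filter.1 (mem_coe.1 hi)).2
      exact mem_coe.2 (mem_range.2 (by omega))
    have hc' : ((T.filter fun i => m i ≤ k).card : ℝ) ≤ k + 1 := by exact_mod_cast hc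
    calc ∑ i ∈ T.filter fun i => m i ≤ k, f i ≤ ∑ _i ∈ T.filter fun i => m i ≤ k, a :=
          sum_le_sum fun i hi => h1 i (mem_filter.1 hi).1
      _ = (T.filter fun i => m i ≤ k).card * a := by rw [sum_const, nsmul_eq_mul]
      _ ≤ a * (k + 1) := by nlinarith
  · calc ∑ i ∈ T.filter fun i => ¬m i ≤ k, f i
        ≤ ∑ i ∈ T.filter fun i => ¬m i ≤ k, b / δ ^ 2 * (1 / (m i : ℝ) ^ 2) := by
          refine sum_le_sum fun i hi => ?_
          obtain ⟨hi1, hi2⟩ := mem_filter.1 hi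
          have hm0 : (0 : ℝ) < m i := by exact_mod_cast (by omega : 0 < m i)
          have h3 := hlo i hi1
          have h4 : 0 < (m i : ℝ) * δ := by positivity
          refine (h2 i hi1 (h4.trans_le h3)).trans ?_
          have h5 : b / δ ^ 2 * (1 / (m i : ℝ) ^ 2) = b / ((m i : ℝ) * δ) ^ 2 := by
            field_simp
          rw [h5]
          exact div_le_div_of_nonneg_left hb (by positivity) (pow_le_pow_left₀ h4.le h3 2)
      _ = b / δ ^ 2 * ∑ n ∈ (T.filter fun i => ¬m i ≤ k).image m, 1 / (n : ℝ) ^ 2 := by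
          rw [sum_image (hinj.mono (coe_subset.2 (filter_subset _ _))), mul_sum]
      _ ≤ b / δ ^ 2 * (1 / k) := by
          refine mul_le_mul_of_nonneg_left (ls_inv_sq _ hk fun n hn => ?_) (by positivity)
          obtain ⟨i, hi, rfl⟩ := mem_image.1 hn
          exact not_le.1 (mem_filter.1 hi).2

lemma ls_triv (x : ℤ) (l : ℕ) (θ : ℝ) : ‖∑ y ∈ Ioc x (x + l), ex (θ * y)‖ ≤ l := by
  refine (norm_sum_le _ _).trans ?_
  simp [norm_ex]

/-- The kernel. -/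
noncomputable def lsK (x : ℤ) (l : ℕ) (d : ℝ) : ℝ :=
  ‖∑ s ∈ Ioc x (x + (2 * l : ℕ)), ex (d * s)‖ * ‖∑ t ∈ Ioc (0 : ℤ) (0 + l), ex (-d * t)‖

lemma lsK_nonneg (x : ℤ) (l : ℕ) (d : ℝ) : 0 ≤ lsK x l d := by unfold lsK; positivity

lemma lsK_le (x : ℤ) (l : ℕ) (d : ℝ) : lsK x l d ≤ 2 * (l : ℝ) ^ 2 := by
  have h1 := ls_triv x (2 * l) d
  have h2 := ls_triv 0 l (-d)
  unfold lsK
  calc _ ≤ ((2 * l : ℕ) : ℝ) * l := mul_le_mul h1 h2 (norm_nonneg _) (by positivity)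
    _ = _ := by push_cast; ring

lemma lsK_le' (x : ℤ) (l : ℕ) (d : ℝ) (h : 0 < |d - round d|) :
    lsK x l d ≤ (1 / 4) / |d - round d| ^ 2 := by
  have h1 := geo_sum_le x (2 * l) h fun n => round_le d n
  have h2 := geo_sum_le 0 l (θ := -d) h fun n => by
    have := round_le d (-n)
    have e1 : -d - (n : ℝ) = -(d - ((-n : ℤ) : ℝ)) := by push_cast; ring
    rw [e1, abs_neg]
    exact this
  unfold lsK
  calc _ ≤ 1 / (2 * |d - round d|) * (1 / (2 * |d - round d|)) :=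
        mul_le_mul h1 h2 (norm_nonneg _) (by positivity)
    _ = _ := by field_simp; norm_num

lemma ls_row {ι : Type} (T : Finset ι) (φ : ι → ℝ) {δ : ℝ} (hδ : 0 < δ) (x : ℤ) (l : ℕ) {k : ℕ}
    (hk : 0 < k) (hs : ∀ i ∈ T, ∀ j ∈ T, i ≠ j → ∀ n : ℤ, δ ≤ |φ i - φ j - n|) :
    ∑ i ∈ T, lsK x l (φ i) ≤ 2 * (2 * (l : ℝ) ^ 2 * (k + 1) + 1 / 4 / δ ^ 2 * (1 / k)) := by
  classical
  have hd : ∀ i ∈ T, ∀ j ∈ T, i ≠ j → δ ≤ |(φ i - round (φ i)) - (φ j - round (φ j))| := by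
    intro i hi j hj hij
    have := hs i hi j hj hij (round (φ i) - round (φ j))
    push_cast at this
    convert this using 2
    ring
  rw [← sum_filter_add_sum_filter_not T fun i => 0 ≤ φ i - round (φ i), two_mul]
  refine add_le_add ?_ ?_
  · refine ls_side _ (fun i => φ i - round (φ i)) _ hδ (by positivity) (by norm_num) hk
      (fun i hi => (mem_filter.1 hi).2)
      (fun i hi j hj hij => hd i (mem_filter.1 hi).1 j (mem_filter.1 hj).1 hij)
      (fun i _ => lsK_le x l _) fun i _ h => ?_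
    have := lsK_le' x l (φ i) (abs_pos.2 h.ne')
    rwa [sq_abs] at this
  · refine ls_side _ (fun i => -(φ i - round (φ i))) _ hδ (by positivity) (by norm_num) hk
      (fun i hi => by linarith [not_le.1 (mem_filter.1 hi).2])
      (fun i hi j hj hij => ?_) (fun i _ => lsK_le x l _) fun i _ h => ?_
    · have := hd i (mem_filter.1 hi).1 j (mem_filter.1 hj).1 hij
      rw [← abs_neg] at this
      convert this using 2
      ring
    · have := lsK_le' x l (φ i) (abs_pos.2 (by linarith))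
      rwa [sq_abs, ← neg_sq] at this

lemma ls_sq (z : ℂ) : ((‖z‖ ^ 2 : ℝ) : ℂ) = z * (starRingEnd ℂ) z := by
  rw [Complex.mul_conj, Complex.normSq_eq_norm_sq]

lemma ls_expand {ι : Type} (T : Finset ι) (θ : ι → ℝ) (c : ι → ℂ) (x : ℤ) (l : ℕ) :
    ∑ t ∈ Ioc (0 : ℤ) (0 + l), ∑ s ∈ Ioc x (x + (2 * l : ℕ)),
      ‖∑ i ∈ T, c i * ex (θ i * ((s - t : ℤ) : ℝ))‖ ^ 2 ≤
      ∑ i ∈ T, ∑ j ∈ T, ‖c i‖ * ‖c j‖ * lsK x l (θ i - θ j) := by
  have h1 : ((∑ t ∈ Ioc (0 : ℤ) (0 + l), ∑ s ∈ Ioc x (x + (2 * l : ℕ)),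
      ‖∑ i ∈ T, c i * ex (θ i * ((s - t : ℤ) : ℝ))‖ ^ 2 : ℝ) : ℂ) =
      ∑ i ∈ T, ∑ j ∈ T, c i * (starRingEnd ℂ) (c j) *
        ((∑ s ∈ Ioc x (x + (2 * l : ℕ)), ex ((θ i - θ j) * s)) *
          ∑ t ∈ Ioc (0 : ℤ) (0 + l), ex (-(θ i - θ j) * t)) := by
    have h2 : ∀ s t : ℤ, ((‖∑ i ∈ T, c i * ex (θ i * ((s - t : ℤ) : ℝ))‖ ^ 2 : ℝ) : ℂ) =
        ∑ i ∈ T, ∑ j ∈ T, c i * (starRingEnd ℂ) (c j) *
          (ex ((θ i - θ j) * s) * ex (-(θ i - θ j) * t)) := by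
      intro s t
      rw [ls_sq, map_sum, sum_mul_sum]
      refine sum_congr rfl fun i _ => sum_congr rfl fun j _ => ?_
      rw [map_mul, conj_ex, ← ex_add, mul_mul_mul_comm, ← ex_add]
      congr 2
      push_cast
      ring
    rw [Complex.ofReal_sum]
    simp_rw [Complex.ofReal_sum, h2]
    simp_rw [sum_mul_sum, mul_sum]
    rw [sum_comm]
    symm
    calc _ = ∑ i ∈ T, ∑ s ∈ Ioc x (x + (2 * l : ℕ)), ∑ t ∈ Ioc (0 : ℤ) (0 + l), ∑ j ∈ T,
          c i * (starRingEnd ℂ) (c j) * (ex ((θ i - θ j) * s) * ex (-(θ i - θ j) * t)) := by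
          refine sum_congr rfl fun i _ => ?_
          rw [sum_comm]
          exact sum_congr rfl fun s _ => sum_comm
      _ = _ := by
          rw [sum_comm]
          exact sum_congr rfl fun s _ => sum_comm
  have h3 := congrArg norm h1
  rw [Complex.norm_real, Real.norm_eq_abs] at h3
  refine (le_abs_self _).trans (h3.le.trans ((norm_sum_le _ _).trans (sum_le_sum fun i _ =>
    (norm_sum_le _ _).trans (sum_le_sum fun j _ => ?_))))
  rw [norm_mul, norm_mul, norm_mul, Complex.norm_conj]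
  rfl

lemma ls_window (G : ℤ → ℝ) (hG : ∀ y, 0 ≤ G y) (x : ℤ) (l : ℕ) :
    l * ∑ y ∈ Ioc x (x + l), G y ≤
      ∑ t ∈ Ioc (0 : ℤ) (0 + l), ∑ s ∈ Ioc x (x + (2 * l : ℕ)), G (s - t) := by
  have h1 : (l : ℝ) * ∑ y ∈ Ioc x (x + l), G y =
      ∑ _t ∈ Ioc (0 : ℤ) (0 + l), ∑ y ∈ Ioc x (x + l), G y := by
    rw [sum_const, nsmul_eq_mul]
    simp
  rw [h1]
  refine sum_le_sum fun t ht => ?_
  have ht' := mem_Ioc.1 ht
  have h2 : ∑ y ∈ Ioc x (x + l), G y = ∑ s ∈ (Ioc x (x + l)).image (· + t), G (s - t) := by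
    rw [sum_image fun a _ b _ h => add_right_cancel h]
    simp
  rw [h2]
  refine sum_le_sum_of_subset_of_nonneg (fun s hs => ?_) fun _ _ _ => hG _
  obtain ⟨y, hy, rfl⟩ := mem_image.1 hs
  have hy' := mem_Ioc.1 hy
  refine mem_Ioc.2 ⟨by omega, ?_⟩
  push_cast
  omega

lemma ls_spaced {ι : Type} (T : Finset ι) (θ : ι → ℝ) {δ : ℝ} (hδ : 0 < δ) (x : ℤ) {l : ℕ}
    (hl : 0 < l) {k : ℕ} (hk : 0 < k)
    (hs : ∀ i ∈ T, ∀ j ∈ T, i ≠ j → ∀ n : ℤ, δ ≤ |θ i - θ j - n|) (H : ℤ → ℂ) :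
    l * ∑ i ∈ T, ‖FT (Ioc x (x + l)) H (θ i)‖ ^ 2 ≤
      2 * (2 * (l : ℝ) ^ 2 * (k + 1) + 1 / 4 / δ ^ 2 * (1 / k)) * N2 (Ioc x (x + l)) H := by
  set R := 2 * (2 * (l : ℝ) ^ 2 * (k + 1) + 1 / 4 / δ ^ 2 * (1 / k)) with hR
  have hR0 : 0 ≤ R := by positivity
  set S : ι → ℂ := fun i => FT (Ioc x (x + l)) H (θ i) with hS
  set c : ι → ℂ := fun i => (starRingEnd ℂ) (S i) with hc
  set A := ∑ i ∈ T, ‖S i‖ ^ 2 with hA
  set G : ℤ → ℂ := fun y => ∑ i ∈ T, c i * ex (θ i * (y : ℝ)) with hG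
  have hA0 : 0 ≤ A := sum_nonneg fun _ _ => by positivity
  have hN0 := N2_nonneg (Ioc x (x + l)) H
  have hcn : ∀ i, ‖c i‖ = ‖S i‖ := fun i => Complex.norm_conj _
  have hrow : ∀ i, ∑ j ∈ T, lsK x l (θ i - θ j) ≤ R := fun i =>
    ls_row T (fun j => θ i - θ j) hδ x l hk fun a ha b hb hab n => by
      have := hs b hb a ha hab.symm n
      convert this using 2
      ring
  have hcol : ∀ j, ∑ i ∈ T, lsK x l (θ i - θ j) ≤ R := fun j =>
    ls_row T (fun i => θ i - θ j) hδ x l hk fun a ha b hb hab n => by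
      have := hs a ha b hb hab n
      convert this using 2
      ring
  have hB : l * ∑ y ∈ Ioc x (x + l), ‖G y‖ ^ 2 ≤ R * A := by
    refine (ls_window (fun y => ‖G y‖ ^ 2) (fun _ => by positivity) x l).trans
      ((ls_expand T θ c x l).trans ?_)
    calc ∑ i ∈ T, ∑ j ∈ T, ‖c i‖ * ‖c j‖ * lsK x l (θ i - θ j)
        ≤ ∑ i ∈ T, ∑ j ∈ T, (‖S i‖ ^ 2 / 2 * lsK x l (θ i - θ j) +
            ‖S j‖ ^ 2 / 2 * lsK x l (θ i - θ j)) := by
          refine sum_le_sum fun i _ => sum_le_sum fun j _ => ?_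
          rw [← add_mul, hcn, hcn]
          refine mul_le_mul_of_nonneg_right ?_ (lsK_nonneg _ _ _)
          nlinarith [sq_nonneg (‖S i‖ - ‖S j‖)]
      _ = ∑ i ∈ T, ‖S i‖ ^ 2 / 2 * ∑ j ∈ T, lsK x l (θ i - θ j) +
            ∑ j ∈ T, ‖S j‖ ^ 2 / 2 * ∑ i ∈ T, lsK x l (θ i - θ j) := by
          simp_rw [sum_add_distrib, mul_sum]
          congr 1
          exact sum_comm
      _ ≤ ∑ i ∈ T, ‖S i‖ ^ 2 / 2 * R + ∑ j ∈ T, ‖S j‖ ^ 2 / 2 * R :=
          add_le_add (sum_le_sum fun i _ => mul_le_mul_of_nonneg_left (hrow i) (by positivity))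
            (sum_le_sum fun j _ => mul_le_mul_of_nonneg_left (hcol j) (by positivity))
      _ = R * A := by
          rw [← sum_add_distrib, hA, mul_sum]
          exact sum_congr rfl fun i _ => by ring
  have hdual : (A : ℂ) = ∑ y ∈ Ioc x (x + l), H y * G y := by
    rw [hA, Complex.ofReal_sum]
    simp_rw [ls_sq, hG, mul_sum]
    rw [sum_comm]
    refine sum_congr rfl fun i _ => ?_
    show S i * c i = _
    rw [hS]
    simp only [FT]
    rw [sum_mul]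
    exact sum_congr rfl fun y _ => by ring
  have hA1 : A ≤ ∑ y ∈ Ioc x (x + l), ‖H y‖ * ‖G y‖ := by
    have h3 := congrArg norm hdual
    rw [Complex.norm_real, Real.norm_eq_abs, abs_of_nonneg hA0] at h3
    exact h3.le.trans ((norm_sum_le _ _).trans (sum_le_sum fun y _ => (norm_mul _ _).le))
  have hA2 : A ^ 2 ≤ N2 (Ioc x (x + l)) H * ∑ y ∈ Ioc x (x + l), ‖G y‖ ^ 2 :=
    (pow_le_pow_left₀ hA0 hA1 2).trans (sum_mul_sq_le_sq_mul_sq _ _ _)
  have hl' : (0 : ℝ) < l := by exact_mod_cast hl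
  rcases hA0.eq_or_lt with h0 | h0
  · rw [← h0, mul_zero]; positivity
  · refine le_of_mul_le_mul_right ?_ h0
    calc l * A * A = l * A ^ 2 := by ring
      _ ≤ l * (N2 (Ioc x (x + l)) H * ∑ y ∈ Ioc x (x + l), ‖G y‖ ^ 2) :=
          mul_le_mul_of_nonneg_left hA2 hl'.le
      _ = N2 (Ioc x (x + l)) H * (l * ∑ y ∈ Ioc x (x + l), ‖G y‖ ^ 2) := by ring
      _ ≤ N2 (Ioc x (x + l)) H * (R * A) := mul_le_mul_of_nonneg_left hB hN0
      _ = _ := by ring

theorem large_sieve (x : ℤ) (l Q : ℕ) (H : ℤ → ℂ) :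
    ∑ q ∈ Icc 1 Q, Mq (Ioc x (x + l)) H q ≤ 100 * ((Q : ℝ) ^ 2 + l) * N2 (Ioc x (x + l)) H := by
  have hN0 := N2_nonneg (Ioc x (x + l)) H
  rcases Nat.eq_zero_or_pos l with rfl | hl
  · simp [Mq, FT, N2]
  rcases Nat.eq_zero_or_pos Q with rfl | hQ
  · simp only [Icc_eq_empty_of_lt Nat.zero_lt_one, sum_empty]
    positivity
  have hl' : (0 : ℝ) < l := by exact_mod_cast hl
  have hQ' : (0 : ℝ) < Q := by exact_mod_cast hQ
  have hk0 : (0 : ℝ) < (Q : ℝ) ^ 2 / l := by positivity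
  have hk : 0 < ⌈(Q : ℝ) ^ 2 / l⌉₊ := Nat.ceil_pos.2 hk0
  have hk1 : (Q : ℝ) ^ 2 / l ≤ ⌈(Q : ℝ) ^ 2 / l⌉₊ := Nat.le_ceil _
  have hk2 : (⌈(Q : ℝ) ^ 2 / l⌉₊ : ℝ) < (Q : ℝ) ^ 2 / l + 1 := Nat.ceil_lt_add_one hk0.le
  have h := ls_spaced ((Icc 1 Q).sigma fun q => (range q).filter fun h => h.Coprime q)
    (fun p => (p.2 : ℝ) / p.1) (δ := 1 / (Q : ℝ) ^ 2) (by positivity) x hl hk (by
      rintro ⟨q, h⟩ hi ⟨q', h'⟩ hj hne n
      rw [mem_sigma, mem_filter, mem_range] at hi hj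
      refine farey_spaced hi.1 hj.1 hi.2.1 hj.2.1 hi.2.2 hj.2.2 (fun he => hne ?_) n
      obtain ⟨rfl, rfl⟩ := Prod.ext_iff.1 he
      rfl) H
  rw [sum_sigma] at h
  set k : ℝ := (⌈(Q : ℝ) ^ 2 / l⌉₊ : ℝ)
  have hkp : 0 < k := hk0.trans_le hk1
  have h1 : (l : ℝ) * k ≤ Q ^ 2 + l := by
    have := mul_le_mul_of_nonneg_left hk2.le hl'.le
    rwa [mul_add, mul_div_cancel₀ _ hl'.ne', mul_one] at this
  have h2 : 1 / 4 / (1 / (Q : ℝ) ^ 2) ^ 2 * (1 / k) ≤ l * Q ^ 2 := by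
    have h3 : (Q : ℝ) ^ 2 ≤ k * l := (div_le_iff₀ hl').1 hk1
    have h4 : 1 / 4 / (1 / (Q : ℝ) ^ 2) ^ 2 * (1 / k) = Q ^ 2 * Q ^ 2 / (4 * k) := by
      field_simp
    rw [h4, div_le_iff₀ (by positivity)]
    have h5 : (0 : ℝ) ≤ Q ^ 2 := by positivity
    have h6 : (0 : ℝ) ≤ k * l := by positivity
    nlinarith [mul_le_mul_of_nonneg_left h3 h5, mul_nonneg h5 h6]
  have h7 : 2 * (2 * (l : ℝ) ^ 2 * (k + 1) + 1 / 4 / (1 / (Q : ℝ) ^ 2) ^ 2 * (1 / k)) ≤
      l * (100 * ((Q : ℝ) ^ 2 + l)) := by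
    have h5 : (0 : ℝ) ≤ l * Q ^ 2 := by positivity
    have h6 := mul_le_mul_of_nonneg_left h1 hl'.le
    nlinarith [mul_pos hl' hl']
  refine le_of_mul_le_mul_left (h.trans ?_) hl'
  rw [← mul_assoc]
  exact mul_le_mul_of_nonneg_right h7 hN0


end Pool.Agent.Lib.MP_458f0b_nt.Grow.LS
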