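import Pool.Agent.Lib.MP_458f0b_nt.Grow.Defs
import Pool.Agent.Lib.MP_458f0b_nt.Grow.LS

open Finset Filter Topology

namespace Pool.Agent.Lib.MP_458f0b_nt.Grow

open Pool.Agent.Lib.MP_458f0b_nt.Pois

lemma blockVar_Vr (I : Finset ℤ) (g : ℤ → ℝ) (q : ℕ) :
    LS.Vr I (fun n => (g n : ℂ)) q =
      ∑ b ∈ range q, (∑ n ∈ I.filter (fun n => n % (q : ℤ) = (b : ℤ)), g n) ^ 2 := by
  unfold LS.Vr
  refine Finset.sum_congr rfl fun b _ => ?_
  rw [← Complex.ofReal_sum, Complex.norm_real, Real.norm_eq_abs, sq_abs]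

lemma blockVar_N2 (I : Finset ℤ) (g : ℤ → ℝ) :
    LS.N2 I (fun n => (g n : ℂ)) = ∑ n ∈ I, g n ^ 2 := by
  unfold LS.N2
  refine Finset.sum_congr rfl fun n _ => ?_
  rw [Complex.norm_real, Real.norm_eq_abs, sq_abs]

lemma blockVar_harm (Q : ℕ) {s : ℕ} (hs : 1 ≤ s) :
    ∑ q ∈ (Icc 1 Q).filter (fun q => s ∣ q), (1 : ℝ) / q ≤ (1 + Real.log Q) / s := by
  have hs' : (0 : ℝ) < s := by exact_mod_cast hs
  have h1 : (Icc 1 Q).filter (fun q => s ∣ q) ⊆ (Icc 1 Q).image (fun k => s * k) := by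
    intro q hq
    obtain ⟨hq1, k, rfl⟩ := mem_filter.1 hq
    obtain ⟨h2, h3⟩ := mem_Icc.1 hq1
    refine mem_image.2 ⟨k, mem_Icc.2 ⟨?_, ?_⟩, rfl⟩
    · exact Nat.pos_of_mul_pos_left h2
    · exact (Nat.le_mul_of_pos_left k hs).trans h3
  have h2 : ∑ k ∈ Icc 1 Q, (1 : ℝ) / k ≤ 1 + Real.log Q := by
    have h3 := harmonic_le_one_add_log Q
    rw [harmonic_eq_sum_Icc] at h3
    push_cast at h3
    simpa only [one_div] using h3
  calc _ ≤ ∑ q ∈ (Icc 1 Q).image (fun k => s * k), (1 : ℝ) / q :=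
        sum_le_sum_of_subset_of_nonneg h1 fun _ _ _ => by positivity
    _ = ∑ k ∈ Icc 1 Q, (1 : ℝ) / ((s * k : ℕ) : ℝ) :=
        sum_image fun a _ b _ h => Nat.eq_of_mul_eq_mul_left hs h
    _ = (∑ k ∈ Icc 1 Q, (1 : ℝ) / k) / s := by
        rw [sum_div]
        refine sum_congr rfl fun k _ => ?_
        push_cast
        rw [div_div, mul_comm]
    _ ≤ _ := by gcongr

lemma blockVar_swap (I : Finset ℤ) (H : ℤ → ℂ) (Q : ℕ) :
    ∑ q ∈ Icc 1 Q, LS.Vr I H q ≤ (1 + Real.log Q) * ∑ s ∈ Icc 1 Q, LS.Mq I H s / s := by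
  have h1 : ∀ q ∈ Icc 1 Q, LS.Vr I H q =
      ∑ s ∈ Icc 1 Q, if s ∣ q then LS.Mq I H s * (1 / q) else 0 := by
    intro q hq
    obtain ⟨h2, h3⟩ := mem_Icc.1 hq
    have hq' : (0 : ℝ) < q := by exact_mod_cast h2
    have h4 : (Icc 1 Q).filter (fun s => s ∣ q) = q.divisors := by
      ext s
      rw [mem_filter, mem_Icc, Nat.mem_divisors]
      exact ⟨fun h => ⟨h.2, by omega⟩, fun h =>
        ⟨⟨Nat.pos_of_dvd_of_pos h.1 h2, (Nat.le_of_dvd h2 h.1).trans h3⟩, h.1⟩⟩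
    rw [← sum_filter, h4, ← sum_mul, ← LS.parseval_classes I H h2]
    field_simp
  rw [sum_congr rfl h1, sum_comm, mul_sum]
  refine sum_le_sum fun s hs => ?_
  rw [← sum_filter, ← mul_sum]
  have h2 := mul_le_mul_of_nonneg_left (blockVar_harm Q (mem_Icc.1 hs).1) (LS.Mq_nonneg I H s)
  refine h2.trans (le_of_eq ?_)
  ring

lemma blockVar_small (I : Finset ℤ) (H : ℤ → ℂ) {s : ℕ} (hs : 1 ≤ s) :
    LS.Mq I H s / s ≤ LS.Vr I H s := by
  have hs' : (0 : ℝ) < s := by exact_mod_cast hs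
  rw [div_le_iff₀ hs', mul_comm, LS.parseval_classes I H hs]
  exact single_le_sum (f := fun q => LS.Mq I H q) (fun q _ => LS.Mq_nonneg I H q)
    (Nat.mem_divisors_self s (by omega))

theorem block_var (x : ℤ) (L Q w : ℕ) (hw : 1 ≤ w) (hQ : Q ^ 2 ≤ L) (g : ℤ → ℝ) (E : ℝ)
    (hE : ∀ s : ℕ, 1 ≤ s → s ≤ w → ∀ b : ℤ,
      |∑ n ∈ (Ioc x (x + L)).filter (fun n => n % (s : ℤ) = b), g n| ≤ E) :
    ∑ q ∈ Icc 1 Q, ∑ b ∈ range q,
        (∑ n ∈ (Ioc x (x + L)).filter (fun n => n % (q : ℤ) = (b : ℤ)), g n) ^ 2 ≤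
      (1 + Real.log Q) * ((w : ℝ) ^ 2 * E ^ 2 + 200 * L / w * ∑ n ∈ Ioc x (x + L), g n ^ 2) := by
  have hw' : (0 : ℝ) < w := by exact_mod_cast hw
  have hlog : 0 ≤ 1 + Real.log Q := by have := Real.log_natCast_nonneg Q; linarith
  have h0 := blockVar_swap (Ioc x (x + L)) (fun n => (g n : ℂ)) Q
  simp only [blockVar_Vr] at h0
  refine h0.trans (mul_le_mul_of_nonneg_left ?_ hlog)
  have h1 : ∀ s ∈ Icc 1 Q, LS.Mq (Ioc x (x + L)) (fun n => (g n : ℂ)) s / s ≤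
      (if s ≤ w then (w : ℝ) * E ^ 2 else 0) + LS.Mq (Ioc x (x + L)) (fun n => (g n : ℂ)) s / w := by
    intro s hs
    have hs1 := (mem_Icc.1 hs).1
    have hM := LS.Mq_nonneg (Ioc x (x + L)) (fun n => (g n : ℂ)) s
    split_ifs with h
    · have h2 := blockVar_small (Ioc x (x + L)) (fun n => (g n : ℂ)) hs1
      rw [blockVar_Vr] at h2
      have h3 : ∑ b ∈ range s,
          (∑ n ∈ (Ioc x (x + L)).filter (fun n => n % (s : ℤ) = (b : ℤ)), g n) ^ 2 ≤ s * E ^ 2 := by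
        refine (sum_le_card_nsmul _ _ (E ^ 2) fun b _ => ?_).trans ?_
        · rw [← sq_abs]
          exact pow_le_pow_left₀ (abs_nonneg _) (hE s hs1 h b) 2
        · rw [card_range, nsmul_eq_mul]
      have h4 : (s : ℝ) * E ^ 2 ≤ w * E ^ 2 :=
        mul_le_mul_of_nonneg_right (by exact_mod_cast h) (sq_nonneg E)
      have h5 := div_nonneg hM hw'.le
      linarith
    · rw [zero_add]
      exact div_le_div_of_nonneg_left hM hw' (by exact_mod_cast (not_le.1 h).le)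
  refine (sum_le_sum h1).trans ?_
  rw [sum_add_distrib, ← sum_filter, ← sum_div]
  refine add_le_add ?_ ?_
  · rw [sum_const, nsmul_eq_mul]
    have h2 : ((Icc 1 Q).filter (fun s => s ≤ w)).card ≤ w := by
      refine (card_le_card (t := Icc 1 w) fun s hs => ?_).trans (by simp)
      rw [mem_filter, mem_Icc] at hs
      exact mem_Icc.2 ⟨hs.1.1, hs.2⟩
    have h3 : (((Icc 1 Q).filter (fun s => s ≤ w)).card : ℝ) ≤ w := by exact_mod_cast h2
    have h4 := mul_le_mul_of_nonneg_right h3 (mul_nonneg hw'.le (sq_nonneg E))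
    refine h4.trans (le_of_eq ?_)
    ring
  · have h2 := LS.large_sieve x L Q (fun n => (g n : ℂ))
    rw [blockVar_N2] at h2
    have h3 : (Q : ℝ) ^ 2 ≤ L := by exact_mod_cast hQ
    have h4 : 0 ≤ ∑ n ∈ Ioc x (x + L), g n ^ 2 := sum_nonneg fun _ _ => sq_nonneg _
    rw [div_mul_eq_mul_div]
    refine div_le_div_of_nonneg_right (h2.trans ?_) hw'.le
    exact mul_le_mul_of_nonneg_right (by linarith) h4

end Pool.Agent.Lib.MP_458f0b_nt.Grow
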