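import Pool.Agent.Lib.MP_458f0b_nt.Grow.PairB

open Finset Filter Topology

namespace Pool.Agent.Lib.MP_458f0b_nt.Grow

open Pool.Agent.Lib.MP_458f0b_nt.Pois

lemma cellL2_zero (W L X : ℕ) (f : ℤ → ℝ) :
    CellZero W L X (fun n => f n - cellAv W L X f n) := by
  have h := cellZero_sub (W := W) (L := L) (X := X) (ψ := fun _ => 1) (fun _ _ _ _ _ _ => rfl) f
  simpa only [one_mul] using h

lemma cellL2_mul {W L X : ℕ} (f : ℤ → ℝ) {ψ : ℤ → ℝ} (hψ : CellM W L X ψ) :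
    ∑ n ∈ Icc (1 : ℤ) X, f n * ψ n = ∑ n ∈ Icc (1 : ℤ) X, cellAv W L X f n * ψ n := by
  have h := (cellL2_zero W L X f).sum_mul hψ
  simp only [sub_mul, Finset.sum_sub_distrib] at h
  linarith

theorem cellAv_adj (W L X : ℕ) (f g : ℤ → ℝ) :
    ∑ n ∈ Icc (1 : ℤ) X, f n * cellAv W L X g n = ∑ n ∈ Icc (1 : ℤ) X, cellAv W L X f n * g n := by
  rw [cellL2_mul f (cellM_cellAv W L X g)]
  have h := cellL2_mul g (cellM_cellAv W L X f)
  simp only [mul_comm (cellAv W L X f _)]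
  exact h.symm

lemma cellL2_class {w L X : ℕ} (f : ℤ → ℝ) (i : ℤ) {s : ℕ} (h1 : 1 ≤ s) (h2 : s ≤ w) (b : ℤ) :
    ∑ n ∈ (Icc (1 : ℤ) X).filter (fun n => n / (L : ℤ) = i ∧ n % (s : ℤ) = b),
      (f n - cellAv w.factorial L X f n) = 0 := by
  have h := paira_cells (cellL2_zero w.factorial L X f) (fun i' c : ℤ => i' = i ∧ c % (s : ℤ) = b)
  have hd : (s : ℤ) ∣ (w.factorial : ℕ) := Int.natCast_dvd_natCast.2 (Nat.dvd_factorial h1 h2)
  simpa only [Int.emod_emod_of_dvd _ hd] using h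

theorem flat_cellAv {w L X : ℕ} {f : ℤ → ℝ} {E : ℝ} (h : Flat w L X f E) :
    Flat w L X (cellAv w.factorial L X f) E := by
  intro i s h1 h2 b
  have h3 := cellL2_class (L := L) (X := X) f i h1 h2 b
  rw [Finset.sum_sub_distrib, sub_eq_zero] at h3
  rw [← h3]
  exact h i s h1 h2 b

lemma cellL2_div {N c : ℝ} (hN : 0 ≤ N) (h : N ≤ c * √N) : N ≤ c ^ 2 := by
  have h1 := Real.mul_self_sqrt hN
  have h2 := Real.sqrt_nonneg N
  nlinarith [sq_nonneg (√N - c)]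

theorem delta0_L2 {D X r w L : ℕ} (hD : 0 < D) {u : ℤ → ℝ} (hu : ∀ d, |u d| ≤ 1) {η Γ : ℝ}
    (hη : 0 ≤ η) (hop : ∀ f E, Flat w L X f E → AA D X f ≤ η * D * nn X f + Γ * E ^ 2) :
    nn X (fun n => Dl D X r u n - cellAv w.factorial L X (Dl D X r u) n) ≤
      (√η + r) ^ 2 * (D * Mo D X (2 * r)) := by
  set g : ℤ → ℝ := fun n => Dl D X r u n - cellAv w.factorial L X (Dl D X r u) n with hg
  have hN := nn_nonneg X g
  have hM := Mo_nonneg D X (2 * r)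
  have hD' : (0 : ℝ) ≤ D := Nat.cast_nonneg D
  have h1 : ∑ n ∈ Icc (1 : ℤ) X, g n * Dl D X r u n = nn X g := by
    have h := (cellL2_zero w.factorial L X (Dl D X r u)).sum_mul
      (cellM_cellAv w.factorial L X (Dl D X r u))
    rw [nn, ← sub_eq_zero, ← Finset.sum_sub_distrib, ← h]
    exact Finset.sum_congr rfl fun n _ => by simp only [hg]; ring
  have h2 : AA D X g ≤ η * D * nn X g := by
    have h := hop g 0 fun i s a1 a2 b => by
      rw [hg, cellL2_class (L := L) (X := X) _ i a1 a2 b, abs_zero]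
    simpa using h
  have h3 := pair_excl hD X r hu g
  have h4 := pair_cs D X r hu (cs X g)
  rw [h1] at h3
  have h5 : √(SC D fun d a => cs X g d a ^ 2) ≤ √η * √D * √(nn X g) := by
    rw [← Real.sqrt_mul hη, ← Real.sqrt_mul (mul_nonneg hη hD')]
    exact Real.sqrt_le_sqrt h2
  have h6 : √(D * nn X g * Mo D X (2 * r)) = √D * √(nn X g) * √(Mo D X (2 * r)) := by
    rw [Real.sqrt_mul (mul_nonneg hD' hN), Real.sqrt_mul hD']
  rw [h6] at h3
  have h7 := h4.trans (mul_le_mul_of_nonneg_left h5 (Real.sqrt_nonneg _))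
  have h8 : nn X g ≤ ((√η + r) * (√D * √(Mo D X (2 * r)))) * √(nn X g) := by
    have a1 := (abs_le.1 h3).2
    have a2 := (abs_le.1 h7).2
    nlinarith
  have h9 := cellL2_div hN h8
  rwa [mul_pow, mul_pow, Real.sq_sqrt hD', Real.sq_sqrt hM] at h9

lemma cellL2_abs {W L X : ℕ} {ν H : ℤ → ℝ} {B κ : ℝ} (hκ : 0 ≤ κ)
    (hH : ∀ n ∈ Icc (1 : ℤ) X, |H n| ≤ B * ν n + κ) (n : ℤ) :
    |cellAv W L X H n| ≤ B * cellAv W L X ν n + κ := by
  unfold cellAv
  rcases Nat.eq_zero_or_pos (cell W L X n).card with h | h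
  · rw [h]
    simpa using hκ
  · have h' : (0 : ℝ) < (cell W L X n).card := by exact_mod_cast h
    rw [abs_div, abs_of_pos h', div_le_iff₀ h', add_mul, mul_assoc, div_mul_cancel₀ _ h'.ne']
    refine (Finset.abs_sum_le_sum_abs _ _).trans ?_
    refine (Finset.sum_le_sum fun m hm => hH m (Finset.mem_filter.mp hm).1).trans ?_
    rw [Finset.sum_add_distrib, ← Finset.mul_sum, Finset.sum_const, nsmul_eq_mul, mul_comm κ]
    exact le_rfl

theorem hbar_L2 {W L D X r : ℕ} {ν H : ℤ → ℝ} {ε Z B κ : ℝ} (hν0 : ∀ n, 0 ≤ ν n)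
    (hνZ : ∀ n, ν n ≤ Z) (hZ : 1 ≤ Z) (hε0 : 0 ≤ ε) (hε : Z * ε ≤ 1) (hS : SLF W L D X r ν ε)
    (hB : 0 ≤ B) (hκ : 0 ≤ κ) (hH : ∀ n ∈ Icc (1 : ℤ) X, |H n| ≤ B * ν n + κ) :
    nn X (cellAv W L X H) ≤ 6 * (B + κ) ^ 2 * X := by
  have hX : (0 : ℝ) ≤ X := Nat.cast_nonneg X
  have hZ0 : 0 < Z := by linarith
  have hc : ∑ _n ∈ Icc (1 : ℤ) X, (1 : ℝ) = X := by simp
  have hε1 : ε ≤ 1 := by nlinarith
  have h1 : ∑ n ∈ Icc (1 : ℤ) X, ν n ≤ 2 * X := by
    have h := hS 0 (by norm_num) (fun _ => 0) (ind X) (by simp)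
      (fun n => (abs_of_nonneg (ind_nonneg X n)).le) (cellM_ind W L X)
    rw [Finset.sum_congr rfl (g := fun n => ν n - 1) fun n hn => by rw [ind_of_mem hn]; ring,
      Finset.sum_sub_distrib, hc, pow_zero, one_mul] at h
    have := (abs_le.1 h).2
    nlinarith
  have hA : ∀ n, |cellAv W L X ν n| ≤ Z :=
    abs_cellAv_le hZ0.le fun n _ => by rw [abs_of_nonneg (hν0 n)]; exact hνZ n
  have h2 : ∑ n ∈ Icc (1 : ℤ) X, cellAv W L X ν n = ∑ n ∈ Icc (1 : ℤ) X, ν n := by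
    have h := cellL2_mul (W := W) (L := L) (X := X) ν (ψ := fun _ => 1) fun _ _ _ _ _ _ => rfl
    simpa only [mul_one] using h.symm
  have h3 : ∑ n ∈ Icc (1 : ℤ) X, ν n * cellAv W L X ν n ≤ 3 * X := by
    have h := hS 0 (by norm_num) (fun _ => 0) (fun n => ind X n * (cellAv W L X ν n / Z)) (by simp)
      (fun n => by
        rw [abs_mul, abs_of_nonneg (ind_nonneg X n), abs_div, abs_of_pos hZ0]
        exact mul_le_of_le_one_right (ind_nonneg X n) ((div_le_one hZ0).2 (hA n)))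
      ((cellM_ind W L X).mul ((cellM_cellAv W L X ν).comp fun t => t / Z))
    rw [Finset.sum_congr rfl (g := fun n => (ν n * cellAv W L X ν n - cellAv W L X ν n) / Z)
      fun n hn => by rw [ind_of_mem hn]; ring, ← Finset.sum_div, Finset.sum_sub_distrib, h2,
      pow_zero, one_mul] at h
    have a1 := (abs_le.1 h).2
    rw [div_le_iff₀ hZ0] at a1
    nlinarith
  have h4 : ∑ n ∈ Icc (1 : ℤ) X, cellAv W L X ν n ^ 2 ≤ 3 * X := by
    rw [cellL2_mul ν (cellM_cellAv W L X ν)] at h3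
    simpa only [sq] using h3
  have h5 : nn X (cellAv W L X H) ≤
      ∑ n ∈ Icc (1 : ℤ) X, (2 * B ^ 2 * cellAv W L X ν n ^ 2 + 2 * κ ^ 2 * 1) := by
    refine Finset.sum_le_sum fun n _ => ?_
    have a1 := cellL2_abs (W := W) (L := L) hκ hH n
    have a2 := pow_le_pow_left₀ (abs_nonneg _) a1 2
    rw [sq_abs] at a2
    nlinarith [sq_nonneg (B * cellAv W L X ν n - κ)]
  rw [Finset.sum_add_distrib, ← Finset.mul_sum, ← Finset.mul_sum, hc] at h5
  have h6 := mul_le_mul_of_nonneg_left h4 (show 0 ≤ 2 * B ^ 2 by positivity)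
  have h7 : 0 ≤ B * κ * X := by positivity
  have h8 : 0 ≤ κ ^ 2 * X := by positivity
  nlinarith

end Pool.Agent.Lib.MP_458f0b_nt.Grow
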