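import Pool.Agent.Lib.MP_458f0b_nt.Pois.Grid

/-! Definitions for the Poisson law on a growing range. -/

open Finset Filter Topology

namespace Pool.Agent.Lib.MP_458f0b_nt.Grow

open Pool.Agent.Lib.MP_458f0b_nt.Pois

/-- sum of `f` over the class of `a` modulo `d` inside `[1, X]` -/
noncomputable def cs (X : ℕ) (f : ℤ → ℝ) (d a : ℤ) : ℝ :=
  ∑ n ∈ (Icc (1 : ℤ) X).filter (fun n => d ∣ n - a), f n

/-- sum over all moduli in `[D, 2D)` and all classes -/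
noncomputable def SC (D : ℕ) (F : ℤ → ℤ → ℝ) : ℝ :=
  ∑ d ∈ Ico (D : ℤ) (2 * D), ∑ a ∈ Ico (0 : ℤ) d, F d a

/-- squared norm of the class sums -/
noncomputable def AA (D X : ℕ) (f : ℤ → ℝ) : ℝ := SC D (fun d a => cs X f d a ^ 2)

/-- squared norm on `[1, X]` -/
noncomputable def nn (X : ℕ) (f : ℤ → ℝ) : ℝ := ∑ n ∈ Icc (1 : ℤ) X, f n ^ 2

/-- indicator of the primes in `(sqrt X, X]` -/
def e1 (X : ℕ) (n : ℤ) : ℕ := if 1 ≤ n ∧ n ≤ X ∧ n.natAbs.Prime ∧ (X : ℤ) < n ^ 2 then 1 else 0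

noncomputable def pi1 (X : ℕ) (n : ℤ) : ℝ := e1 X n

/-- number of primes in `(sqrt X, X]` in the class of `a` modulo `d` -/
noncomputable def Nc (X : ℕ) (d a : ℤ) : ℕ :=
  ((Icc (1 : ℤ) X).filter (fun n => d ∣ n - a ∧ n.natAbs.Prime ∧ (X : ℤ) < n ^ 2)).card

/-- the dual function -/
noncomputable def Dl (D X r : ℕ) (u : ℤ → ℝ) (n : ℤ) : ℝ :=
  line D X u (fun _ : Fin r => pi1 X) n

/-- trivial bound for the dual function -/
noncomputable def RR (D X r : ℕ) : ℝ := 2 * D * (2 * ((X / D : ℕ) : ℝ) + 1) ^ r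

/-- crude moment -/
noncomputable def Mo (D X k : ℕ) : ℝ := SC D (fun d a => (1 + (Nc X d a : ℝ)) ^ k)

/-- pairing with the factorial moments -/
noncomputable def Pair (D X r : ℕ) (u : ℤ → ℝ) (F : ℤ → ℤ → ℝ) : ℝ :=
  SC D (fun d a => u d * ((Nc X d a).descFactorial r : ℝ) * F d a)

/-- expected class sum of the model -/
noncomputable def mean0 (w X : ℕ) (d a : ℤ) : ℝ := if Cop w d a then X / (d * om w d) else 0

/-- expected number of primes in a class -/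
noncomputable def tau (w X : ℕ) (d : ℤ) : ℝ := X / (d * om w d * Real.log X)

/-- all sums over a block of length `L` and a class modulo `s ≤ w` are at most `E` -/
def Flat (w L X : ℕ) (f : ℤ → ℝ) (E : ℝ) : Prop :=
  ∀ (i : ℤ) (s : ℕ), 1 ≤ s → s ≤ w → ∀ b : ℤ,
    |∑ n ∈ (Icc (1 : ℤ) X).filter (fun n => n / (L : ℤ) = i ∧ n % (s : ℤ) = b), f n| ≤ E

/-- the strong linear forms estimate -/
def SLF (W L D X r : ℕ) (ν : ℤ → ℝ) (ε : ℝ) : Prop :=
  ∀ j : ℕ, j ≤ 2 → ∀ u v : ℤ → ℝ, (∀ d, |u d| ≤ 1) → (∀ n, |v n| ≤ ind X n) → CellM W L X v →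
    |∑ n ∈ Icc (1 : ℤ) X, (ν n - 1) * v n * Dl D X r u n ^ j| ≤ RR D X r ^ j * (ε * X)

/-- the range of the parameters -/
structure Rg (L : ℝ) (D X : ℕ) : Prop where
  lo : L / 2 ≤ Real.log D
  hi : Real.log D ≤ L
  x1 : D ≤ X
  x2 : (X : ℝ) ≤ D * L * Real.log L

/-! ### small API -/

lemma e1_le (X : ℕ) (n : ℤ) : e1 X n ≤ 1 := by unfold e1; split_ifs <;> simp

lemma pi1_nonneg (X : ℕ) (n : ℤ) : 0 ≤ pi1 X n := Nat.cast_nonneg _

lemma pi1_le (X : ℕ) (n : ℤ) : pi1 X n ≤ 1 := by unfold pi1; exact_mod_cast e1_le X n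

lemma abs_pi1_le (X : ℕ) (n : ℤ) : |pi1 X n| ≤ 1 := by
  rw [abs_of_nonneg (pi1_nonneg X n)]; exact pi1_le X n

lemma pi1_eq (X : ℕ) (n : ℤ) :
    pi1 X n = if 1 ≤ n ∧ n ≤ X ∧ n.natAbs.Prime ∧ (X : ℤ) < n ^ 2 then 1 else 0 := by
  unfold pi1 e1; split_ifs <;> simp

lemma pi1_of_not_mem {X : ℕ} {n : ℤ} (h : n ∉ Icc (1 : ℤ) X) : pi1 X n = 0 := by
  rw [pi1_eq, if_neg]
  exact fun h' => h (mem_Icc.2 ⟨h'.1, h'.2.1⟩)

lemma pr_eq (X : ℕ) (n : ℤ) : pr X n = Real.log X * pi1 X n := by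
  rw [pi1_eq]; unfold pr; split_ifs <;> simp

lemma cs_pi1 (X : ℕ) (d a : ℤ) : cs X (pi1 X) d a = Nc X d a := by
  unfold cs Nc
  rw [Finset.card_filter, Finset.sum_filter]
  push_cast
  refine Finset.sum_congr rfl fun n hn => ?_
  rw [pi1_eq]
  have := mem_Icc.1 hn
  by_cases h1 : d ∣ n - a <;> by_cases h2 : n.natAbs.Prime ∧ (X : ℤ) < n ^ 2 <;> simp [h1, h2, this]

lemma Nc_congr (X : ℕ) {d a b : ℤ} (h : d ∣ a - b) : Nc X d a = Nc X d b := by
  unfold Nc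
  congr 1
  refine Finset.filter_congr fun n _ => and_congr_left fun _ => ?_
  have : n - b = n - a + (a - b) := by ring
  rw [this]
  exact (dvd_add_left h).symm

lemma Nc_eq_cnt (X : ℕ) {d a : ℕ} (ha : a < d) : Nc X d a = cnt X d a := by
  unfold Nc cnt
  symm
  refine Finset.card_bij (fun p _ => (p : ℤ)) (fun p hp => ?_) (fun p _ q _ h => by exact_mod_cast h)
    (fun n hn => ?_)
  · simp only [Finset.mem_filter, Finset.mem_Icc] at hp ⊢
    obtain ⟨⟨h1, h2⟩, h3, h4, h5⟩ := hp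
    refine ⟨⟨by exact_mod_cast h1, by exact_mod_cast h2⟩, ?_, by simpa using h3,
      by exact_mod_cast h4⟩
    refine ⟨(p / d : ℕ), ?_⟩
    have := Nat.div_add_mod p d
    rw [← h5]; push_cast
    have h6 : ((d * (p / d) + p % d : ℕ) : ℤ) = p := by exact_mod_cast this
    push_cast at h6
    linarith
  · simp only [Finset.mem_filter, Finset.mem_Icc] at hn
    obtain ⟨⟨h1, h2⟩, h3, h4, h5⟩ := hn
    obtain ⟨p, rfl⟩ := Int.eq_ofNat_of_zero_le (by omega : 0 ≤ n)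
    refine ⟨p, ?_, rfl⟩
    simp only [Finset.mem_filter, Finset.mem_Icc]
    refine ⟨⟨by exact_mod_cast h1, by exact_mod_cast h2⟩, by simpa using h4,
      by exact_mod_cast h5, ?_⟩
    have h6 : a ≡ p [MOD d] := (Nat.modEq_iff_dvd).2 h3
    rw [← Nat.mod_eq_of_lt ha]
    exact h6.symm

lemma SC_nonneg (D : ℕ) {F : ℤ → ℤ → ℝ} (h : ∀ d a, 0 ≤ F d a) : 0 ≤ SC D F :=
  Finset.sum_nonneg fun _ _ => Finset.sum_nonneg fun _ _ => h _ _

lemma SC_mono (D : ℕ) {F G : ℤ → ℤ → ℝ} (h : ∀ d a, F d a ≤ G d a) : SC D F ≤ SC D G :=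
  Finset.sum_le_sum fun _ _ => Finset.sum_le_sum fun _ _ => h _ _

lemma SC_add (D : ℕ) (F G : ℤ → ℤ → ℝ) :
    SC D (fun d a => F d a + G d a) = SC D F + SC D G := by
  simp only [SC, Finset.sum_add_distrib]

lemma SC_sub (D : ℕ) (F G : ℤ → ℤ → ℝ) :
    SC D (fun d a => F d a - G d a) = SC D F - SC D G := by
  simp only [SC, Finset.sum_sub_distrib]

lemma SC_mul (D : ℕ) (c : ℝ) (F : ℤ → ℤ → ℝ) : SC D (fun d a => c * F d a) = c * SC D F := by
  simp only [SC, Finset.mul_sum]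

lemma SC_nat (D : ℕ) (F : ℤ → ℤ → ℝ) :
    SC D F = ∑ d ∈ Ico D (2 * D), ∑ a ∈ range d, F (d : ℕ) (a : ℕ) := by
  unfold SC
  rw [moments_sum_cast]
  refine Finset.sum_congr rfl fun d _ => ?_
  have := count_range (F d) 0 d
  simpa using this

lemma SC_one_le (D : ℕ) : SC D (fun _ _ => 1) ≤ 2 * (D : ℝ) ^ 2 := by
  rw [SC_nat]
  simp only [Finset.sum_const, Finset.card_range, nsmul_eq_mul, mul_one]
  refine (Finset.sum_le_card_nsmul _ _ (2 * D : ℝ) fun d hd => ?_).trans ?_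
  · exact_mod_cast (mem_Ico.1 hd).2.le
  · rw [Nat.card_Ico, nsmul_eq_mul, show 2 * D - D = D by omega]
    nlinarith

lemma nn_nonneg (X : ℕ) (f : ℤ → ℝ) : 0 ≤ nn X f := Finset.sum_nonneg fun _ _ => sq_nonneg _

lemma AA_nonneg (D X : ℕ) (f : ℤ → ℝ) : 0 ≤ AA D X f := SC_nonneg D fun _ _ => sq_nonneg _

lemma Mo_nonneg (D X k : ℕ) : 0 ≤ Mo D X k := SC_nonneg D fun _ _ => by positivity

lemma RR_nonneg (D X r : ℕ) : 0 ≤ RR D X r := by unfold RR; positivity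

lemma tau_nonneg (w X : ℕ) {d : ℤ} (hd : 0 ≤ d) : 0 ≤ tau w X d := by
  have h1 := om_pos w d
  have h2 : (0 : ℝ) ≤ d := by exact_mod_cast hd
  have h3 := Real.log_natCast_nonneg X
  unfold tau; positivity

lemma SLF.mono {W L D X r : ℕ} {ν : ℤ → ℝ} {ε ε' : ℝ} (h : SLF W L D X r ν ε) (he : ε ≤ ε') :
    SLF W L D X r ν ε' := fun j hj u v hu hv hc => (h j hj u v hu hv hc).trans (by
  have := RR_nonneg D X r
  gcongr)

/-- powers of the logarithm are negligible -/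
lemma ev_pow (C : ℝ) (a : ℕ) {b : ℝ} (hb : 0 < b) :
    ∀ᶠ L : ℝ in atTop, C * Real.log L ^ a ≤ L ^ b := by
  have h := (isLittleO_log_rpow_rpow_atTop (a : ℝ) hb).bound (c := (|C| + 1)⁻¹) (by positivity)
  filter_upwards [h, eventually_ge_atTop 1] with L h1 h2
  have h3 := Real.log_nonneg h2
  rw [Real.rpow_natCast, Real.norm_of_nonneg (by positivity),
    Real.norm_of_nonneg (by positivity), ← div_eq_inv_mul, le_div_iff₀ (by positivity)] at h1
  have h4 : 0 ≤ Real.log L ^ a := by positivity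
  nlinarith [le_abs_self C]

lemma ev_log (C : ℝ) : ∀ᶠ L : ℝ in atTop, C ≤ Real.log L :=
  Real.tendsto_log_atTop.eventually_ge_atTop C

lemma kap_le {w : ℕ} {L : ℝ} (hL : 3 ≤ L) (hw : (w : ℝ) ≤ L) : kap w ≤ 300 * Real.log L := by
  have h0 : 3 ≤ ⌊L⌋₊ := Nat.le_floor (by exact_mod_cast hL)
  have h1 : kap w ≤ kap ⌊L⌋₊ := by
    refine inv_anti₀ (V_pos fun _ => Nat.prime_of_mem_primesLE)
      (V_anti (fun _ => Nat.prime_of_mem_primesLE) fun p hp => ?_)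
    rw [Nat.mem_primesLE] at hp ⊢
    exact ⟨hp.1.trans (Nat.le_floor hw), hp.2⟩
  have h2 := prod_primesLE_le h0
  rw [← kap_eq_prod] at h2
  have h3 : Real.log (⌊L⌋₊ : ℕ) ≤ Real.log L :=
    Real.log_le_log (by exact_mod_cast (by omega : 0 < ⌊L⌋₊)) (Nat.floor_le (by linarith))
  have h4 : Real.exp 5 ≤ 150 := by
    have h5 := Real.exp_one_lt_d9
    have h6 : Real.exp 5 = Real.exp 1 ^ 5 := by rw [← Real.exp_nat_mul]; norm_num
    rw [h6]
    exact (pow_le_pow_left₀ (Real.exp_pos 1).le h5.le 5).trans (by norm_num)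
  have h7 := Real.log_natCast_nonneg ⌊L⌋₊
  nlinarith [Real.exp_pos 5]

/-- factorials of small numbers are small -/
lemma fact_small : ∀ᶠ L : ℝ in atTop, ∀ w : ℕ, (w : ℝ) ≤ √L →
    (w.factorial : ℝ) ≤ Real.exp (L / 100) := by
  filter_upwards [ev_pow 100 1 (b := 1 / 2) (by norm_num), eventually_ge_atTop 1] with L h1 h2 w hw
  rw [pow_one, ← Real.sqrt_eq_rpow] at h1
  have h3 : √L ≤ L := by
    rw [Real.sqrt_le_left (by linarith)]; nlinarith
  have h4 : (w.factorial : ℝ) ≤ (w : ℝ) ^ w := by exact_mod_cast Nat.factorial_le_pow w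
  have h5 : (w : ℝ) ^ w ≤ L ^ w := pow_le_pow_left₀ (Nat.cast_nonneg w) (hw.trans h3) w
  have h6 : L ^ w = Real.exp (w * Real.log L) := by
    rw [Real.exp_nat_mul, Real.exp_log (by linarith)]
  have h7 := Real.log_nonneg h2
  have h8 := Real.mul_self_sqrt (show 0 ≤ L by linarith)
  have h9 := Real.sqrt_nonneg L
  refine h4.trans (h5.trans (h6.le.trans (Real.exp_le_exp.2 ?_)))
  nlinarith [mul_le_mul_of_nonneg_right hw h7]

lemma Rg.exp_le {L : ℝ} {D X : ℕ} (h : Rg L D X) (hL : 0 < L) : Real.exp (L / 2) ≤ D := by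
  have h1 := h.lo
  rcases Nat.eq_zero_or_pos D with rfl | hD
  · simp at h1; linarith
  · exact (Real.le_log_iff_exp_le (by exact_mod_cast hD)).1 h1

lemma Rg.pos {L : ℝ} {D X : ℕ} (h : Rg L D X) (hL : 0 < L) : 0 < D := by
  have := (Real.exp_pos _).trans_le (h.exp_le hL)
  exact_mod_cast this

lemma Rg.le_exp {L : ℝ} {D X : ℕ} (h : Rg L D X) (hL : 0 < L) : (D : ℝ) ≤ Real.exp L :=
  (Real.log_le_iff_le_exp (by exact_mod_cast h.pos hL)).1 h.hi

lemma Rg.Q_le {L : ℝ} {D X : ℕ} (h : Rg L D X) (hL : 0 < L) :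
    ((X / D : ℕ) : ℝ) ≤ L * Real.log L := by
  have hD : (0 : ℝ) < D := by exact_mod_cast h.pos hL
  refine Nat.cast_div_le.trans ?_
  rw [div_le_iff₀ hD]
  linarith [h.x2]

lemma Rg.log_ge {L : ℝ} {D X : ℕ} (h : Rg L D X) (hL : 0 < L) : L / 2 ≤ Real.log X :=
  h.lo.trans (Real.log_le_log (by exact_mod_cast h.pos hL) (by exact_mod_cast h.x1))

end Pool.Agent.Lib.MP_458f0b_nt.Grow
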