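import Pool.Agent.Lib.MP_458f0b_nt.Grow.Defs

open Finset Filter Topology

namespace Pool.Agent.Lib.MP_458f0b_nt.Grow

open Pool.Agent.Lib.MP_458f0b_nt.Pois

lemma dual_card (X : ℕ) (d n : ℤ) :
    (((Icc (1 : ℤ) X).filter
      (fun m => d ∣ m - n ∧ m.natAbs.Prime ∧ (X : ℤ) < m ^ 2)).erase n).card =
        Nc X d n - e1 X n := by
  unfold Nc e1
  split_ifs with h
  · exact Finset.card_erase_of_mem
      (mem_filter.2 ⟨mem_Icc.2 ⟨h.1, h.2.1⟩, by simp, h.2.2⟩)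
  · rw [Finset.erase_eq_of_notMem, Nat.sub_zero]
    intro h'
    obtain ⟨h1, -, h2⟩ := mem_filter.1 h'
    exact h ⟨(mem_Icc.1 h1).1, (mem_Icc.1 h1).2, h2⟩

lemma dual_fixed {D : ℕ} (hD : 0 < D) (X r : ℕ) {n : ℤ} (hn : n ∈ Icc (1 : ℤ) X) {d : ℤ}
    (hd : (D : ℤ) ≤ d) :
    ∑ q ∈ inj (Fin r) (X / D), ∏ i, pi1 X (n + q i * d) =
      (((Nc X d n - e1 X n).descFactorial r : ℕ) : ℝ) := by
  classical
  have hd0 : 0 < d := lt_of_lt_of_le (by exact_mod_cast hD) hd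
  rw [← dual_card]
  obtain ⟨S, hS⟩ : ∃ S, S = ((Icc (1 : ℤ) X).filter
    (fun m => d ∣ m - n ∧ m.natAbs.Prime ∧ (X : ℤ) < m ^ 2)).erase n := ⟨_, rfl⟩
  have hmem : ∀ m, m ∈ S ↔ m ≠ n ∧ (1 ≤ m ∧ m ≤ X) ∧ d ∣ m - n ∧ m.natAbs.Prime ∧
      (X : ℤ) < m ^ 2 := by
    intro m
    rw [hS, mem_erase, mem_filter, mem_Icc]
  rw [← hS]
  have h1 : ∀ q ∈ inj (Fin r) (X / D), ∏ i, pi1 X (n + q i * d) =
      if ∀ i, n + q i * d ∈ S then (1 : ℝ) else 0 := by
    intro q hq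
    split_ifs with h
    · refine Finset.prod_eq_one fun i _ => ?_
      obtain ⟨-, h2, -, h3⟩ := (hmem _).1 (h i)
      rw [pi1_eq, if_pos ⟨h2.1, h2.2, h3⟩]
    · obtain ⟨i, hi⟩ := not_forall.mp h
      refine Finset.prod_eq_zero (Finset.mem_univ i) ?_
      rw [pi1_eq, if_neg]
      intro h'
      refine hi ((hmem _).2 ⟨fun e => ?_, ⟨h'.1, h'.2.1⟩, ⟨q i, by ring⟩, h'.2.2⟩)
      have h2 : q i * d = 0 := by linarith
      exact (mem_inj.1 hq).2.2 i ((mul_eq_zero.mp h2).resolve_right hd0.ne')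
  rw [Finset.sum_congr rfl h1, ← Finset.sum_filter, Finset.sum_const, nsmul_eq_mul, mul_one]
  congr 1
  have hc : S.card.descFactorial r = (Finset.univ : Finset (Fin r ↪ S)).card := by
    rw [Finset.card_univ, Fintype.card_embedding_eq, Fintype.card_fin, Fintype.card_coe]
  rw [hc]
  symm
  have hn' := mem_Icc.1 hn
  refine Finset.card_bij (fun e _ => fun i => ((e i : ℤ) - n) / d) ?_ ?_ ?_
  · intro e _
    have he := fun i => (hmem _).mp (e i).2
    have h2 : ∀ i, ((e i : ℤ) - n) / d * d = (e i : ℤ) - n := fun i =>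
      Int.ediv_mul_cancel (he i).2.2.1
    refine mem_filter.2 ⟨mem_inj.2 ⟨fun i => ?_, fun i j hij => ?_, fun i hi => ?_⟩, fun i => ?_⟩
    · refine tup_abs_le hD hd ?_ ?_
      · rw [h2]
        have := (he i).2.1
        omega
      · rw [h2]
        have := (he i).2.1
        omega
    · have h4 : ((e i : ℤ) - n) / d * d = ((e j : ℤ) - n) / d * d := congrArg (· * d) hij
      rw [h2, h2] at h4
      exact e.injective (Subtype.ext (by omega))
    · have h4 : ((e i : ℤ) - n) / d * d = 0 * d := congrArg (· * d) hi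
      rw [h2] at h4
      exact (he i).1 (by omega)
    · show n + ((e i : ℤ) - n) / d * d ∈ S
      rw [h2, add_sub_cancel]
      exact (e i).2
  · intro e _ e' _ h
    ext i
    have h4 : ((e i : ℤ) - n) / d * d = ((e' i : ℤ) - n) / d * d :=
      congrArg (· * d) (congrFun h i)
    rw [Int.ediv_mul_cancel ((hmem _).mp (e i).2).2.2.1,
      Int.ediv_mul_cancel ((hmem _).mp (e' i).2).2.2.1] at h4
    omega
  · intro q hq
    obtain ⟨hq1, hq2⟩ := mem_filter.1 hq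
    refine ⟨⟨fun i => ⟨n + q i * d, hq2 i⟩, fun i j hij => (mem_inj.1 hq1).2.1 ?_⟩,
      Finset.mem_univ _, funext fun i => ?_⟩
    · have h4 : n + q i * d = n + q j * d := congrArg Subtype.val hij
      exact mul_right_cancel₀ hd0.ne' (by linarith)
    · show (n + q i * d - n) / d = q i
      rw [add_sub_cancel_left, Int.mul_ediv_cancel _ hd0.ne']

theorem Dl_eq {D : ℕ} (hD : 0 < D) (X r : ℕ) (u : ℤ → ℝ) {n : ℤ} (hn : n ∈ Icc (1 : ℤ) X) :
    Dl D X r u n =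
      ∑ d ∈ Ico (D : ℤ) (2 * D), u d * (((Nc X d n - e1 X n).descFactorial r : ℕ) : ℝ) := by
  unfold Dl line
  refine Finset.sum_congr rfl fun d hd => ?_
  rw [dual_fixed hD X r hn (mem_Ico.1 hd).1]

theorem abs_Dl_le (D X r : ℕ) {u : ℤ → ℝ} (hu : ∀ d, |u d| ≤ 1) (n : ℤ) :
    |Dl D X r u n| ≤ RR D X r := by
  unfold Dl line RR
  have h1 : ((inj (Fin r) (X / D)).card : ℝ) ≤ (2 * ((X / D : ℕ) : ℝ) + 1) ^ r := by
    have h : (inj (Fin r) (X / D)).card ≤ (2 * (X / D) + 1) ^ r := by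
      refine (Finset.card_le_card (t := Fintype.piFinset fun _ : Fin r =>
        Icc (-((X / D : ℕ) : ℤ)) (X / D : ℕ)) fun q hq => ?_).trans ?_
      · exact Fintype.mem_piFinset.2 fun i => mem_Icc.2 ((mem_inj.1 hq).1 i)
      · rw [Fintype.card_piFinset, Finset.prod_const, Finset.card_univ, Fintype.card_fin,
          Int.card_Icc]
        refine Nat.pow_le_pow_left ?_ r
        generalize X / D = Q
        omega
    exact_mod_cast h
  have h2 : ∀ d ∈ Ico (D : ℤ) (2 * D),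
      |u d * ∑ q ∈ inj (Fin r) (X / D), ∏ _i : Fin r, pi1 X (n + q _i * d)| ≤
        (2 * ((X / D : ℕ) : ℝ) + 1) ^ r := by
    intro d _
    rw [abs_mul]
    refine (mul_le_of_le_one_left (abs_nonneg _) (hu d)).trans ?_
    refine (Finset.abs_sum_le_sum_abs _ _).trans (le_trans ?_ h1)
    refine (Finset.sum_le_card_nsmul _ _ 1 fun q _ => ?_).trans (by simp)
    rw [Finset.abs_prod]
    exact Finset.prod_le_one (fun _ _ => abs_nonneg _) fun _ _ => abs_pi1_le X _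
  refine (Finset.abs_sum_le_sum_abs _ _).trans ((Finset.sum_le_card_nsmul _ _ _ h2).trans ?_)
  rw [nsmul_eq_mul, Int.card_Ico]
  refine mul_le_mul_of_nonneg_right ?_ (by positivity)
  have h3 : (2 * (D : ℤ) - D).toNat ≤ 2 * D := by omega
  exact_mod_cast h3

end Pool.Agent.Lib.MP_458f0b_nt.Grow
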