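import Pool.Agent.Lib.MP_458f0b_nt.Grow.Defs

open Finset Filter Topology

namespace Pool.Agent.Lib.MP_458f0b_nt.Grow

open Pool.Agent.Lib.MP_458f0b_nt.Pois

/-- the factorial moment of one modulus -/
noncomputable def teleM (w X d r : ℕ) : ℝ :=
  ((∑ a ∈ Ad w d, (cnt X d a).descFactorial r : ℕ) : ℝ)

lemma tele_pair {w D X r : ℕ} (hw : w ^ 2 ≤ X) (u : ℤ → ℝ) :
    Pair D X (r + 1) u (fun _ _ => 1) -
        Pair D X r u (fun d a => if Cop w d a then tau w X d else 0) =
      ∑ d ∈ Ico D (2 * D), u d * (teleM w X d (r + 1) - tau w X d * teleM w X d r) := by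
  unfold Pair
  rw [SC_nat, SC_nat, ← Finset.sum_sub_distrib]
  refine Finset.sum_congr rfl fun d _ => ?_
  unfold teleM
  rw [fixed_mom hw, Mom, Ad, Finset.sum_filter]
  push_cast
  rw [mul_sub, Finset.mul_sum, Finset.mul_sum, Finset.mul_sum]
  congr 1
  · refine Finset.sum_congr rfl fun a ha => ?_
    rw [Nc_eq_cnt X (mem_range.1 ha), mul_one]
  · refine Finset.sum_congr rfl fun a ha => ?_
    rw [Nc_eq_cnt X (mem_range.1 ha)]
    split_ifs <;> ring

lemma tele_step {w D X r : ℕ} (hw : w ^ 2 ≤ X) {δ : ℝ}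
    (h : ∀ u : ℤ → ℝ, (∀ d, |u d| ≤ 1) →
      |Pair D X (r + 1) u (fun _ _ => 1) -
        Pair D X r u (fun d a => if Cop w d a then tau w X d else 0)| ≤ δ)
    (S : Finset ℕ) (hS : S ⊆ Ico D (2 * D)) :
    ∑ d ∈ S, |teleM w X d (r + 1) - tau w X d * teleM w X d r| ≤ δ := by
  let e : ℕ → ℝ := fun d => teleM w X d (r + 1) - tau w X d * teleM w X d r
  let u : ℤ → ℝ := fun d => if 0 ≤ e d.toNat then 1 else -1
  have hu : ∀ d, |u d| ≤ 1 := fun d => by
    simp only [u]; split_ifs <;> simp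
  have h1 := h u hu
  rw [tele_pair hw] at h1
  refine le_trans ?_ ((le_abs_self _).trans h1)
  refine (Finset.sum_le_sum_of_subset_of_nonneg hS fun _ _ _ => abs_nonneg _).trans
    (le_of_eq (Finset.sum_congr rfl fun d _ => ?_))
  change |e d| = u d * e d
  simp only [u, Int.toNat_natCast]
  split_ifs with h2
  · rw [abs_of_nonneg h2, one_mul]
  · rw [abs_of_neg (not_le.1 h2), neg_one_mul]

theorem tele {w D X m : ℕ} (hw : w ^ 2 ≤ X) {δ B : ℝ} (hδ : 0 ≤ δ) (hB : 1 ≤ B)
    (h : ∀ r < m, ∀ u : ℤ → ℝ, (∀ d, |u d| ≤ 1) →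
      |Pair D X (r + 1) u (fun _ _ => 1) -
        Pair D X r u (fun d a => if Cop w d a then tau w X d else 0)| ≤ δ)
    (S : Finset ℕ) (hS : S ⊆ Ico D (2 * D)) (hτ : ∀ d ∈ S, tau w X d ≤ B) {r : ℕ} (hr : r ≤ m) :
    ∑ d ∈ S, |((∑ a ∈ Ad w d, (cnt X d a).descFactorial r : ℕ) : ℝ) -
      (Ad w d).card * tau w X d ^ r| ≤ r * B ^ r * δ := by
  change ∑ d ∈ S, |teleM w X d r - (Ad w d).card * tau w X d ^ r| ≤ _
  induction r with
  | zero => simp [teleM]
  | succ r ih =>
    have h1 := ih (by omega)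
    have h2 := tele_step hw (h r (by omega)) S hS
    have h3 : ∑ d ∈ S, |teleM w X d (r + 1) - (Ad w d).card * tau w X d ^ (r + 1)| ≤
        ∑ d ∈ S, (|teleM w X d (r + 1) - tau w X d * teleM w X d r| +
          B * |teleM w X d r - (Ad w d).card * tau w X d ^ r|) := by
      refine Finset.sum_le_sum fun d hd => ?_
      have h4 : teleM w X d (r + 1) - (Ad w d).card * tau w X d ^ (r + 1) =
          (teleM w X d (r + 1) - tau w X d * teleM w X d r) +
            tau w X d * (teleM w X d r - (Ad w d).card * tau w X d ^ r) := by ring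
      rw [h4]
      refine (abs_add_le _ _).trans (add_le_add le_rfl ?_)
      rw [abs_mul, abs_of_nonneg (tau_nonneg w X (Int.natCast_nonneg d))]
      exact mul_le_mul_of_nonneg_right (hτ d hd) (abs_nonneg _)
    rw [Finset.sum_add_distrib, ← Finset.mul_sum] at h3
    have h5 : 1 ≤ B ^ (r + 1) := one_le_pow₀ hB
    have h6 := mul_le_mul_of_nonneg_left h1 (show 0 ≤ B by linarith)
    have h7 := mul_le_mul_of_nonneg_right h5 hδ
    push_cast
    calc _ ≤ δ + B * (r * B ^ r * δ) := by linarith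
      _ ≤ B ^ (r + 1) * δ + B * (r * B ^ r * δ) := by linarith
      _ = _ := by ring

end Pool.Agent.Lib.MP_458f0b_nt.Grow
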