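import Pool.Agent.Lib.MP_458f0b_nt.Grow.OneStep
import Pool.Agent.Lib.MP_458f0b_nt.Grow.Tele
import Pool.Agent.Lib.MP_458f0b_nt.Grow.BonfX

open Finset Filter Topology

namespace Pool.Agent.Lib.MP_458f0b_nt.Grow

open Pool.Agent.Lib.MP_458f0b_nt.Pois

/-- one modulus: divide the sharp inequality by the number of classes -/
lemma fixedX_one {w D X n d : ℕ} (hD : 0 < D) (hd : D ≤ d) (hτ : 20 * tau w X d ≤ n) :
    ∑ k ∈ range n, |(((Ad w d).filter (fun a => cnt X d a = k)).card : ℝ) / (d * om w d) -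
      pois (tau w X d) k| ≤ 3 * Real.exp (-(n : ℝ)) + n * (kap w / D) * ∑ j ∈ range (2 * n),
        |((∑ a ∈ Ad w d, (cnt X d a).descFactorial j : ℕ) : ℝ) -
          (Ad w d).card * tau w X d ^ j| := by
  have h1 := bonf_sharp (Ad w d) (cnt X d) n (tau_nonneg w X (Int.natCast_nonneg d)) hτ
  have hD' : (0 : ℝ) < D := by exact_mod_cast hD
  have hd' : (D : ℝ) ≤ d := by exact_mod_cast hd
  have ho := om_pos w d
  have hy : (0 : ℝ) < d * om w d := mul_pos (hD'.trans_le hd') ho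
  have hE : 0 ≤ ∑ j ∈ range (2 * n),
      |((∑ a ∈ Ad w d, (cnt X d a).descFactorial j : ℕ) : ℝ) - (Ad w d).card * tau w X d ^ j| :=
    Finset.sum_nonneg fun _ _ => abs_nonneg _
  have h2 : (d * om w d)⁻¹ ≤ kap w / D := by
    rw [mul_inv, div_eq_mul_inv, mul_comm (kap w)]
    exact mul_le_mul (inv_anti₀ hD' hd') (inv_om_le w d) (inv_nonneg.2 ho.le)
      (inv_nonneg.2 hD'.le)
  generalize ∑ j ∈ range (2 * n),
      |((∑ a ∈ Ad w d, (cnt X d a).descFactorial j : ℕ) : ℝ) - (Ad w d).card * tau w X d ^ j| = E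
    at h1 hE ⊢
  rw [card_Ad] at h1
  have h3 : ∑ k ∈ range n, |(((Ad w d).filter (fun a => cnt X d a = k)).card : ℝ) /
      (d * om w d) - pois (tau w X d) k| = (d * om w d)⁻¹ * ∑ k ∈ range n,
        |(((Ad w d).filter (fun a => cnt X d a = k)).card : ℝ) -
          d * om w d * pois (tau w X d) k| := by
    rw [Finset.mul_sum]
    refine Finset.sum_congr rfl fun k _ => ?_
    rw [← abs_of_pos (inv_pos.2 hy), ← abs_mul]
    congr 1
    rw [mul_sub, ← mul_assoc, inv_mul_cancel₀ hy.ne', one_mul, div_eq_inv_mul]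
  rw [h3]
  refine (mul_le_mul_of_nonneg_left h1 (inv_pos.2 hy).le).trans ?_
  have h4 : (d * om w d)⁻¹ * (3 * Real.exp (-(n : ℝ)) * (d * om w d) + n * E) =
      3 * Real.exp (-(n : ℝ)) + n * (d * om w d)⁻¹ * E := by
    have h5 := inv_mul_cancel₀ hy.ne'
    linear_combination 3 * Real.exp (-(n : ℝ)) * h5
  rw [h4]
  have hn : (0 : ℝ) ≤ n := Nat.cast_nonneg n
  gcongr

/-- the empty range -/
lemma fixedX_zero (w d r : ℕ) :
    |((∑ a ∈ Ad w d, (cnt 0 d a).descFactorial r : ℕ) : ℝ) - (Ad w d).card * tau w 0 d ^ r| =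
      0 := by
  have h1 : ∀ a, cnt 0 d a = 0 := fun a => by simp [cnt]
  have h2 : tau w 0 d = 0 := by simp [tau]
  rw [h2, abs_eq_zero]
  rcases r with _ | r
  · simp
  · simp [h1]

theorem fixed_height : ∃ c : ℝ, 0 < c ∧ c ≤ 1 / 100 ∧ ∀ᶠ L : ℝ in atTop, ∃ w : ℕ,
    L ^ c ≤ w ∧ (w : ℝ) ≤ √L ∧ ∀ (D X n : ℕ) (S : Finset ℕ), 0 < D → (X = 0 ∨ Rg L D X) →
      n * Real.log (Real.log L) ≤ c * Real.log L → S ⊆ Ico D (2 * D) →
      (∀ d ∈ S, 20 * tau w X d ≤ n) →
      ∑ d ∈ S, ∑ k ∈ range n,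
        |(((Ad w d).filter (fun a => cnt X d a = k)).card : ℝ) / (d * om w d) -
          pois (tau w X d) k| ≤ 3 * Real.exp (-(n : ℝ)) * S.card + D * L ^ (-c) := by
  obtain ⟨c, hc0, hc1, hev⟩ := one_step
  refine ⟨c / 4, by positivity, by linarith, ?_⟩
  filter_upwards [hev, ev_pow 1200 4 (b := c / 4) (by positivity), ev_log 3,
    eventually_ge_atTop 3] with L ⟨w, hw1, hw2, hw3⟩ h4 ht hL
  have hL0 : 0 < L := by linarith
  have hlt : 1 ≤ Real.log (Real.log L) := by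
    rw [Real.le_log_iff_exp_le (by linarith)]
    exact (Real.exp_one_lt_d9.le.trans (by norm_num)).trans ht
  refine ⟨w, (Real.rpow_le_rpow_of_exponent_le (by linarith) (by linarith)).trans hw1, hw2, ?_⟩
  intro D X n S hD hX hn hS hτ
  have hn0 : (0 : ℝ) ≤ n := Nat.cast_nonneg n
  have hD' : (0 : ℝ) < D := by exact_mod_cast hD
  have hnt : (n : ℝ) ≤ Real.log L := by nlinarith
  have hδ : 0 ≤ (D : ℝ) ^ 2 * L ^ (-c) := by positivity
  have hsq : √L ≤ L := by
    rw [Real.sqrt_le_left (by linarith)]; nlinarith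
  have key : ∀ r ≤ 2 * n, ∑ d ∈ S, |((∑ a ∈ Ad w d, (cnt X d a).descFactorial r : ℕ) : ℝ) -
      (Ad w d).card * tau w X d ^ r| ≤ r * Real.log L ^ r * ((D : ℝ) ^ 2 * L ^ (-c)) := by
    intro r hr
    rcases hX with rfl | hX
    · simp only [fixedX_zero, Finset.sum_const_zero]
      positivity
    · have hwX : w ^ 2 ≤ X := by
        have h5 : (w : ℝ) ^ 2 ≤ L := by
          have := pow_le_pow_left₀ (Nat.cast_nonneg w) hw2 2
          rwa [Real.sq_sqrt hL0.le] at this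
        have h6 : L ≤ Real.exp (L / 2) := by
          have h7 := Real.add_one_le_exp (L / 4)
          have h8 : Real.exp (L / 2) = Real.exp (L / 4) ^ 2 := by
            rw [← Real.exp_nat_mul]; congr 1; push_cast; ring
          have h9 := pow_le_pow_left₀ (by linarith) h7 2
          rw [h8]
          nlinarith [sq_nonneg (1 - L / 4)]
        have h10 : (D : ℝ) ≤ X := by exact_mod_cast hX.x1
        have : (w : ℝ) ^ 2 ≤ X := h5.trans (h6.trans ((hX.exp_le hL0).trans h10))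
        exact_mod_cast this
      refine tele (m := 2 * n) hwX hδ (by linarith) (fun r' hr' u hu => hw3 D X r' u hX ?_ hu) S hS
        (fun d hd => ?_) hr
      · have h5 : (r' : ℝ) ≤ 2 * n := by exact_mod_cast hr'.le
        nlinarith
      · linarith [hτ d hd]
  have hpow : Real.log L ^ (2 * n) ≤ L ^ (c / 2) := by
    rw [Real.rpow_def_of_pos hL0, ← Real.exp_log (show 0 < Real.log L by linarith),
      ← Real.exp_nat_mul, Real.exp_log (show 0 < Real.log L by linarith)]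
    refine Real.exp_le_exp.2 ?_
    push_cast
    nlinarith
  have hk := kap_le hL (hw2.trans hsq)
  have hk0 := kap_pos w
  have h5 : ∑ j ∈ range (2 * n), ∑ d ∈ S,
      |((∑ a ∈ Ad w d, (cnt X d a).descFactorial j : ℕ) : ℝ) - (Ad w d).card * tau w X d ^ j| ≤
      (2 * n) * ((2 * n) * L ^ (c / 2) * ((D : ℝ) ^ 2 * L ^ (-c))) := by
    refine (Finset.sum_le_card_nsmul _ _ ((2 * n) * L ^ (c / 2) * ((D : ℝ) ^ 2 * L ^ (-c)))
      fun j hj => ?_).trans ?_
    · have hj' : j ≤ 2 * n := (mem_range.1 hj).le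
      refine (key j hj').trans (mul_le_mul_of_nonneg_right ?_ hδ)
      have h6 : (j : ℝ) ≤ 2 * n := by exact_mod_cast hj'
      have h7 : Real.log L ^ j ≤ Real.log L ^ (2 * n) := pow_le_pow_right₀ (by linarith) hj'
      exact mul_le_mul h6 (h7.trans hpow) (by positivity) (by positivity)
    · rw [card_range, nsmul_eq_mul]
      push_cast
      exact le_rfl
  refine (Finset.sum_le_sum fun d hd =>
    fixedX_one hD (mem_Ico.1 (hS hd)).1 (hτ d hd)).trans ?_
  rw [Finset.sum_add_distrib, Finset.sum_const, nsmul_eq_mul, ← Finset.mul_sum, Finset.sum_comm,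
    mul_comm (S.card : ℝ)]
  refine add_le_add le_rfl ((mul_le_mul_of_nonneg_left h5 (by positivity)).trans ?_)
  have h6 : (n : ℝ) * (kap w / D) * ((2 * n) * ((2 * n) * L ^ (c / 2) *
      ((D : ℝ) ^ 2 * L ^ (-c)))) = (4 * n ^ 3 * kap w) * (D * (L ^ (c / 2) * L ^ (-c))) := by
    field_simp
    ring
  have h7 : 4 * (n : ℝ) ^ 3 * kap w ≤ L ^ (c / 4) := by
    refine le_trans ?_ h4
    have h8 : (n : ℝ) ^ 3 ≤ Real.log L ^ 3 := pow_le_pow_left₀ hn0 hnt 3
    calc 4 * (n : ℝ) ^ 3 * kap w ≤ 4 * Real.log L ^ 3 * (300 * Real.log L) := by gcongr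
      _ = 1200 * Real.log L ^ 4 := by ring
  rw [h6]
  calc 4 * (n : ℝ) ^ 3 * kap w * (D * (L ^ (c / 2) * L ^ (-c)))
      ≤ L ^ (c / 4) * (D * (L ^ (c / 2) * L ^ (-c))) := by gcongr
    _ = D * (L ^ (c / 4) * L ^ (c / 2) * L ^ (-c)) := by ring
    _ = D * L ^ (-(c / 4)) := by
      rw [← Real.rpow_add hL0, ← Real.rpow_add hL0]
      congr 2
      ring

end Pool.Agent.Lib.MP_458f0b_nt.Grow
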