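import Pool.Agent.Lib.MP_458f0b_nt.Grow.SW5

/-! The prime number theorem in progressions, uniform for moduli up to a small power of the
logarithm, with a power of the logarithm saved. -/

open Finset Filter Topology

namespace Pool.Agent.Lib.MP_458f0b_nt.Grow

lemma sw_log : ∃ C : ℝ, 0 < C ∧ ∀ᶠ X : ℕ in atTop,
    ∑ p ∈ (Icc 1 X).filter Nat.Prime, (Real.log X - Real.log p) ≤ C / Real.log X * X := by
  obtain ⟨C, hC0, hC⟩ := Chebyshev.primeCounting_sub_theta_div_log_isBigO.exists_pos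
  refine ⟨C, hC0, ?_⟩
  filter_upwards [tendsto_natCast_atTop_atTop.eventually hC.bound, eventually_ge_atTop 2]
    with X hX h2X
  have hX1 : (1 : ℝ) < X := by exact_mod_cast h2X
  have hl : 0 < Real.log X := Real.log_pos hX1
  have e1 : (Icc 1 X).filter Nat.Prime = Nat.primesLE X := by
    ext p
    simp only [mem_filter, mem_Icc, Nat.mem_primesLE]
    exact ⟨fun h => ⟨h.1.2, h.2⟩, fun h => ⟨⟨h.2.one_lt.le, h.1⟩, h.2⟩⟩
  rw [e1, sum_sub_distrib, sum_const, Nat.primesLE_card_eq_primeCounting, nsmul_eq_mul,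
    ← Chebyshev.theta_eq_sum_primesLE_log]
  rw [Nat.floor_natCast, Real.norm_eq_abs, Real.norm_eq_abs,
    abs_of_nonneg (show 0 ≤ (X : ℝ) / Real.log X ^ 2 by positivity)] at hX
  have h3 := (abs_le.1 hX).2
  have h4 : (Nat.primeCounting X : ℝ) * Real.log X - Chebyshev.theta X
      = ((Nat.primeCounting X : ℝ) - Chebyshev.theta X / Real.log X) * Real.log X := by
    field_simp
  rw [h4]
  calc _ ≤ C * ((X : ℝ) / Real.log X ^ 2) * Real.log X := mul_le_mul_of_nonneg_right h3 hl.le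
    _ = C / Real.log X * X := by field_simp

lemma sw_small : ∃ C : ℝ, 0 < C ∧ ∀ X : ℕ,
    ∑ n ∈ (Icc 1 X).filter (fun n => ¬n.Prime), ArithmeticFunction.vonMangoldt n
      + ∑ p ∈ (Icc 1 X).filter (fun p => p.Prime ∧ p ^ 2 ≤ X), Real.log p ≤ C * √(X : ℝ) := by
  obtain ⟨C, hC⟩ := Chebyshev.psi_sub_theta_le_mul_sqrt
  refine ⟨|C| + Real.log 4, by positivity, fun X => ?_⟩
  have h1 := hC X
  rw [Chebyshev.psi_sub_theta_eq_sum_not_prime, Nat.floor_natCast] at h1
  have e0 : Icc 1 X = Ioc 0 X := by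
    ext n
    simp only [mem_Icc, mem_Ioc]
    omega
  have h2 := Chebyshev.theta_le_log4_mul_x (x := (Nat.sqrt X : ℝ)) (by positivity)
  rw [Chebyshev.theta_eq_sum_primesLE_log] at h2
  have e1 : (Icc 1 X).filter (fun p => p.Prime ∧ p ^ 2 ≤ X) = Nat.primesLE (Nat.sqrt X) := by
    ext p
    simp only [mem_filter, mem_Icc, Nat.mem_primesLE, Nat.le_sqrt']
    exact ⟨fun h => ⟨h.2.2, h.2.1⟩,
      fun h => ⟨⟨h.2.one_lt.le, (Nat.le_self_pow two_ne_zero p).trans h.1⟩, h.2, h.1⟩⟩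
  have h3 : Real.log 4 * (Nat.sqrt X : ℝ) ≤ Real.log 4 * √(X : ℝ) :=
    mul_le_mul_of_nonneg_left Real.nat_sqrt_le_real_sqrt (Real.log_nonneg (by norm_num))
  have h4 := mul_le_mul_of_nonneg_right (le_abs_self C) (Real.sqrt_nonneg (X : ℝ))
  rw [e1, e0]
  linarith

lemma sw_conv {q b X y : ℕ} (hy : y ≤ X) {E₁ E₂ : ℝ}
    (h1 : |∑ n ∈ Icc 1 y, ArithmeticFunction.vonMangoldt.residueClass (b : ZMod q) n
      - y * (q.totient : ℝ)⁻¹| ≤ E₁)
    (h2 : ∑ p ∈ (Icc 1 X).filter Nat.Prime, (Real.log X - Real.log p) ≤ E₂)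
    (h3 : ∑ n ∈ (Icc 1 X).filter (fun n => ¬n.Prime), ArithmeticFunction.vonMangoldt n
      + ∑ p ∈ (Icc 1 X).filter (fun p => p.Prime ∧ p ^ 2 ≤ X), Real.log p ≤ E₂) :
    |Real.log X * (((Icc 1 y).filter
      (fun p => p.Prime ∧ X < p ^ 2 ∧ p ≡ b [MOD q])).card : ℝ) - y / q.totient| ≤ E₁ + E₂ := by
  have h4 := abs_le.1 h1
  have hsub : Icc 1 y ⊆ Icc 1 X := Icc_subset_Icc_right hy
  have hcard : Real.log X * (((Icc 1 y).filter
      (fun p => p.Prime ∧ X < p ^ 2 ∧ p ≡ b [MOD q])).card : ℝ)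
      = ∑ n ∈ Icc 1 y, if n.Prime ∧ X < n ^ 2 ∧ n ≡ b [MOD q] then Real.log X else 0 := by
    rw [← sum_filter, sum_const, nsmul_eq_mul, mul_comm]
  have hrc : ∀ n : ℕ, ArithmeticFunction.vonMangoldt.residueClass (b : ZMod q) n
      = if n ≡ b [MOD q] then ArithmeticFunction.vonMangoldt n else 0 := by
    intro n
    simp only [ArithmeticFunction.vonMangoldt.residueClass, Set.indicator_apply, Set.mem_ofPred_eq,
      ZMod.natCast_eq_natCast_iff]
  have hlog : ∀ n ∈ Icc 1 X, 0 ≤ Real.log n ∧ Real.log n ≤ Real.log X := by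
    intro n hn
    obtain ⟨hn1, hn2⟩ := mem_Icc.1 hn
    have h5 : (1 : ℝ) ≤ n := by exact_mod_cast hn1
    exact ⟨Real.log_nonneg h5, Real.log_le_log (by linarith) (by exact_mod_cast hn2)⟩
  have hup : (∑ n ∈ Icc 1 y, if n.Prime ∧ X < n ^ 2 ∧ n ≡ b [MOD q] then Real.log X else 0)
      - ∑ n ∈ Icc 1 y, ArithmeticFunction.vonMangoldt.residueClass (b : ZMod q) n
      ≤ E₂ := by
    refine le_trans ?_ h2
    rw [← sum_sub_distrib, sum_filter]
    refine le_trans (sum_le_sum fun n hn => ?_) (sum_le_sum_of_subset_of_nonneg hsub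
      fun n hn _ => ?_)
    · have h5 := hlog n (hsub hn)
      have h6 : 0 ≤ ArithmeticFunction.vonMangoldt n := ArithmeticFunction.vonMangoldt_nonneg
      rw [hrc]
      by_cases hp : n.Prime
      · rw [ArithmeticFunction.vonMangoldt_apply_prime hp]
        by_cases hm : n ≡ b [MOD q] <;> by_cases hx : X < n ^ 2 <;> simp [hp, hm, hx] <;> linarith
      · by_cases hm : n ≡ b [MOD q] <;> simp [hp, hm, h6]
    · have h5 := hlog n hn
      split_ifs
      · linarith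
      · exact le_rfl
  have hlo : ∑ n ∈ Icc 1 y, ArithmeticFunction.vonMangoldt.residueClass (b : ZMod q) n
      - (∑ n ∈ Icc 1 y, if n.Prime ∧ X < n ^ 2 ∧ n ≡ b [MOD q] then Real.log X else 0)
      ≤ E₂ := by
    refine le_trans ?_ h3
    rw [← sum_sub_distrib, sum_filter, sum_filter, ← sum_add_distrib]
    refine le_trans (sum_le_sum fun n hn => ?_) (sum_le_sum_of_subset_of_nonneg hsub
      fun n hn _ => ?_)
    · have h5 := hlog n (hsub hn)
      have h6 : 0 ≤ ArithmeticFunction.vonMangoldt n := ArithmeticFunction.vonMangoldt_nonneg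
      rw [hrc]
      by_cases hp : n.Prime
      · rw [ArithmeticFunction.vonMangoldt_apply_prime hp]
        rcases lt_or_ge X (n ^ 2) with hx | hx
        · by_cases hm : n ≡ b [MOD q] <;> simp [hp, hm, hx, hx.not_ge, h5.2]
        · by_cases hm : n ≡ b [MOD q] <;> simp [hp, hm, hx, hx.not_gt, h5.1]
      · by_cases hm : n ≡ b [MOD q] <;> simp [hp, hm, h6]
    · have h5 := hlog n hn
      have h6 : 0 ≤ ArithmeticFunction.vonMangoldt n := ArithmeticFunction.vonMangoldt_nonneg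
      split_ifs <;> linarith
  rw [hcard, div_eq_mul_inv, abs_le]
  constructor <;> linarith

/-- prime number theorem in progressions, uniform in the modulus -/
theorem sw_pr : ∃ c : ℝ, 0 < c ∧ c ≤ 1 ∧ ∀ᶠ X : ℕ in atTop, ∀ q b y : ℕ, 1 ≤ q →
    (q : ℝ) ≤ (Real.log X) ^ c → Nat.Coprime b q → y ≤ X →
      |Real.log X * (((Icc 1 y).filter
          (fun p => p.Prime ∧ X < p ^ 2 ∧ p ≡ b [MOD q])).card : ℝ) - y / q.totient|
        ≤ X / (Real.log X) ^ c := by
  obtain ⟨K, v₀, hK, H⟩ := SW.psi_q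
  obtain ⟨C₁, hC₁, H₁⟩ := sw_log
  obtain ⟨C₂, hC₂, H₂⟩ := sw_small
  obtain ⟨C, hC⟩ : ∃ C : ℝ, C = Real.log 4 + 4 := ⟨_, rfl⟩
  have hC0 : 0 < C := by rw [hC]; positivity
  refine ⟨((75 * 300 : ℕ) : ℝ)⁻¹, by positivity, inv_le_one_of_one_le₀ (by norm_num), ?_⟩
  have hw : Tendsto (fun X : ℕ => Real.log X ^ ((75 * 300 : ℕ) : ℝ)⁻¹) atTop atTop :=
    (tendsto_rpow_atTop (by positivity)).comp
      (Real.tendsto_log_atTop.comp tendsto_natCast_atTop_atTop)
  filter_upwards [H₁, hw.eventually_ge_atTop 1, hw.eventually_ge_atTop (2 * v₀),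
    hw.eventually_ge_atTop (2 * K + 2 * (C + 1) + C₁ + 2 * C₂), eventually_ge_atTop 2]
    with X h2 hw1 hw2 hw3 h2X q b y hq hqw hb hy
  have : NeZero q := ⟨by omega⟩
  have hX1 : (1 : ℝ) < X := by exact_mod_cast h2X
  have hX0 : (0 : ℝ) < X := by linarith
  have hl : 0 < Real.log X := Real.log_pos hX1
  have hwL := Real.rpow_inv_natCast_pow hl.le (show 75 * 300 ≠ 0 by norm_num)
  generalize Real.log X ^ ((75 * 300 : ℕ) : ℝ)⁻¹ = w at hw1 hw2 hw3 hqw hwL ⊢
  have hw0 : 0 < w := by linarith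
  have hL : w ^ 2 ≤ Real.log X := hwL ▸ pow_le_pow_right₀ hw1 (by norm_num)
  obtain ⟨Y, hY⟩ : ∃ Y : ℝ, Y = X / w ^ 2 := ⟨_, rfl⟩
  have hY0 : 0 < Y := by rw [hY]; positivity
  have hs0 : 0 < √(X : ℝ) := Real.sqrt_pos.2 hX0
  have hls : Real.log √(X : ℝ) = Real.log X / 2 := Real.log_sqrt hX0.le
  have hs : √(X : ℝ) ≤ 2 * Y := by
    have h1 := Real.log_le_sub_one_of_pos hs0
    have h3 : √(X : ℝ) * √(X : ℝ) = X := Real.mul_self_sqrt hX0.le
    rw [hY, ← mul_div_assoc, le_div_iff₀ (by positivity)]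
    nlinarith
  have hyX : (y : ℝ) ≤ X := by exact_mod_cast hy
  have h1 : |∑ n ∈ Icc 1 y, ArithmeticFunction.vonMangoldt.residueClass (b : ZMod q) n
      - y * (q.totient : ℝ)⁻¹| ≤ (2 * K + 2 * (C + 1)) * Y := by
    rcases le_total (y : ℝ) √(X : ℝ) with h | h
    · have h3 := SW.cheb (b : ZMod q) y
      rw [← hC] at h3
      have h4 : 0 ≤ ∑ n ∈ Icc 1 y, ArithmeticFunction.vonMangoldt.residueClass (b : ZMod q) n :=
        sum_nonneg fun n _ => ArithmeticFunction.vonMangoldt.residueClass_nonneg _ n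
      have h5 := mul_le_of_le_one_right (Nat.cast_nonneg (α := ℝ) y) (SW.tot_inv q).2
      have h6 := mul_nonneg (Nat.cast_nonneg (α := ℝ) y) (SW.tot_inv q).1
      have h7 := mul_le_mul_of_nonneg_left (h.trans hs) hC0.le
      have h8 := mul_pos hK hY0
      have h9 := mul_pos hC0 hY0
      rw [abs_le]
      constructor <;> linarith
    · have hy0 : (0 : ℝ) < y := hs0.trans_le h
      have h3 : Real.log X / 2 ≤ Real.log y := hls ▸ Real.log_le_log hs0 h
      have h4 : (w ^ 75 / 2) ^ 300 ≤ Real.log y := by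
        rw [div_pow, ← pow_mul, hwL]
        exact (div_le_div_of_nonneg_left hl.le two_pos
          (le_self_pow₀ one_le_two (by norm_num))).trans h3
      have h5 : w ≤ w ^ 75 := le_self_pow₀ hw1 (by norm_num)
      have h6 := H q (b : ZMod q) ((ZMod.isUnit_iff_coprime b q).2 hb) (w ^ 75 / 2) y
        (by linarith) hy0 h4
      rw [Nat.floor_natCast] at h6
      have h7 : K * q ^ 73 / (w ^ 75 / 2) ≤ 2 * K / w ^ 2 := by
        calc _ ≤ K * w ^ 73 / (w ^ 75 / 2) := by gcongr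
          _ = _ := by field_simp
      have h8 : ∀ S : ℝ, S - y * (q.totient : ℝ)⁻¹ = y * (S / y - (q.totient : ℝ)⁻¹) :=
        fun S => by field_simp
      rw [h8, abs_mul, abs_of_pos hy0]
      calc _ ≤ X * (2 * K / w ^ 2) := mul_le_mul hyX (h6.trans h7) (abs_nonneg _) hX0.le
        _ = 2 * K * Y := by rw [hY]; ring
        _ ≤ _ := by gcongr; linarith
  have h3 : C₁ / Real.log X * X ≤ C₁ * Y := by
    calc _ ≤ C₁ / w ^ 2 * X := by gcongr
      _ = _ := by rw [hY]; ring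
  have h4 := mul_le_mul_of_nonneg_left hs hC₂.le
  have h5 := mul_pos hC₁ hY0
  have h6 := mul_pos hC₂ hY0
  refine (sw_conv hy h1 (E₂ := (C₁ + 2 * C₂) * Y) (by linarith) (by linarith [H₂ X])).trans ?_
  calc _ = (2 * K + 2 * (C + 1) + C₁ + 2 * C₂) * Y := by ring
    _ ≤ w * Y := by gcongr
    _ = _ := by rw [hY]; field_simp

end Pool.Agent.Lib.MP_458f0b_nt.Grow
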