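import Pool.Agent.Lib.MP_458f0b_nt.Grow.Defs
import Pool.Agent.Lib.MP_458f0b_nt.Grow.SW7

open Finset Filter Topology

namespace Pool.Agent.Lib.MP_458f0b_nt.Grow

open Pool.Agent.Lib.MP_458f0b_nt.Pois

lemma FlatFin_exp (C : ℝ) (n : ℕ) : ∀ᶠ L : ℝ in atTop, C * L ^ n ≤ Real.exp (L / 4) := by
  have h := (isLittleO_pow_exp_pos_mul_atTop n (b := 1 / 4) (by norm_num)).bound
    (c := (|C| + 1)⁻¹) (by positivity)
  filter_upwards [h, eventually_ge_atTop 0] with L h1 h2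
  rw [Real.norm_of_nonneg (by positivity), Real.norm_of_nonneg (by positivity), ← div_eq_inv_mul,
    le_div_iff₀ (by positivity), show 1 / 4 * L = L / 4 by ring] at h1
  have h4 : 0 ≤ L ^ n := by positivity
  nlinarith [le_abs_self C]

lemma FlatFin_half {c : ℝ} (hc : 0 < c) :
    ∀ᶠ L : ℝ in atTop, 4 * L ^ (c / 2) ≤ (L / 2) ^ c := by
  have h : Tendsto (fun L : ℝ => (L / 4) ^ (c / 2)) atTop atTop :=
    (tendsto_rpow_atTop (half_pos hc)).comp (tendsto_id.atTop_div_const (by norm_num))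
  filter_upwards [h.eventually_ge_atTop 4, eventually_ge_atTop 0] with L h1 h2
  have h3 : (L / 2) ^ c = L ^ (c / 2) * (L / 4) ^ (c / 2) := by
    rw [← Real.mul_rpow h2 (by positivity), show L * (L / 4) = (L / 2) ^ (2 : ℝ) by
      rw [Real.rpow_two]; ring, ← Real.rpow_mul (by positivity)]
    congr 1; ring
  have h4 : 0 ≤ L ^ (c / 2) := by positivity
  rw [h3]
  nlinarith

/-- a statement for all large `X` holds for all `X` with `L / 2 ≤ log X`, `L` large -/
lemma FlatFin_large {P : ℕ → Prop} (h : ∀ᶠ X : ℕ in atTop, P X) :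
    ∀ᶠ L : ℝ in atTop, ∀ X : ℕ, Real.exp (L / 2) ≤ X → P X := by
  obtain ⟨X0, hX0⟩ := eventually_atTop.1 h
  filter_upwards [eventually_ge_atTop (2 * (X0 : ℝ))] with L hL X hX
  refine hX0 X ?_
  have h1 := Real.add_one_le_exp (L / 2)
  have h2 : (X0 : ℝ) ≤ X := by linarith
  exact_mod_cast h2

lemma FlatFin_pr (X s b y : ℕ) (hy : y ≤ X) :
    ∑ n ∈ (Icc 1 y).filter (fun n => n ≡ b [MOD s]), pr X (n : ℕ) =
      Real.log X * (((Icc 1 y).filter
        (fun p => p.Prime ∧ X < p ^ 2 ∧ p ≡ b [MOD s])).card : ℝ) := by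
  rw [Finset.sum_filter, Finset.card_filter, Nat.cast_sum, Finset.mul_sum]
  refine Finset.sum_congr rfl fun n hn => ?_
  obtain ⟨hn1, hn2⟩ := mem_Icc.mp hn
  have e1 : (1 : ℤ) ≤ (n : ℤ) := by exact_mod_cast hn1
  have e2 : (n : ℤ) ≤ (X : ℤ) := by exact_mod_cast hn2.trans hy
  have e3 : ((X : ℤ) < (n : ℤ) ^ 2) ↔ X < n ^ 2 := by exact_mod_cast Iff.rfl
  unfold pr
  simp only [Int.natAbs_natCast, e1, e2, e3, true_and]
  by_cases a1 : n ≡ b [MOD s] <;> by_cases a2 : n.Prime <;>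
    by_cases a3 : X < n ^ 2 <;> simp [a1, a2, a3]

lemma FlatFin_class {X w s b y : ℕ} {E : ℝ} (hE : 0 ≤ E) (hs : 1 ≤ s) (hsw : s ≤ w) (hb : b < s)
    (hy : y ≤ X) (hw : w ^ 2 ≤ X)
    (h : Nat.Coprime b s → |Real.log X * (((Icc 1 y).filter
        (fun p => p.Prime ∧ X < p ^ 2 ∧ p ≡ b [MOD s])).card : ℝ) - y / s.totient| ≤ E) :
    |∑ n ∈ (Icc (1 : ℤ) y).filter (fun n : ℤ => n % s = b), (pr X n - nu0 w n)| ≤
      E + kap w * (w.factorial + 1) := by
  have hs' : (1 : ℤ) ≤ s := by exact_mod_cast hs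
  have hc := class_sum w y hs' b
  have hf : (Icc (1 : ℤ) y).filter (fun n : ℤ => (s : ℤ) ∣ n - b) =
      (Icc (1 : ℤ) y).filter (fun n : ℤ => n % s = b) := by
    refine Finset.filter_congr fun n _ => ?_
    have h1 : (b : ℤ) % s = b := Int.emod_eq_of_lt (by positivity) (by exact_mod_cast hb)
    rw [← Int.modEq_iff_dvd, Int.ModEq, h1]
    exact eq_comm
  rw [hf] at hc
  rw [Finset.sum_sub_distrib, pntb_sum_cast s b y hb (pr X), FlatFin_pr X s b y hy]
  by_cases hcop : Nat.Coprime b s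
  · have h1 : Cop w s b := fun p hp h2 h3 =>
      (Nat.prime_of_mem_primesLE hp).one_lt.ne' (Nat.eq_one_of_dvd_coprimes hcop
        (Int.natCast_dvd_natCast.1 h3) (Int.natCast_dvd_natCast.1 h2))
    have h2 : (s.totient : ℝ) = s * om w s := by
      rw [arith_totient w hs, Finset.filter_eq_empty_iff.2 fun p hp => not_lt.2
        ((Nat.le_of_mem_primeFactors hp).trans hsw)]
      simp [V]
    have h3 := h hcop
    rw [if_pos h1, Int.cast_natCast, ← h2] at hc
    rw [abs_le] at h3 hc ⊢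
    constructor <;> linarith [h3.1, h3.2, hc.1, hc.2]
  · obtain ⟨p, hpp, hpb, hps⟩ := Nat.Prime.not_coprime_iff_dvd.mp hcop
    have hpw : p ≤ w := (Nat.le_of_dvd hs hps).trans hsw
    have h1 : ¬ Cop w s b := fun h2 => h2 p (Nat.mem_primesLE.2 ⟨hpw, hpp⟩)
      (Int.natCast_dvd_natCast.2 hps) (Int.natCast_dvd_natCast.2 hpb)
    have h2 : (Icc 1 y).filter (fun p => p.Prime ∧ X < p ^ 2 ∧ p ≡ b [MOD s]) = ∅ := by
      refine Finset.filter_eq_empty_iff.2 fun n _ ⟨h3, h4, h5⟩ => ?_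
      have hpn : p ∣ n := ((h5.of_dvd hps).dvd_iff dvd_rfl).mpr hpb
      have h6 := (Nat.prime_dvd_prime_iff_eq hpp h3).mp hpn
      have h7 : n ^ 2 ≤ w ^ 2 := Nat.pow_le_pow_left (h6 ▸ hpw) 2
      omega
    rw [if_neg h1, sub_zero] at hc
    rw [h2, Finset.card_empty, Nat.cast_zero, mul_zero, zero_sub, abs_neg]
    linarith

theorem flat_final : ∃ c : ℝ, 0 < c ∧ c ≤ 1 / 2 ∧ ∀ᶠ L : ℝ in atTop, ∀ D X w Lb : ℕ, Rg L D X →
    (w : ℝ) ≤ L ^ c → 0 < Lb →
    Flat w Lb X (fun n => pr X n - nu0 w n) (X * L ^ (-c)) ∧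
      ∑ n ∈ Icc (1 : ℤ) X, nu0 w n ≤ 2 * X := by
  obtain ⟨c, hc0, hc1, hsw⟩ := sw_pr
  refine ⟨c / 2, half_pos hc0, by linarith, ?_⟩
  filter_upwards [FlatFin_large hsw, FlatFin_half hc0, FlatFin_exp 2400 2, fact_small,
    eventually_ge_atTop 3] with L h1 h2 h3 h4 h5 D X w Lb hR hw hLb
  have hL : 0 < L := by linarith
  have hX : Real.exp (L / 2) ≤ X := (hR.exp_le hL).trans (by exact_mod_cast hR.x1)
  have hl := hR.log_ge hL
  have hP : 0 < L ^ (c / 2) := Real.rpow_pos_of_pos hL _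
  have hP1 : L ^ (c / 2) ≤ √L := by
    rw [Real.sqrt_eq_rpow]
    exact Real.rpow_le_rpow_of_exponent_le (by linarith) (by linarith)
  have hsq : √L ≤ L := by rw [Real.sqrt_le_left hL.le]; nlinarith
  have hlc : 4 * L ^ (c / 2) ≤ Real.log X ^ c :=
    h2.trans (Real.rpow_le_rpow (by positivity) hl hc0.le)
  have hk := kap_le h5 (hw.trans (hP1.trans hsq))
  have hf := h4 w (hw.trans hP1)
  have hf1 : (1 : ℝ) ≤ w.factorial := by exact_mod_cast Nat.factorial_pos w
  have hlog : Real.log L ≤ L := (Real.log_le_sub_one_of_pos hL).trans (by linarith)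
  have he : Real.exp (L / 100) ≤ Real.exp (L / 4) := Real.exp_le_exp.2 (by linarith)
  have he2 : Real.exp (L / 2) = Real.exp (L / 4) * Real.exp (L / 4) := by
    rw [← Real.exp_add]; congr 1; ring
  have hkp := kap_pos w
  have herr : kap w * (w.factorial + 1) * L * 4 ≤ X := by
    have a1 : kap w * (w.factorial + 1) ≤ 300 * L * (2 * Real.exp (L / 4)) :=
      mul_le_mul (by linarith) (by linarith) (by positivity) (by positivity)
    have a2 := mul_le_mul_of_nonneg_right h3 (Real.exp_pos (L / 4)).le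
    have a3 := mul_le_mul_of_nonneg_right a1 (show 0 ≤ L * 4 by positivity)
    nlinarith
  have hXp : (0 : ℝ) ≤ X := Nat.cast_nonneg X
  have hw2 : w ^ 2 ≤ X := by
    have a1 : (w : ℝ) ^ 2 ≤ L := by
      have := pow_le_pow_left₀ (Nat.cast_nonneg w) (hw.trans hP1) 2
      rwa [Real.sq_sqrt hL.le] at this
    have a2 : (1 : ℝ) * 2 ≤ kap w * (w.factorial + 1) :=
      mul_le_mul (one_le_kap w) (by linarith) (by norm_num) hkp.le
    have a3 : (w : ℝ) ^ 2 ≤ X := by nlinarith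
    exact_mod_cast a3
  refine ⟨fun i s hs hsw' b => ?_, ?_⟩
  · have hE : (0 : ℝ) ≤ X * L ^ (-(c / 2)) := by positivity
    have hs' : (0 : ℤ) < s := by exact_mod_cast hs
    by_cases hib : 0 ≤ i ∧ 0 ≤ b ∧ b < s
    · obtain ⟨hi, hb0, hb1⟩ := hib
      lift i to ℕ using hi
      lift b to ℕ using hb0
      have hb : b < s := by exact_mod_cast hb1
      have hq : (s : ℝ) ≤ Real.log X ^ c := by
        have : (s : ℝ) ≤ w := by exact_mod_cast hsw'
        linarith
      have key : ∀ y ≤ X, |∑ n ∈ (Icc (1 : ℤ) (y : ℕ)).filter (fun n : ℤ => n % s = b),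
          (pr X n - nu0 w n)| ≤ X * L ^ (-(c / 2)) / 2 := fun y hy => by
        refine (FlatFin_class (E := X / Real.log X ^ c) (by positivity) hs hsw' hb hy hw2
          fun hcop => h1 X hX s b y hs hq hcop hy).trans ?_
        have a1 : (X : ℝ) / Real.log X ^ c ≤ X / (4 * L ^ (c / 2)) :=
          div_le_div_of_nonneg_left hXp (by positivity) hlc
        have a2 : kap w * (w.factorial + 1) ≤ X / (4 * L ^ (c / 2)) := by
          rw [le_div_iff₀ (by positivity)]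
          have := mul_le_mul_of_nonneg_left (hP1.trans hsq)
            (show 0 ≤ kap w * (w.factorial + 1) * 4 by positivity)
          nlinarith
        have a3 : (X : ℝ) * L ^ (-(c / 2)) / 2 = 2 * (X / (4 * L ^ (c / 2))) := by
          rw [Real.rpow_neg hL.le]; field_simp; ring
        linarith
      rw [pntb_cell s Lb X hLb i b]
      have a1 := key _ (min_le_left X ((i + 1) * Lb - 1))
      have a2 := key _ (min_le_left X (i * Lb - 1))
      rw [abs_le] at a1 a2 ⊢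
      constructor <;> linarith [a1.1, a1.2, a2.1, a2.2]
    · have hemp : (Icc (1 : ℤ) X).filter (fun n => n / (Lb : ℤ) = i ∧ n % (s : ℤ) = b) = ∅ := by
        refine Finset.filter_eq_empty_iff.2 fun n hn a => hib ?_
        have a3 := (mem_Icc.1 hn).1
        exact ⟨a.1 ▸ Int.ediv_nonneg (by omega) (by positivity), a.2 ▸ Int.emod_nonneg _ hs'.ne',
          a.2 ▸ Int.emod_lt_of_pos _ hs'⟩
      rw [hemp, Finset.sum_empty, abs_zero]
      exact hE
  · have a1 := sum_nu0_Ico w 1 X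
    have a2 : Ico (1 : ℤ) (1 + X) = Icc (1 : ℤ) X := by
      ext n; simp only [mem_Ico, mem_Icc]; omega
    rw [a2] at a1
    have a3 : 0 ≤ kap w * (w.factorial + 1) := by positivity
    nlinarith

lemma FlatFin_gap (X X' : ℕ) (h : X ≤ X') :
    ((Ioc X X').filter Nat.Prime).card +
        ((Icc 1 X).filter (fun p => p.Prime ∧ X' < p ^ 2 ∧ p ≡ 0 [MOD 1])).card ≤
      ((Icc 1 X').filter (fun p => p.Prime ∧ X' < p ^ 2 ∧ p ≡ 0 [MOD 1])).card + Nat.sqrt X' := by
  rw [← Finset.card_union_of_disjoint]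
  · refine (Finset.card_le_card (t := (Icc 1 X').filter
      (fun p => p.Prime ∧ X' < p ^ 2 ∧ p ≡ 0 [MOD 1]) ∪ Icc 1 (Nat.sqrt X')) fun p hp => ?_).trans
      ((Finset.card_union_le _ _).trans (by rw [Nat.card_Icc]; omega))
    simp only [mem_union, mem_filter, mem_Ioc, mem_Icc] at hp ⊢
    rcases hp with ⟨⟨a1, a2⟩, a3⟩ | ⟨⟨a1, a2⟩, a3⟩
    · by_cases a4 : X' < p ^ 2
      · exact Or.inl ⟨⟨by omega, a2⟩, a3, a4, Nat.modEq_one⟩
      · exact Or.inr ⟨by omega, Nat.le_sqrt'.2 (not_lt.1 a4)⟩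
    · exact Or.inl ⟨⟨a1, a2.trans h⟩, a3⟩
  · refine Finset.disjoint_left.2 fun p h1 h2 => ?_
    have a1 := (mem_Ioc.1 (mem_filter.1 h1).1).1
    have a2 := (mem_Icc.1 (mem_filter.1 h2).1).2
    omega

theorem gap_final : ∃ c : ℝ, 0 < c ∧ c ≤ 1 / 2 ∧ ∀ᶠ L : ℝ in atTop, ∀ D X X' : ℕ,
    L / 2 ≤ Real.log D → Real.log D ≤ L → X ≤ X' → D ≤ X' →
    (X' : ℝ) ≤ 2 * D * L * Real.log L →
    (((Ioc X X').filter Nat.Prime).card : ℝ) + Nat.sqrt X ≤
      2 * ((X' : ℝ) - X) / L + D * L ^ (-c) := by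
  obtain ⟨c, hc0, hc1, hsw⟩ := sw_pr
  refine ⟨c / 4, by positivity, by linarith, ?_⟩
  filter_upwards [FlatFin_large hsw, FlatFin_half hc0, FlatFin_exp 32 4,
    ev_pow 4 1 (b := c / 4) (by positivity), eventually_ge_atTop 3]
    with L h1 h2 h3 h4 h5 D X X' hD _ hXX hDX hX'
  have hL : 0 < L := by linarith
  have hD0 : 0 < D := by
    rcases Nat.eq_zero_or_pos D with rfl | h
    · simp at hD; linarith
    · exact h
  have hD1 : (0 : ℝ) < D := by exact_mod_cast hD0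
  have hDe : Real.exp (L / 2) ≤ D := (Real.le_log_iff_exp_le hD1).1 hD
  have hDX' : (D : ℝ) ≤ X' := by exact_mod_cast hDX
  have hl : L / 2 ≤ Real.log X' := hD.trans (Real.log_le_log hD1 hDX')
  have hP : 0 < L ^ (c / 4) := Real.rpow_pos_of_pos hL _
  have hP1 : L ^ (c / 4) ≤ L := by
    have := Real.rpow_le_rpow_of_exponent_le (x := L) (by linarith) (show c / 4 ≤ 1 by linarith)
    rwa [Real.rpow_one] at this
  have hPP : L ^ (c / 2) = L ^ (c / 4) * L ^ (c / 4) := by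
    rw [← Real.rpow_add hL]; congr 1; ring
  have hlc : 4 * L ^ (c / 2) ≤ Real.log X' ^ c :=
    h2.trans (Real.rpow_le_rpow (by positivity) hl hc0.le)
  have hone : ((1 : ℕ) : ℝ) ≤ Real.log X' ^ c := by
    rw [Nat.cast_one]
    exact Real.one_le_rpow (by linarith) hc0.le
  have a1 := h1 X' (hDe.trans hDX') 1 0 X le_rfl hone (by simp) hXX
  have a2 := h1 X' (hDe.trans hDX') 1 0 X' le_rfl hone (by simp) le_rfl
  have a3 := (Nat.cast_le (α := ℝ)).2 (FlatFin_gap X X' hXX)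
  rw [Nat.totient_one, Nat.cast_one, div_one, abs_le] at a1 a2
  push_cast at a3
  have hlog0 : 0 ≤ Real.log L := Real.log_nonneg (by linarith)
  have hlog : Real.log L ≤ L := (Real.log_le_sub_one_of_pos hL).trans (by linarith)
  rw [pow_one] at h4
  set P := L ^ (c / 4) with hPdef
  have hE : (X' : ℝ) / Real.log X' ^ c ≤ D * L / (8 * P) := by
    refine (div_le_div_of_nonneg_left (by positivity) (by positivity) hlc).trans ?_
    rw [hPP, div_le_div_iff₀ (by positivity) (by positivity)]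
    have b1 := mul_le_mul_of_nonneg_right hX' (show 0 ≤ 8 * P by positivity)
    have b2 := mul_le_mul_of_nonneg_left h4 (show 0 ≤ D * L * (4 * P) by positivity)
    nlinarith
  have hs : (Nat.sqrt X' : ℝ) ≤ D / (4 * P) := by
    have b1 : ((Nat.sqrt X' : ℕ) : ℝ) ^ 2 ≤ X' := by exact_mod_cast Nat.sqrt_le' X'
    have b2 : 32 * L ^ 4 ≤ D := h3.trans ((Real.exp_le_exp.2 (by linarith)).trans hDe)
    rw [le_div_iff₀ (by positivity)]
    refine (pow_le_pow_iff_left₀ (by positivity) hD1.le two_ne_zero).1 ?_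
    have b3 : (X' : ℝ) ≤ 2 * D * L * L :=
      hX'.trans (mul_le_mul_of_nonneg_left hlog (by positivity))
    have b4 : (4 * P) ^ 2 ≤ (4 * L) ^ 2 := pow_le_pow_left₀ (by positivity) (by linarith) 2
    have b5 := mul_le_mul (b1.trans b3) b4 (by positivity) (by positivity)
    have b6 := mul_le_mul_of_nonneg_left b2 hD1.le
    rw [mul_pow]
    nlinarith
  have hs2 : (Nat.sqrt X : ℝ) ≤ Nat.sqrt X' := by exact_mod_cast Nat.sqrt_le_sqrt hXX
  have hXX' : (X : ℝ) ≤ X' := by exact_mod_cast hXX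
  set N1 : ℝ := (((Icc 1 X).filter
    (fun p => p.Prime ∧ X' < p ^ 2 ∧ p ≡ 0 [MOD 1])).card : ℝ) with hN1
  set N2 : ℝ := (((Icc 1 X').filter
    (fun p => p.Prime ∧ X' < p ^ 2 ∧ p ≡ 0 [MOD 1])).card : ℝ) with hN2
  have hN : N2 - N1 ≤ 2 * ((X' : ℝ) - X) / L + D / (2 * P) := by
    have b0 : 0 ≤ 2 * ((X' : ℝ) - X) / L + D / (2 * P) := by
      have : (0 : ℝ) ≤ X' - X := by linarith
      positivity
    have b1 : Real.log X' * (N2 - N1) ≤ L / 2 * (2 * ((X' : ℝ) - X) / L + D / (2 * P)) := by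
      have b2 : L / 2 * (2 * ((X' : ℝ) - X) / L + D / (2 * P)) =
          X' - X + 2 * (D * L / (8 * P)) := by field_simp; ring
      rw [b2]
      linarith [a1.1, a2.2]
    exact le_of_mul_le_mul_left (b1.trans (mul_le_mul_of_nonneg_right hl b0)) (by linarith)
  have hfin : (D : ℝ) * L ^ (-(c / 4)) = D / (2 * P) + 2 * (D / (4 * P)) := by
    rw [Real.rpow_neg hL.le, ← hPdef]; field_simp; ring
  rw [hfin]
  linarith

end Pool.Agent.Lib.MP_458f0b_nt.Grow
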