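import Pool.Agent.Lib.MP_458f0b_nt.Grow.Defs

open Finset Filter Topology

namespace Pool.Agent.Lib.MP_458f0b_nt.Grow

open Pool.Agent.Lib.MP_458f0b_nt.Pois

lemma Ineq_sqrt {x y : ℝ} (hy : 0 ≤ y) (h : x ≤ y ^ 2) : √x ≤ y :=
  Real.sqrt_le_iff.mpr ⟨hy, h⟩

lemma Ineq_A {t u P κ : ℝ} (ht : 3 ≤ t) (hu : 1 ≤ u) (hP : P ≤ u ^ 2) (hκ : κ ≤ 300 * t) :
    t ^ 7 * P + κ ≤ 2 * t ^ 7 * u ^ 2 := by
  have h0 : 0 ≤ t := by linarith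
  have h1 : (3 : ℝ) ^ 6 ≤ t ^ 6 := pow_le_pow_left₀ (by norm_num) ht 6
  have h2 : 300 * t ≤ t ^ 7 := by nlinarith
  have h3 : 1 ≤ u ^ 2 := one_le_pow₀ hu
  have h4 : 0 ≤ t ^ 7 := by positivity
  have h5 : t ^ 7 * P ≤ t ^ 7 * u ^ 2 := mul_le_mul_of_nonneg_left hP h4
  have h6 : t ^ 7 * 1 ≤ t ^ 7 * u ^ 2 := mul_le_mul_of_nonneg_left h3 h4
  linarith

lemma Ineq_fin {a b : ℝ} {u : ℝ} (hu : 1 ≤ u) (hb : 0 ≤ b) (ha : a ≤ u) {m n : ℕ} (h : m + 1 ≤ n) :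
    a * u ^ m * b ≤ u ^ n * b := by
  refine mul_le_mul_of_nonneg_right ?_ hb
  have h0 : 0 ≤ u ^ m := by positivity
  calc a * u ^ m ≤ u * u ^ m := mul_le_mul_of_nonneg_right ha h0
    _ = u ^ (m + 1) := by ring
    _ ≤ u ^ n := pow_le_pow_right₀ hu h

lemma Ineq_t {t u C : ℝ} (ht : 3 ≤ t) (htu : 33600 * t ^ 9 ≤ u) (hC : C ≤ 33600)
    {k : ℕ} (hk : k ≤ 9) : C * t ^ k ≤ u := by
  have h1 : t ^ k ≤ t ^ 9 := pow_le_pow_right₀ (by linarith) hk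
  have h2 : 0 ≤ t ^ k := pow_nonneg (by linarith) k
  nlinarith

lemma Ineq_T1 {t u s D X η r A M0 : ℝ} (ht : 3 ≤ t) (hu : 1 ≤ u) (htu : 33600 * t ^ 9 ≤ u)
    (hs : u ^ 200 ≤ s) (hD : 0 < D) (hX : X ≤ D * s ^ 2 * t)
    (hη : η ≤ 30000 * t ^ 2 * (s ^ 2 / u ^ 50)) (hr0 : 0 ≤ r) (hr : r ≤ t)
    (hA : A ≤ 2 * t ^ 7 * u ^ 2) (hM0 : 0 ≤ M0) (hM : M0 ≤ 3 * D ^ 2 * u ^ 16) :
    6 * A * (√η + r) * √(D * X * M0) ≤ D ^ 2 * s ^ 2 / u ^ 2 / 8 := by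
  have t0 : 0 < t := by linarith
  have u0 : 0 < u := by linarith
  have s0 : 0 < s := lt_of_lt_of_le (by positivity) hs
  have h1 : √η ≤ 174 * t * (s / u ^ 25) := by
    refine Ineq_sqrt (by positivity) (hη.trans ?_)
    have e : (174 * t * (s / u ^ 25)) ^ 2 = 30276 * (t ^ 2 * (s ^ 2 / u ^ 50)) := by
      field_simp; norm_num
    have : 0 ≤ t ^ 2 * (s ^ 2 / u ^ 50) := by positivity
    rw [e]; linarith
  have h2 : 1 ≤ s / u ^ 25 := by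
    rw [le_div_iff₀ (by positivity), one_mul]
    exact (pow_le_pow_right₀ hu (by norm_num)).trans hs
  have h3 : √η + r ≤ 175 * t * (s / u ^ 25) := by nlinarith
  have h4 : √(D * X * M0) ≤ 2 * t * D ^ 2 * s * u ^ 8 := by
    refine Ineq_sqrt (by positivity) ?_
    have a1 : D * X * M0 ≤ D * (D * s ^ 2 * t) * (3 * D ^ 2 * u ^ 16) := by gcongr
    have a2 : 0 ≤ D ^ 4 * s ^ 2 * u ^ 16 * t := by positivity
    have a3 : D ^ 4 * s ^ 2 * u ^ 16 * t * 3 ≤ D ^ 4 * s ^ 2 * u ^ 16 * t * (4 * t) :=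
      mul_le_mul_of_nonneg_left (by linarith) a2
    calc D * X * M0 ≤ _ := a1
      _ = D ^ 4 * s ^ 2 * u ^ 16 * t * 3 := by ring
      _ ≤ _ := a3
      _ = _ := by ring
  have h5 : 0 ≤ √η + r := by positivity
  have h6 : 6 * A * (√η + r) * √(D * X * M0) ≤
      6 * (2 * t ^ 7 * u ^ 2) * (175 * t * (s / u ^ 25)) * (2 * t * D ^ 2 * s * u ^ 8) := by
    gcongr
  refine h6.trans ?_
  have h7 := Ineq_fin (b := D ^ 2 * s ^ 2 / u ^ 25 / u ^ 2 / 8) hu (by positivity) htu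
    (m := 12) (n := 25) (by norm_num)
  calc _ = 33600 * t ^ 9 * u ^ 12 * (D ^ 2 * s ^ 2 / u ^ 25 / u ^ 2 / 8) := by
        field_simp; norm_num
    _ ≤ _ := h7
    _ = _ := by field_simp

lemma Ineq_T2 {t u s D κ V0 M0 : ℝ} (ht : 3 ≤ t) (hu : 1 ≤ u) (htu : 33600 * t ^ 9 ≤ u)
    (hs : u ^ 200 ≤ s) (hD : 0 < D) (hκ0 : 0 ≤ κ) (hκ : κ ≤ 300 * t)
    (hM : M0 ≤ 3 * D ^ 2 * u ^ 16) (hV0 : 0 ≤ V0) (hV : V0 ≤ 40 * D ^ 2 * (s ^ 2 * t) * κ ^ 2) :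
    √(M0 * V0) ≤ D ^ 2 * s ^ 2 / u ^ 2 / 8 := by
  have t0 : 0 < t := by linarith
  have u0 : 0 < u := by linarith
  have s0 : 0 < s := lt_of_lt_of_le (by positivity) hs
  have h1 : V0 ≤ 40 * D ^ 2 * (s ^ 2 * t) * (300 * t) ^ 2 := hV.trans (by gcongr)
  have h2 : √(M0 * V0) ≤ 3300 * t ^ 2 * D ^ 2 * s * u ^ 8 := by
    refine Ineq_sqrt (by positivity) ?_
    have a1 : M0 * V0 ≤ 3 * D ^ 2 * u ^ 16 * (40 * D ^ 2 * (s ^ 2 * t) * (300 * t) ^ 2) := by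
      gcongr
    have a2 : 0 ≤ D ^ 4 * s ^ 2 * u ^ 16 * t ^ 3 := by positivity
    have a3 : D ^ 4 * s ^ 2 * u ^ 16 * t ^ 3 * 10800000 ≤
        D ^ 4 * s ^ 2 * u ^ 16 * t ^ 3 * (10890000 * t) :=
      mul_le_mul_of_nonneg_left (by linarith) a2
    calc M0 * V0 ≤ _ := a1
      _ = D ^ 4 * s ^ 2 * u ^ 16 * t ^ 3 * 10800000 := by ring
      _ ≤ _ := a3
      _ = _ := by ring
  refine h2.trans ?_
  have h3 : 26400 * t ^ 2 ≤ u := Ineq_t ht htu (by norm_num) (by norm_num)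
  have h7 := Ineq_fin (b := D ^ 2 * s / u ^ 2 / 8) hu (by positivity) h3
    (m := 10) (n := 200) (by norm_num)
  calc _ = 26400 * t ^ 2 * u ^ 10 * (D ^ 2 * s / u ^ 2 / 8) := by
        field_simp; norm_num
    _ ≤ _ := h7
    _ ≤ s * (D ^ 2 * s / u ^ 2 / 8) := mul_le_mul_of_nonneg_right hs (by positivity)
    _ = _ := by field_simp

lemma Ineq_T3 {t u s D X Γ M0 : ℝ} (ht : 3 ≤ t) (hu : 1 ≤ u) (htu : 33600 * t ^ 9 ≤ u)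
    (hD : 0 < D) (hX0 : 0 ≤ X) (hX : X ≤ D * s ^ 2 * t)
    (hM : M0 ≤ 3 * D ^ 2 * u ^ 16) (hΓ0 : 0 ≤ Γ) (hΓ : Γ ≤ 6 * t * u ^ 200) :
    √(M0 * Γ) * (X * (u ^ 200)⁻¹) ≤ D ^ 2 * s ^ 2 / u ^ 2 / 8 := by
  have t0 : 0 < t := by linarith
  have u0 : 0 < u := by linarith
  have h2 : √(M0 * Γ) ≤ 5 * t * D * u ^ 108 := by
    refine Ineq_sqrt (by positivity) ?_
    have a1 : M0 * Γ ≤ 3 * D ^ 2 * u ^ 16 * (6 * t * u ^ 200) := by gcongr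
    have a2 : 0 ≤ D ^ 2 * u ^ 216 * t := by positivity
    have a3 : D ^ 2 * u ^ 216 * t * 18 ≤ D ^ 2 * u ^ 216 * t * (25 * t) :=
      mul_le_mul_of_nonneg_left (by linarith) a2
    calc M0 * Γ ≤ _ := a1
      _ = D ^ 2 * u ^ 216 * t * 18 := by ring
      _ ≤ _ := a3
      _ = _ := by ring
  have h4 : √(M0 * Γ) * (X * (u ^ 200)⁻¹) ≤
      5 * t * D * u ^ 108 * (D * s ^ 2 * t * (u ^ 200)⁻¹) := by gcongr
  refine h4.trans ?_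
  have h3 : 40 * t ^ 2 ≤ u := Ineq_t ht htu (by norm_num) (by norm_num)
  have h7 := Ineq_fin (b := D ^ 2 * s ^ 2 / u ^ 200 / u ^ 2 / 8) hu (by positivity) h3
    (m := 110) (n := 200) (by norm_num)
  calc _ = 40 * t ^ 2 * u ^ 110 * (D ^ 2 * s ^ 2 / u ^ 200 / u ^ 2 / 8) := by
        field_simp; ring
    _ ≤ _ := h7
    _ = _ := by field_simp

lemma Ineq_T4 {t u s D X A R E : ℝ} (ht : 3 ≤ t) (hu : 1 ≤ u) (htu : 33600 * t ^ 9 ≤ u)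
    (hE : u ^ 200 ≤ E) (hD : 0 < D) (hX0 : 0 ≤ X) (hX : X ≤ D * s ^ 2 * t)
    (hA : A ≤ 2 * t ^ 7 * u ^ 2) (hR0 : 0 ≤ R) (hR : R ≤ 2 * D * E ^ 2) :
    3 * A * R * X * (E ^ 3)⁻¹ ≤ D ^ 2 * s ^ 2 / u ^ 2 / 8 := by
  have t0 : 0 < t := by linarith
  have u0 : 0 < u := by linarith
  have E0 : 0 < E := lt_of_lt_of_le (by positivity) hE
  have h4 : 3 * A * R * X * (E ^ 3)⁻¹ ≤
      3 * (2 * t ^ 7 * u ^ 2) * (2 * D * E ^ 2) * (D * s ^ 2 * t) * (E ^ 3)⁻¹ := by gcongr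
  refine h4.trans ?_
  have h3 : 96 * t ^ 8 ≤ u := Ineq_t ht htu (by norm_num) (by norm_num)
  have h7 := Ineq_fin (b := D ^ 2 * s ^ 2 / E / u ^ 2 / 8) hu (by positivity) h3
    (m := 4) (n := 200) (by norm_num)
  calc _ = 96 * t ^ 8 * u ^ 4 * (D ^ 2 * s ^ 2 / E / u ^ 2 / 8) := by
        field_simp; ring
    _ ≤ _ := h7
    _ ≤ E * (D ^ 2 * s ^ 2 / E / u ^ 2 / 8) := mul_le_mul_of_nonneg_right hE (by positivity)
    _ = _ := by field_simp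

/-- the numerical inequality behind `one_step` -/
theorem final_ineq {c0 : ℝ} (h0 : 0 < c0) (h1 : c0 ≤ 1 / 2) : ∀ᶠ L : ℝ in atTop,
    ∀ D X l κ η r P M0 V0 Γ R : ℝ, 0 < D → 0 ≤ X → X ≤ D * L * Real.log L → L / 2 ≤ l →
      0 ≤ κ → κ ≤ 300 * Real.log L → 0 ≤ η → η ≤ 30000 * Real.log L ^ 2 * L ^ (1 - c0 / 4) →
      0 ≤ r → r ≤ Real.log L → 0 ≤ P → P ≤ L ^ (c0 / 100) →
      0 ≤ M0 → M0 ≤ 3 * D ^ 2 * L ^ (8 * (c0 / 100)) →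
      0 ≤ V0 → V0 ≤ 40 * D ^ 2 * (L * Real.log L) * κ ^ 2 →
      0 ≤ Γ → Γ ≤ 6 * Real.log L * L ^ c0 →
      0 ≤ R → R ≤ 2 * D * Real.exp (3 * Real.log L ^ 2) →
      6 * (Real.log L ^ 7 * P + κ) * (√η + r) * √(D * X * M0) + √(M0 * V0) +
          √(M0 * Γ) * (X * L ^ (-c0)) +
          3 * (Real.log L ^ 7 * P + κ) * R * X * √(Real.exp (-9 * Real.log L ^ 2)) ≤
        l * (D ^ 2 * L ^ (-(c0 / 100))) := by
  filter_upwards [ev_pow 33600 9 (b := c0 / 200) (by positivity), ev_log 3,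
    eventually_ge_atTop 1] with L htu ht hL
  intro D X l κ η r P M0 V0 Γ R hD hX0 hX hl hκ0 hκ hη0 hη hr0 hr hP0 hP hM0 hM hV0 hV hΓ0 hΓ
    hR0 hR
  have L0 : 0 < L := by linarith
  have hpow : ∀ n : ℕ, (L ^ (c0 / 200)) ^ n = L ^ (c0 / 200 * n) := fun n =>
    (Real.rpow_mul_natCast L0.le _ n).symm
  have hu : 1 ≤ L ^ (c0 / 200) := Real.one_le_rpow hL (by positivity)
  have e2 : L ^ (c0 / 100) = (L ^ (c0 / 200)) ^ 2 := by rw [hpow]; congr 1; push_cast; ring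
  have e16 : L ^ (8 * (c0 / 100)) = (L ^ (c0 / 200)) ^ 16 := by
    rw [hpow]; congr 1; push_cast; ring
  have e200 : L ^ c0 = (L ^ (c0 / 200)) ^ 200 := by rw [hpow]; congr 1; push_cast; ring
  have e50 : L ^ (c0 / 4) = (L ^ (c0 / 200)) ^ 50 := by rw [hpow]; congr 1; push_cast; ring
  have es : √L ^ 2 = L := Real.sq_sqrt L0.le
  have hs : (L ^ (c0 / 200)) ^ 200 ≤ √L := by
    rw [← e200, Real.sqrt_eq_rpow]
    exact Real.rpow_le_rpow_of_exponent_le hL h1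
  have e1' : L ^ (1 - c0 / 4) = √L ^ 2 / (L ^ (c0 / 200)) ^ 50 := by
    rw [Real.rpow_sub L0, Real.rpow_one, es, e50]
  have hE : (L ^ (c0 / 200)) ^ 200 ≤ Real.exp (3 / 2 * Real.log L ^ 2) := by
    rw [← e200, Real.rpow_def_of_pos L0]
    refine Real.exp_le_exp.mpr ?_
    nlinarith
  have eE2 : Real.exp (3 * Real.log L ^ 2) = Real.exp (3 / 2 * Real.log L ^ 2) ^ 2 := by
    rw [← Real.exp_nat_mul]; congr 1; push_cast; ring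
  have eE3 : √(Real.exp (-9 * Real.log L ^ 2)) = (Real.exp (3 / 2 * Real.log L ^ 2) ^ 3)⁻¹ := by
    rw [Real.sqrt_eq_iff_mul_self_eq (Real.exp_pos _).le (by positivity), ← Real.exp_nat_mul,
      ← Real.exp_neg, ← Real.exp_add]
    congr 1; push_cast; ring
  rw [e1'] at hη
  rw [e2] at hP
  rw [e16] at hM
  rw [e200] at hΓ
  rw [eE2] at hR
  rw [Real.rpow_neg L0.le, Real.rpow_neg L0.le, e200, eE3]
  have hX' : X ≤ D * √L ^ 2 * Real.log L := by rwa [es]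
  have hV' : V0 ≤ 40 * D ^ 2 * (√L ^ 2 * Real.log L) * κ ^ 2 := by rwa [es]
  have hA := Ineq_A ht hu hP hκ
  have T1 := Ineq_T1 ht hu htu hs hD hX' hη hr0 hr hA hM0 hM
  have T2 := Ineq_T2 ht hu htu hs hD hκ0 hκ hM hV0 hV'
  have T3 := Ineq_T3 ht hu htu hD hX0 hX' hM hΓ0 hΓ
  have T4 := Ineq_T4 ht hu htu hE hD hX0 hX' hA hR0 hR
  rw [es] at T1 T2 T3 T4
  rw [e2]
  have hfin : L / 2 * (D ^ 2 * ((L ^ (c0 / 200)) ^ 2)⁻¹) ≤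
      l * (D ^ 2 * ((L ^ (c0 / 200)) ^ 2)⁻¹) :=
    mul_le_mul_of_nonneg_right hl (by positivity)
  have e4 : L / 2 * (D ^ 2 * ((L ^ (c0 / 200)) ^ 2)⁻¹) =
      4 * (D ^ 2 * L / (L ^ (c0 / 200)) ^ 2 / 8) := by ring
  linarith

end Pool.Agent.Lib.MP_458f0b_nt.Grow
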