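import Pool.Agent.Lib.MP_458f0b_nt.Pois.Local

/-! The linear forms condition with explicit thresholds. -/

open Finset Filter Topology

namespace Pool.Agent.Lib.MP_458f0b_nt.Grow

open Pool.Agent.Lib.MP_458f0b_nt.Pois

theorem lfc_exp : ∃ C0 : ℝ, 0 ≤ C0 ∧ ∀ K m w z T : ℕ, 5 * (K * C0) ≤ m → 1 ≤ w → 2 * K ≤ w →
    4 * (K : ℝ) ^ 2 * Real.exp m ≤ w → 1 ≤ z →
    2 * (K : ℝ) * (z + 2) * (z : ℝ) ^ (8 * m + 12 + K) * Real.exp m ≤ T → 0 < T →
    local_L K m w z T := by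
  classical
  obtain ⟨C0, hC0, hblock⟩ := block_sum
  refine ⟨C0, hC0, ?_⟩
  intro K m w z T hm' hw1 hw2 hw3 hz hT hT0 U A _ _ s b c bad h hU hs hc hc2 hh
  have hK0 : (0 : ℝ) ≤ K := Nat.cast_nonneg K
  have hsK : (s.card : ℝ) ≤ K := by exact_mod_cast hs
  set ε := Real.exp (-(m : ℝ)) with hε
  have hε0 : 0 < ε := Real.exp_pos _
  have hεm : ε * Real.exp m = 1 := by rw [hε, ← Real.exp_add]; simp
  have hε1 : ε ≤ 1 := Real.exp_le_one_iff.2 (by simp)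
  have hwpos : (0 : ℝ) < w := by exact_mod_cast hw1
  have hKw : 4 * ((K : ℝ) ^ 2 * (w : ℝ)⁻¹) ≤ ε := by
    rw [← mul_assoc, ← div_eq_mul_inv, div_le_iff₀ hwpos]
    calc 4 * (K : ℝ) ^ 2 = ε * (4 * (K : ℝ) ^ 2 * Real.exp m) := by
          rw [mul_left_comm, hεm, mul_one]
      _ ≤ ε * w := by gcongr
  let E : ℕ → (U → ℤ) → Prop := fun p t => ∃ α ∈ s, (p : ℤ) ∣ frm (b α) (c α) t
  let I : ℕ → (U → ℤ) → ℝ := fun p t => if E p t then 1 else 0
  let ρ : ℕ → ℝ := fun p => boxAv p (I p)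
  have hP : ∀ p ∈ P1 w z, p.Prime := fun p => prime_of_mem_P1
  have hx0 : ∀ p : ℕ, (0 : ℝ) ≤ (p : ℝ)⁻¹ := fun p => by positivity
  have hx1 : ∀ p ∈ P1 w z, (p : ℝ)⁻¹ ≤ 1 := fun p hp => by
    linarith [one_sub_inv_pos (hP p hp)]
  have hxK : ∀ p ∈ P1 w z, K * (p : ℝ)⁻¹ ≤ 1 / 2 := fun p hp => by
    have h1 : 2 * K ≤ p := hw2.trans (mem_P1.1 hp).2.1.le
    have h2 : 2 * (K : ℝ) ≤ p := by exact_mod_cast h1
    have h3 : (0 : ℝ) < p := by exact_mod_cast (hP p hp).pos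
    rw [← div_eq_mul_inv, div_le_iff₀ h3]
    linarith
  have hI0 : ∀ p t, 0 ≤ I p t := fun p t => by
    simp only [I]
    split_ifs <;> norm_num
  have hI1 : ∀ p t, I p t ≤ 1 := fun p t => by
    simp only [I]
    split_ifs <;> norm_num
  have hρ0 : ∀ p ∈ P1 w z, 0 ≤ ρ p := fun p hp => by
    have := boxAv_mono (U := U) p (F := fun _ => 0) (G := I p) fun t _ => hI0 p t
    rwa [boxAv_const (hP p hp).pos] at this
  have hρ1 : ∀ p ∈ P1 w z, ρ p ≤ s.card * (p : ℝ)⁻¹ := fun p hp => by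
    have := boxAv_mono (U := U) p (F := I p)
      (G := fun t => ∑ α ∈ s, if (p : ℤ) ∣ frm (b α) (c α) t then (1 : ℝ) else 0)
      fun t _ => lfc_union s _
    rw [boxAv_sum, Finset.sum_congr rfl fun α hα => box_form (hP p hp) (b α) (c α) (hc α hα p hp),
      Finset.sum_const, nsmul_eq_mul] at this
    exact this
  have hρK : ∀ p ∈ P1 w z, ρ p ≤ K * (p : ℝ)⁻¹ := fun p hp =>
    (hρ1 p hp).trans (mul_le_mul_of_nonneg_right hsK (hx0 p))
  have hρ2 : ∀ p ∈ P1 w z, p ∉ bad →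
      s.card * (p : ℝ)⁻¹ - (K : ℝ) ^ 2 * ((p : ℝ) ^ 2)⁻¹ ≤ ρ p := fun p hp hb => by
    have := boxAv_mono (U := U) p (G := I p)
      (F := fun t => ∑ α ∈ s, ((if (p : ℤ) ∣ frm (b α) (c α) t then (1 : ℝ) else 0) -
        ∑ β ∈ s.erase α, if (p : ℤ) ∣ frm (b α) (c α) t ∧ (p : ℤ) ∣ frm (b β) (c β) t
          then (1 : ℝ) else 0))
      fun t _ => lfc_bonf s fun α => (p : ℤ) ∣ frm (b α) (c α) t
    refine le_trans ?_ this
    rw [boxAv_sum]
    have h1 : ∀ α ∈ s, (p : ℝ)⁻¹ - K * ((p : ℝ) ^ 2)⁻¹ ≤ boxAv p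
        (fun t => (if (p : ℤ) ∣ frm (b α) (c α) t then (1 : ℝ) else 0) -
        ∑ β ∈ s.erase α, if (p : ℤ) ∣ frm (b α) (c α) t ∧ (p : ℤ) ∣ frm (b β) (c β) t
          then (1 : ℝ) else 0) := by
      intro α hα
      have h2 : ∀ β ∈ s.erase α, boxAv p (fun t =>
          if (p : ℤ) ∣ frm (b α) (c α) t ∧ (p : ℤ) ∣ frm (b β) (c β) t then (1 : ℝ) else 0) =
          ((p : ℝ) ^ 2)⁻¹ := by
        intro β hβ
        obtain ⟨hne, hβ⟩ := Finset.mem_erase.1 hβ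
        obtain ⟨v, ⟨h3, h4⟩ | ⟨h3, h4⟩⟩ := hc2 α hα β hβ hne.symm p hp hb
        · exact box_form2 (hP p hp) _ _ _ _ v h3 h4 (hc β hβ p hp)
        · simp only [and_comm (a := (p : ℤ) ∣ frm (b α) (c α) _)]
          exact box_form2 (hP p hp) _ _ _ _ v h3 h4 (hc α hα p hp)
      rw [boxAv_sub, boxAv_sum, box_form (hP p hp) (b α) (c α) (hc α hα p hp),
        Finset.sum_congr rfl h2, Finset.sum_const, nsmul_eq_mul]
      have h5 : ((s.erase α).card : ℝ) ≤ K := by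
        exact_mod_cast (Finset.card_erase_le).trans hs
      gcongr
    have h6 := Finset.card_nsmul_le_sum s _ _ h1
    rw [nsmul_eq_mul] at h6
    refine le_trans ?_ h6
    have h7 : (0 : ℝ) ≤ K * ((p : ℝ) ^ 2)⁻¹ := by positivity
    linarith [mul_le_mul_of_nonneg_right hsK h7]
  have hper : ∀ p e : ℕ, p ∣ e → Per e (I p) := fun p e hpe t t' ht => by
    have : E p t ↔ E p t' := exists_congr fun α => and_congr_right fun _ =>
      lfc_dvd _ _ fun v => (Int.natCast_dvd_natCast.2 hpe).trans (ht v)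
    simp only [I, this]
  have hTpos : (0 : ℝ) < T := by exact_mod_cast hT0
  have hBH := brun_hooley (Fintype.piFinset fun _ : U => Ico (0 : ℤ) T) (P1 w z) hP E ρ hρ0
    (fun p hp => (hρK p hp).trans (hxK p hp)) z m (fun p hp => (mem_P1.1 hp).2.2) (K * C0)
    (2 * K * (z : ℝ) ^ (4 * m + 6) / T) (fun i => ?_) hm' hz (fun S hS hle => ?_)
  rotate_left
  · calc ∑ p ∈ (P1 w z).filter (fun p => Nat.log 2 (Nat.log p z) = i), ρ p
        ≤ ∑ p ∈ (P1 w z).filter (fun p => Nat.log 2 (Nat.log p z) = i), K * (p : ℝ)⁻¹ :=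
          Finset.sum_le_sum fun p hp => hρK p (Finset.mem_filter.1 hp).1
      _ ≤ K * C0 := by
          rw [← Finset.mul_sum]
          refine mul_le_mul_of_nonneg_left (le_trans ?_ (hblock z i)) hK0
          exact Finset.sum_le_sum_of_subset_of_nonneg
            (Finset.filter_subset_filter _ (Finset.filter_subset _ _)) fun p _ _ => hx0 p
  · have hS' : ∀ p ∈ S, p.Prime := fun p hp => hP p (hS hp)
    have h1 : (fun t => if ∀ p ∈ S, E p t then (1 : ℝ) else 0) = fun t => ∏ p ∈ S, I p t := by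
      funext t
      simp only [I]
      rw [Finset.prod_boole]
    rw [lfc_card, h1, ← box_crt S hS' I fun p _ => hper p p dvd_rfl]
    refine (box_per (Finset.prod_pos fun p hp => (hS' p hp).pos) hT0 (fun t t' ht => ?_)
      (fun t => ?_)).trans ?_
    · exact Finset.prod_congr rfl fun p hp => hper p _ (Finset.dvd_prod_of_mem _ hp) t t' ht
    · rw [abs_of_nonneg (Finset.prod_nonneg fun p _ => hI0 p t)]
      exact Finset.prod_le_one (fun p _ => hI0 p t) fun p _ => hI1 p t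
    · have h2 : ((∏ p ∈ S, p : ℕ) : ℝ) ≤ (z : ℝ) ^ (4 * m + 6) := by exact_mod_cast hle
      have h3 : (Fintype.card U : ℝ) ≤ K := by exact_mod_cast hU
      gcongr
  rw [lfc_card] at hBH
  have hV : 0 < V (P1 w z) := V_pos hP
  have hVa : 0 < V (P1 w z) ^ s.card := pow_pos hV _
  have hav : boxAv T (fun t => ∏ α ∈ s, nu1 w z (frm (b α) (c α) t)) =
      (V (P1 w z) ^ s.card)⁻¹ * boxAv T (fun t => if ∀ p ∈ P1 w z, ¬ E p t then 1 else 0) := by
    rw [← boxAv_mul]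
    refine boxAv_congr T fun t _ => ?_
    split_ifs with h1
    · rw [mul_one, ← inv_pow, ← Finset.prod_const]
      exact Finset.prod_congr rfl fun α hα => if_pos fun p hp hd => h1 p hp ⟨α, hα, hd⟩
    · rw [mul_zero]
      push Not at h1
      obtain ⟨p, hp, α, hα, hd⟩ := h1
      exact Finset.prod_eq_zero hα (if_neg fun h2 => h2 p hp hd)
  have hVp : V (P1 w z) ^ s.card = ∏ p ∈ P1 w z, (1 - (p : ℝ)⁻¹) ^ s.card :=
    (Finset.prod_pow _ _ _).symm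
  have hsq : ∑ p ∈ P1 w z, (K : ℝ) ^ 2 * ((p : ℝ) ^ 2)⁻¹ ≤ (K : ℝ) ^ 2 * (w : ℝ)⁻¹ := by
    rw [← Finset.mul_sum]
    exact mul_le_mul_of_nonneg_left (sum_inv_sq_le _ hw1 fun p hp => (mem_P1.1 hp).2.1)
      (by positivity)
  have hsq1 : ∀ p ∈ P1 w z, (K : ℝ) ^ 2 * ((p : ℝ) ^ 2)⁻¹ ≤ 1 := fun p hp => by
    rw [← inv_pow, ← mul_pow]
    exact pow_le_one₀ (mul_nonneg hK0 (hx0 p)) (by linarith [hxK p hp])
  have hlow : (1 - ε) * V (P1 w z) ^ s.card ≤ ∏ p ∈ P1 w z, (1 - ρ p) := by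
    have h1 := one_sub_sum_le_prod (P1 w z) (fun p => (K : ℝ) ^ 2 * ((p : ℝ) ^ 2)⁻¹)
      (fun p _ => by positivity) hsq1
    have h2 : (0 : ℝ) ≤ (K : ℝ) ^ 2 * (w : ℝ)⁻¹ := by positivity
    calc (1 - ε) * V (P1 w z) ^ s.card
        ≤ (∏ p ∈ P1 w z, (1 - (K : ℝ) ^ 2 * ((p : ℝ) ^ 2)⁻¹)) * V (P1 w z) ^ s.card :=
          mul_le_mul_of_nonneg_right (by linarith) hVa.le
      _ ≤ ∏ p ∈ P1 w z, (1 - ρ p) := by
          rw [hVp, ← Finset.prod_mul_distrib]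
          refine Finset.prod_le_prod (fun p hp => mul_nonneg (by linarith [hsq1 p hp])
            (pow_nonneg (by linarith [hx1 p hp]) _)) fun p hp => ?_
          rw [← inv_pow]
          exact lfc_ratio_low hs (hx0 p) (hx1 p hp) (hxK p hp) (hρ1 p hp)
  have hh0 : 0 ≤ h := (Finset.sum_nonneg fun p _ => hx0 p).trans hh
  set B := Real.exp (2 * K * h) with hB
  have hB1 : 1 ≤ B := Real.one_le_exp (by positivity)
  have hup : ∏ p ∈ P1 w z, (1 - ρ p) ≤ (1 + ε) * B * V (P1 w z) ^ s.card := by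
    let y : ℕ → ℝ := fun p => (K : ℝ) ^ 2 * ((p : ℝ) ^ 2)⁻¹ + if p ∈ bad then K * (p : ℝ)⁻¹ else 0
    have h1 : ∑ p ∈ P1 w z, 2 * y p ≤ 2 * ((K : ℝ) ^ 2 * (w : ℝ)⁻¹) + 2 * K * h := by
      rw [← Finset.mul_sum, Finset.sum_add_distrib, ← Finset.sum_filter, ← Finset.mul_sum _ _ (K : ℝ)]
      linarith [mul_le_mul_of_nonneg_left hh hK0]
    have h2 : (0 : ℝ) ≤ (K : ℝ) ^ 2 * (w : ℝ)⁻¹ := by positivity
    have h3 : Real.exp (2 * ((K : ℝ) ^ 2 * (w : ℝ)⁻¹)) ≤ 1 + ε := by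
      have := Real.abs_exp_sub_one_le (x := 2 * ((K : ℝ) ^ 2 * (w : ℝ)⁻¹))
        (by rw [abs_of_nonneg (by positivity)]; linarith)
      rw [abs_of_nonneg (a := 2 * _) (by positivity)] at this
      linarith [le_abs_self (Real.exp (2 * ((K : ℝ) ^ 2 * (w : ℝ)⁻¹)) - 1)]
    calc ∏ p ∈ P1 w z, (1 - ρ p)
        ≤ ∏ p ∈ P1 w z, Real.exp (2 * y p) * (1 - (p : ℝ)⁻¹) ^ s.card := by
          refine Finset.prod_le_prod (fun p hp => by linarith [hρK p hp, hxK p hp]) fun p hp => ?_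
          refine lfc_ratio_up hs (hx0 p) (hx1 p hp) (hxK p hp) ?_ ?_
          · simp only [y]
            split_ifs <;> positivity
          · simp only [y]
            split_ifs with hb
            · have h4 : (0 : ℝ) ≤ (K : ℝ) ^ 2 * ((p : ℝ) ^ 2)⁻¹ := by positivity
              linarith [hρ0 p hp, mul_le_mul_of_nonneg_right hsK (hx0 p)]
            · linarith [hρ2 p hp hb]
      _ = Real.exp (∑ p ∈ P1 w z, 2 * y p) * V (P1 w z) ^ s.card := by
          rw [Finset.prod_mul_distrib, Real.exp_sum, hVp]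
      _ ≤ (1 + ε) * B * V (P1 w z) ^ s.card := by
          refine mul_le_mul_of_nonneg_right ((Real.exp_le_exp.2 h1).trans ?_) hVa.le
          rw [Real.exp_add]
          exact mul_le_mul_of_nonneg_right h3 (by linarith)
  have hz' : (1 : ℝ) ≤ z := by exact_mod_cast hz
  have herr : (z + 2) * (z : ℝ) ^ (4 * m + 6) * (2 * K * (z : ℝ) ^ (4 * m + 6) / T) ≤
      ε * V (P1 w z) ^ s.card := by
    have h1 : (V (P1 w z) ^ s.card)⁻¹ ≤ (z : ℝ) ^ K := by
      rw [← inv_pow]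
      exact (pow_le_pow_left₀ (inv_pos.2 hV).le (inv_V_le hz (Finset.filter_subset _ _)) _).trans
        (pow_le_pow_right₀ hz' hs)
    have h2 : 1 ≤ (z : ℝ) ^ K * V (P1 w z) ^ s.card := by
      rwa [← one_div, div_le_iff₀ hVa] at h1
    rw [← mul_div_assoc, div_le_iff₀ hTpos]
    calc (z + 2) * (z : ℝ) ^ (4 * m + 6) * (2 * K * (z : ℝ) ^ (4 * m + 6))
        = (z + 2) * (z : ℝ) ^ (4 * m + 6) * (2 * K * (z : ℝ) ^ (4 * m + 6)) * 1 *
          (ε * Real.exp m) := by rw [hεm]; ring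
      _ ≤ (z + 2) * (z : ℝ) ^ (4 * m + 6) * (2 * K * (z : ℝ) ^ (4 * m + 6)) *
          ((z : ℝ) ^ K * V (P1 w z) ^ s.card) * (ε * Real.exp m) := by gcongr
      _ = ε * V (P1 w z) ^ s.card *
          (2 * (K : ℝ) * (z + 2) * (z : ℝ) ^ (8 * m + 12 + K) * Real.exp m) := by ring
      _ ≤ ε * V (P1 w z) ^ s.card * T := by gcongr
  rw [hav]
  set d := boxAv T (fun t : U → ℤ => if ∀ p ∈ P1 w z, ¬ E p t then (1 : ℝ) else 0)
  set q := ∏ p ∈ P1 w z, (1 - ρ p)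
  set v := V (P1 w z) ^ s.card
  have h1 : v⁻¹ * d - 1 = (d - v) / v := by field_simp
  rw [h1, abs_div, abs_of_pos hVa, div_le_iff₀ hVa]
  have h2 := abs_le.1 (hBH.trans (add_le_add le_rfl herr))
  have h3 : q ≤ 2 * B * v := hup.trans (by gcongr; linarith)
  have h4 : ε * q ≤ ε * (2 * B * v) := by gcongr
  have h5 : ε * v ≤ ε * B * v := by
    rw [mul_assoc]
    exact mul_le_mul_of_nonneg_left (le_mul_of_one_le_left hVa.le hB1) hε0.le
  have h6 : v ≤ B * v := le_mul_of_one_le_left hVa.le hB1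
  rw [abs_le]
  constructor <;> linarith [h2.1, h2.2]

end Pool.Agent.Lib.MP_458f0b_nt.Grow
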