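import Pool.Agent.Lib.MP_458f0b_nt.Grow.Block

open Finset Filter Topology

namespace Pool.Agent.Lib.MP_458f0b_nt.Grow

open Pool.Agent.Lib.MP_458f0b_nt.Pois

/-- the moduli for which the law fails at some height up to `Λ` -/
def mainBad (Λ : ℝ) (d : ℕ) : Prop := ∃ lam : ℝ, ∃ K : ℕ, 0 < lam ∧ lam ≤ Λ ∧
  Real.exp (-10 * Λ) < ∑ k ∈ range K, |share lam k d - pois lam k|

open Classical in
lemma main_block : ∃ c : ℝ, 0 < c ∧ c ≤ 1 / 100 ∧ ∀ᶠ L : ℝ in atTop, ∀ D : ℕ,
    L / 2 ≤ Real.log D → Real.log D ≤ L →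
      (((Ico D (2 * D)).filter (mainBad (c * Real.log L / Real.log (Real.log L)))).card : ℝ) ≤
        D * L ^ (-(2 * c)) := by
  obtain ⟨c1, c2, hc1, hc2, hB⟩ := block_law
  set c := min (min c1 (c2 / 13)) (1 / 100) with hcdef
  have hc : 0 < c := lt_min (lt_min hc1 (by linarith)) (by norm_num)
  have hcc1 : c ≤ c1 := (min_le_left _ _).trans (min_le_left _ _)
  have hcc2 : c ≤ c2 / 13 := (min_le_left _ _).trans (min_le_right _ _)
  refine ⟨c, hc, min_le_right _ _, ?_⟩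
  filter_upwards [hB, block_big hc 1 1, ev_pow 2 0 hc, ev_log 1, eventually_ge_atTop 1]
    with L hB hbig hpow ht hL1 D hlo hhi
  obtain ⟨hx, hs1⟩ := hbig
  set t := Real.log L with htdef
  set s := Real.log t with hsdef
  set Λ := c * t / s with hΛ
  have hL0 : 0 < L := by linarith
  have hΛ1 : Λ ≤ c1 * t / s := by rw [hΛ]; gcongr
  have hΛ2 : Λ ≤ c * t := div_le_self (by positivity) hs1
  set S := (Ico D (2 * D)).filter (mainBad Λ) with hS
  have hch : ∀ d : ℕ, ∃ lam : ℝ, ∃ K : ℕ, d ∈ S → 0 < lam ∧ lam ≤ Λ ∧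
      Real.exp (-10 * Λ) < ∑ k ∈ range K, |share lam k d - pois lam k| := fun d => by
    by_cases hd : d ∈ S
    · obtain ⟨lam, K, h⟩ := (mem_filter.1 hd).2
      exact ⟨lam, K, fun _ => h⟩
    · exact ⟨0, 0, fun h => absurd h hd⟩
  choose lam K hlam using hch
  have h1 := hB D lam K S hlo hhi (Finset.filter_subset _ _)
    fun d hd => ⟨(hlam d hd).1, (hlam d hd).2.1.trans hΛ1⟩
  have h2 := Finset.card_nsmul_le_sum S _ _ fun d hd => (hlam d hd).2.2.le
  rw [nsmul_eq_mul] at h2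
  have h3 : Real.exp (-20 * (c1 * t / s)) ≤ Real.exp (-10 * Λ) / 2 := by
    have h4 : Real.exp (-20 * (c1 * t / s)) * Real.exp (10 * Λ) ≤ Real.exp (-10 * Λ) := by
      rw [← Real.exp_add]; exact Real.exp_le_exp.2 (by linarith)
    nlinarith only [h4, Real.add_one_le_exp (10 * Λ), hx, Real.exp_pos (-20 * (c1 * t / s))]
  have h5 := mul_le_mul_of_nonneg_right h3 (Nat.cast_nonneg (α := ℝ) S.card)
  have h6 : L ^ (-(10 * c)) ≤ Real.exp (-10 * Λ) := by
    rw [Real.rpow_def_of_pos hL0, ← htdef]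
    exact Real.exp_le_exp.2 (by linarith)
  have h7 : 2 * L ^ (-c2) ≤ L ^ (-(2 * c)) * L ^ (-(10 * c)) := by
    rw [pow_zero, mul_one] at hpow
    calc 2 * L ^ (-c2) ≤ L ^ c * L ^ (-c2) := by gcongr
      _ ≤ _ := by
        rw [← Real.rpow_add hL0, ← Real.rpow_add hL0]
        exact Real.rpow_le_rpow_of_exponent_le hL1 (by linarith)
  have h8 := Real.rpow_pos_of_pos hL0 (-(10 * c))
  refine le_of_mul_le_mul_right ?_ h8
  have h9 := mul_le_mul_of_nonneg_left h6 (Nat.cast_nonneg (α := ℝ) S.card)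
  have h10 := mul_le_mul_of_nonneg_left h7 (Nat.cast_nonneg (α := ℝ) D)
  linarith only [h1, h2, h5, h9, h10]

lemma main_small : ∀ᶠ L : ℝ in atTop, 14 * L ≤ Real.exp (L / 2) := by
  filter_upwards [eventually_ge_atTop 1000] with L hL
  have h1 : Real.exp (L / 2) = Real.exp (L / 4) * Real.exp (L / 4) := by
    rw [← Real.exp_add]; congr 1; ring
  have h2 := Real.add_one_le_exp (L / 4)
  rw [h1]
  nlinarith

theorem grow_law : ∃ c : ℝ, 0 < c ∧ ∃ D0 : ℕ, ∀ D : ℕ, D0 ≤ D → ∃ E : Finset ℕ,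
    (E.card : ℝ) ≤ D / Real.log D ^ c ∧ ∀ d ∈ Icc 1 D, d ∉ E → ∀ lam : ℝ, 0 < lam →
      lam ≤ c * Real.log (Real.log D) / Real.log (Real.log (Real.log D)) → ∀ K : ℕ,
        ∑ k ∈ range K, |share lam k d - pois lam k| ≤
          Real.exp (-10 * (c * Real.log (Real.log D) / Real.log (Real.log (Real.log D)))) := by
  classical
  obtain ⟨c, hc, hc1, hB⟩ := main_block
  refine ⟨c, hc, ?_⟩
  have hE := reg_log_tendsto.eventually
    (hB.and ((ev_pow 8 0 hc).and (main_small.and (eventually_ge_atTop 1))))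
  obtain ⟨D0, hD0⟩ := eventually_atTop.1 hE
  refine ⟨D0 + 1, fun D hD => ?_⟩
  obtain ⟨hb, hpow, hsm, hL⟩ := hD0 D (by omega)
  set L := Real.log D with hLdef
  set Λ := c * Real.log L / Real.log (Real.log L) with hΛ
  refine ⟨(Icc 1 D).filter (mainBad Λ), ?_, fun d hd hdE lam h1 h2 K => ?_⟩
  swap
  · by_contra h3
    exact hdE (mem_filter.2 ⟨hd, lam, K, h1, h2, not_le.1 h3⟩)
  have hL0 : 0 < L := by linarith
  have hDpos : (0 : ℝ) < D := by exact_mod_cast (by omega : 0 < D)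
  have hD1 : (1 : ℝ) ≤ D := by exact_mod_cast (by omega : 1 ≤ D)
  have hDe : Real.exp L = D := Real.exp_log hDpos
  let F : ℕ → ℝ := fun d => if d ≤ D ∧ mainBad Λ d then 1 else 0
  have hF0 : ∀ d, 0 ≤ F d := fun d => by simp only [F]; split_ifs <;> norm_num
  have hF1 : ∀ d, F d ≤ 1 := fun d => by simp only [F]; split_ifs <;> norm_num
  have hε := Real.rpow_pos_of_pos hL0 (-(2 * c))
  have hdy := bonf_dyadic F hF0 hF1 hε (D0 := ⌈Real.exp (L / 2)⌉₊) (fun D' hD' => by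
    have h1 : Real.exp (L / 2) ≤ D' := Nat.ceil_le.1 hD'
    have h2 : (0 : ℝ) < D' := (Real.exp_pos _).trans_le h1
    by_cases h3 : D' ≤ D
    · have h4 := hb D' ((Real.le_log_iff_exp_le h2).2 h1)
        (Real.log_le_log h2 (by exact_mod_cast h3))
      refine le_trans ?_ (h4.trans_eq (mul_comm _ _))
      rw [Finset.card_filter]
      push_cast
      refine Finset.sum_le_sum fun d _ => ?_
      simp only [F]
      by_cases h5 : mainBad Λ d <;> by_cases h6 : d ≤ D <;> simp [h5, h6]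
    · rw [Finset.sum_eq_zero fun d hd => if_neg (by have := (mem_Ico.1 hd).1; omega)]
      positivity) (D + 1)
  have h5 : (((Icc 1 D).filter (mainBad Λ)).card : ℝ) ≤ ∑ d ∈ range (D + 1), F d := by
    rw [Finset.card_filter]
    push_cast
    refine le_trans (le_of_eq (Finset.sum_congr rfl fun d hd => ?_))
      (Finset.sum_le_sum_of_subset_of_nonneg (s := Icc 1 D) (fun d hd => ?_) fun d _ _ => hF0 d)
    · simp only [F, (mem_Icc.1 hd).2, true_and]
    · exact mem_range.2 (Nat.lt_succ_of_le (mem_Icc.1 hd).2)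
  have h6 : (⌈Real.exp (L / 2)⌉₊ : ℝ) ≤ Real.exp (L / 2) + 1 :=
    (Nat.ceil_lt_add_one (by positivity)).le
  have h7 : 1 ≤ Real.exp (L / 2) := Real.one_le_exp (by linarith)
  have h8 := Real.rpow_pos_of_pos hL0 c
  have h9 : L ^ c ≤ L := by
    conv_rhs => rw [← Real.rpow_one L]
    exact Real.rpow_le_rpow_of_exponent_le hL (by linarith)
  have h10 : Real.exp (L / 2) * Real.exp (L / 2) = D := by
    rw [← Real.exp_add, ← hDe]; congr 1; ring
  have h11 : 7 * Real.exp (L / 2) * L ^ c ≤ D / 2 := by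
    nlinarith only [mul_le_mul_of_nonneg_left (h9.trans (show L ≤ Real.exp (L / 2) / 14 by linarith))
      (Real.exp_pos (L / 2)).le, h10]
  have h12 : L ^ (-(2 * c)) * L ^ c ≤ 1 / 8 := by
    rw [pow_zero, mul_one] at hpow
    have h13 : L ^ (-(2 * c)) * L ^ c * L ^ c = 1 := by
      rw [← Real.rpow_add hL0, ← Real.rpow_add hL0, show -(2 * c) + c + c = 0 by ring,
        Real.rpow_zero]
    nlinarith only [h13, hpow, mul_pos hε h8]
  push_cast at hdy
  rw [le_div_iff₀ h8]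
  have h14 : ∑ d ∈ range (D + 1), F d ≤ 7 * Real.exp (L / 2) + 4 * D * L ^ (-(2 * c)) := by
    nlinarith only [hdy, h6, h7, hD1, hε]
  have h15 := mul_le_mul_of_nonneg_right (h5.trans h14) h8.le
  have h16 := mul_le_mul_of_nonneg_left h12 hDpos.le
  linarith only [h15, h16, h11]

end Pool.Agent.Lib.MP_458f0b_nt.Grow
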