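import Pool.Agent.Lib.MP_458f0b_nt.Grow.Defs
import Pool.Agent.Lib.MP_458f0b_nt.Grow.LFCx

open Finset Filter Topology

namespace Pool.Agent.Lib.MP_458f0b_nt.Grow

open Pool.Agent.Lib.MP_458f0b_nt.Pois

lemma maj_kap {y z : ℕ} (h : y ≤ z) : kap z = kap y * (V (P1 y z))⁻¹ := by
  have hset : y.primesLE = z.primesLE.filter (fun p => ¬ y < p) := by
    ext p
    simp only [Finset.mem_filter, Nat.mem_primesLE, not_lt]
    exact ⟨fun h1 => ⟨⟨h1.1.trans h, h1.2⟩, h1.1⟩, fun h1 => ⟨h1.2, h1.1.2⟩⟩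
  unfold kap V P1
  rw [← mul_inv, hset, mul_comm, Finset.prod_filter_mul_prod_filter_not]

lemma maj_prime {y z X : ℕ} (hz : z ^ 2 ≤ X) {n : ℤ} (h3 : n.natAbs.Prime)
    (h4 : (X : ℤ) < n ^ 2) : nu1 y z n = (V (P1 y z))⁻¹ := by
  have h5 : (X : ℤ) < (n.natAbs : ℤ) ^ 2 := by rw [Int.natAbs_sq]; exact h4
  have h6 : X < n.natAbs ^ 2 := by exact_mod_cast h5
  have hzn : z < n.natAbs := lt_of_pow_lt_pow_left₀ 2 (Nat.zero_le _) (hz.trans_lt h6)
  refine if_pos fun p hp hd => ?_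
  have h7 := (Nat.prime_dvd_prime_iff_eq (mem_P1.mp hp).1 h3).mp (Int.natCast_dvd.mp hd)
  have h8 := (mem_P1.mp hp).2.2
  omega

lemma maj_T {K M z : ℕ} {L : ℝ} (hM : 13 ≤ M) (hK : 6 * K ≤ M) (hL : 40 * (M : ℝ) ≤ L)
    (hz1 : 1 ≤ z) (hz : (z : ℝ) ≤ Real.exp (L / (200 * M))) :
    2 * (K : ℝ) * (z + 2) * (z : ℝ) ^ (8 * M + 12 + K) * Real.exp M ≤ Real.exp (L / 10) := by
  have hM' : (13 : ℝ) ≤ M := by exact_mod_cast hM
  have hK' : 6 * (K : ℝ) ≤ M := by exact_mod_cast hK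
  have hz' : (1 : ℝ) ≤ z := by exact_mod_cast hz1
  have h1 : (z : ℝ) ^ (8 * M + 12 + K + 1) ≤ Real.exp (L / 20) :=
    calc (z : ℝ) ^ (8 * M + 12 + K + 1) ≤ (z : ℝ) ^ (10 * M) := pow_le_pow_right₀ hz' (by omega)
      _ ≤ Real.exp (L / (200 * M)) ^ (10 * M) := pow_le_pow_left₀ (by linarith) hz _
      _ = Real.exp (L / 20) := by
        rw [← Real.exp_nat_mul]
        congr 1
        push_cast
        field_simp
        ring
  have h2 : 6 * (K : ℝ) ≤ Real.exp M := by linarith [Real.add_one_le_exp (M : ℝ)]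
  calc 2 * (K : ℝ) * (z + 2) * (z : ℝ) ^ (8 * M + 12 + K) * Real.exp M
      ≤ 2 * (K : ℝ) * (3 * z) * (z : ℝ) ^ (8 * M + 12 + K) * Real.exp M := by
        gcongr
        linarith
    _ = 6 * (K : ℝ) * Real.exp M * (z : ℝ) ^ (8 * M + 12 + K + 1) := by ring
    _ ≤ Real.exp M * Real.exp M * Real.exp (L / 20) := by gcongr
    _ ≤ Real.exp (L / 10) := by
        rw [← Real.exp_add, ← Real.exp_add]
        exact Real.exp_le_exp.2 (by linarith)

theorem maj : ∃ C : ℝ, 1 ≤ C ∧ ∀ᶠ L : ℝ in atTop, ∀ K M y : ℕ, 1 ≤ K → C * K ≤ M →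
    4 * (K : ℝ) ^ 2 * Real.exp M ≤ y → C * M * Real.log y ≤ L →
    ∃ z : ℕ, 1 ≤ z ∧ (z : ℝ) ≤ Real.exp (L / 100) ∧ local_L K M y z ⌊Real.exp (L / 6)⌋₊ ∧
      (∀ n, nu1 y z n ≤ L ^ 2) ∧
      ∀ X : ℕ, Real.exp (L / 2) ≤ X → (X : ℝ) ≤ Real.exp (2 * L) → ∀ n,
        pr X n ≤ C * M * Real.log y * (ind X n * nu1 y z n) := by
  obtain ⟨C0, hC0, hl⟩ := lfc_exp
  refine ⟨5 * C0 + 120000, by linarith, ?_⟩
  filter_upwards [eventually_ge_atTop 200] with L hL K M y hK hM hy hC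
  have hK' : (1 : ℝ) ≤ K := by exact_mod_cast hK
  have h0 : 0 ≤ C0 * K := by positivity
  have hMK : 120000 * (K : ℝ) ≤ M := by linarith
  have hM1 : (120000 : ℝ) ≤ M := by linarith
  have he : (M : ℝ) + 1 ≤ Real.exp M := Real.add_one_le_exp _
  have hK2 : (K : ℝ) ≤ 4 * (K : ℝ) ^ 2 := by nlinarith
  have hy1 : Real.exp M ≤ y := (le_mul_of_one_le_left (Real.exp_pos _).le (by linarith)).trans hy
  have hy0 : (3 : ℝ) ≤ y := by linarith
  have hly : (M : ℝ) ≤ Real.log y := (Real.le_log_iff_exp_le (by linarith)).2 hy1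
  have hP : 0 ≤ (M : ℝ) * Real.log y := mul_nonneg (by linarith) (by linarith)
  have hCL : 120000 * ((M : ℝ) * Real.log y) ≤ L := by nlinarith [mul_nonneg hC0 hP]
  have ha : Real.log y ≤ L / (200 * M) := by
    rw [le_div_iff₀ (by linarith)]
    linarith
  have ha2 : L / (200 * M) ≤ L / 100 := div_le_div_of_nonneg_left (by linarith) (by norm_num)
    (by linarith)
  set z := ⌊Real.exp (L / (200 * M))⌋₊ with hz
  have hz1 : (z : ℝ) ≤ Real.exp (L / (200 * M)) := Nat.floor_le (Real.exp_pos _).le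
  have hz2 : Real.exp (L / (200 * M)) < z + 1 := Nat.lt_floor_add_one _
  have hz3 : (z : ℝ) ≤ Real.exp (L / 100) := hz1.trans (Real.exp_le_exp.2 ha2)
  have hyz : y ≤ z := Nat.le_floor ((Real.log_le_iff_le_exp (by linarith)).1 ha)
  have hy3 : 3 ≤ y := by exact_mod_cast hy0
  have hV : 0 < (V (P1 y z))⁻¹ := inv_pos.2 (V_pos fun _ => prime_of_mem_P1)
  have hT : Real.exp (L / 10) ≤ (⌊Real.exp (L / 6)⌋₊ : ℕ) := by
    have h1 := Nat.lt_floor_add_one (Real.exp (L / 6))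
    have h2 : Real.exp (L / 6) = Real.exp (L / 10) * Real.exp (L / 15) := by
      rw [← Real.exp_add]
      congr 1
      ring
    have h3 := Real.add_one_le_exp (L / 15)
    have h4 := Real.add_one_le_exp (L / 10)
    nlinarith
  refine ⟨z, by omega, hz3, ?_, fun n => ?_, fun X hX1 hX2 n => ?_⟩
  · refine hl K M y z _ (by linarith) (by omega) ?_ hy (by omega) (le_trans (maj_T ?_ ?_ ?_
      (by omega) hz1) hT) ?_
    · have : 2 * (K : ℝ) ≤ y := by nlinarith
      exact_mod_cast this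
    · have : (13 : ℝ) ≤ M := by linarith
      exact_mod_cast this
    · have : 6 * (K : ℝ) ≤ M := by linarith
      exact_mod_cast this
    · nlinarith
    · exact_mod_cast (Real.exp_pos _).trans_le hT
  · have h1 := nu_le (S := P1 y z) (fun _ => prime_of_mem_P1) n
    have h2 := kap_le (w := z) (L := Real.exp (L / 100))
      (by linarith [Real.add_one_le_exp (L / 100)]) hz3
    rw [Real.log_exp, maj_kap hyz] at h2
    have h3 := le_mul_of_one_le_left hV.le (one_le_kap y)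
    have h4 : nu1 y z n ≤ 3 * L := by
      unfold nu1
      linarith
    nlinarith
  · have hc : 0 ≤ (5 * C0 + 120000) * M * Real.log y := by
      rw [mul_assoc]
      positivity
    unfold pr
    split_ifs with h
    swap
    · exact mul_nonneg hc (mul_nonneg (ind_nonneg X n) (nu1_nonneg y z n))
    obtain ⟨h1, h2, h3, h4⟩ := h
    have hz4 : z ^ 2 ≤ X := by
      have : (z : ℝ) ^ 2 ≤ X :=
        calc (z : ℝ) ^ 2 ≤ Real.exp (L / 100) ^ 2 := pow_le_pow_left₀ (Nat.cast_nonneg z) hz3 2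
          _ = Real.exp (L / 50) := by
            rw [← Real.exp_nat_mul]
            congr 1
            push_cast
            ring
          _ ≤ X := (Real.exp_le_exp.2 (by linarith)).trans hX1
      exact_mod_cast this
    have e1 : ind X n = 1 := if_pos ⟨h1, h2⟩
    rw [e1, one_mul, maj_prime hz4 h3 h4]
    have h5 : Real.log X ≤ 2 * L :=
      (Real.log_le_iff_le_exp ((Real.exp_pos _).trans_le hX1)).2 hX2
    have h6 := log_le_prod_primesLE z
    rw [← kap_eq_prod, maj_kap hyz] at h6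
    have h7 : L / (200 * M) ≤ Real.log (z + 1) :=
      (Real.le_log_iff_exp_le (by positivity)).2 hz2.le
    have h8 := mul_le_mul_of_nonneg_right (kap_le (w := y) hy0 le_rfl) hV.le
    have h9 : L ≤ 300 * Real.log y * (V (P1 y z))⁻¹ * (200 * M) := by
      rw [← div_le_iff₀ (by linarith)]
      linarith
    have h10 := mul_nonneg hC0 (mul_nonneg hP hV.le)
    nlinarith

end Pool.Agent.Lib.MP_458f0b_nt.Grow
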