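import Pool.Agent.Lib.MP_458f0b_nt.Grow.PairB

open Finset Filter Topology

namespace Pool.Agent.Lib.MP_458f0b_nt.Grow

open Pool.Agent.Lib.MP_458f0b_nt.Pois

lemma momUp_small {y z p : ℕ} (hp : p ∈ P1 y z) {a : ℤ} (h0 : a ≠ 0) (ha : |a| ≤ y) :
    ¬ (p : ℤ) ∣ a := fun h => by
  have h1 := Int.le_of_dvd (abs_pos.2 h0) ((dvd_abs _ _).2 h)
  have h2 : (y : ℤ) < p := by exact_mod_cast (mem_P1.1 hp).2.1
  omega

lemma momUp_one {y z p : ℕ} (hp : p ∈ P1 y z) : ¬ (p : ℤ) ∣ ((1 : ℕ) : ℤ) := fun h =>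
  (prime_of_mem_P1 hp).one_lt.ne' (Nat.dvd_one.1 (Int.natCast_dvd_natCast.1 h))

lemma momUp_sys {y z k Q : ℕ} (hQy : 2 * Q ≤ y) {q : Fin 1 → Fin k → ℤ}
    (hq : ∀ e, q e ∈ inj (Fin k) Q) :
    local_Sys y z none (starlAct 1 (univ : Finset (Fin k))) (starlC 1 q) ∅ := by
  have hQ : 2 * (Q : ℤ) ≤ y := by exact_mod_cast hQy
  refine ⟨fun i hi => ?_, fun p hp => ⟨momUp_one hp, fun i hi => ?_⟩,
    fun p hp _ => ⟨fun l => ?_, fun i hi l hl => ?_⟩⟩
  · obtain ⟨x, rfl⟩ := starl_mem hi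
    exact starl_cP_self _ q x
  · obtain ⟨x, rfl⟩ := starl_mem hi
    exact momUp_one hp
  · rcases l with _ | x
    · exact momUp_one hp
    · obtain ⟨h1, -, h3⟩ := mem_inj.1 (hq x.1)
      have h4 := h1 x.2
      simp only [starlC, cN, Nat.cast_one, one_mul]
      exact momUp_small hp (h3 x.2) (abs_le.2 ⟨by omega, by omega⟩)
  · obtain ⟨⟨e, i⟩, rfl⟩ := starl_mem hi
    rcases l with _ | ⟨e', l⟩
    · exact momUp_one hp
    · obtain rfl : e' = e := Subsingleton.elim _ _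
      obtain ⟨h1, h2, -⟩ := mem_inj.1 (hq e')
      have h4 := h1 i
      have h5 := h1 l
      simp only [starlC, cP, Nat.cast_one, one_mul, if_true]
      refine momUp_small hp (sub_ne_zero.2 fun h => hl ?_) (abs_le.2 ⟨by omega, by omega⟩)
      rw [h2 h]

lemma momUp_loc {K m y z T D X k Q : ℕ} {β : ℝ} (hL : local_L K m y z T) (hK : k + 2 ≤ K)
    (hQy : 2 * Q ≤ y) (hβ : 0 ≤ β) (hP : ∀ n, pi1 X n ≤ β * nu1 y z n)
    {q : Fin 1 → Fin k → ℤ} (hq : ∀ e, q e ∈ inj (Fin k) Q) (n : ℤ) (d : Fin 1 → ℤ) :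
    boxAv T (fun t : Option (Fin 1 × Fin k) → ℤ =>
      integ D (pi1 X) (fun _ => 1) (fun _ : Fin k => pi1 X) q (shN 1 q n t) (shD 1 d t)) ≤
      9 * β ^ (k + 1) := by
  have h1 := local_single (h := 0) hL (momUp_sys hQy hq) (starlB q n d)
    (by simp only [Fintype.card_option, Fintype.card_prod, Fintype.card_fin]; omega) (by simp)
    (starlAct 1 (univ : Finset (Fin k))).insertNone fun α hα i hi =>
      Finset.mem_insertNone.1 hα i hi
  simp only [Finset.prod_insertNone, mul_zero, Real.exp_zero, mul_one] at h1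
  rw [mul_comm 9]
  refine le_trans ?_ (mul_le_mul_of_nonneg_left h1 (pow_nonneg hβ (k + 1)))
  rw [← boxAv_mul]
  refine boxAv_mono T fun t _ => ?_
  rw [starl_integ, Fintype.prod_option, shN_eq_frm]
  have h2 : ∏ i ∈ starlAct 1 (univ : Finset (Fin k)),
      nu1 y z (frm (starlB q n d (some i)) (starlC 1 q (some i)) t) =
      ∏ x : Fin 1 × Fin k, nu1 y z (frm (n + q x.1 x.2 * d x.1) (cP 1 q x.1 x.2) t) := by
    rw [starlAct, Finset.prod_map, Finset.univ_product_univ]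
    rfl
  rw [h2]
  simp only [starlG, starlB, starlC]
  have h3 : ∏ x : Fin 1 × Fin k, pi1 X (frm (n + q x.1 x.2 * d x.1) (cP 1 q x.1 x.2) t) ≤
      β ^ k * ∏ x : Fin 1 × Fin k, nu1 y z (frm (n + q x.1 x.2 * d x.1) (cP 1 q x.1 x.2) t) := by
    refine (Finset.prod_le_prod (fun x _ => pi1_nonneg X _) fun x _ => hP _).trans_eq ?_
    rw [Finset.prod_mul_distrib, Finset.prod_const, Finset.card_univ]
    simp
  have h4 : ∏ e : Fin 1, (if shD 1 d t e ∈ Ico (D : ℤ) (2 * D) then (1 : ℝ) else 0) ≤ 1 :=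
    Finset.prod_le_one (fun e _ => by split_ifs <;> norm_num) fun e _ => by split_ifs <;> norm_num
  have h5 : 0 ≤ ∏ x : Fin 1 × Fin k, pi1 X (frm (n + q x.1 x.2 * d x.1) (cP 1 q x.1 x.2) t) :=
    Finset.prod_nonneg fun x _ => pi1_nonneg X _
  have h6 := (mul_le_of_le_one_left h5 h4).trans h3
  have h7 := hP (frm n (cN 1 q) t)
  refine (mul_le_mul_of_nonneg_left h6 (pi1_nonneg X _)).trans ?_
  refine (mul_le_mul_of_nonneg_right h7 (h5.trans h3)).trans_eq ?_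
  ring

theorem mom_up {K m y z T D X k M : ℕ} {β : ℝ} (hL : local_L K m y z T) (hK : k + 2 ≤ K)
    (hD : 0 < D) (hQy : 2 * (X / D) ≤ y) (hT : 0 < T) (hM : T * (1 + k + k * (X / D)) ≤ M)
    (hMD : M ≤ D) (hMX : 2 * M ≤ X) (hβ : 0 ≤ β)
    (hP : ∀ n, pi1 X n ≤ β * (ind X n * nu1 y z n)) :
    Pair D X (k + 1) (fun _ => 1) (fun _ _ => 1) ≤
      36 * X * D * β ^ (k + 1) * (2 * ((X / D : ℕ) : ℝ) + 1) ^ k := by
  have hP' : ∀ n, pi1 X n ≤ β * nu1 y z n := fun n => (hP n).trans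
    (mul_le_mul_of_nonneg_left (mul_le_of_le_one_left (nu1_nonneg y z n) (ind_le_one X n)) hβ)
  have hS := star_shift (ι := Fin k) D X 1 T 1 M hT (by simpa using hM) (pi1 X) (fun _ => 1)
    (fun _ => pi1 X) fun n hn => pi1_of_not_mem hn
  simp only [pow_one] at hS
  rw [← sum_pi_Dl hD]
  unfold Dl
  rw [hS]
  have hMD' : (M : ℝ) ≤ D := by exact_mod_cast hMD
  have hMX' : 2 * (M : ℝ) ≤ X := by exact_mod_cast hMX
  have cD : ((Fintype.piFinset (fun _ : Fin 1 => Ico (D : ℤ) (2 * D + M))).card : ℝ) ≤ 2 * D := by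
    rw [Fintype.card_piFinset, prod_const, card_univ, Fintype.card_fin, Int.card_Ico,
      show (2 * (D : ℤ) + M - D).toNat = D + M by omega, pow_one, Nat.cast_add]
    linarith
  have cN : ((Icc (1 - M : ℤ) (X + M)).card : ℝ) ≤ 2 * X := by
    rw [Int.card_Icc, show ((X : ℤ) + M + 1 - (1 - M)).toNat = X + 2 * M by omega]
    push_cast
    linarith
  have cQ : ((Fintype.piFinset (fun _ : Fin 1 => inj (Fin k) (X / D))).card : ℝ) ≤
      (2 * ((X / D : ℕ) : ℝ) + 1) ^ k := by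
    rw [Fintype.card_piFinset, prod_const, card_univ, Fintype.card_fin, pow_one]
    simpa using card_inj_le (ι := Fin k) (X / D)
  refine (sum_le_sum fun q hq => sum_le_sum fun n _ => sum_le_sum fun d _ =>
    momUp_loc hL hK hQy hβ hP' (Fintype.mem_piFinset.1 hq) n d).trans ?_
  simp only [sum_const, nsmul_eq_mul]
  calc _ ≤ (2 * ((X / D : ℕ) : ℝ) + 1) ^ k * (2 * X * (2 * D * (9 * β ^ (k + 1)))) := by gcongr
    _ = _ := by ring

lemma momUp_pt (N k : ℕ) : (1 + N) ^ k ≤ (2 * k + 1) ^ k + 4 ^ k * N.descFactorial k := by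
  rcases le_or_gt N (2 * k) with h | h
  · exact (Nat.pow_le_pow_left (by omega) k).trans (Nat.le_add_right _ _)
  · refine le_trans ?_ (Nat.le_add_left _ _)
    refine le_trans ?_ (Nat.mul_le_mul_left _ (Nat.pow_sub_le_descFactorial N k))
    rw [← mul_pow]
    exact Nat.pow_le_pow_left (by omega) k

theorem Mo_le (D X k : ℕ) :
    Mo D X k ≤ 2 * (D : ℝ) ^ 2 * (2 * k + 1) ^ k +
      4 ^ k * Pair D X k (fun _ => 1) (fun _ _ => 1) := by
  have h1 : Mo D X k ≤ SC D (fun d a => (2 * (k : ℝ) + 1) ^ k * 1 +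
      4 ^ k * (1 * ((Nc X d a).descFactorial k : ℝ) * 1)) := by
    refine SC_mono D fun d a => ?_
    simp only [mul_one, one_mul]
    exact_mod_cast momUp_pt (Nc X d a) k
  rw [SC_add, SC_mul, SC_mul] at h1
  have h2 := mul_le_mul_of_nonneg_left (SC_one_le D)
    (show 0 ≤ (2 * (k : ℝ) + 1) ^ k by positivity)
  unfold Pair
  linarith

end Pool.Agent.Lib.MP_458f0b_nt.Grow
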