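import Pool.Agent.Lib.MP_458f0b_nt.Grow.Maj
import Pool.Agent.Lib.MP_458f0b_nt.Grow.MomUp

open Finset Filter Topology

namespace Pool.Agent.Lib.MP_458f0b_nt.Grow

open Pool.Agent.Lib.MP_458f0b_nt.Pois

/-- the sieve level is at most a fixed power of `L` -/
lemma MoBound_logy {L : ℝ} (hL : 20 ≤ L) (c K : ℕ) (hK : (K : ℝ) ≤ 2 * Real.log L) :
    Real.log ((⌈4 * (K : ℝ) ^ 2 * Real.exp ((c * K : ℕ) : ℝ)⌉₊ + ⌈2 * L ^ 2⌉₊ : ℕ) : ℝ) ≤
      (2 * c + 3) * Real.log L := by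
  have hL0 : 0 < L := by linarith
  have ht : Real.log L ≤ L := (Real.log_le_sub_one_of_pos hL0).trans (by linarith)
  have hK0 : (0 : ℝ) ≤ K := Nat.cast_nonneg K
  have hc0 : (0 : ℝ) ≤ c := Nat.cast_nonneg c
  have h1 : Real.exp ((c * K : ℕ) : ℝ) ≤ L ^ (2 * c) := by
    have : L ^ (2 * c) = Real.exp (((2 * c : ℕ) : ℝ) * Real.log L) := by
      rw [Real.exp_nat_mul, Real.exp_log hL0]
    rw [this]
    refine Real.exp_le_exp.2 ?_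
    push_cast
    nlinarith
  have h2 : (K : ℝ) ^ 2 ≤ 4 * L ^ 2 := by nlinarith
  have h3 : (1 : ℝ) ≤ L ^ (2 * c) := one_le_pow₀ (by linarith)
  have h4 : (1 : ℝ) ≤ L ^ 2 := one_le_pow₀ (by linarith)
  have h5 : 4 * (K : ℝ) ^ 2 * Real.exp ((c * K : ℕ) : ℝ) ≤ 16 * (L ^ 2 * L ^ (2 * c)) := by
    calc 4 * (K : ℝ) ^ 2 * Real.exp ((c * K : ℕ) : ℝ) ≤ 4 * (4 * L ^ 2) * L ^ (2 * c) := by
          gcongr
      _ = 16 * (L ^ 2 * L ^ (2 * c)) := by ring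
  have h6 := Nat.ceil_lt_add_one
    (show 0 ≤ 4 * (K : ℝ) ^ 2 * Real.exp ((c * K : ℕ) : ℝ) by positivity)
  have h7 := Nat.ceil_lt_add_one (show 0 ≤ 2 * L ^ 2 by positivity)
  have h8 : L ^ 2 ≤ L ^ 2 * L ^ (2 * c) := le_mul_of_one_le_right (by positivity) h3
  have h9 : ((⌈4 * (K : ℝ) ^ 2 * Real.exp ((c * K : ℕ) : ℝ)⌉₊ + ⌈2 * L ^ 2⌉₊ : ℕ) : ℝ) ≤
      L ^ (2 * c + 3) := by
    have h10 : L ^ (2 * c + 3) = L * (L ^ 2 * L ^ (2 * c)) := by ring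
    rw [h10, Nat.cast_add]
    nlinarith
  have h11 : (0 : ℝ) <
      ((⌈4 * (K : ℝ) ^ 2 * Real.exp ((c * K : ℕ) : ℝ)⌉₊ + ⌈2 * L ^ 2⌉₊ : ℕ) : ℝ) := by
    have h12 := Nat.le_ceil (2 * L ^ 2)
    have h13 : (0 : ℝ) ≤ (⌈4 * (K : ℝ) ^ 2 * Real.exp ((c * K : ℕ) : ℝ)⌉₊ : ℝ) :=
      Nat.cast_nonneg _
    rw [Nat.cast_add]
    linarith
  refine (Real.log_le_log h11 h9).trans (le_of_eq ?_)
  rw [Real.log_pow]
  push_cast
  ring

lemma MoBound_exp1 {L : ℝ} (hL : 6 ≤ L) : L ^ 2 ≤ Real.exp L := by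
  have h := Real.pow_div_factorial_le_exp L (by linarith) 3
  have h3 : ((Nat.factorial 3 : ℕ) : ℝ) = 6 := by norm_num [Nat.factorial]
  rw [h3] at h
  nlinarith [sq_nonneg L]

lemma MoBound_exp2 {L : ℝ} (hL : 11664 ≤ L) : 6 * L ^ 3 ≤ Real.exp (L / 3) := by
  have h := Real.pow_div_factorial_le_exp (L / 3) (by linarith) 4
  have h3 : ((Nat.factorial 4 : ℕ) : ℝ) = 24 := by norm_num [Nat.factorial]
  rw [h3] at h
  have h4 : (0 : ℝ) ≤ L ^ 3 := by positivity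
  have h5 : (L / 3) ^ 4 / 24 = L * L ^ 3 / 1944 := by ring
  rw [h5] at h
  nlinarith

/-- the factorial moments -/
lemma MoBound_pair : ∃ A : ℝ, 0 ≤ A ∧ ∀ᶠ L : ℝ in atTop, ∀ D X n : ℕ, Rg L D X →
    (n : ℝ) + 1 ≤ Real.log L →
    Pair D X (n + 1) (fun _ => 1) (fun _ _ => 1) ≤
      36 * (D : ℝ) ^ 2 * (A * Real.log L ^ 3) ^ (n + 1) := by
  obtain ⟨C, hC1, hmaj⟩ := maj
  obtain ⟨c, hCc⟩ : ∃ c : ℕ, C ≤ c := ⟨⌈C⌉₊, Nat.le_ceil C⟩
  have hc0 : (0 : ℝ) ≤ c := Nat.cast_nonneg c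
  obtain ⟨A, hA⟩ : ∃ A : ℝ, A = 2 * (c : ℝ) ^ 2 * (2 * c + 3) := ⟨_, rfl⟩
  have hA0 : 0 ≤ A := by rw [hA]; positivity
  refine ⟨6 * A, by positivity, ?_⟩
  filter_upwards [hmaj, ev_pow A 2 (b := 1) one_pos, eventually_ge_atTop 11664, ev_log 1]
    with L hm hAL hL ht1 D X n hR hn
  clear hmaj
  rw [Real.rpow_one] at hAL
  have hL0 : 0 < L := by linarith
  set t := Real.log L with ht
  have htL : t ≤ L := (Real.log_le_sub_one_of_pos hL0).trans (by linarith)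
  have hn0 : (0 : ℝ) ≤ n := Nat.cast_nonneg n
  obtain ⟨K, hK⟩ : ∃ K : ℕ, K = n + 2 := ⟨_, rfl⟩
  have hKt : (K : ℝ) ≤ 2 * t := by rw [hK]; push_cast; linarith
  have hK0 : (0 : ℝ) ≤ K := Nat.cast_nonneg K
  obtain ⟨y, hy⟩ : ∃ y : ℕ,
      y = ⌈4 * (K : ℝ) ^ 2 * Real.exp ((c * K : ℕ) : ℝ)⌉₊ + ⌈2 * L ^ 2⌉₊ := ⟨_, rfl⟩
  have hlogy : Real.log y ≤ (2 * c + 3) * t := hy ▸ MoBound_logy (by linarith) c K hKt
  have hlogy0 : 0 ≤ Real.log y := Real.log_natCast_nonneg y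
  have hy1 : 4 * (K : ℝ) ^ 2 * Real.exp ((c * K : ℕ) : ℝ) ≤ y := by
    rw [hy, Nat.cast_add]
    have h1 := Nat.le_ceil (4 * (K : ℝ) ^ 2 * Real.exp ((c * K : ℕ) : ℝ))
    have h2 : (0 : ℝ) ≤ (⌈2 * L ^ 2⌉₊ : ℝ) := Nat.cast_nonneg _
    linarith
  have hy2 : 2 * L ^ 2 ≤ y := by
    rw [hy, Nat.cast_add]
    have h1 := Nat.le_ceil (2 * L ^ 2)
    have h2 : (0 : ℝ) ≤ (⌈4 * (K : ℝ) ^ 2 * Real.exp ((c * K : ℕ) : ℝ)⌉₊ : ℝ) :=
      Nat.cast_nonneg _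
    linarith
  have hB0 : 0 ≤ C * ((c * K : ℕ) : ℝ) * Real.log y := by
    have : 0 ≤ C := by linarith
    positivity
  have hB : C * ((c * K : ℕ) : ℝ) * Real.log y ≤ A * t ^ 2 := by
    have h0 : 0 ≤ C := by linarith
    calc C * ((c * K : ℕ) : ℝ) * Real.log y = C * ((c : ℝ) * K) * Real.log y := by push_cast; ring
      _ ≤ c * ((c : ℝ) * (2 * t)) * ((2 * c + 3) * t) := by gcongr
      _ = A * t ^ 2 := by rw [hA]; ring
  obtain ⟨z, -, -, hloc, -, hpr⟩ := hm K (c * K) y (by omega)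
    (by push_cast; exact mul_le_mul_of_nonneg_right hCc hK0) hy1 (hB.trans hAL)
  have hD := hR.pos hL0
  have hD0 : (0 : ℝ) < D := by exact_mod_cast hD
  have hDX : (D : ℝ) ≤ X := by exact_mod_cast hR.x1
  have hX1 : Real.exp (L / 2) ≤ X := (hR.exp_le hL0).trans hDX
  have hX2 : (X : ℝ) ≤ Real.exp (2 * L) := by
    have h1 := hR.le_exp hL0
    have h2 := MoBound_exp1 (show 6 ≤ L by linarith)
    calc (X : ℝ) ≤ D * L * t := hR.x2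
      _ ≤ Real.exp L * L * L := by gcongr
      _ = Real.exp L * L ^ 2 := by ring
      _ ≤ Real.exp L * Real.exp L := by gcongr
      _ = Real.exp (2 * L) := by rw [← Real.exp_add]; ring_nf
  have hl : L / 2 ≤ Real.log X := hR.log_ge hL0
  have hl0 : 0 < Real.log X := by linarith
  set Q : ℕ := X / D with hQ
  have hQ1 : (Q : ℝ) ≤ L * t := hR.Q_le hL0
  have hQ0 : (0 : ℝ) ≤ Q := Nat.cast_nonneg Q
  set β : ℝ := C * ((c * K : ℕ) : ℝ) * Real.log y / Real.log X with hβ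
  have hβ0 : 0 ≤ β := div_nonneg hB0 hl0.le
  have hP : ∀ m, pi1 X m ≤ β * (ind X m * nu1 y z m) := by
    intro m
    have h1 := hpr X hX1 hX2 m
    rw [pr_eq] at h1
    rw [hβ, div_mul_eq_mul_div, le_div_iff₀ hl0]
    linarith
  set T : ℕ := ⌊Real.exp (L / 6)⌋₊ with hT
  have hT0 : 0 < T := Nat.floor_pos.2 (Real.one_le_exp (by linarith))
  have hT1 : (T : ℝ) ≤ Real.exp (L / 6) := Nat.floor_le (Real.exp_pos _).le
  have hM' : 2 * (T * (1 + n + n * Q)) ≤ D := by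
    have h1 : (1 : ℝ) + n + n * Q ≤ 3 * L ^ 3 := by
      have h2 : (n : ℝ) ≤ L := by linarith
      have h3 : (Q : ℝ) ≤ L * L := hQ1.trans (by gcongr)
      have h4 : (n : ℝ) * Q ≤ L * (L * L) := by gcongr
      have h5 : (1 : ℝ) ≤ L := by linarith
      have h6 : L ≤ L ^ 3 := le_self_pow₀ h5 (by norm_num)
      have h7 : L * (L * L) = L ^ 3 := by ring
      linarith
    have h2 := MoBound_exp2 hL
    have h3 : ((2 * (T * (1 + n + n * Q)) : ℕ) : ℝ) ≤ D := by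
      push_cast
      calc 2 * ((T : ℝ) * (1 + n + n * Q)) ≤ 2 * (Real.exp (L / 6) * (3 * L ^ 3)) := by gcongr
        _ = Real.exp (L / 6) * (6 * L ^ 3) := by ring
        _ ≤ Real.exp (L / 6) * Real.exp (L / 3) := by gcongr
        _ = Real.exp (L / 2) := by rw [← Real.exp_add]; ring_nf
        _ ≤ D := hR.exp_le hL0
    exact_mod_cast h3
  have hQy : 2 * Q ≤ y := by
    have h1 : ((2 * Q : ℕ) : ℝ) ≤ y := by
      push_cast
      have h3 : (Q : ℝ) ≤ L * L := hQ1.trans (by gcongr)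
      have h4 : L * L = L ^ 2 := by ring
      linarith
    exact_mod_cast h1
  have hmain := mom_up (k := n) (M := T * (1 + n + n * Q)) hloc hK.ge hD hQy hT0 le_rfl
    (by omega) (hM'.trans hR.x1) hβ0 hP
  have hXQ : (X : ℝ) ≤ D * (2 * Q + 1) := by
    have h1 : X < D * (Q + 1) := by
      rw [hQ]; exact Nat.lt_mul_div_succ X hD
    have h2 : (X : ℝ) ≤ D * (Q + 1) := by exact_mod_cast h1.le
    exact h2.trans (by gcongr; linarith)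
  have hβQ : β * (2 * Q + 1) ≤ 6 * A * t ^ 3 := by
    have h1 : β ≤ A * t ^ 2 / (L / 2) := by
      rw [hβ]; gcongr
    have h2 : (2 : ℝ) * Q + 1 ≤ 3 * (L * t) := by
      have h3 : (1 : ℝ) ≤ L * t := one_le_mul_of_one_le_of_one_le (by linarith) ht1
      linarith
    calc β * (2 * Q + 1) ≤ A * t ^ 2 / (L / 2) * (3 * (L * t)) := by gcongr
      _ = 6 * A * t ^ 3 := by field_simp; ring
  calc Pair D X (n + 1) (fun _ => 1) (fun _ _ => 1)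
      ≤ 36 * X * D * β ^ (n + 1) * (2 * (Q : ℝ) + 1) ^ n := hmain
    _ ≤ 36 * (D * (2 * Q + 1)) * D * β ^ (n + 1) * (2 * (Q : ℝ) + 1) ^ n := by gcongr
    _ = 36 * (D : ℝ) ^ 2 * (β * (2 * Q + 1)) ^ (n + 1) := by rw [mul_pow]; ring
    _ ≤ 36 * (D : ℝ) ^ 2 * (6 * A * t ^ 3) ^ (n + 1) := by gcongr

theorem mo_bound : ∀ᶠ L : ℝ in atTop, ∀ D X k : ℕ, Rg L D X → (k : ℝ) ≤ Real.log L →
    Mo D X k ≤ 3 * (D : ℝ) ^ 2 * Real.log L ^ (4 * k) := by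
  obtain ⟨A, hA0, hA⟩ := MoBound_pair
  filter_upwards [hA, ev_log (144 * A), ev_log 2] with L hP ht1 ht2 D X k hR hk
  set t := Real.log L with ht
  have hD : (0 : ℝ) ≤ (D : ℝ) ^ 2 := by positivity
  rcases k with _ | n
  · have h1 : Mo D X 0 = SC D (fun _ _ => 1) := by simp [Mo]
    have h2 := SC_one_le D
    rw [h1]
    simp only [mul_zero, pow_zero, mul_one]
    linarith
  · have hk' : (n : ℝ) + 1 ≤ t := by exact_mod_cast hk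
    have h1 := hP D X n hR hk'
    have h2 := Mo_le D X (n + 1)
    have hn0 : (0 : ℝ) ≤ n := Nat.cast_nonneg n
    have h3 : (2 * ((n + 1 : ℕ) : ℝ) + 1) ^ (n + 1) ≤ t ^ (4 * (n + 1)) := by
      rw [pow_mul]
      refine pow_le_pow_left₀ (by positivity) ?_ _
      have h4 : (8 : ℝ) ≤ t ^ 3 := by
        calc (8 : ℝ) = 2 ^ 3 := by norm_num
          _ ≤ t ^ 3 := by gcongr
      have h5 : t ^ 4 = t ^ 3 * t := by ring
      rw [h5]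
      nlinarith
    have h4 : (4 : ℝ) ^ (n + 1) * (36 * (A * t ^ 3) ^ (n + 1)) ≤ t ^ (4 * (n + 1)) := by
      have h5 : (36 : ℝ) ≤ 36 ^ (n + 1) := le_self_pow₀ (by norm_num) (by omega)
      have h6 : (0 : ℝ) ≤ t ^ 3 := by positivity
      calc (4 : ℝ) ^ (n + 1) * (36 * (A * t ^ 3) ^ (n + 1))
          ≤ 4 ^ (n + 1) * (36 ^ (n + 1) * (A * t ^ 3) ^ (n + 1)) := by gcongr
        _ = (144 * A * t ^ 3) ^ (n + 1) := by
          rw [← mul_pow, ← mul_pow]; congr 1; ring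
        _ ≤ (t * t ^ 3) ^ (n + 1) := by gcongr
        _ = t ^ (4 * (n + 1)) := by rw [pow_mul]; congr 1; ring
    calc Mo D X (n + 1) ≤ _ := h2
      _ ≤ 2 * (D : ℝ) ^ 2 * t ^ (4 * (n + 1)) +
          4 ^ (n + 1) * (36 * (D : ℝ) ^ 2 * (A * t ^ 3) ^ (n + 1)) := by gcongr
      _ = 2 * (D : ℝ) ^ 2 * t ^ (4 * (n + 1)) +
          (D : ℝ) ^ 2 * (4 ^ (n + 1) * (36 * (A * t ^ 3) ^ (n + 1))) := by ring
      _ ≤ 2 * (D : ℝ) ^ 2 * t ^ (4 * (n + 1)) + (D : ℝ) ^ 2 * t ^ (4 * (n + 1)) := by gcongr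
      _ = 3 * (D : ℝ) ^ 2 * t ^ (4 * (n + 1)) := by ring

end Pool.Agent.Lib.MP_458f0b_nt.Grow
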