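import Pool.Agent.Lib.MP_458f0b_nt.Grow.Defs

open Finset Filter Topology

namespace Pool.Agent.Lib.MP_458f0b_nt.Grow

open Pool.Agent.Lib.MP_458f0b_nt.Pois

lemma opq_fiber (S I B : Finset ℤ) (u v : ℤ → ℤ) (hu : ∀ n ∈ S, u n ∈ I) (hv : ∀ n ∈ S, v n ∈ B)
    (h : ℤ → ℝ) :
    ∑ n ∈ S, h n = ∑ i ∈ I, ∑ b ∈ B, ∑ n ∈ S.filter (fun n => u n = i ∧ v n = b), h n := by
  rw [← Finset.sum_fiberwise_of_maps_to hu]
  refine Finset.sum_congr rfl fun i _ => ?_
  rw [← Finset.sum_fiberwise_of_maps_to (s := S.filter fun n => u n = i) (t := B) (g := v)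
    (fun n hn => hv n (mem_filter.1 hn).1)]
  refine Finset.sum_congr rfl fun b _ => ?_
  rw [Finset.filter_filter]

lemma opq_good (S I B : Finset ℤ) (u v : ℤ → ℤ) (hu : ∀ n ∈ S, u n ∈ I) (hv : ∀ n ∈ S, v n ∈ B)
    (g : ℤ → ℤ → ℝ) (hg : ∀ i j, |g i j| ≤ 1) (f : ℤ → ℝ) :
    |∑ n ∈ S, ∑ m ∈ S, if v m = v n then g (u n) (u m) * (f n * f m) else 0| ≤
      I.card * ∑ i ∈ I, ∑ b ∈ B, (∑ n ∈ S.filter (fun n => u n = i ∧ v n = b), f n) ^ 2 := by
  set F : ℤ → ℤ → ℝ := fun i b => ∑ n ∈ S.filter (fun n => u n = i ∧ v n = b), f n with hF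
  have h1 : ∀ n, (∑ m ∈ S, if v m = v n then g (u n) (u m) * (f n * f m) else 0) =
      ∑ j ∈ I, g (u n) j * F j (v n) * f n := by
    intro n
    rw [← Finset.sum_filter, ← Finset.sum_fiberwise_of_maps_to (s := S.filter fun m => v m = v n)
      (t := I) (g := u) (fun m hm => hu m (mem_filter.1 hm).1)]
    refine Finset.sum_congr rfl fun j _ => ?_
    rw [Finset.filter_filter, hF]
    simp only [Finset.mul_sum, Finset.sum_mul]
    refine Finset.sum_congr (Finset.filter_congr fun m _ => and_comm) fun m hm => ?_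
    rw [(mem_filter.1 hm).2.1]
    ring
  have h2 : (∑ n ∈ S, ∑ m ∈ S, if v m = v n then g (u n) (u m) * (f n * f m) else 0) =
      ∑ i ∈ I, ∑ b ∈ B, ∑ j ∈ I, g i j * F j b * F i b := by
    simp only [h1]
    rw [opq_fiber S I B u v hu hv]
    refine Finset.sum_congr rfl fun i _ => Finset.sum_congr rfl fun b _ => ?_
    rw [Finset.sum_comm]
    refine Finset.sum_congr rfl fun j _ => ?_
    rw [show F i b = ∑ n ∈ S.filter (fun n => u n = i ∧ v n = b), f n from rfl, Finset.mul_sum]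
    refine Finset.sum_congr rfl fun n hn => ?_
    rw [(mem_filter.1 hn).2.1, (mem_filter.1 hn).2.2]
  have h3 : ∀ i j b, |g i j * F j b * F i b| ≤ F i b ^ 2 / 2 + F j b ^ 2 / 2 := by
    intro i j b
    rw [mul_assoc, abs_mul, abs_mul]
    have a1 := hg i j
    have a2 := abs_nonneg (F j b)
    have a3 := abs_nonneg (F i b)
    have a4 := mul_le_mul_of_nonneg_right a1 (mul_nonneg a2 a3)
    nlinarith [sq_nonneg (|F j b| - |F i b|), sq_abs (F j b), sq_abs (F i b)]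
  have h4 : (∑ i ∈ I, ∑ b ∈ B, ∑ j ∈ I, F j b ^ 2 / 2) =
      ∑ i ∈ I, ∑ b ∈ B, ∑ j ∈ I, F i b ^ 2 / 2 := by
    simp only [Finset.sum_const, nsmul_eq_mul]
    rw [Finset.sum_comm (s := B), Finset.mul_sum]
    simp only [Finset.mul_sum]
  rw [h2]
  calc |∑ i ∈ I, ∑ b ∈ B, ∑ j ∈ I, g i j * F j b * F i b|
      ≤ ∑ i ∈ I, ∑ b ∈ B, ∑ j ∈ I, (F i b ^ 2 / 2 + F j b ^ 2 / 2) := by
        refine (Finset.abs_sum_le_sum_abs _ _).trans (Finset.sum_le_sum fun i _ => ?_)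
        refine (Finset.abs_sum_le_sum_abs _ _).trans (Finset.sum_le_sum fun b _ => ?_)
        exact (Finset.abs_sum_le_sum_abs _ _).trans (Finset.sum_le_sum fun j _ => h3 i j b)
    _ = I.card * ∑ i ∈ I, ∑ b ∈ B, F i b ^ 2 := by
        simp only [Finset.sum_add_distrib]
        rw [h4, ← Finset.sum_add_distrib, Finset.mul_sum]
        refine Finset.sum_congr rfl fun i _ => ?_
        rw [← Finset.sum_add_distrib, Finset.mul_sum]
        refine Finset.sum_congr rfl fun b _ => ?_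
        simp only [Finset.sum_const, nsmul_eq_mul]
        ring

lemma opq_block (S : Finset ℤ) {L q : ℕ} (hL : 1 ≤ L) (hq : 1 ≤ q) (j a : ℤ) :
    ((S.filter (fun m => m / (L : ℤ) = j ∧ (q : ℤ) ∣ m - a)).card : ℝ) ≤ (L : ℝ) / q + 1 := by
  have hL' : (0 : ℤ) < L := by exact_mod_cast hL
  have hq' : (0 : ℤ) < q := by exact_mod_cast hq
  have h1 : (S.filter (fun m => m / (L : ℤ) = j ∧ (q : ℤ) ∣ m - a)).card ≤
      (range (L / q + 1)).card := by
    refine Finset.card_le_card_of_injOn (fun m => ((m % (L : ℤ)) / q).toNat) (fun m _ => ?_)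
      (fun m hm m' hm' h => ?_)
    · have a1 := Int.emod_lt_of_pos m hL'
      have a2 : m % (L : ℤ) / q ≤ (L : ℤ) / q := Int.ediv_le_ediv hq' a1.le
      have a3 : ((L / q : ℕ) : ℤ) = (L : ℤ) / q := by push_cast; rfl
      have a4 := Int.natCast_nonneg (L / q)
      simp only [Finset.coe_range, Set.mem_Iio]
      omega
    · rw [Finset.mem_coe, Finset.mem_filter] at hm hm'
      have a1 := Int.emod_nonneg m hL'.ne'
      have a2 := Int.emod_nonneg m' hL'.ne'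
      have a3 := Int.ediv_nonneg a1 hq'.le
      have a4 := Int.ediv_nonneg a2 hq'.le
      have a5 : m % (L : ℤ) / q = m' % (L : ℤ) / q := by
        simp only at h
        omega
      have b1 := Int.mul_ediv_add_emod m L
      have b2 := Int.mul_ediv_add_emod m' L
      have b3 := Int.mul_ediv_add_emod (m % (L : ℤ)) q
      have b4 := Int.mul_ediv_add_emod (m' % (L : ℤ)) q
      have c1 := Int.emod_nonneg (m % (L : ℤ)) hq'.ne'
      have c2 := Int.emod_nonneg (m' % (L : ℤ)) hq'.ne'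
      have c3 := Int.emod_lt_of_pos (m % (L : ℤ)) hq'
      have c4 := Int.emod_lt_of_pos (m' % (L : ℤ)) hq'
      rw [hm.2.1] at b1
      rw [hm'.2.1] at b2
      rw [a5] at b3
      have d1 : (q : ℤ) ∣ m - m' := by
        have := dvd_sub hm.2.2 hm'.2.2
        rwa [sub_sub_sub_cancel_right] at this
      have d2 : m - m' = 0 := Int.eq_zero_of_abs_lt_dvd d1 (abs_lt.2 ⟨by linarith, by linarith⟩)
      linarith
  rw [Finset.card_range] at h1
  have h2 : ((L / q : ℕ) : ℝ) ≤ (L : ℝ) / q := Nat.cast_div_le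
  have h3 : ((S.filter (fun m => m / (L : ℤ) = j ∧ (q : ℤ) ∣ m - a)).card : ℝ) ≤
      ((L / q + 1 : ℕ) : ℝ) := by exact_mod_cast h1
  push_cast at h3
  linarith

lemma opq_blocks (S K : Finset ℤ) (hK : K.card ≤ 4) {L q : ℕ} (hL : 1 ≤ L) (hq : 1 ≤ q) (a : ℤ) :
    (∑ m ∈ S, if m / (L : ℤ) ∈ K ∧ (q : ℤ) ∣ m - a then (1 : ℝ) else 0) ≤
      4 * ((L : ℝ) / q + 1) := by
  rw [← Finset.sum_filter, ← Finset.sum_fiberwise_of_maps_to
    (s := S.filter fun m => m / (L : ℤ) ∈ K ∧ (q : ℤ) ∣ m - a) (t := K) (g := fun m => m / (L : ℤ))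
    (fun m hm => (mem_filter.1 hm).2.1)]
  refine (Finset.sum_le_card_nsmul _ _ ((L : ℝ) / q + 1) fun j _ => ?_).trans ?_
  · refine le_trans ?_ (opq_block S hL hq j a)
    rw [Finset.sum_const, nsmul_eq_mul, mul_one, Nat.cast_le]
    refine Finset.card_le_card fun m hm => ?_
    simp only [Finset.mem_filter] at hm ⊢
    exact ⟨hm.1.1, hm.2, hm.1.2.2⟩
  · rw [nsmul_eq_mul]
    have : (K.card : ℝ) ≤ 4 := by exact_mod_cast hK
    gcongr

lemma opq_bad (S K : Finset ℤ) (hK : K.card ≤ 4) {L q : ℕ} (hL : 1 ≤ L) (hq : 1 ≤ q)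
    (f : ℤ → ℝ) :
    (∑ n ∈ S, ∑ m ∈ S, if m / (L : ℤ) - n / (L : ℤ) ∈ K ∧ (q : ℤ) ∣ m - n
        then f n ^ 2 / 2 + f m ^ 2 / 2 else 0) ≤ 4 * ((L : ℝ) / q + 1) * ∑ n ∈ S, f n ^ 2 := by
  have h1 : ∀ n, (∑ m ∈ S, if m / (L : ℤ) - n / (L : ℤ) ∈ K ∧ (q : ℤ) ∣ m - n
      then f n ^ 2 / 2 else 0) ≤ 4 * ((L : ℝ) / q + 1) * (f n ^ 2 / 2) := by
    intro n
    have h := opq_blocks S (K.image fun k => k + n / (L : ℤ)) (Finset.card_image_le.trans hK) hL hq n
    refine le_trans ?_ (mul_le_mul_of_nonneg_right h (by positivity))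
    rw [Finset.sum_mul]
    refine Finset.sum_le_sum fun m _ => ?_
    split_ifs with a1 a2 a2
    · simp
    · exact absurd ⟨mem_image.2 ⟨_, a1.1, by ring⟩, a1.2⟩ a2
    · positivity
    · simp
  have h2 : ∀ m, (∑ n ∈ S, if m / (L : ℤ) - n / (L : ℤ) ∈ K ∧ (q : ℤ) ∣ m - n
      then f m ^ 2 / 2 else 0) ≤ 4 * ((L : ℝ) / q + 1) * (f m ^ 2 / 2) := by
    intro m
    have h := opq_blocks S (K.image fun k => m / (L : ℤ) - k) (Finset.card_image_le.trans hK) hL hq m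
    refine le_trans ?_ (mul_le_mul_of_nonneg_right h (by positivity))
    rw [Finset.sum_mul]
    refine Finset.sum_le_sum fun n _ => ?_
    split_ifs with a1 a2 a2
    · simp
    · exact absurd ⟨mem_image.2 ⟨_, a1.1, by ring⟩, dvd_sub_comm.1 a1.2⟩ a2
    · positivity
    · simp
  have h3 : ∀ n m, (if m / (L : ℤ) - n / (L : ℤ) ∈ K ∧ (q : ℤ) ∣ m - n
        then f n ^ 2 / 2 + f m ^ 2 / 2 else 0) =
      (if m / (L : ℤ) - n / (L : ℤ) ∈ K ∧ (q : ℤ) ∣ m - n then f n ^ 2 / 2 else 0) +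
      (if m / (L : ℤ) - n / (L : ℤ) ∈ K ∧ (q : ℤ) ∣ m - n then f m ^ 2 / 2 else 0) := by
    intro n m
    split_ifs <;> simp
  simp only [h3, Finset.sum_add_distrib]
  rw [Finset.sum_comm (f := fun n m => if m / (L : ℤ) - n / (L : ℤ) ∈ K ∧ (q : ℤ) ∣ m - n
    then f m ^ 2 / 2 else 0)]
  refine (add_le_add (Finset.sum_le_sum fun n _ => h1 n)
    (Finset.sum_le_sum fun m _ => h2 m)).trans (le_of_eq ?_)
  rw [← Finset.sum_add_distrib, Finset.mul_sum]
  exact Finset.sum_congr rfl fun n _ => by ring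

lemma opq_cmp {L : ℤ} (hL : 0 < L) (a n m : ℤ) (h1 : m / L - n / L ≠ a / L)
    (h2 : m / L - n / L ≠ a / L + 1) : a ≤ m - n ↔ a / L < m / L - n / L := by
  have b1 := Int.mul_ediv_add_emod m L
  have b2 := Int.mul_ediv_add_emod n L
  have b3 := Int.mul_ediv_add_emod a L
  have c1 := Int.emod_nonneg m hL.ne'
  have c2 := Int.emod_nonneg n hL.ne'
  have c3 := Int.emod_nonneg a hL.ne'
  have d1 := Int.emod_lt_of_pos m hL
  have d2 := Int.emod_lt_of_pos n hL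
  have d3 := Int.emod_lt_of_pos a hL
  constructor
  · intro h
    by_contra h'
    have e1 : m / L - n / L + 1 ≤ a / L := by omega
    nlinarith [mul_le_mul_of_nonneg_left e1 hL.le]
  · intro h
    have e1 : a / L + 2 ≤ m / L - n / L := by omega
    nlinarith [mul_le_mul_of_nonneg_left e1 hL.le]

theorem op_q (X : ℕ) {N L q : ℕ} (hN : 1 ≤ N) (hL : L = X / N + 1) (hq : 1 ≤ q) (α β : ℤ)
    (f : ℤ → ℝ) :
    |∑ n ∈ Icc (1 : ℤ) X, ∑ m ∈ Icc (1 : ℤ) X,
        if (q : ℤ) ∣ m - n ∧ α ≤ m - n ∧ m - n < β then f n * f m else 0| ≤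
      N * ∑ i ∈ range N, ∑ b ∈ range q, (∑ n ∈ (Icc (1 : ℤ) X).filter
          (fun n => n / (L : ℤ) = (i : ℤ) ∧ n % (q : ℤ) = (b : ℤ)), f n) ^ 2 +
        4 * ((L : ℝ) / q + 1) * nn X f := by
  have hL1 : 1 ≤ L := hL ▸ Nat.le_add_left 1 _
  have hL' : (0 : ℤ) < L := by exact_mod_cast hL1
  have hq' : (0 : ℤ) < q := by exact_mod_cast hq
  have hX : (X : ℤ) < N * L := by
    have := Nat.lt_mul_div_succ X hN
    rw [← hL] at this
    exact_mod_cast this
  set K : Finset ℤ := {α / L, α / L + 1, β / L, β / L + 1} with hK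
  set g : ℤ → ℤ → ℝ := fun i j =>
    if j - i ∉ K ∧ α / L < j - i ∧ ¬ β / L < j - i then 1 else 0 with hg
  have hg1 : ∀ i j, |g i j| ≤ 1 := fun i j => by
    rw [hg]
    dsimp only
    split_ifs <;> simp
  have h1 := opq_good (Icc (1 : ℤ) X) ((range N).map Nat.castEmbedding)
    ((range q).map Nat.castEmbedding) (fun n => n / (L : ℤ)) (fun n => n % (q : ℤ))
    (fun n hn => by
      have a1 := mem_Icc.1 hn
      have a2 : 0 ≤ n / (L : ℤ) := Int.ediv_nonneg (by omega) hL'.le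
      have a3 : n / (L : ℤ) < N := Int.ediv_lt_of_lt_mul hL' (by omega)
      refine mem_map.2 ⟨(n / (L : ℤ)).toNat, mem_range.2 (by omega), ?_⟩
      simp only [Nat.castEmbedding_apply]
      omega)
    (fun n _ => by
      have a2 := Int.emod_nonneg n hq'.ne'
      have a3 := Int.emod_lt_of_pos n hq'
      refine mem_map.2 ⟨(n % (q : ℤ)).toNat, mem_range.2 (by omega), ?_⟩
      simp only [Nat.castEmbedding_apply]
      omega) g hg1 f
  simp only [Finset.sum_map, Finset.card_map, Finset.card_range, Nat.castEmbedding_apply] at h1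
  have h2 := opq_bad (Icc (1 : ℤ) X) K Finset.card_le_four hL1 hq f
  have h3 : ∀ n m : ℤ, |(if (q : ℤ) ∣ m - n ∧ α ≤ m - n ∧ m - n < β then f n * f m else 0) -
      (if m % (q : ℤ) = n % (q : ℤ) then g (n / (L : ℤ)) (m / (L : ℤ)) * (f n * f m) else 0)| ≤
      if m / (L : ℤ) - n / (L : ℤ) ∈ K ∧ (q : ℤ) ∣ m - n
        then f n ^ 2 / 2 + f m ^ 2 / 2 else 0 := by
    intro n m
    have e1 : m % (q : ℤ) = n % (q : ℤ) ↔ (q : ℤ) ∣ m - n :=
      Int.emod_eq_emod_iff_emod_sub_eq_zero.trans Int.dvd_iff_emod_eq_zero.symm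
    by_cases d : (q : ℤ) ∣ m - n
    · rw [if_pos (e1.2 d), hg]
      dsimp only
      by_cases k : m / (L : ℤ) - n / (L : ℤ) ∈ K
      · rw [if_neg (fun h : _ ∉ K ∧ _ => h.1 k), if_pos (And.intro k d), zero_mul, sub_zero]
        split_ifs
        · rw [abs_le]
          constructor <;> nlinarith [sq_nonneg (f n + f m), sq_nonneg (f n - f m)]
        · rw [abs_zero]; positivity
      · rw [if_neg (fun h : _ ∈ K ∧ _ => k h.1)]
        have k' := k
        simp only [hK, Finset.mem_insert, Finset.mem_singleton, not_or] at k'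
        have e2 := opq_cmp hL' α n m k'.1 k'.2.1
        have e3 := opq_cmp hL' β n m k'.2.2.1 k'.2.2.2
        by_cases c : α ≤ m - n ∧ m - n < β
        · rw [if_pos ⟨d, c⟩, if_pos ⟨k, e2.1 c.1, fun h => absurd (e3.2 h) (not_le.2 c.2)⟩]
          simp
        · rw [if_neg (fun h => c h.2),
            if_neg (fun h => c ⟨e2.2 h.2.1, not_le.1 fun h' => h.2.2 (e3.1 h')⟩)]
          simp
    · rw [if_neg (fun h => d h.1), if_neg (fun h => d (e1.1 h)), if_neg (fun h => d h.2)]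
      simp
  have h4 : |(∑ n ∈ Icc (1 : ℤ) X, ∑ m ∈ Icc (1 : ℤ) X,
        if (q : ℤ) ∣ m - n ∧ α ≤ m - n ∧ m - n < β then f n * f m else 0) -
      ∑ n ∈ Icc (1 : ℤ) X, ∑ m ∈ Icc (1 : ℤ) X,
        if m % (q : ℤ) = n % (q : ℤ) then g (n / (L : ℤ)) (m / (L : ℤ)) * (f n * f m) else 0| ≤
      4 * ((L : ℝ) / q + 1) * nn X f := by
    refine le_trans ?_ h2
    rw [← Finset.sum_sub_distrib]
    refine (Finset.abs_sum_le_sum_abs _ _).trans (Finset.sum_le_sum fun n _ => ?_)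
    rw [← Finset.sum_sub_distrib]
    exact (Finset.abs_sum_le_sum_abs _ _).trans (Finset.sum_le_sum fun m _ => h3 n m)
  have h5 := abs_sub_abs_le_abs_sub (∑ n ∈ Icc (1 : ℤ) X, ∑ m ∈ Icc (1 : ℤ) X,
        if (q : ℤ) ∣ m - n ∧ α ≤ m - n ∧ m - n < β then f n * f m else 0)
      (∑ n ∈ Icc (1 : ℤ) X, ∑ m ∈ Icc (1 : ℤ) X,
        if m % (q : ℤ) = n % (q : ℤ) then g (n / (L : ℤ)) (m / (L : ℤ)) * (f n * f m) else 0)
  linarith

end Pool.Agent.Lib.MP_458f0b_nt.Grow
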