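import Pool.Agent.Lib.MP_458f0b_nt.Grow.BlockVar
import Pool.Agent.Lib.MP_458f0b_nt.Grow.OpQ

open Finset Filter Topology

namespace Pool.Agent.Lib.MP_458f0b_nt.Grow

open Pool.Agent.Lib.MP_458f0b_nt.Pois

lemma opBound_ind_mem {X : ℕ} {n : ℤ} (h : n ∈ Icc (1 : ℤ) X) : ind X n = 1 := by
  unfold ind; rw [if_pos (mem_Icc.1 h)]

lemma opBound_ind_not {X : ℕ} {n : ℤ} (h : n ∉ Icc (1 : ℤ) X) : ind X n = 0 := by
  unfold ind; rw [if_neg fun h' => h (mem_Icc.2 h')]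

/-- a sum along a progression as a sum over its points -/
lemma opBound_line (D X : ℕ) {q : ℕ} (hq : 1 ≤ q) (f : ℤ → ℝ) (n : ℤ) :
    ∑ d ∈ Ico (D : ℤ) (2 * D), ind X (n + q * d) * f (n + q * d) =
      ∑ m ∈ Icc (1 : ℤ) X,
        if (q : ℤ) ∣ m - n ∧ (q : ℤ) * D ≤ m - n ∧ m - n < (q : ℤ) * (2 * D) then f m else 0 := by
  have hq' : (0 : ℤ) < q := by exact_mod_cast hq
  have e1 : ∀ d : ℤ, ind X (n + q * d) * f (n + q * d) =
      ∑ m ∈ Icc (1 : ℤ) X, if m = n + q * d then f m else 0 := by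
    intro d
    rw [Finset.sum_ite_eq']
    split_ifs with h
    · rw [opBound_ind_mem h, one_mul]
    · rw [opBound_ind_not h, zero_mul]
  simp only [e1]
  rw [Finset.sum_comm]
  refine Finset.sum_congr rfl fun m _ => ?_
  split_ifs with h
  · obtain ⟨⟨d0, hd0⟩, h1, h2⟩ := h
    rw [hd0] at h1 h2
    have hm : d0 ∈ Ico (D : ℤ) (2 * D) :=
      mem_Ico.2 ⟨le_of_mul_le_mul_left h1 hq', lt_of_mul_lt_mul_left h2 hq'.le⟩
    rw [Finset.sum_eq_single_of_mem d0 hm, if_pos (by linarith)]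
    intro d _ hne
    rw [if_neg]
    intro e
    apply hne
    have : (q : ℤ) * d = q * d0 := by linarith
    exact mul_left_cancel₀ hq'.ne' this
  · refine Finset.sum_eq_zero fun d hd => if_neg fun e => h ?_
    have e2 : m - n = q * d := by linarith
    obtain ⟨h1, h2⟩ := mem_Ico.1 hd
    rw [e2]
    exact ⟨dvd_mul_right _ _, mul_le_mul_of_nonneg_left h1 hq'.le,
      mul_lt_mul_of_pos_left h2 hq'⟩

/-- blocks as intervals -/
lemma opBound_blk (X : ℕ) {L : ℕ} (hL : 0 < L) (i : ℤ) (p : ℤ → Prop) [DecidablePred p]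
    (φ : ℤ → ℝ) :
    ∑ n ∈ (Ioc (i * L - 1) (i * L - 1 + L)).filter p, ind X n * φ n =
      ∑ n ∈ (Icc (1 : ℤ) X).filter (fun n => n / (L : ℤ) = i ∧ p n), φ n := by
  have hL' : (0 : ℤ) < L := by exact_mod_cast hL
  have e1 : ∀ n : ℤ, ind X n * φ n = if n ∈ Icc (1 : ℤ) X then φ n else 0 := by
    intro n
    split_ifs with h
    · rw [opBound_ind_mem h, one_mul]
    · rw [opBound_ind_not h, zero_mul]
  simp only [e1]
  rw [← Finset.sum_filter]
  refine Finset.sum_congr ?_ fun _ _ => rfl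
  ext n
  have e2 : n / (L : ℤ) = i ↔ i * L - 1 < n ∧ n ≤ i * L - 1 + L := by
    have a1 : i ≤ n / (L : ℤ) ↔ i * L ≤ n := Int.le_ediv_iff_mul_le hL'
    have a2 : n / (L : ℤ) < i + 1 ↔ n < (i + 1) * L := Int.ediv_lt_iff_lt_mul hL'
    rw [add_mul, one_mul] at a2
    constructor
    · intro h
      have b1 := a1.1 h.ge
      have b2 := a2.1 (by omega)
      constructor <;> linarith
    · intro h
      have b1 := a1.2 (by linarith [h.1])
      have b2 := a2.2 (by linarith [h.2])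
      omega
  simp only [Finset.mem_filter, Finset.mem_Ioc, e2]
  tauto

lemma opBound_fib (X N L : ℕ) (f : ℤ → ℝ) :
    ∑ i ∈ range N, ∑ n ∈ (Icc (1 : ℤ) X).filter (fun n => n / (L : ℤ) = (i : ℤ) ∧ True), f n ^ 2 ≤
      nn X f := by
  simp only [and_true, Finset.sum_filter]
  rw [Finset.sum_comm]
  refine Finset.sum_le_sum fun n _ => ?_
  rw [← Finset.sum_filter, Finset.sum_const, nsmul_eq_mul]
  have h1 : ((range N).filter fun i : ℕ => n / (L : ℤ) = (i : ℤ)).card ≤ 1 := by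
    refine Finset.card_le_one.2 fun a ha b hb => ?_
    have := (mem_filter.1 ha).2.symm.trans (mem_filter.1 hb).2
    exact_mod_cast this
  have h2 : ((((range N).filter fun i : ℕ => n / (L : ℤ) = (i : ℤ)).card : ℕ) : ℝ) ≤ 1 := by
    exact_mod_cast h1
  nlinarith [sq_nonneg (f n)]

lemma opBound_harm (Q : ℕ) : ∑ q ∈ Icc 1 Q, ((q : ℝ))⁻¹ ≤ 1 + Real.log Q := by
  have h := harmonic_le_one_add_log Q
  rw [harmonic_eq_sum_Icc] at h
  push_cast at h
  exact h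

/-- the variance of one block -/
lemma opBound_block {X L w Q : ℕ} (hL : 0 < L) (hw : 1 ≤ w) (hQ : Q ^ 2 ≤ L) (f : ℤ → ℝ) (E : ℝ)
    (hE : Flat w L X f E) (i : ℤ) :
    ∑ q ∈ Icc 1 Q, ∑ b ∈ range q, (∑ n ∈ (Icc (1 : ℤ) X).filter
        (fun n => n / (L : ℤ) = i ∧ n % (q : ℤ) = (b : ℤ)), f n) ^ 2 ≤
      (1 + Real.log Q) * ((w : ℝ) ^ 2 * E ^ 2 + 200 * L / w *
        ∑ n ∈ (Icc (1 : ℤ) X).filter (fun n => n / (L : ℤ) = i ∧ True), f n ^ 2) := by
  have h := block_var (i * L - 1) L Q w hw hQ (fun n => ind X n * f n) E (by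
    intro s hs hsw b
    rw [opBound_blk X hL i (fun n => n % (s : ℤ) = b) f]
    exact hE i s hs hsw b)
  have e1 : ∑ n ∈ Ioc (i * L - 1) (i * L - 1 + L), (ind X n * f n) ^ 2 =
      ∑ n ∈ (Icc (1 : ℤ) X).filter (fun n => n / (L : ℤ) = i ∧ True), f n ^ 2 := by
    rw [← opBound_blk X hL i (fun _ => True) (fun n => f n ^ 2), Finset.filter_true]
    refine Finset.sum_congr rfl fun n _ => ?_
    unfold ind
    split_ifs <;> simp
  rw [e1] at h
  refine le_of_eq_of_le ?_ h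
  refine Finset.sum_congr rfl fun q _ => Finset.sum_congr rfl fun b _ => ?_
  rw [opBound_blk X hL i (fun n => n % (q : ℤ) = (b : ℤ)) f]

theorem op_bound {D X N L w : ℕ} (hD : 0 < D) (hN : 1 ≤ N) (hw : 1 ≤ w) (hL : L = X / N + 1)
    (hQ : (X / D) ^ 2 ≤ L) (f : ℤ → ℝ) (E : ℝ) (hE : Flat w L X f E) :
    AA D X f ≤
      (D + 1000 * (1 + Real.log (X / D : ℕ)) * (L + N * L / w)) * nn X f +
        2 * (1 + Real.log (X / D : ℕ)) * (N : ℝ) ^ 2 * (w : ℝ) ^ 2 * E ^ 2 := by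
  have hL0 : 0 < L := by rw [hL]; exact Nat.succ_pos _
  have hv := var_expand (X := X) hD (h := fun n => ind X n * f n)
    (fun n hn => by rw [opBound_ind_not hn, zero_mul])
  have e1 : AA D X f = ∑ d ∈ Ico (D : ℤ) (2 * D), ∑ a ∈ Ico (0 : ℤ) d,
      (∑ n ∈ (Icc (1 : ℤ) X).filter (fun n => d ∣ n - a), ind X n * f n) ^ 2 := by
    unfold AA SC cs
    refine Finset.sum_congr rfl fun d _ => Finset.sum_congr rfl fun a _ => ?_
    refine congrArg (fun x : ℝ => x ^ 2) (Finset.sum_congr rfl fun n hn => ?_)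
    rw [opBound_ind_mem (mem_filter.1 hn).1, one_mul]
  have e2 : ∑ n ∈ Icc (1 : ℤ) X, (ind X n * f n) ^ 2 = nn X f := by
    refine Finset.sum_congr rfl fun n hn => ?_
    rw [opBound_ind_mem hn, one_mul]
  generalize X / D = Q at hv hQ ⊢
  have e3 : ∑ n ∈ Icc (1 : ℤ) X, ind X n * f n * ∑ q ∈ Icc 1 Q, ∑ d ∈ Ico (D : ℤ) (2 * D),
        ind X (n + (q : ℕ) * d) * f (n + (q : ℕ) * d) =
      ∑ q ∈ Icc 1 Q, ∑ n ∈ Icc (1 : ℤ) X, ∑ m ∈ Icc (1 : ℤ) X,
        if ((q : ℕ) : ℤ) ∣ m - n ∧ ((q : ℕ) : ℤ) * D ≤ m - n ∧ m - n < ((q : ℕ) : ℤ) * (2 * D)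
          then f n * f m else 0 := by
    rw [Finset.sum_comm]
    refine Finset.sum_congr rfl fun n hn => ?_
    rw [opBound_ind_mem hn, one_mul, Finset.mul_sum]
    refine Finset.sum_congr rfl fun q hq => ?_
    rw [opBound_line D X (mem_Icc.1 hq).1 f n, Finset.mul_sum]
    refine Finset.sum_congr rfl fun m _ => ?_
    split_ifs <;> simp
  have hnn := nn_nonneg X f
  have hlog : 0 ≤ Real.log Q := Real.log_natCast_nonneg Q
  have hw' : (0 : ℝ) < w := by exact_mod_cast hw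
  have hN' : (0 : ℝ) ≤ N := Nat.cast_nonneg N
  have hL' : (0 : ℝ) ≤ L := Nat.cast_nonneg L
  have hQL : (Q : ℝ) ≤ L := by
    have : Q ≤ L := (Nat.le_self_pow two_ne_zero Q).trans hQ
    exact_mod_cast this
  have b1 : ∑ i ∈ range N, ∑ q ∈ Icc 1 Q, ∑ b ∈ range q, (∑ n ∈ (Icc (1 : ℤ) X).filter
        (fun n => n / (L : ℤ) = (i : ℤ) ∧ n % (q : ℤ) = (b : ℤ)), f n) ^ 2 ≤
      (1 + Real.log Q) * (N * ((w : ℝ) ^ 2 * E ^ 2) + 200 * L / w * nn X f) := by
    refine (Finset.sum_le_sum fun (i : ℕ) _ => opBound_block hL0 hw hQ f E hE (i : ℤ)).trans ?_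
    rw [← Finset.mul_sum, Finset.sum_add_distrib, Finset.sum_const, card_range, nsmul_eq_mul,
      ← Finset.mul_sum]
    have := opBound_fib X N L f
    gcongr
  have b2 : ∑ q ∈ Icc 1 Q, 4 * ((L : ℝ) / (q : ℕ) + 1) * nn X f ≤
      8 * (L * (1 + Real.log Q)) * nn X f := by
    rw [← Finset.sum_mul, ← Finset.mul_sum, Finset.sum_add_distrib, Finset.sum_const, Nat.card_Icc,
      nsmul_eq_mul, mul_one, Nat.add_sub_cancel]
    simp only [div_eq_mul_inv]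
    rw [← Finset.mul_sum]
    have h1 := mul_le_mul_of_nonneg_left (opBound_harm Q) hL'
    have h2 : (Q : ℝ) ≤ L * (1 + Real.log Q) := by nlinarith
    refine mul_le_mul_of_nonneg_right ?_ hnn
    linarith
  have b3 : ∑ q ∈ Icc 1 Q, ∑ n ∈ Icc (1 : ℤ) X, ∑ m ∈ Icc (1 : ℤ) X,
        (if ((q : ℕ) : ℤ) ∣ m - n ∧ ((q : ℕ) : ℤ) * D ≤ m - n ∧ m - n < ((q : ℕ) : ℤ) * (2 * D)
          then f n * f m else 0) ≤
      N * ((1 + Real.log Q) * (N * ((w : ℝ) ^ 2 * E ^ 2) + 200 * L / w * nn X f)) +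
        8 * (L * (1 + Real.log Q)) * nn X f := by
    refine (Finset.sum_le_sum fun q hq => (le_abs_self _).trans
      (op_q X hN hL (mem_Icc.1 hq).1 _ _ f)).trans ?_
    rw [Finset.sum_add_distrib, ← Finset.mul_sum, Finset.sum_comm]
    exact add_le_add (mul_le_mul_of_nonneg_left b1 hN') b2
  rw [e1, hv, e2, e3]
  have c1 : 0 ≤ (1 + Real.log Q) * L * nn X f := by positivity
  have c2 : 0 ≤ (1 + Real.log Q) * (N * L / w) * nn X f := by positivity
  have c3 : (N : ℝ) * ((1 + Real.log Q) * (N * ((w : ℝ) ^ 2 * E ^ 2) + 200 * L / w * nn X f)) =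
      (1 + Real.log Q) * (N : ℝ) ^ 2 * (w : ℝ) ^ 2 * E ^ 2 +
        200 * ((1 + Real.log Q) * (N * L / w) * nn X f) := by ring
  rw [c3] at b3
  nlinarith

end Pool.Agent.Lib.MP_458f0b_nt.Grow
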