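import Pool.Agent.Lib.MP_458f0b_nt.Grow.Defs

open Finset Filter Topology

namespace Pool.Agent.Lib.MP_458f0b_nt.Grow

open Pool.Agent.Lib.MP_458f0b_nt.Pois

lemma slfx_sys {y z w Q j r : ℕ} (hwy : w ≤ y) (hQy : Q ≤ y) {q : Fin j → Fin r → ℤ}
    (hq : ∀ e, q e ∈ inj (Fin r) Q) :
    local_Sys y z (none : Option (Fin j × Fin r)) ∅ (starlC w.factorial q) ∅ := by
  have hW : ∀ p ∈ P1 y z, ¬ (p : ℤ) ∣ (w.factorial : ℤ) := fun p hp => by
    rw [Int.natCast_dvd_natCast, (prime_of_mem_P1 hp).dvd_factorial]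
    have := (mem_P1.1 hp).2.1
    omega
  refine ⟨fun i hi => absurd hi (notMem_empty i),
    fun p hp => ⟨hW p hp, fun i hi => absurd hi (notMem_empty i)⟩,
    fun p hp _ => ⟨fun l => ?_, fun i hi => absurd hi (notMem_empty i)⟩⟩
  rcases l with _ | x
  · exact hW p hp
  · have hpp : Prime (p : ℤ) := Nat.prime_iff_prime_int.mp (prime_of_mem_P1 hp)
    refine fun h => (hpp.dvd_or_dvd h).elim (hW p hp) fun h' => ?_
    obtain ⟨h1, -, h2⟩ := mem_inj.1 (hq x.1)
    have h3 := Int.le_of_dvd (abs_pos.2 (h2 x.2)) ((dvd_abs _ _).2 h')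
    have h4 := abs_le.2 (h1 x.2)
    have h5 := (mem_P1.1 hp).2.1
    omega

lemma slfx_G_le (D W X : ℕ) {j r : ℕ} {u : ℤ → ℝ} (hu : ∀ d, |u d| ≤ 1)
    (q : Fin j → Fin r → ℤ) (n : ℤ) (d : Fin j → ℤ) (l : Option (Fin j × Fin r))
    (t : Option (Fin j × Fin r) → ℤ) :
    |starlG D W u (fun _ : Fin r => pi1 X) q n d l t| ≤ 1 := by
  rcases l with _ | x
  · simp only [starlG]
    rw [abs_prod]
    refine prod_le_one (fun e _ => abs_nonneg _) fun e _ => ?_
    split_ifs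
    · exact hu _
    · simp
  · exact abs_pi1_le X _

lemma slfx_reg {K m y z T w D X Q r j : ℕ} (hL : local_L K m y z T)
    (hK : (2 * r + 2) * 2 ^ (2 * r + 1) ≤ K) (hm : 17 * Real.exp (-(m : ℝ)) ≤ 1) (hwy : w ≤ y)
    (hQy : Q ≤ y) (hT : 0 < T) (hj : j ≤ 2) {u v : ℤ → ℝ} (hu : ∀ d, |u d| ≤ 1)
    {q : Fin j → Fin r → ℤ} (hq : ∀ e, q e ∈ inj (Fin r) Q) (n : ℤ) (d : Fin j → ℤ)
    (hv : |v n| ≤ 1)
    (hvt : ∀ t : Option (Fin j × Fin r) → ℤ, (∀ x, 0 ≤ t x ∧ t x < T) →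
      v (shN w.factorial q n t) = v n) :
    |boxAv T (fun t : Option (Fin j × Fin r) → ℤ =>
      integ D (fun x => (nu1 y z x - 1) * v x) u (fun _ : Fin r => pi1 X) q
        (shN w.factorial q n t) (shD w.factorial d t))| ≤
      68 * Real.exp (-(m : ℝ) / 2 ^ (2 * r + 1)) := by
  have hc : Fintype.card (Option (Fin j × Fin r)) ≤ 2 * r + 1 := by
    simp only [Fintype.card_option, Fintype.card_prod, Fintype.card_fin]
    have := Nat.mul_le_mul_right r hj
    omega
  have hp : 2 ≤ 2 ^ (2 * r + 1) := Nat.le_self_pow (by omega) 2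
  have h1 := local_small (r := 2 * r + 1) (h := 0) hL (slfx_sys (z := z) hwy hQy hq)
    (starlB q n d) hT hc
    (le_trans (Nat.mul_le_mul (by omega) (Nat.pow_le_pow_right (by norm_num) hc)) hK)
    (le_trans (Nat.mul_le_mul (by omega) hp) hK) (by simp) hm
    (by rw [mul_zero, Real.exp_zero]; linarith [Real.exp_pos (-(m : ℝ))])
    (starlG D w.factorial u (fun _ : Fin r => pi1 X) q n d)
    (starl_G_update D w.factorial u _ q n d)
    (fun i t => by
      rw [if_neg (notMem_empty i)]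
      exact slfx_G_le D _ X hu q n d i t)
  have e1 : boxAv T (fun t : Option (Fin j × Fin r) → ℤ =>
      integ D (fun x => (nu1 y z x - 1) * v x) u (fun _ : Fin r => pi1 X) q
        (shN w.factorial q n t) (shD w.factorial d t)) =
      v n * boxAv T (fun t =>
        (nu1 y z (frm (starlB q n d none) (starlC w.factorial q none) t) - 1) *
          ∏ l, starlG D w.factorial u (fun _ : Fin r => pi1 X) q n d l t) := by
    rw [← boxAv_mul]
    refine boxAv_congr T fun t ht => ?_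
    rw [starl_integ, hvt t ht, shN_eq_frm]
    simp only [starlB, starlC]
    ring
  rw [e1, abs_mul]
  exact (mul_le_of_le_one_left (abs_nonneg _) hv).trans h1

lemma slfx_triv {y z T W D X r j : ℕ} (hT : 0 < T) (hz : 1 ≤ z) {u v : ℤ → ℝ}
    (hu : ∀ d, |u d| ≤ 1) (hv : ∀ n, |v n| ≤ 1) (q : Fin j → Fin r → ℤ) (n : ℤ)
    (d : Fin j → ℤ) :
    |boxAv T (fun t : Option (Fin j × Fin r) → ℤ =>
      integ D (fun x => (nu1 y z x - 1) * v x) u (fun _ : Fin r => pi1 X) q
        (shN W q n t) (shD W d t))| ≤ z := by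
  have hz' : (1 : ℝ) ≤ z := by exact_mod_cast hz
  refine (abs_boxAv_le _ _).trans ((boxAv_mono T fun t _ => ?_).trans
    (le_of_eq (boxAv_const hT (z : ℝ))))
  rw [starl_integ, abs_mul, abs_mul, abs_prod]
  have h2 : |nu1 y z (shN W q n t) - 1| ≤ z :=
    abs_le.mpr ⟨by linarith [nu1_nonneg y z (shN W q n t)],
      by linarith [nu1_le y hz (shN W q n t)]⟩
  refine (mul_le_of_le_one_right (by positivity) (prod_le_one (fun l _ => abs_nonneg _)
    fun l _ => slfx_G_le D W X hu q n d l t)).trans ?_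
  exact (mul_le_of_le_one_right (abs_nonneg _) (hv _)).trans h2

lemma slfx_sum {j r D X M : ℕ} {a E : ℝ} (P : ℤ → Prop) [DecidablePred P]
    (F : (Fin j → Fin r → ℤ) → ℤ → (Fin j → ℤ) → ℝ) (ha : 0 ≤ a) (hE : 0 ≤ E)
    (hMD : M ≤ D) (hMX : 2 * M ≤ X)
    (hF : ∀ q : Fin j → Fin r → ℤ, (∀ e, q e ∈ inj (Fin r) (X / D)) → ∀ n d,
      |F q n d| ≤ a + if P n then E else 0) :
    |∑ q ∈ Fintype.piFinset (fun _ : Fin j => inj (Fin r) (X / D)),
      ∑ n ∈ Icc (1 - M : ℤ) (X + M),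
      ∑ d ∈ Fintype.piFinset (fun _ : Fin j => Ico (D : ℤ) (2 * D + M)), F q n d| ≤
      RR D X r ^ j * (2 * X * a + E * ((Icc (1 - M : ℤ) (X + M)).filter P).card) := by
  set SQ := Fintype.piFinset (fun _ : Fin j => inj (Fin r) (X / D)) with hSQ
  set SN := Icc (1 - M : ℤ) (X + M) with hSN
  set SD := Fintype.piFinset (fun _ : Fin j => Ico (D : ℤ) (2 * D + M)) with hSD
  have hMD' : (M : ℝ) ≤ D := by exact_mod_cast hMD
  have hMX' : 2 * (M : ℝ) ≤ X := by exact_mod_cast hMX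
  have hM0 : (0 : ℝ) ≤ M := Nat.cast_nonneg M
  have cD : (SD.card : ℝ) ≤ (2 * D) ^ j := by
    rw [hSD, Fintype.card_piFinset, prod_const, card_univ, Fintype.card_fin, Int.card_Ico,
      show (2 * (D : ℤ) + M - D).toNat = D + M by omega, Nat.cast_pow, Nat.cast_add]
    exact pow_le_pow_left₀ (by positivity) (by linarith) j
  have cN : (SN.card : ℝ) ≤ 2 * X := by
    rw [hSN, Int.card_Icc, show ((X : ℤ) + M + 1 - (1 - M)).toNat = X + 2 * M by omega]
    push_cast
    linarith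
  have cQ : (SQ.card : ℝ) ≤ ((2 * ((X / D : ℕ) : ℝ) + 1) ^ r) ^ j := by
    rw [hSQ, Fintype.card_piFinset, prod_const, card_univ, Fintype.card_fin, Nat.cast_pow]
    refine pow_le_pow_left₀ (by positivity) ?_ j
    simpa using card_inj_le (ι := Fin r) (X / D)
  refine ((abs_sum_le_sum_abs _ _).trans (sum_le_sum fun q hq' => (abs_sum_le_sum_abs _ _).trans
    (sum_le_sum fun n _ => (abs_sum_le_sum_abs _ _).trans
      (sum_le_sum fun d _ => hF q (Fintype.mem_piFinset.1 hq') n d)))).trans ?_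
  have e1 : ∑ n ∈ SN, (if P n then E else 0) = E * (SN.filter P).card := by
    rw [← sum_filter, sum_const, nsmul_eq_mul, mul_comm]
  simp only [sum_const, nsmul_eq_mul, ← mul_sum]
  rw [sum_add_distrib, e1, sum_const, nsmul_eq_mul, RR, mul_pow, mul_comm ((2 * (D : ℝ)) ^ j),
    mul_assoc]
  gcongr

theorem slf_exp {K m y z T w N D X r M : ℕ} (hL : local_L K m y z T)
    (hK : (2 * r + 2) * 2 ^ (2 * r + 1) ≤ K) (hm : 17 * Real.exp (-(m : ℝ)) ≤ 1) (hwy : w ≤ y)
    (hQy : X / D ≤ y) (hT : 0 < T) (hz : 1 ≤ z) (hN : 1 ≤ N) (hX : 0 < X)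
    (hM : w.factorial * T * (1 + r + 2 * r * (X / D)) ≤ M) (hMD : M ≤ D) (hMX : 2 * M ≤ X) :
    SLF w.factorial (X / N + 1) D X r (nu1 y z)
      (136 * Real.exp (-(m : ℝ) / 2 ^ (2 * r + 1)) + (2 * N + 6) * M * z / X) := by
  intro j hj u v hu hv hcell
  have hM' : w.factorial * T * (1 + Fintype.card (Fin r) +
      j * Fintype.card (Fin r) * (X / D)) ≤ M := by
    rw [Fintype.card_fin]
    refine le_trans (Nat.mul_le_mul_left _ ?_) hM
    exact Nat.add_le_add_left (Nat.mul_le_mul_right _ (Nat.mul_le_mul_right r hj)) _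
  have hv1 : ∀ n, |v n| ≤ 1 := fun n => (hv n).trans (ind_le_one X n)
  have hex := Real.exp_pos (-(m : ℝ) / 2 ^ (2 * r + 1))
  have key := slfx_sum (j := j) (r := r) (D := D) (X := X) (M := M)
    (a := 68 * Real.exp (-(m : ℝ) / 2 ^ (2 * r + 1))) (E := z)
    (fun n : ℤ => ¬ (1 + M ≤ n ∧ n + M ≤ X ∧
      (n - M) / ((X / N + 1 : ℕ) : ℤ) = (n + M) / ((X / N + 1 : ℕ) : ℤ)))
    (fun q n d => boxAv T (fun t : Option (Fin j × Fin r) → ℤ =>
      integ D (fun x => (nu1 y z x - 1) * v x) u (fun _ : Fin r => pi1 X) q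
        (shN w.factorial q n t) (shD w.factorial d t)))
    (by positivity) (Nat.cast_nonneg z) hMD hMX
    (fun q hq' n d => by
      split_ifs with hn
      · rw [add_zero]
        refine slfx_reg hL hK hm hwy hQy hT hj hu hq' n d (hv1 n) fun t ht => ?_
        obtain ⟨n1, n2, n3⟩ := hn
        obtain ⟨s1, s2⟩ := abs_le.1 (abs_shN_sub_le hM' hq' n ht)
        have hL0 : (0 : ℤ) < ((X / N + 1 : ℕ) : ℤ) := by exact_mod_cast Nat.succ_pos _
        have hM0 : (0 : ℤ) ≤ M := Int.natCast_nonneg M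
        refine hcell n (mem_Icc.2 ⟨by omega, by omega⟩) _ (mem_Icc.2 ⟨by omega, by omega⟩) ?_
          (Int.emod_eq_emod_iff_emod_sub_eq_zero.2 (Int.emod_eq_zero_of_dvd (dvd_shN_sub _ q n t)))
        have a1 := Int.ediv_le_ediv hL0 (show n - M ≤ n by omega)
        have a2 := Int.ediv_le_ediv hL0 (show n ≤ n + M by omega)
        have a3 := Int.ediv_le_ediv hL0 (show n - M ≤ shN w.factorial q n t by omega)
        have a4 := Int.ediv_le_ediv hL0 (show shN w.factorial q n t ≤ n + M by omega)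
        omega
      · refine (slfx_triv hT hz hu hv1 q n d).trans ?_
        linarith)
  rw [← star_shift D X w.factorial T j M hT hM' _ u _ fun n hn => by
    have := hv n
    rw [ind_of_not_mem hn] at this
    rw [abs_nonpos_iff.1 this, mul_zero]] at key
  refine key.trans (mul_le_mul_of_nonneg_left ?_ (pow_nonneg (RR_nonneg D X r) j))
  have hX0 : (0 : ℝ) < X := by exact_mod_cast hX
  have hirr := mul_le_mul_of_nonneg_left (card_irr X N M hN) (Nat.cast_nonneg (α := ℝ) z)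
  rw [add_mul, div_mul_cancel₀ _ hX0.ne']
  linarith

end Pool.Agent.Lib.MP_458f0b_nt.Grow
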