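import Pool.Agent.Lib.MP_458f0b_nt.Grow.Maj
import Pool.Agent.Lib.MP_458f0b_nt.Grow.SLFx

open Finset Filter Topology

namespace Pool.Agent.Lib.MP_458f0b_nt.Grow

open Pool.Agent.Lib.MP_458f0b_nt.Pois

lemma SLFfin_logy {K M : ℕ} (hK : 1 ≤ K) (h : 3 * K ≤ M) :
    Real.log (⌈4 * (K : ℝ) ^ 2 * Real.exp M⌉₊ : ℕ) ≤ 3 * M := by
  have hK' : (1 : ℝ) ≤ K := by exact_mod_cast hK
  have h' : 3 * (K : ℝ) ≤ M := by exact_mod_cast h
  have h1 := Real.add_one_le_exp (M : ℝ)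
  have h2 : (0 : ℝ) < 4 * (K : ℝ) ^ 2 * Real.exp M := by positivity
  have h3 := (Nat.ceil_lt_add_one h2.le).le
  have h4 : Real.exp (3 * M) = Real.exp M ^ 2 * Real.exp M := by
    rw [← Real.exp_nat_mul, ← Real.exp_add]; congr 1; push_cast; ring
  have h5 : (3 * (K : ℝ)) ^ 2 ≤ Real.exp M ^ 2 := pow_le_pow_left₀ (by positivity) (by linarith) 2
  have h6 : (1 : ℝ) ≤ (K : ℝ) ^ 2 * Real.exp M :=
    one_le_mul_of_one_le_of_one_le (one_le_pow₀ hK') (by linarith)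
  rw [Real.log_le_iff_le_exp (h2.trans_le (Nat.le_ceil _)), h4]
  nlinarith [mul_le_mul_of_nonneg_right h5 (Real.exp_pos (M : ℝ)).le]

theorem slf_final : ∀ᶠ L : ℝ in atTop, ∀ D X r w : ℕ, Rg L D X → (r : ℝ) ≤ Real.log L →
    (16 : ℝ) ^ r ≤ √L → 1 ≤ w → (w : ℝ) ≤ √L →
    ∃ ν : ℤ → ℝ, (∀ n, 0 ≤ ν n) ∧ (∀ n, ν n ≤ L ^ 2) ∧
      (∀ n, pr X n ≤ Real.log L ^ 7 * 16 ^ r * (ind X n * ν n)) ∧
      SLF w.factorial (X / w + 1) D X r ν (Real.exp (-9 * Real.log L ^ 2)) := by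
  obtain ⟨C, hC, hmaj⟩ := maj
  filter_upwards [hmaj, fact_small, ev_log (23232 * C), ev_pow 1 7 (b := 1 / 2) (by norm_num),
    ev_pow 10000 2 (b := 1) one_pos, eventually_ge_atTop 8] with L h1 h2 h3 h4 h5 h6
  intro D X r w hR hr h16 hw1 hw
  rw [one_mul, ← Real.sqrt_eq_rpow] at h4
  rw [Real.rpow_one] at h5
  have hL : 0 < L := by linarith
  have hL2 : L ^ 2 = Real.exp (2 * Real.log L) := by
    rw [show 2 * Real.log L = ((2 : ℕ) : ℝ) * Real.log L by norm_num, Real.exp_nat_mul,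
      Real.exp_log hL]
  have hQ := hR.Q_le hL
  have hx2 := hR.x2
  have hs : √L * √L = L := Real.mul_self_sqrt hL.le
  have hs1 : √L ≤ L := by
    rw [Real.sqrt_le_left hL.le]; nlinarith
  generalize Real.log L = t at *
  have ht : 100 ≤ t := by linarith
  have htt : 100 * t ≤ t ^ 2 := by nlinarith
  have htL : t ≤ L := by linarith
  set K := (2 * r + 2) * 2 ^ (2 * r + 1) with hKd
  set J := ⌈10 * t ^ 2⌉₊ with hJd
  have hJ1 : 10 * t ^ 2 ≤ J := Nat.le_ceil _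
  have hJ2 : (J : ℝ) ≤ 11 * t ^ 2 := by
    have := (Nat.ceil_lt_add_one (show 0 ≤ 10 * t ^ 2 by positivity)).le
    linarith
  have hK1 : 1 ≤ K := Nat.succ_le_of_lt (by positivity)
  have hK1' : (1 : ℝ) ≤ K := by exact_mod_cast hK1
  have hKe : (K : ℝ) = (2 * r + 2) * 2 ^ (2 * r + 1) := by rw [hKd]; push_cast; ring
  have hP : (0 : ℝ) < 4 ^ r := by positivity
  have hK2 : (K : ℝ) ≤ 8 * t * 4 ^ r := by
    rw [hKe, pow_succ, pow_mul, show (2 : ℝ) ^ 2 = 4 by norm_num]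
    linarith [mul_le_mul_of_nonneg_right (show 4 * (r : ℝ) + 4 ≤ 8 * t by linarith) hP.le]
  have hJ3 : 3 ≤ J := by
    have : ((3 : ℕ) : ℝ) ≤ J := by push_cast; linarith
    exact_mod_cast this
  have hM0 : ((K * J : ℕ) : ℝ) = K * J := by push_cast; ring
  have hJ0 : (0 : ℝ) ≤ J := Nat.cast_nonneg _
  have hM1 : (J : ℝ) ≤ (K * J : ℕ) := by rw [hM0]; exact le_mul_of_one_le_left hJ0 hK1'
  have hM2 : ((K * J : ℕ) : ℝ) ≤ 88 * t ^ 3 * 4 ^ r := by
    rw [hM0]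
    calc (K : ℝ) * J ≤ (8 * t * 4 ^ r) * (11 * t ^ 2) := by gcongr
      _ = _ := by ring
  have hM3 : C * K ≤ (K * J : ℕ) := by
    rw [hM0, mul_comm]
    exact mul_le_mul_of_nonneg_left (by linarith) (by linarith)
  have hM4 : 20 * t ^ 2 ≤ ((K * J : ℕ) : ℝ) / 2 ^ (2 * r + 1) := by
    rw [le_div_iff₀ (by positivity), hM0, hKe]
    have h7 : (0 : ℝ) < 2 ^ (2 * r + 1) := by positivity
    have h8 : (0 : ℝ) ≤ r := Nat.cast_nonneg _
    linarith [mul_le_mul_of_nonneg_right hJ1 h7.le, mul_nonneg (mul_nonneg h8 h7.le) hJ0]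
  have hy1 := SLFfin_logy hK1 (M := K * J) (by rw [mul_comm K J]; exact Nat.mul_le_mul_right K hJ3)
  generalize K * J = M at *
  have hy2 : 4 * (K : ℝ) ^ 2 * Real.exp M ≤ (⌈4 * (K : ℝ) ^ 2 * Real.exp M⌉₊ : ℕ) := Nat.le_ceil _
  generalize ⌈4 * (K : ℝ) ^ 2 * Real.exp M⌉₊ = y at *
  have hM5 : (0 : ℝ) ≤ M := Nat.cast_nonneg _
  have hB : C * M * Real.log y ≤ t ^ 7 * 16 ^ r := by
    have h7 : (16 : ℝ) ^ r = 4 ^ r * 4 ^ r := by rw [← mul_pow]; norm_num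
    calc C * M * Real.log y ≤ C * M * (3 * M) := by gcongr
      _ ≤ C * (88 * t ^ 3 * 4 ^ r) * (3 * (88 * t ^ 3 * 4 ^ r)) := by gcongr
      _ = 23232 * C * (t ^ 6 * 16 ^ r) := by rw [h7]; ring
      _ ≤ t * (t ^ 6 * 16 ^ r) := by gcongr
      _ = _ := by ring
  have hB2 : t ^ 7 * 16 ^ r ≤ L := by
    calc t ^ 7 * 16 ^ r ≤ √L * √L := by gcongr
      _ = L := hs
  obtain ⟨z, z1, z2, z3, z4, z5⟩ := h1 K M y hK1 hM3 hy2 (hB.trans hB2)
  have hD1 := hR.exp_le hL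
  have hD2 := hR.le_exp hL
  have hDX : (D : ℝ) ≤ X := by exact_mod_cast hR.x1
  have hX1 : Real.exp (L / 2) ≤ X := hD1.trans hDX
  have hLt : L * t ≤ L ^ 2 := by rw [sq]; exact mul_le_mul_of_nonneg_left htL hL.le
  have hX2 : (X : ℝ) ≤ Real.exp (2 * L) := by
    calc (X : ℝ) ≤ D * (L * t) := by linarith
      _ ≤ Real.exp L * Real.exp (2 * t) := by
        rw [← hL2]
        gcongr
      _ ≤ _ := by
        rw [← Real.exp_add]
        exact Real.exp_le_exp.2 (by linarith)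
  have hyL : L ^ 2 ≤ y := by
    have h7 : Real.exp (2 * t) ≤ Real.exp M := Real.exp_le_exp.2 (by linarith)
    have h8 : (1 : ℝ) ≤ 4 * (K : ℝ) ^ 2 := by linarith [one_le_pow₀ (n := 2) hK1']
    linarith [le_mul_of_one_le_left (Real.exp_pos (M : ℝ)).le h8]
  have hL8 : 8 * L ≤ L ^ 2 := by rw [sq]; exact mul_le_mul_of_nonneg_right h6 hL.le
  have hLL : L ≤ L ^ 2 := by linarith
  refine ⟨nu1 y z, nu1_nonneg y z, z4, fun n => (z5 X hX1 hX2 n).trans
    (mul_le_mul_of_nonneg_right hB (mul_nonneg (ind_nonneg X n) (nu1_nonneg y z n))), ?_⟩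
  have hT1 : 0 < ⌊Real.exp (L / 6)⌋₊ := Nat.floor_pos.2 (Real.one_le_exp (by linarith))
  have hT2 : (⌊Real.exp (L / 6)⌋₊ : ℝ) ≤ Real.exp (L / 6) := Nat.floor_le (Real.exp_pos _).le
  have hXp : (0 : ℝ) < X := (Real.exp_pos _).trans_le hX1
  have hN : ((w.factorial * ⌊Real.exp (L / 6)⌋₊ * (1 + r + 2 * r * (X / D)) : ℕ) : ℝ) ≤
      Real.exp (L / 5) := by
    have h7 : (1 : ℝ) + r + 2 * r * ((X / D : ℕ) : ℝ) ≤ Real.exp (2 * t) := by
      have h8 : 2 * (r : ℝ) * ((X / D : ℕ) : ℝ) ≤ 2 * t * (L * t) := by gcongr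
      rw [← hL2]
      linarith [mul_le_mul_of_nonneg_left h5 hL.le]
    rw [Nat.cast_mul, Nat.cast_mul, Nat.cast_add, Nat.cast_add, Nat.cast_mul, Nat.cast_mul,
      Nat.cast_one, Nat.cast_two]
    calc _ ≤ Real.exp (L / 100) * Real.exp (L / 6) * Real.exp (2 * t) := by
          have := h2 w hw
          gcongr
      _ ≤ _ := by
        rw [← Real.exp_add, ← Real.exp_add]
        exact Real.exp_le_exp.2 (by linarith)
  have h25 : 2 * Real.exp (L / 5) ≤ Real.exp (L / 2) := by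
    have h7 : Real.exp (L / 2) = Real.exp (3 * L / 10) * Real.exp (L / 5) := by
      rw [← Real.exp_add]; congr 1; ring
    have h8 := Real.add_one_le_exp (3 * L / 10)
    rw [h7]
    exact mul_le_mul_of_nonneg_right (by linarith) (Real.exp_pos _).le
  have hE := Real.exp_pos (L / 5)
  have key := slf_exp (N := w) (w := w) (D := D) (X := X) (r := r) z3 hKd.ge
    (by
      rw [Real.exp_neg, ← div_eq_mul_inv, div_le_one (Real.exp_pos _)]
      linarith [Real.add_one_le_exp (M : ℝ)])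
    (by
      have : (w : ℝ) ≤ y := by linarith
      exact_mod_cast this)
    (by
      have : ((X / D : ℕ) : ℝ) ≤ y := by linarith
      exact_mod_cast this)
    hT1 z1 hw1 (by exact_mod_cast hXp) le_rfl
    (by
      have := hN.trans (show Real.exp (L / 5) ≤ D by linarith)
      exact_mod_cast this)
    (by
      have : 2 * ((w.factorial * ⌊Real.exp (L / 6)⌋₊ * (1 + r + 2 * r * (X / D)) : ℕ) : ℝ) ≤ X := by
        linarith
      exact_mod_cast this)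
  refine key.mono ?_
  generalize w.factorial * ⌊Real.exp (L / 6)⌋₊ * (1 + r + 2 * r * (X / D)) = N at *
  have e1 : Real.exp (-(M : ℝ) / 2 ^ (2 * r + 1)) ≤ Real.exp (-20 * t ^ 2) :=
    Real.exp_le_exp.2 (by rw [neg_div]; linarith)
  have e2 : (2 * (w : ℝ) + 6) * N * z / X ≤ Real.exp (-20 * t ^ 2) := by
    have h7 : 2 * (w : ℝ) + 6 ≤ Real.exp (2 * t) := by
      rw [← hL2]
      linarith
    rw [div_le_iff₀ hXp]
    calc (2 * (w : ℝ) + 6) * N * z ≤ Real.exp (2 * t) * Real.exp (L / 5) * Real.exp (L / 100) := by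
          gcongr
      _ ≤ Real.exp (-20 * t ^ 2) * Real.exp (L / 2) := by
          rw [← Real.exp_add, ← Real.exp_add, ← Real.exp_add]
          exact Real.exp_le_exp.2 (by linarith)
      _ ≤ _ := by gcongr
  have e3 : Real.exp (-9 * t ^ 2) = Real.exp (11 * t ^ 2) * Real.exp (-20 * t ^ 2) := by
    rw [← Real.exp_add]; congr 1; ring
  have e4 := Real.add_one_le_exp (11 * t ^ 2)
  have e5 := Real.exp_pos (-20 * t ^ 2)
  rw [e3]
  linarith [mul_le_mul_of_nonneg_right (show (137 : ℝ) ≤ Real.exp (11 * t ^ 2) by linarith) e5.le]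

end Pool.Agent.Lib.MP_458f0b_nt.Grow
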