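import Pool.Agent.Lib.MP_458f0b_nt.Grow.VarPer

open Finset Filter Topology

namespace Pool.Agent.Lib.MP_458f0b_nt.Grow

open Pool.Agent.Lib.MP_458f0b_nt.Pois

lemma var0_cs (X : ℕ) {d : ℕ} (hd : 0 < d) {a : ℤ} (h0 : 0 ≤ a) (h1 : a < d) {f : ℤ → ℝ} {K : ℝ}
    (hf : ∀ n, 0 ≤ f n) (hK : ∀ n, f n ≤ K) :
    |cs X f d a - ∑ q ∈ range (X / d), f (a + q * (d : ℤ))| ≤ K := by
  have hd' : (0 : ℤ) < d := by exact_mod_cast hd
  have him : ∀ n : ℕ, ∑ m ∈ (range n).image (fun q : ℕ => a + q * (d : ℤ)), f m =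
      ∑ q ∈ range n, f (a + q * (d : ℤ)) := fun n =>
    Finset.sum_image fun q _ q' _ h => by
      have := mul_right_cancel₀ hd'.ne' (add_left_cancel h)
      exact_mod_cast this
  have e1 : ((X / d : ℕ) : ℤ) * d ≤ X := by exact_mod_cast Nat.div_mul_le_self X d
  have e2 : (X : ℤ) < (((X / d : ℕ) : ℤ) + 1) * d := by
    have := Nat.lt_mul_div_succ X hd
    rw [mul_comm] at this
    exact_mod_cast this
  generalize X / d = n at e1 e2
  have u1 : cs X f d a ≤ ∑ q ∈ range (n + 1), f (a + q * (d : ℤ)) := by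
    rw [← him]
    refine Finset.sum_le_sum_of_subset_of_nonneg (fun m hm => ?_) fun m _ _ => hf m
    obtain ⟨hm1, c, hc⟩ := mem_filter.1 hm
    have hm2 := mem_Icc.1 hm1
    have c0 : 0 ≤ c := by
      by_contra h
      have : c ≤ -1 := by omega
      nlinarith [mul_le_mul_of_nonneg_left this hd'.le]
    have c1 : c < n + 1 := by
      by_contra h
      have : (n : ℤ) + 1 ≤ c := by omega
      nlinarith [mul_le_mul_of_nonneg_left this hd'.le]
    obtain ⟨c, rfl⟩ := Int.eq_ofNat_of_zero_le c0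
    exact mem_image.2 ⟨c, mem_range.2 (by exact_mod_cast c1), by linarith⟩
  have u2 : ∑ q ∈ range n, f (a + q * (d : ℤ)) ≤ f 0 + cs X f d a := by
    unfold cs
    rw [← him, ← Finset.sum_insert (by simp)]
    refine Finset.sum_le_sum_of_subset_of_nonneg (fun m hm => ?_) fun m _ _ => hf m
    obtain ⟨q, hq, rfl⟩ := mem_image.1 hm
    have q1 : (q : ℤ) + 1 ≤ n := by exact_mod_cast mem_range.1 hq
    have q2 : (0 : ℤ) ≤ q * d := by positivity
    have q3 := mul_le_mul_of_nonneg_right q1 hd'.le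
    rw [mem_insert, mem_filter, mem_Icc]
    rcases (add_nonneg h0 q2).eq_or_lt with h | h
    · exact Or.inl h.symm
    · exact Or.inr ⟨⟨h, by linarith⟩, q, by ring⟩
  rw [Finset.sum_range_succ] at u1
  rw [abs_le]
  constructor <;> linarith [hK 0, hK (a + n * (d : ℤ))]

lemma var0_per {w d : ℕ} (n : ℕ) (hW : w.factorial ≤ d) :
    ∑ a ∈ Ico (0 : ℤ) d, (∑ q ∈ range n, nu0 w (a + q * (d : ℤ)) -
        n * (if Cop w d a then (om w d)⁻¹ else 0)) ^ 2 ≤ 2 * d * (n * kap w ^ 2) := by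
  have h := var_per w n d
  have he0 : 0 < ∏ p ∈ w.primesLE, p :=
    Finset.prod_pos fun p hp => (Nat.prime_of_mem_primesLE hp).pos
  have hed := (count_prod_le w).trans hW
  have hp : ∀ p ∈ w.primesLE, (p : ℤ) ∣ (∏ p ∈ w.primesLE, p : ℕ) := fun p hp =>
    Int.natCast_dvd_natCast.2 (Finset.dvd_prod_of_mem _ hp)
  generalize ∏ p ∈ w.primesLE, p = e at h he0 hed hp
  set g : ℤ → ℝ := fun a => (∑ q ∈ range n, nu0 w (a + q * (d : ℤ)) -
    n * (if Cop w d a then (om w d)⁻¹ else 0)) ^ 2 with hg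
  have hper : ∀ a, g (a + e) = g a := by
    intro a
    have k1 : ∀ q : ℕ, nu0 w (a + e + q * (d : ℤ)) = nu0 w (a + q * (d : ℤ)) := by
      intro q
      have : (∀ p ∈ w.primesLE, ¬ (p : ℤ) ∣ a + e + q * (d : ℤ)) ↔
          ∀ p ∈ w.primesLE, ¬ (p : ℤ) ∣ a + q * (d : ℤ) := by
        refine forall₂_congr fun p hp' => not_congr (dvd_iff_dvd_of_dvd_sub ?_)
        rw [show a + e + q * (d : ℤ) - (a + q * (d : ℤ)) = e by ring]
        exact hp p hp'
      unfold nu0 nu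
      simp only [this]
    have k2 : Cop w d (a + e) ↔ Cop w d a :=
      forall₂_congr fun p hp' => imp_congr_right fun _ => not_congr (dvd_add_left (hp p hp'))
    simp only [hg, k1, k2]
  have h1 := count_range g 0 d
  have h2 := count_range g 0 e
  rw [zero_add] at h1 h2
  have h3 := count_blocks hper 0 (d / e + 1)
  have h4 : ∑ i ∈ range d, g (0 + i) ≤ ∑ i ∈ range (e * (d / e + 1)), g (0 + i) :=
    Finset.sum_le_sum_of_subset_of_nonneg
      (Finset.range_subset_range.2 (Nat.lt_mul_div_succ d he0).le) fun _ _ _ => sq_nonneg _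
  have h5 : ((d / e + 1 : ℕ) : ℝ) * e ≤ 2 * d := by
    have := Nat.div_mul_le_self d e
    have h6 : (d / e + 1) * e ≤ 2 * d := by rw [add_mul]; omega
    exact_mod_cast h6
  change ∑ a ∈ Ico (0 : ℤ) d, g a ≤ _
  change ∑ a ∈ Ico (0 : ℤ) e, g a ≤ _ at h
  rw [h1]
  refine h4.trans ?_
  rw [h3, ← h2]
  refine (mul_le_mul_of_nonneg_left h (Nat.cast_nonneg _)).trans ?_
  rw [← mul_assoc]
  exact mul_le_mul_of_nonneg_right h5 (by positivity)

lemma var0_one {w d : ℕ} (X : ℕ) (hW : w.factorial ≤ d) :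
    ∑ a ∈ Ico (0 : ℤ) d, (cs X (nu0 w) d a - mean0 w X d a) ^ 2 ≤
      8 * d * ((((X / d : ℕ) : ℝ) + 1) * kap w ^ 2) := by
  have hd : 0 < d := w.factorial_pos.trans_le hW
  have hd' : (0 : ℝ) < d := by exact_mod_cast hd
  have hk := kap_pos w
  have e1 : |((X / d : ℕ) : ℝ) - X / d| ≤ 1 := by
    have a1 : ((X / d : ℕ) : ℝ) ≤ X / d := Nat.cast_div_le
    have a2 : (X : ℝ) / d < ((X / d : ℕ) : ℝ) + 1 := by
      rw [div_lt_iff₀ hd', mul_comm]
      exact_mod_cast Nat.lt_mul_div_succ X hd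
    rw [abs_le]
    constructor <;> linarith
  have h1 : ∀ a ∈ Ico (0 : ℤ) d, (cs X (nu0 w) d a - mean0 w X d a) ^ 2 ≤
      2 * (∑ q ∈ range (X / d), nu0 w (a + q * (d : ℤ)) -
        (X / d : ℕ) * (if Cop w d a then (om w d)⁻¹ else 0)) ^ 2 + 8 * kap w ^ 2 := by
    intro a ha
    have a1 := var0_cs X hd (mem_Ico.1 ha).1 (mem_Ico.1 ha).2 (nu0_nonneg w) (nu0_le w)
    have a2 : |((X / d : ℕ) : ℝ) * (if Cop w d a then (om w d)⁻¹ else 0) - mean0 w X d a| ≤
        kap w := by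
      unfold mean0
      split_ifs
      · rw [Int.cast_natCast, ← div_div, div_eq_mul_inv (_ / _), ← sub_mul, abs_mul,
          abs_of_pos (inv_pos.2 (om_pos w d))]
        exact (mul_le_of_le_one_left (inv_pos.2 (om_pos w d)).le e1).trans (inv_om_le w d)
      · simpa using hk.le
    generalize cs X (nu0 w) d a = A at a1 ⊢
    generalize mean0 w X d a = B at a2 ⊢
    generalize ∑ q ∈ range (X / d), nu0 w (a + q * (d : ℤ)) = S at a1 ⊢
    generalize ((X / d : ℕ) : ℝ) * (if Cop w d a then (om w d)⁻¹ else 0) = T at a2 ⊢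
    have a3 : |A - S + (T - B)| ≤ 2 * kap w := (abs_add_le _ _).trans (by linarith)
    have a4 : (A - S + (T - B)) ^ 2 ≤ (2 * kap w) ^ 2 := sq_le_sq' (abs_le.1 a3).1 (abs_le.1 a3).2
    nlinarith [sq_nonneg (S - T - (A - S + (T - B)))]
  refine (Finset.sum_le_sum h1).trans ?_
  rw [Finset.sum_add_distrib, ← Finset.mul_sum, Finset.sum_const, Int.card_Ico, sub_zero,
    Int.toNat_natCast, nsmul_eq_mul]
  have h2 := var0_per (X / d) hW
  have h3 : 0 ≤ (d : ℝ) * (((X / d : ℕ) : ℝ) * kap w ^ 2) := by positivity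
  nlinarith

theorem var0 {w D : ℕ} (X : ℕ) (hD : 0 < D) (hW : w.factorial ≤ D) :
    SC D (fun d a => (cs X (nu0 w) d a - mean0 w X d a) ^ 2) ≤
      20 * (D : ℝ) ^ 2 * (((X / D : ℕ) : ℝ) + 1) * kap w ^ 2 := by
  unfold SC
  refine (Finset.sum_le_card_nsmul _ _
    (16 * D * ((((X / D : ℕ) : ℝ) + 1) * kap w ^ 2)) fun d hd => ?_).trans ?_
  · obtain ⟨h1, h2⟩ := mem_Ico.1 hd
    obtain ⟨d, rfl⟩ := Int.eq_ofNat_of_zero_le ((Int.natCast_nonneg D).trans h1)
    have h3 : D ≤ d := by exact_mod_cast h1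
    have h4 : (d : ℝ) ≤ 2 * D := by exact_mod_cast h2.le
    have h5 : ((X / d : ℕ) : ℝ) ≤ (X / D : ℕ) := by exact_mod_cast Nat.div_le_div_left h3 hD
    refine (var0_one X (hW.trans h3)).trans ?_
    rw [show (16 : ℝ) * D = 8 * (2 * D) by ring]
    gcongr
  · rw [Int.card_Ico, show (2 * (D : ℤ) - D).toNat = D by omega, nsmul_eq_mul]
    have : 0 ≤ (D : ℝ) ^ 2 * ((((X / D : ℕ) : ℝ) + 1) * kap w ^ 2) := by positivity
    nlinarith

end Pool.Agent.Lib.MP_458f0b_nt.Grow
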