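import Pool.Agent.Lib.MP_458f0b_nt.Grow.StepX
import Pool.Agent.Lib.MP_458f0b_nt.Grow.OpBound
import Pool.Agent.Lib.MP_458f0b_nt.Grow.Var0
import Pool.Agent.Lib.MP_458f0b_nt.Grow.MoBound
import Pool.Agent.Lib.MP_458f0b_nt.Grow.SLFfin
import Pool.Agent.Lib.MP_458f0b_nt.Grow.FlatFin
import Pool.Agent.Lib.MP_458f0b_nt.Grow.Ineq

open Finset Filter Topology

namespace Pool.Agent.Lib.MP_458f0b_nt.Grow

open Pool.Agent.Lib.MP_458f0b_nt.Pois

lemma onestep_exp {L : ℝ} (hL : 46080 ≤ L) : L ^ 5 ≤ Real.exp (L / 2) := by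
  have h := Real.pow_div_factorial_le_exp (L / 2) (by linarith) 6
  have e : ((Nat.factorial 6 : ℕ) : ℝ) = 720 := by norm_num [Nat.factorial]
  rw [e] at h
  have h5 : 0 ≤ L ^ 5 := by positivity
  refine le_trans ?_ h
  rw [le_div_iff₀ (by norm_num)]
  nlinarith [mul_le_mul_of_nonneg_left hL h5]

lemma onestep_mean (D X r w : ℕ) (u : ℤ → ℝ) (hl : Real.log X ≠ 0) :
    Pair D X r u (mean0 w X) =
      Real.log X * Pair D X r u (fun d a => if Cop w d a then tau w X d else 0) := by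
  unfold Pair
  rw [← SC_mul]
  congr 1
  funext d a
  unfold mean0 tau
  dsimp only
  split_ifs
  · rw [← div_div _ _ (Real.log X)]
    field_simp
  · simp

/-- the number of small primes -/
lemma onestep_w {c0 L : ℝ} (h0 : 0 < c0) (h1 : c0 ≤ 1 / 2) (hL : 1 ≤ L)
    (h2 : 2 ≤ L ^ (c0 / 4 - c0 / 100)) :
    L ^ (c0 / 4) ≤ 2 * (⌊L ^ (c0 / 4)⌋₊ : ℝ) ∧ L ^ (c0 / 100) ≤ (⌊L ^ (c0 / 4)⌋₊ : ℝ) ∧
      (⌊L ^ (c0 / 4)⌋₊ : ℝ) ≤ √L ∧ (⌊L ^ (c0 / 4)⌋₊ : ℝ) ≤ L ^ c0 ∧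
      (⌊L ^ (c0 / 4)⌋₊ : ℝ) ^ 4 ≤ L ^ c0 ∧ 1 ≤ ⌊L ^ (c0 / 4)⌋₊ := by
  have hL0 : 0 < L := by linarith
  have a1 : 1 ≤ L ^ (c0 / 4) := Real.one_le_rpow hL (by positivity)
  have a2 : 1 ≤ ⌊L ^ (c0 / 4)⌋₊ := Nat.le_floor (by exact_mod_cast a1)
  have a3 : (1 : ℝ) ≤ ⌊L ^ (c0 / 4)⌋₊ := by exact_mod_cast a2
  have a4 := Nat.lt_floor_add_one (L ^ (c0 / 4))
  have a5 : (⌊L ^ (c0 / 4)⌋₊ : ℝ) ≤ L ^ (c0 / 4) := Nat.floor_le (by linarith)
  have a6 : L ^ (c0 / 4) = L ^ (c0 / 4 - c0 / 100) * L ^ (c0 / 100) := by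
    rw [← Real.rpow_add hL0]; congr 1; ring
  have a7 : 0 < L ^ (c0 / 100) := by positivity
  refine ⟨by linarith, by nlinarith, a5.trans ?_, a5.trans ?_, ?_, a2⟩
  · rw [Real.sqrt_eq_rpow]
    exact Real.rpow_le_rpow_of_exponent_le hL (by linarith)
  · exact Real.rpow_le_rpow_of_exponent_le hL (by linarith)
  · refine (pow_le_pow_left₀ (by positivity) a5 4).trans (le_of_eq ?_)
    rw [← Real.rpow_natCast, ← Real.rpow_mul hL0.le]
    congr 1
    push_cast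
    ring

theorem one_step : ∃ c : ℝ, 0 < c ∧ c ≤ 1 / 100 ∧ ∀ᶠ L : ℝ in atTop, ∃ w : ℕ,
    L ^ c ≤ w ∧ (w : ℝ) ≤ √L ∧ ∀ (D X r : ℕ) (u : ℤ → ℝ), Rg L D X →
      r * Real.log (Real.log L) ≤ c * Real.log L → (∀ d, |u d| ≤ 1) →
      |Pair D X (r + 1) u (fun _ _ => 1) -
        Pair D X r u (fun d a => if Cop w d a then tau w X d else 0)| ≤
        (D : ℝ) ^ 2 * L ^ (-c) := by
  obtain ⟨c0, h0, h1, hflat⟩ := flat_final
  refine ⟨c0 / 100, by positivity, by linarith, ?_⟩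
  filter_upwards [hflat, mo_bound, slf_final, final_ineq h0 h1, fact_small, ev_log 16,
    eventually_ge_atTop 46080, ev_pow 2 0 (b := c0 / 4 - c0 / 100) (by linarith)]
    with L hF hMo hSl hIn hfac ht hL h2
  rw [pow_zero, mul_one] at h2
  have hL1 : 1 ≤ L := by linarith
  have hL0 : 0 < L := by linarith
  obtain ⟨w1, w2, w3, w4, w5, w6⟩ := onestep_w h0 h1 hL1 h2
  generalize ⌊L ^ (c0 / 4)⌋₊ = w at w1 w2 w3 w4 w5 w6
  refine ⟨w, w2, w3, fun D X r u hR hr hu => ?_⟩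
  have hD := hR.pos hL0
  have hD' : (0 : ℝ) < D := by exact_mod_cast hD
  have hw' : (1 : ℝ) ≤ w := by exact_mod_cast w6
  have hsq : √L ≤ L := by
    rw [Real.sqrt_le_left hL0.le]; nlinarith only [hL1]
  have htL : Real.log L ≤ L := (Real.log_le_sub_one_of_pos hL0).trans (by linarith)
  have hexp : Real.exp (Real.log L) = L := Real.exp_log hL0
  have hr0 : (0 : ℝ) ≤ r := Nat.cast_nonneg r
  have hll : 1 ≤ Real.log (Real.log L) := by
    rw [Real.le_log_iff_exp_le (by linarith)]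
    linarith [Real.exp_one_lt_d9]
  have hr2 : 2 * (r : ℝ) ≤ Real.log L := by nlinarith only [hr, hll, hr0, h1, ht]
  have hr1 : (r : ℝ) ≤ Real.log L := by linarith
  have htr : Real.log L ^ r ≤ L ^ (c0 / 100) := by
    rw [Real.rpow_def_of_pos hL0, ← Real.exp_log (show 0 < Real.log L ^ r by positivity),
      Real.log_pow]
    exact Real.exp_le_exp.2 (by linarith)
  have hP : (16 : ℝ) ^ r ≤ L ^ (c0 / 100) := (pow_le_pow_left₀ (by norm_num) ht r).trans htr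
  have hQ := hR.Q_le hL0
  have hQ0 : (0 : ℝ) ≤ (X / D : ℕ) := Nat.cast_nonneg _
  have hQ2 : ((X / D : ℕ) : ℝ) ≤ L ^ 2 := hQ.trans (by nlinarith only [htL, hL0])
  have hDe := hR.exp_le hL0
  have hDX : (D : ℝ) ≤ X := by exact_mod_cast hR.x1
  have h5 := onestep_exp hL
  have hl := hR.log_ge hL0
  have hl0 : 0 < Real.log X := by linarith
  have lq0 : 0 ≤ Real.log (X / D : ℕ) := Real.log_natCast_nonneg _
  have lq : 1 + Real.log (X / D : ℕ) ≤ 3 * Real.log L := by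
    have : Real.log (X / D : ℕ) ≤ 2 * Real.log L := by
      rcases hQ0.eq_or_lt with e | e
      · rw [← e, Real.log_zero]; linarith
      · refine (Real.log_le_log e hQ2).trans (le_of_eq ?_)
        rw [Real.log_pow]; norm_num
    linarith
  have hLb1 : (X : ℝ) < w * ((X / w + 1 : ℕ) : ℝ) := by
    exact_mod_cast Nat.lt_mul_div_succ X w6
  have hLb2 : ((X / w + 1 : ℕ) : ℝ) ≤ X / w + 1 := by
    push_cast
    linarith [Nat.cast_div_le (α := ℝ) (m := X) (n := w)]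
  have hLb0 : (0 : ℝ) ≤ ((X / w + 1 : ℕ) : ℝ) := Nat.cast_nonneg _
  have hQL : (X / D) ^ 2 ≤ X / w + 1 := by
    have a1 : (((X / D) ^ 2 : ℕ) : ℝ) ≤ L ^ 4 := by
      rw [Nat.cast_pow]
      exact (pow_le_pow_left₀ hQ0 hQ2 2).trans (le_of_eq (by ring))
    have a2 : L * L ^ 4 ≤ L * ((X / w + 1 : ℕ) : ℝ) := by
      have := mul_le_mul_of_nonneg_right (w3.trans hsq) hLb0
      linarith only [this, hLb1, hDX, hDe, h5]
    exact_mod_cast a1.trans (le_of_mul_le_mul_left a2 hL0)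
  obtain ⟨f1, f2⟩ := hF D X w (X / w + 1) hR w4 (Nat.succ_pos _)
  obtain ⟨ν, n1, n2, n3, n4⟩ := hSl D X r w hR hr1 (hP.trans (w2.trans w3)) w6 w3
  have hκ := kap_le (w := w) (L := L) (by linarith) (w3.trans hsq)
  have hκ0 := (kap_pos w).le
  have hM : Mo D X (2 * r) ≤ 3 * (D : ℝ) ^ 2 * L ^ (8 * (c0 / 100)) := by
    refine (hMo D X (2 * r) hR (by push_cast; linarith)).trans ?_
    have e1 : Real.log L ^ (4 * (2 * r)) = (Real.log L ^ r) ^ 8 := by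
      rw [← pow_mul]; congr 1; ring
    have e2 : L ^ (8 * (c0 / 100)) = (L ^ (c0 / 100)) ^ 8 := by
      rw [← Real.rpow_natCast, ← Real.rpow_mul hL0.le]; congr 1; push_cast; ring
    rw [e1, e2]
    gcongr
  have hV : SC D (fun d a => (cs X (nu0 w) d a - mean0 w X d a) ^ 2) ≤
      40 * (D : ℝ) ^ 2 * (L * Real.log L) * kap w ^ 2 := by
    have a1 : w.factorial ≤ D := by
      have := (hfac w w3).trans ((Real.exp_le_exp.2 (by linarith : L / 100 ≤ L / 2)).trans hDe)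
      exact_mod_cast this
    refine (var0 X hD a1).trans ?_
    have a2 : ((X / D : ℕ) : ℝ) + 1 ≤ 2 * (L * Real.log L) := by nlinarith only [hQ, hL1, ht]
    have a3 : 0 ≤ 20 * (D : ℝ) ^ 2 * kap w ^ 2 := by positivity
    linarith only [mul_le_mul_of_nonneg_left a2 a3]
  have hRR : RR D X r ≤ 2 * D * Real.exp (3 * Real.log L ^ 2) := by
    unfold RR
    have a1 : 2 * ((X / D : ℕ) : ℝ) + 1 ≤ Real.exp (3 * Real.log L) := by
      rw [show (3 : ℝ) * Real.log L = (3 : ℕ) * Real.log L by norm_num, Real.exp_nat_mul, hexp]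
      nlinarith only [hQ2, hL, mul_le_mul_of_nonneg_left hL (sq_nonneg L)]
    have a2 : (2 * ((X / D : ℕ) : ℝ) + 1) ^ r ≤ Real.exp (3 * Real.log L ^ 2) := by
      refine (pow_le_pow_left₀ (by positivity) a1 r).trans ?_
      rw [← Real.exp_nat_mul]
      exact Real.exp_le_exp.2 (by nlinarith only [hr1, ht])
    gcongr
  have hZ : L ^ 2 * Real.exp (-9 * Real.log L ^ 2) ≤ 1 := by
    have e : L ^ 2 = Real.exp (2 * Real.log L) := by
      rw [show (2 : ℝ) * Real.log L = (2 : ℕ) * Real.log L by norm_num, Real.exp_nat_mul, hexp]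
    rw [e, ← Real.exp_add, Real.exp_le_one_iff]
    nlinarith only [ht]
  obtain ⟨η, hη⟩ : ∃ η : ℝ,
      η = 1 + 2000 * (1 + Real.log (X / D : ℕ)) * ((X / w + 1 : ℕ) : ℝ) / D := ⟨_, rfl⟩
  obtain ⟨Γ, hΓ⟩ : ∃ Γ : ℝ, Γ = 2 * (1 + Real.log (X / D : ℕ)) * (w : ℝ) ^ 4 := ⟨_, rfl⟩
  have η0 : 0 ≤ η := by rw [hη]; positivity
  have Γ0 : 0 ≤ Γ := by rw [hΓ]; positivity
  have Γ1 : Γ ≤ 6 * Real.log L * L ^ c0 := by
    rw [hΓ]
    have := mul_le_mul lq w5 (by positivity) (by linarith)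
    linarith
  have η1 : η ≤ 30000 * Real.log L ^ 2 * L ^ (1 - c0 / 4) := by
    have b0 : 1 ≤ L ^ (1 - c0 / 4) := Real.one_le_rpow hL1 (by linarith)
    have b1 : L ^ (1 - c0 / 4) * L ^ (c0 / 4) = L := by
      rw [← Real.rpow_add hL0]; simp
    have b2 : L ≤ 2 * L ^ (1 - c0 / 4) * w := by nlinarith only [b0, b1, w1]
    have b3 : (X : ℝ) / w ≤ D * (2 * Real.log L * L ^ (1 - c0 / 4)) := by
      rw [div_le_iff₀ (by linarith)]
      have := mul_le_mul_of_nonneg_left b2 (show 0 ≤ D * Real.log L by positivity)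
      linarith [hR.x2]
    have b4 : (1 : ℝ) ≤ D := by exact_mod_cast hD
    have b5 : 1 ≤ Real.log L * L ^ (1 - c0 / 4) := by nlinarith only [b0, ht]
    have b6 : ((X / w + 1 : ℕ) : ℝ) / D ≤ 3 * (Real.log L * L ^ (1 - c0 / 4)) := by
      rw [div_le_iff₀ hD']
      nlinarith only [hLb2, b3, b4, b5]
    have b7 := mul_le_mul lq b6 (by positivity) (by linarith)
    rw [hη, mul_div_assoc]
    nlinarith only [b7, b5, ht]
  have hop : ∀ f E, Flat w (X / w + 1) X f E → AA D X f ≤ η * D * nn X f + Γ * E ^ 2 := by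
    intro f E hE
    refine (op_bound hD w6 w6 rfl hQL f E hE).trans (le_of_eq ?_)
    rw [hη, hΓ]
    field_simp
    ring
  have key := step_abs hD hu η0 Γ0 hop n1 n2 (by nlinarith only [hL1]) (Real.exp_pos _).le hZ n4
    (by positivity) n3 f1 (by positivity) hV hM f2
  have fin := hIn D X (Real.log X) (kap w) η r (16 ^ r) _ _ Γ (RR D X r) hD' (Nat.cast_nonneg X)
    hR.x2 hl hκ0 hκ η0 η1 hr0 hr1 (by positivity) hP (by positivity) le_rfl (by positivity) le_rfl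
    Γ0 Γ1 (RR_nonneg D X r) hRR
  have last := key.trans fin
  rw [onestep_mean D X r w u hl0.ne', ← mul_sub, abs_mul, abs_of_pos hl0] at last
  exact le_of_mul_le_mul_left last hl0

end Pool.Agent.Lib.MP_458f0b_nt.Grow
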