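import Pool.Agent.Lib.MP_458f0b_nt.Grow.Dual

open Finset Filter Topology

namespace Pool.Agent.Lib.MP_458f0b_nt.Grow

open Pool.Agent.Lib.MP_458f0b_nt.Pois

lemma pairb_pos {D : ℕ} (hD : 0 < D) {d : ℤ} (hd : d ∈ Ico (D : ℤ) (2 * D)) : 0 < d := by
  have h1 := (mem_Ico.1 hd).1
  have h2 : (0 : ℤ) < D := by exact_mod_cast hD
  omega

lemma pairb_Nc_mod (X : ℕ) (d n : ℤ) : Nc X d (n % d) = Nc X d n :=
  Nc_congr X ⟨-(n / d), by rw [Int.emod_def]; ring⟩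

/-- grouping the points by their class -/
lemma pairb_group {D : ℕ} (hD : 0 < D) (X : ℕ) (h : ℤ → ℝ) (P : ℤ → ℕ → ℝ) :
    ∑ n ∈ Icc (1 : ℤ) X, ∑ d ∈ Ico (D : ℤ) (2 * D), h n * P d (Nc X d n) =
      SC D (fun d a => P d (Nc X d a) * cs X h d a) := by
  rw [Finset.sum_comm]
  unfold SC cs
  refine Finset.sum_congr rfl fun d hd => ?_
  rw [← struct_group (pairb_pos hD hd) h (fun a => P d (Nc X d a))]
  refine Finset.sum_congr rfl fun n _ => ?_
  rw [pairb_Nc_mod]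

lemma pairb_desc_succ (N r : ℕ) :
    (((N - 1).descFactorial r : ℕ) : ℝ) * N = (N.descFactorial (r + 1) : ℕ) := by
  rcases N with _ | N
  · simp
  · rw [Nat.succ_descFactorial_succ, Nat.add_sub_cancel]
    push_cast
    ring

theorem sum_pi_Dl {D : ℕ} (hD : 0 < D) (X r : ℕ) (u : ℤ → ℝ) :
    ∑ n ∈ Icc (1 : ℤ) X, pi1 X n * Dl D X r u n = Pair D X (r + 1) u (fun _ _ => 1) := by
  have h1 : ∀ n ∈ Icc (1 : ℤ) X, pi1 X n * Dl D X r u n =
      ∑ d ∈ Ico (D : ℤ) (2 * D),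
        pi1 X n * (u d * (((Nc X d n - 1).descFactorial r : ℕ) : ℝ)) := by
    intro n hn
    rw [Dl_eq hD X r u hn, Finset.mul_sum]
    refine Finset.sum_congr rfl fun d _ => ?_
    unfold pi1
    rcases Nat.le_one_iff_eq_zero_or_eq_one.1 (e1_le X n) with h | h <;> simp [h]
  rw [Finset.sum_congr rfl h1,
    pairb_group hD X (pi1 X) (fun d N => u d * (((N - 1).descFactorial r : ℕ) : ℝ))]
  unfold Pair
  congr 1
  funext d a
  rw [cs_pi1, mul_one, mul_assoc, pairb_desc_succ]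

lemma pairb_diff (N e k : ℕ) (he : e ≤ 1) :
    |(((N - e).descFactorial (k + 1) : ℕ) : ℝ) - (N.descFactorial (k + 1) : ℕ)| ≤
      (k + 1 : ℝ) * (e * (1 + (N : ℝ)) ^ k) := by
  rcases Nat.le_one_iff_eq_zero_or_eq_one.1 he with rfl | rfl
  · simp
  rcases N with _ | N
  · simp only [Nat.zero_sub, sub_self, abs_zero]
    positivity
  rw [Nat.add_sub_cancel, Nat.succ_descFactorial_succ, Nat.descFactorial_succ]
  have h1 : ((N.descFactorial k : ℕ) : ℝ) ≤ (1 + ((N + 1 : ℕ) : ℝ)) ^ k := by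
    have h2 : ((N.descFactorial k : ℕ) : ℝ) ≤ (N : ℝ) ^ k := by
      exact_mod_cast Nat.descFactorial_le_pow N k
    refine h2.trans (pow_le_pow_left₀ (Nat.cast_nonneg N) ?_ k)
    push_cast
    linarith
  have h3 : (0 : ℝ) ≤ (N.descFactorial k : ℕ) := Nat.cast_nonneg _
  have h4 : ((N - k : ℕ) : ℝ) ≤ N := by exact_mod_cast Nat.sub_le N k
  have h5 : (N : ℝ) ≤ ((N - k : ℕ) : ℝ) + k := by exact_mod_cast (by omega : N ≤ N - k + k)
  have h6 : (0 : ℝ) ≤ k := Nat.cast_nonneg k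
  rw [Nat.cast_mul, Nat.cast_mul, ← sub_mul, abs_mul, abs_of_nonneg h3, Nat.cast_one, one_mul]
  refine mul_le_mul ?_ h1 h3 (by positivity)
  rw [abs_le]
  push_cast
  constructor <;> linarith

theorem pair_excl {D : ℕ} (hD : 0 < D) (X r : ℕ) {u : ℤ → ℝ} (hu : ∀ d, |u d| ≤ 1) (f : ℤ → ℝ) :
    |∑ n ∈ Icc (1 : ℤ) X, f n * Dl D X r u n - Pair D X r u (cs X f)| ≤
      r * √(D * nn X f * Mo D X (2 * r)) := by
  have h1 : ∑ n ∈ Icc (1 : ℤ) X, f n * Dl D X r u n - Pair D X r u (cs X f) =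
      ∑ n ∈ Icc (1 : ℤ) X, ∑ d ∈ Ico (D : ℤ) (2 * D), f n * u d *
        ((((Nc X d n - e1 X n).descFactorial r : ℕ) : ℝ) - ((Nc X d n).descFactorial r : ℕ)) := by
    unfold Pair
    rw [← pairb_group hD X f (fun d N => u d * ((N.descFactorial r : ℕ) : ℝ)),
      ← Finset.sum_sub_distrib]
    refine Finset.sum_congr rfl fun n hn => ?_
    rw [Dl_eq hD X r u hn, Finset.mul_sum, ← Finset.sum_sub_distrib]
    refine Finset.sum_congr rfl fun d _ => ?_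
    ring
  rw [h1]
  rcases r with _ | k
  · simp
  have h2 : |∑ n ∈ Icc (1 : ℤ) X, ∑ d ∈ Ico (D : ℤ) (2 * D), f n * u d *
        ((((Nc X d n - e1 X n).descFactorial (k + 1) : ℕ) : ℝ) -
          ((Nc X d n).descFactorial (k + 1) : ℕ))| ≤
      (k + 1 : ℝ) * ∑ x ∈ Icc (1 : ℤ) X ×ˢ Ico (D : ℤ) (2 * D),
        |f x.1| * (pi1 X x.1 * (1 + (Nc X x.2 x.1 : ℝ)) ^ k) := by
    rw [Finset.sum_product, Finset.mul_sum]
    refine (Finset.abs_sum_le_sum_abs _ _).trans (Finset.sum_le_sum fun n _ => ?_)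
    rw [Finset.mul_sum]
    refine (Finset.abs_sum_le_sum_abs _ _).trans (Finset.sum_le_sum fun d _ => ?_)
    rw [abs_mul, abs_mul]
    have h3 := pairb_diff (Nc X d n) (e1 X n) k (e1_le X n)
    have h4 : |f n| * |u d| ≤ |f n| := mul_le_of_le_one_right (abs_nonneg _) (hu d)
    refine (mul_le_mul h4 h3 (abs_nonneg _) (abs_nonneg _)).trans (le_of_eq ?_)
    unfold pi1
    ring
  have h5 : ∑ x ∈ Icc (1 : ℤ) X ×ˢ Ico (D : ℤ) (2 * D), |f x.1| ^ 2 = D * nn X f := by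
    rw [Finset.sum_product, nn, Finset.mul_sum]
    refine Finset.sum_congr rfl fun n _ => ?_
    simp only [Finset.sum_const, nsmul_eq_mul, sq_abs]
    rw [Int.card_Ico, show 2 * (D : ℤ) - D = D by ring, Int.toNat_natCast]
  have h6 : ∑ x ∈ Icc (1 : ℤ) X ×ˢ Ico (D : ℤ) (2 * D),
      (pi1 X x.1 * (1 + (Nc X x.2 x.1 : ℝ)) ^ k) ^ 2 ≤ Mo D X (2 * (k + 1)) := by
    have h7 : ∑ x ∈ Icc (1 : ℤ) X ×ˢ Ico (D : ℤ) (2 * D),
        (pi1 X x.1 * (1 + (Nc X x.2 x.1 : ℝ)) ^ k) ^ 2 =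
        ∑ n ∈ Icc (1 : ℤ) X, ∑ d ∈ Ico (D : ℤ) (2 * D),
          pi1 X n * (1 + (Nc X d n : ℝ)) ^ (2 * k) := by
      rw [Finset.sum_product]
      refine Finset.sum_congr rfl fun n _ => Finset.sum_congr rfl fun d _ => ?_
      have h8 : pi1 X n ^ 2 = pi1 X n := by
        rw [pi1_eq]
        split_ifs <;> simp
      rw [mul_pow, h8, ← pow_mul, mul_comm k 2]
    rw [h7, pairb_group hD X (pi1 X) (fun _ N => (1 + (N : ℝ)) ^ (2 * k))]
    refine SC_mono D fun d a => ?_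
    rw [cs_pi1]
    have h9 : (0 : ℝ) ≤ Nc X d a := Nat.cast_nonneg _
    rw [show 2 * (k + 1) = 2 * k + 2 by ring, pow_add]
    exact mul_le_mul_of_nonneg_left (by nlinarith) (by positivity)
  refine h2.trans ?_
  push_cast
  refine mul_le_mul_of_nonneg_left ?_ (by positivity)
  refine (Real.sum_mul_le_sqrt_mul_sqrt _ _ _).trans ?_
  rw [h5, Real.sqrt_mul (mul_nonneg (Nat.cast_nonneg D) (nn_nonneg X f))]
  exact mul_le_mul_of_nonneg_left (Real.sqrt_le_sqrt h6) (Real.sqrt_nonneg _)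

lemma pairb_SC_cs (D : ℕ) (F G : ℤ → ℤ → ℝ) :
    SC D (fun d a => F d a * G d a) ≤
      √(SC D (fun d a => F d a ^ 2)) * √(SC D (fun d a => G d a ^ 2)) := by
  unfold SC
  rw [Finset.sum_sigma', Finset.sum_sigma', Finset.sum_sigma']
  exact Real.sum_mul_le_sqrt_mul_sqrt _ _ _

theorem pair_cs (D X r : ℕ) {u : ℤ → ℝ} (hu : ∀ d, |u d| ≤ 1) (F : ℤ → ℤ → ℝ) :
    |Pair D X r u F| ≤ √(Mo D X (2 * r)) * √(SC D (fun d a => F d a ^ 2)) := by
  have h1 : |Pair D X r u F| ≤ SC D (fun d a => (1 + (Nc X d a : ℝ)) ^ r * |F d a|) := by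
    unfold Pair SC
    refine (Finset.abs_sum_le_sum_abs _ _).trans (Finset.sum_le_sum fun d _ => ?_)
    refine (Finset.abs_sum_le_sum_abs _ _).trans (Finset.sum_le_sum fun a _ => ?_)
    rw [abs_mul, abs_mul]
    refine mul_le_mul_of_nonneg_right ?_ (abs_nonneg _)
    have h2 : (((Nc X d a).descFactorial r : ℕ) : ℝ) ≤ (Nc X d a : ℝ) ^ r := by
      exact_mod_cast Nat.descFactorial_le_pow _ r
    have h3 : (Nc X d a : ℝ) ^ r ≤ (1 + (Nc X d a : ℝ)) ^ r :=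
      pow_le_pow_left₀ (Nat.cast_nonneg _) (by linarith) r
    rw [Nat.abs_cast]
    exact (mul_le_of_le_one_left (Nat.cast_nonneg _) (hu d)).trans (h2.trans h3)
  refine h1.trans ((pairb_SC_cs D _ _).trans (le_of_eq ?_))
  unfold Mo
  simp only [sq_abs, ← pow_mul, mul_comm r 2]

end Pool.Agent.Lib.MP_458f0b_nt.Grow
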