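import Mathlib

/-! Polynomial upper bounds for Dirichlet L-functions near the line of ones. -/

open Finset Filter Topology Complex DirichletCharacter MeasureTheory

namespace Pool.Agent.Lib.MP_458f0b_nt.Grow.SW

variable {q : ℕ} [NeZero q]

open scoped Classical in
/-- the L-function with its pole removed -/
noncomputable def Zf (χ : DirichletCharacter ℂ q) : ℂ → ℂ :=
  if χ = 1 then LFunctionTrivChar₁ q else LFunction χ

/-- sums of the values -/
noncomputable def Sm (χ : DirichletCharacter ℂ q) (n : ℕ) : ℂ := ∑ k ∈ Icc 1 n, χ k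

/-- mean value -/
noncomputable def rho (χ : DirichletCharacter ℂ q) : ℂ := Sm χ q / q

lemma Zf_one : Zf (1 : DirichletCharacter ℂ q) = LFunctionTrivChar₁ q := if_pos rfl

lemma Zf_ne {χ : DirichletCharacter ℂ q} (h : χ ≠ 1) : Zf χ = LFunction χ := if_neg h

lemma Zf_diff (χ : DirichletCharacter ℂ q) : Differentiable ℂ (Zf χ) := by
  by_cases h : χ = 1
  · rw [h, Zf_one]; exact differentiable_LFunctionTrivChar₁ q
  · rw [Zf_ne h]; exact differentiable_LFunction h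

lemma Zf_one_apply {s : ℂ} (hs : s ≠ 1) :
    Zf (1 : DirichletCharacter ℂ q) s = (s - 1) * LFunction (1 : DirichletCharacter ℂ q) s := by
  rw [Zf_one]
  exact Function.update_of_ne hs _ _

omit [NeZero q] in
lemma Sm_succ (χ : DirichletCharacter ℂ q) (n : ℕ) :
    Sm χ (n + 1) = Sm χ n + χ ((n + 1 : ℕ) : ZMod q) :=
  Finset.sum_Icc_succ_top (by omega) _

omit [NeZero q] in
lemma norm_Sm_le (χ : DirichletCharacter ℂ q) (n : ℕ) : ‖Sm χ n‖ ≤ n := by
  refine (norm_sum_le _ _).trans ?_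
  refine (Finset.sum_le_card_nsmul _ _ 1 fun k _ => χ.norm_le_one _).trans ?_
  simp

omit [NeZero q] in
lemma Sm_add (χ : DirichletCharacter ℂ q) (n : ℕ) : Sm χ (n + q) = Sm χ n + Sm χ q := by
  induction n with
  | zero => simp [Sm]
  | succ n ih =>
    rw [show n + 1 + q = n + q + 1 by ring, Sm_succ, ih, Sm_succ]
    have : ((n + q + 1 : ℕ) : ZMod q) = ((n + 1 : ℕ) : ZMod q) := by simp
    rw [this]; ring

lemma q_pos : (0 : ℝ) < q := by exact_mod_cast NeZero.pos q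

lemma one_le_q : (1 : ℝ) ≤ q := by exact_mod_cast NeZero.pos q

lemma norm_rho_le (χ : DirichletCharacter ℂ q) : ‖rho χ‖ ≤ 1 := by
  rw [rho, norm_div, Complex.norm_natCast, div_le_one q_pos]
  exact norm_Sm_le χ q

lemma norm_Sm_sub (χ : DirichletCharacter ℂ q) (n : ℕ) : ‖Sm χ n - rho χ * n‖ ≤ 2 * q := by
  induction n using Nat.strong_induction_on with
  | _ n ih =>
    rcases lt_or_ge n q with h | h
    · have h1 : (n : ℝ) ≤ q := by exact_mod_cast h.le
      have h2 : ‖rho χ * n‖ ≤ n := by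
        rw [norm_mul, Complex.norm_natCast]
        exact mul_le_of_le_one_left (Nat.cast_nonneg n) (norm_rho_le χ)
      linarith [norm_sub_le (Sm χ n) (rho χ * n), norm_Sm_le χ n]
    · obtain ⟨m, rfl⟩ := Nat.exists_eq_add_of_le' h
      have hq : (q : ℂ) ≠ 0 := by exact_mod_cast NeZero.ne q
      have : Sm χ (m + q) - rho χ * ((m + q : ℕ) : ℂ) = Sm χ m - rho χ * m := by
        rw [Sm_add, rho]; push_cast; field_simp; ring
      rw [this]
      exact ih m (by have := NeZero.pos q; omega)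

lemma rho_ne {χ : DirichletCharacter ℂ q} (h : χ ≠ 1) : rho χ = 0 := by
  have h1 : Sm χ q = ∑ k ∈ range q, χ k := by
    have h2 : ∑ k ∈ range (q + 1), χ k = χ ((0 : ℕ) : ZMod q) + Sm χ q := by
      rw [Sm, Finset.range_eq_Ico, Finset.sum_eq_sum_Ico_succ_bot (by omega)]
      rfl
    rw [Finset.sum_range_succ] at h2
    simp only [CharP.cast_eq_zero, Nat.cast_zero] at h2
    linear_combination -h2
  have h3 : ∑ k ∈ range q, χ k = ∑ x : ZMod q, χ x := by
    refine Finset.sum_nbij' (fun k => (k : ZMod q)) (fun x => x.val) (fun _ _ => mem_univ _)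
      (fun x _ => mem_range.2 (ZMod.val_lt x)) (fun k hk => ZMod.val_cast_of_lt (mem_range.1 hk))
      (fun x _ => ZMod.natCast_zmod_val x) fun _ _ => rfl
  rw [rho, h1, h3, χ.sum_eq_zero_of_ne_one h, zero_div]

lemma norm_rho_one : 1 / (q : ℝ) ≤ ‖rho (1 : DirichletCharacter ℂ q)‖ := by
  rw [rho, norm_div, Complex.norm_natCast]
  refine div_le_div_of_nonneg_right (le_trans ?_ (Complex.re_le_norm _)) q_pos.le
  rw [Sm, Complex.re_sum]
  have h := Finset.single_le_sum (s := Icc 1 q)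
    (f := fun k : ℕ => ((1 : DirichletCharacter ℂ q) k).re) (fun k _ => by
      by_cases hk : IsUnit (k : ZMod q)
      · simp [MulChar.one_apply hk]
      · simp [MulChar.map_nonunit _ hk]) (a := 1) (mem_Icc.2 ⟨le_rfl, NeZero.pos q⟩)
  simpa using h

/-- the remainder -/
noncomputable def Rm (χ : DirichletCharacter ℂ q) : ℝ → ℂ :=
  (Set.Ioi (1 : ℝ)).indicator fun t => Sm χ ⌊t⌋₊ - rho χ * t

lemma norm_Rm_le (χ : DirichletCharacter ℂ q) (t : ℝ) : ‖Rm χ t‖ ≤ 3 * q := by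
  unfold Rm
  by_cases ht : t ∈ Set.Ioi (1 : ℝ)
  · rw [Set.indicator_of_mem ht]
    have ht0 : (0 : ℝ) ≤ t := zero_le_one.trans (le_of_lt ht)
    have e : Sm χ ⌊t⌋₊ - rho χ * t =
        (Sm χ ⌊t⌋₊ - rho χ * (⌊t⌋₊ : ℕ)) - rho χ * ((t - (⌊t⌋₊ : ℕ) : ℝ) : ℂ) := by
      push_cast; ring
    have h2 : ‖rho χ * ((t - (⌊t⌋₊ : ℕ) : ℝ) : ℂ)‖ ≤ 1 := by
      rw [norm_mul, Complex.norm_real, Real.norm_eq_abs]
      refine mul_le_one₀ (norm_rho_le χ) (abs_nonneg _) (abs_le.2 ⟨?_, ?_⟩)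
      · linarith [Nat.floor_le ht0]
      · linarith [Nat.lt_floor_add_one t]
    rw [e]
    linarith [norm_sub_le (Sm χ ⌊t⌋₊ - rho χ * (⌊t⌋₊ : ℕ)) (rho χ * ((t - (⌊t⌋₊ : ℕ) : ℝ) : ℂ)),
      norm_Sm_sub χ ⌊t⌋₊, one_le_q (q := q)]
  · rw [Set.indicator_of_notMem ht, norm_zero]; positivity

omit [NeZero q] in
lemma meas_Rm (χ : DirichletCharacter ℂ q) : Measurable (Rm χ) := by
  refine Measurable.indicator (Measurable.sub ?_ (by fun_prop)) measurableSet_Ioi
  exact (measurable_from_top (f := Sm χ)).comp Nat.measurable_floor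

/-- the integral of the remainder -/
noncomputable def Ef (χ : DirichletCharacter ℂ q) (s : ℂ) : ℂ := mellin (Rm χ) (-s)

omit [NeZero q] in
lemma Ef_eq (χ : DirichletCharacter ℂ q) (s : ℂ) :
    Ef χ s = ∫ t in Set.Ioi (1 : ℝ), (Sm χ ⌊t⌋₊ - rho χ * t) * (t : ℂ) ^ (-(s + 1)) := by
  have h1 : (fun t : ℝ => (t : ℂ) ^ (-s - 1) • Rm χ t) = (Set.Ioi (1 : ℝ)).indicator
      fun t => (Sm χ ⌊t⌋₊ - rho χ * t) * (t : ℂ) ^ (-(s + 1)) := by
    funext t
    unfold Rm
    by_cases ht : t ∈ Set.Ioi (1 : ℝ)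
    · rw [Set.indicator_of_mem ht, Set.indicator_of_mem ht, smul_eq_mul, mul_comm]
      congr 2; ring
    · rw [Set.indicator_of_notMem ht, Set.indicator_of_notMem ht, smul_zero]
  rw [Ef, mellin, h1, setIntegral_indicator measurableSet_Ioi, Set.Ioi_inter_Ioi]
  norm_num

lemma Ef_diff (χ : DirichletCharacter ℂ q) {s : ℂ} (hs : 0 < s.re) :
    DifferentiableAt ℂ (Ef χ) s := by
  have h : DifferentiableAt ℂ (mellin (Rm χ)) (-s) := by
    refine mellin_differentiableAt_of_isBigO_rpow (a := 0) (b := -s.re - 1) ?_ ?_ (by simpa) ?_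
      (by simp)
    · refine LocallyIntegrable.locallyIntegrableOn (fun x => ⟨Metric.ball x 1,
        Metric.ball_mem_nhds x one_pos, ?_⟩) _
      exact Measure.integrableOn_of_bounded measure_ball_lt_top.ne
        (meas_Rm χ).aestronglyMeasurable (Eventually.of_forall (norm_Rm_le χ))
    · refine Asymptotics.IsBigO.of_bound (3 * q) (Eventually.of_forall fun t => ?_)
      simpa using norm_Rm_le χ t
    · refine Asymptotics.IsBigO.of_bound 0 ?_
      filter_upwards [Ioo_mem_nhdsGT (show (0 : ℝ) < 1 by norm_num)] with t ht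
      rw [Rm, Set.indicator_of_notMem (by simpa using ht.2.le)]
      simp
  exact h.comp s differentiableAt_id.neg

lemma norm_Ef_le (χ : DirichletCharacter ℂ q) {s : ℂ} (hs : 1 / 2 ≤ s.re) :
    ‖Ef χ s‖ ≤ 6 * q := by
  rw [Ef_eq]
  have hi := integrableOn_Ioi_rpow_of_lt (show (-3 / 2 : ℝ) < -1 by norm_num) one_pos
  refine (norm_integral_le_of_norm_le (hi.const_mul (3 * q)) ?_).trans ?_
  · filter_upwards [ae_restrict_mem measurableSet_Ioi] with t ht
    have ht1 : (1 : ℝ) < t := ht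
    have h1 := norm_Rm_le χ t
    rw [Rm, Set.indicator_of_mem ht] at h1
    rw [norm_mul, Complex.norm_cpow_eq_rpow_re_of_pos (by linarith)]
    refine mul_le_mul h1 (Real.rpow_le_rpow_of_exponent_le ht1.le ?_) (by positivity)
      (by positivity)
    simp only [neg_re, add_re, one_re]
    linarith
  · rw [integral_const_mul, integral_Ioi_rpow_of_lt (by norm_num) one_pos]
    norm_num
    linarith

lemma L_eq (χ : DirichletCharacter ℂ q) {s : ℂ} (hs : 1 < s.re) :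
    (s - 1) * LFunction χ s = (s - 1) * (s * Ef χ s) + rho χ * s := by
  have hs1 : s - 1 ≠ 0 := fun h => by
    have := congrArg Complex.re h
    simp only [sub_re, one_re, zero_re] at this
    linarith
  have hO : (fun n : ℕ => ∑ k ∈ Icc 1 n, χ k) =O[atTop] fun n : ℕ => (n : ℝ) ^ (1 : ℝ) := by
    refine Asymptotics.IsBigO.of_bound 1 (Eventually.of_forall fun n => ?_)
    simpa [Sm] using norm_Sm_le χ n
  have h1 := LSeries_eq_mul_integral (fun n : ℕ => χ n) zero_le_one hs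
    (LSeriesSummable_of_one_lt_re χ hs) hO
  have hneg : (-s).re < -1 := by simpa using hs
  have h2 : ∀ t ∈ Set.Ioi (1 : ℝ), (t : ℂ) * (t : ℂ) ^ (-(s + 1)) = (t : ℂ) ^ (-s) := by
    intro t ht
    have ht0 : (t : ℂ) ≠ 0 := by
      have : (1 : ℝ) < t := ht
      exact_mod_cast (by linarith : t ≠ 0)
    rw [show -s = 1 + -(s + 1) by ring, Complex.cpow_add _ _ ht0, Complex.cpow_one]
  have i1 : IntegrableOn (fun t : ℝ => rho χ * (t : ℂ) ^ (-s)) (Set.Ioi 1) :=
    (integrableOn_Ioi_cpow_of_lt hneg one_pos).const_mul _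
  have i2 : IntegrableOn (fun t : ℝ => Rm χ t * (t : ℂ) ^ (-(s + 1))) (Set.Ioi 1) :=
    Integrable.bdd_mul (c := 3 * q)
      (integrableOn_Ioi_cpow_of_lt (by simp only [neg_re, add_re, one_re]; linarith) one_pos)
      (meas_Rm χ).aestronglyMeasurable (Eventually.of_forall (norm_Rm_le χ))
  have h3 : ∫ t in Set.Ioi (1 : ℝ), (∑ k ∈ Icc 1 ⌊t⌋₊, χ k) * (t : ℂ) ^ (-(s + 1)) =
      Ef χ s + rho χ * (1 / (s - 1)) := by
    have e1 : Ef χ s = ∫ t in Set.Ioi (1 : ℝ), Rm χ t * (t : ℂ) ^ (-(s + 1)) := by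
      rw [Ef_eq]
      exact setIntegral_congr_fun measurableSet_Ioi fun t ht => by
        simp only [Rm, Set.indicator_of_mem ht]
    have e2 : rho χ * (1 / (s - 1)) = ∫ t in Set.Ioi (1 : ℝ), rho χ * (t : ℂ) ^ (-s) := by
      rw [integral_const_mul, integral_Ioi_cpow_of_lt hneg one_pos]
      congr 1
      have : -s + 1 ≠ 0 := fun h => hs1 (by linear_combination -h)
      simp only [ofReal_one, one_cpow]
      field_simp
      ring
    rw [e1, e2, ← integral_add i2 i1]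
    refine setIntegral_congr_fun measurableSet_Ioi fun t ht => ?_
    simp only [Rm, Set.indicator_of_mem ht, ← h2 t ht, Sm]
    ring
  rw [LFunction_eq_LSeries χ hs, h1, h3]
  field_simp

lemma ext_half {f g : ℂ → ℂ} (hf : Differentiable ℂ f)
    (hg : ∀ s : ℂ, 0 < s.re → DifferentiableAt ℂ g s) (h : ∀ s : ℂ, 1 < s.re → f s = g s)
    {s : ℂ} (hs : 0 < s.re) : f s = g s := by
  have ho : IsOpen {s : ℂ | 0 < s.re} := isOpen_lt continuous_const continuous_re
  have h1 : AnalyticOnNhd ℂ f {s : ℂ | 0 < s.re} := hf.differentiableOn.analyticOnNhd ho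
  have h2 : AnalyticOnNhd ℂ g {s : ℂ | 0 < s.re} :=
    DifferentiableOn.analyticOnNhd (fun z hz => (hg z hz).differentiableWithinAt) ho
  refine h1.eqOn_of_preconnected_of_eventuallyEq h2 (convex_halfSpace_re_gt 0).isPreconnected
    (z₀ := 2) (by simp) ?_ hs
  filter_upwards [(isOpen_lt continuous_const continuous_re).mem_nhds
    (show (1 : ℝ) < (2 : ℂ).re by simp)] with z hz
  exact h z hz

lemma Zf_one_eq {s : ℂ} (hs : 0 < s.re) : Zf (1 : DirichletCharacter ℂ q) s =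
    (s - 1) * (s * Ef (1 : DirichletCharacter ℂ q) s) + rho (1 : DirichletCharacter ℂ q) * s := by
  refine ext_half (g := fun s => (s - 1) * (s * Ef (1 : DirichletCharacter ℂ q) s) +
    rho (1 : DirichletCharacter ℂ q) * s) (Zf_diff _) (fun z hz => ?_) (fun z hz => ?_) hs
  · have := Ef_diff (1 : DirichletCharacter ℂ q) hz
    fun_prop
  · rw [Zf_one_apply (fun h => by simp [h] at hz), L_eq _ hz]

lemma Zf_ne_eq {χ : DirichletCharacter ℂ q} (h : χ ≠ 1) {s : ℂ} (hs : 0 < s.re) :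
    Zf χ s = s * Ef χ s := by
  refine ext_half (g := fun s => s * Ef χ s) (Zf_diff _) (fun z hz => ?_) (fun z hz => ?_) hs
  · have := Ef_diff χ hz
    fun_prop
  · have h1 := L_eq χ hz
    rw [rho_ne h, zero_mul, add_zero] at h1
    rw [Zf_ne h]
    exact mul_left_cancel₀ (sub_ne_zero.2 fun h => by simp [h] at hz) h1

lemma norm_Zf_one_one : 1 / (q : ℝ) ≤ ‖Zf (1 : DirichletCharacter ℂ q) 1‖ := by
  rw [Zf_one_eq (by simp)]
  simpa using norm_rho_one (q := q)

lemma norm_Zf_le (χ : DirichletCharacter ℂ q) {s : ℂ} (hs : 1 / 2 ≤ s.re) :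
    ‖Zf χ s‖ ≤ 7 * q * (‖s‖ + 1) ^ 2 := by
  have h0 : 0 < s.re := by linarith
  have hq := one_le_q (q := q)
  have hn := norm_nonneg s
  have h1 : ‖s * Ef χ s‖ ≤ ‖s‖ * (6 * q) := by
    rw [norm_mul]; exact mul_le_mul_of_nonneg_left (norm_Ef_le χ hs) hn
  by_cases h : χ = 1
  · subst h
    rw [Zf_one_eq h0]
    have h2 : ‖s - 1‖ ≤ ‖s‖ + 1 := by simpa using norm_sub_le s 1
    have h3 : ‖rho (1 : DirichletCharacter ℂ q) * s‖ ≤ ‖s‖ := by
      rw [norm_mul]; exact mul_le_of_le_one_left hn (norm_rho_le _)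
    have h4 : ‖(s - 1) * (s * Ef (1 : DirichletCharacter ℂ q) s)‖ ≤
        (‖s‖ + 1) * (‖s‖ * (6 * q)) := by
      rw [norm_mul]; exact mul_le_mul h2 h1 (norm_nonneg _) (by positivity)
    refine (norm_add_le _ _).trans ?_
    nlinarith [mul_nonneg hn (sub_nonneg.2 hq), mul_nonneg (mul_nonneg hn hn) (sub_nonneg.2 hq),
      mul_nonneg hn hn]
  · rw [Zf_ne_eq h h0]
    nlinarith [mul_nonneg hn (sub_nonneg.2 hq), mul_nonneg (mul_nonneg hn hn) (sub_nonneg.2 hq),
      mul_nonneg hn hn]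

lemma cauchy_step {f : ℂ → ℂ} (hf : Differentiable ℂ f) {a C b : ℝ} (hC : 0 ≤ C) (hb : 0 ≤ b)
    (h : ∀ s : ℂ, a ≤ s.re → ‖f s‖ ≤ C * (‖s‖ + b) ^ 2) {s : ℂ} (hs : a + 1 / 4 ≤ s.re) :
    ‖deriv f s‖ ≤ 4 * C * (‖s‖ + (b + 1)) ^ 2 := by
  have h1 := Complex.norm_deriv_le_of_forall_mem_sphere_norm_le (c := s) (R := 1 / 4)
    (C := C * (‖s‖ + (b + 1)) ^ 2) (by norm_num) hf.diffContOnCl fun z hz => by
      have h2 : ‖z - s‖ = 1 / 4 := mem_sphere_iff_norm.1 hz
      have h3 : |(z - s).re| ≤ 1 / 4 := h2 ▸ Complex.abs_re_le_norm _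
      rw [sub_re, abs_le] at h3
      refine (h z (by linarith [h3.1])).trans ?_
      have h4 : ‖z‖ ≤ ‖s‖ + 1 := by linarith [norm_le_norm_add_norm_sub' z s]
      exact mul_le_mul_of_nonneg_left (pow_le_pow_left₀ (by positivity) (by linarith) 2) hC
  linarith

/-- the three upper bounds -/
theorem upper (χ : DirichletCharacter ℂ q) {s : ℂ} (hs : 1 ≤ s.re) :
    ‖Zf χ s‖ ≤ 112 * q * (‖s‖ + 3) ^ 2 ∧ ‖deriv (Zf χ) s‖ ≤ 112 * q * (‖s‖ + 3) ^ 2 ∧
      ‖deriv (deriv (Zf χ)) s‖ ≤ 112 * q * (‖s‖ + 3) ^ 2 := by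
  have hq := q_pos (q := q)
  have hn := norm_nonneg s
  have h1 : ∀ z : ℂ, 1 / 2 + 1 / 4 ≤ z.re →
      ‖deriv (Zf χ) z‖ ≤ 4 * (7 * q) * (‖z‖ + (1 + 1)) ^ 2 := fun z hz =>
    cauchy_step (Zf_diff χ) (by positivity) zero_le_one (fun z hz => norm_Zf_le χ hz) hz
  have h2 := cauchy_step (Zf_diff χ).deriv (by positivity) (by norm_num) h1 (s := s)
    (by linarith)
  refine ⟨(norm_Zf_le χ (by linarith)).trans ?_, (h1 s (by linarith)).trans ?_, h2.trans_eq ?_⟩
  · gcongr <;> norm_num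
  · have : (‖s‖ + (1 + 1)) ^ 2 ≤ (‖s‖ + 3) ^ 2 := by gcongr; norm_num
    nlinarith [sq_nonneg (‖s‖ + 3)]
  · ring

end Pool.Agent.Lib.MP_458f0b_nt.Grow.SW
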