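import Pool.Agent.Lib.MP_458f0b_nt.Grow.SW1

/-! A lower bound for the value at one of the L-function of a quadratic character. -/

open Finset Filter Topology Complex DirichletCharacter

namespace Pool.Agent.Lib.MP_458f0b_nt.Grow.SW

lemma abel_low {a c : ℕ → ℝ} {B : ℝ} (hS : ∀ n, -B ≤ ∑ i ∈ range n, a i)
    (hc : ∀ n, c (n + 1) ≤ c n) (h0 : ∀ n, 0 ≤ c n) (n : ℕ) :
    -(B * c 0) ≤ ∑ i ∈ range n, a i * c i := by
  have key : ∀ n, -(B * (c 0 - c n)) ≤ ∑ i ∈ range n, a i * c i - (∑ i ∈ range n, a i) * c n := by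
    intro n
    induction n with
    | zero => simp
    | succ n ih =>
      have h1 := mul_le_mul_of_nonneg_right (hS (n + 1)) (sub_nonneg.2 (hc n))
      rw [sum_range_succ] at h1
      rw [sum_range_succ, sum_range_succ]
      nlinarith
  have h1 := mul_le_mul_of_nonneg_right (hS n) (h0 n)
  have h2 := key n
  nlinarith

lemma geom_low (w : ℝ) (m : ℕ) :
    (m + 1 : ℝ) * w ^ m ≤ ∑ i ∈ range (m + 1), (w ^ 2) ^ i := by
  have h1 := Finset.sum_range_reflect (fun i => (w ^ 2) ^ i) (m + 1)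
  have h2 : ∑ _i ∈ range (m + 1), 2 * w ^ m ≤
      ∑ i ∈ range (m + 1), ((w ^ 2) ^ (m + 1 - 1 - i) + (w ^ 2) ^ i) := by
    refine sum_le_sum fun i hi => ?_
    obtain ⟨j, rfl⟩ := Nat.exists_eq_add_of_le (Nat.lt_succ_iff.1 (mem_range.1 hi))
    rw [show i + j + 1 - 1 - i = j by omega, ← pow_mul, ← pow_mul, mul_comm 2 j, mul_comm 2 i,
      pow_mul, pow_mul, pow_add]
    nlinarith [sq_nonneg (w ^ i - w ^ j)]
  rw [sum_add_distrib, h1, sum_const, card_range, nsmul_eq_mul] at h2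
  push_cast at h2
  linarith

/-- the monotone weights -/
noncomputable def ew (z : ℝ) (n : ℕ) : ℝ :=
  1 / (n + 1 : ℝ) - z ^ (n + 1) / ∑ i ∈ range (n + 1), z ^ i

lemma geo_pos {z : ℝ} (hz : 0 < z) (n : ℕ) : 0 < ∑ i ∈ range (n + 1), z ^ i :=
  sum_pos (fun _ _ => pow_pos hz _) (by simp)

lemma ew_nonneg {z : ℝ} (hz : 0 < z) (hz1 : z < 1) (n : ℕ) : 0 ≤ ew z n := by
  rw [ew, sub_nonneg, div_le_div_iff₀ (geo_pos hz n) (by positivity), one_mul]
  have h := Finset.card_nsmul_le_sum (range (n + 1)) (fun i => z ^ i) (z ^ (n + 1))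
    fun i hi => pow_le_pow_of_le_one hz.le hz1.le (mem_range.1 hi).le
  rw [card_range, nsmul_eq_mul] at h
  push_cast at h
  linarith

lemma ew_anti {z : ℝ} (hz : 0 < z) (hz1 : z < 1) (n : ℕ) : ew z (n + 1) ≤ ew z n := by
  obtain ⟨w, hw, rfl⟩ : ∃ w : ℝ, 0 < w ∧ z = w ^ 2 :=
    ⟨√z, Real.sqrt_pos.2 hz, (Real.sq_sqrt hz.le).symm⟩
  have hw1 : w ≤ 1 := by nlinarith
  have h1 := geom_low w n
  have h2 := geom_low w (n + 1)
  have p1 := geo_pos hz n
  have p2 := geo_pos hz (n + 1)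
  have e : ∑ i ∈ range (n + 1 + 1), (w ^ 2) ^ i = w ^ 2 * ∑ i ∈ range (n + 1), (w ^ 2) ^ i + 1 :=
    geom_sum_succ
  unfold ew
  set g := ∑ i ∈ range (n + 1), (w ^ 2) ^ i
  set g' := ∑ i ∈ range (n + 1 + 1), (w ^ 2) ^ i
  push_cast at h2 ⊢
  have h3 : (n + 1 : ℝ) * (n + 1 + 1) * (w ^ 2) ^ (n + 1) ≤ g * g' := by
    have h4 := mul_le_mul h1 h2 (by positivity) p1.le
    have h5 : (w ^ 2) ^ (n + 1) ≤ w ^ n * w ^ (n + 1) := by
      rw [← pow_mul, ← pow_add]
      exact pow_le_pow_of_le_one hw.le hw1 (by omega)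
    refine le_trans ?_ h4
    calc _ ≤ (n + 1 : ℝ) * (n + 1 + 1) * (w ^ n * w ^ (n + 1)) := by gcongr
      _ = _ := by ring
  have e1 : (w ^ 2) ^ (n + 1) / g - (w ^ 2) ^ (n + 1 + 1) / g' = (w ^ 2) ^ (n + 1) / (g * g') := by
    rw [div_sub_div _ _ p1.ne' p2.ne', e]
    congr 1
    ring
  have e2 : 1 / (n + 1 : ℝ) - 1 / (n + 1 + 1) = 1 / ((n + 1 : ℝ) * (n + 1 + 1)) := by
    field_simp
    ring
  have h6 : (w ^ 2) ^ (n + 1) / (g * g') ≤ 1 / ((n + 1 : ℝ) * (n + 1 + 1)) := by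
    rw [div_le_div_iff₀ (mul_pos p1 p2) (by positivity)]
    linarith
  linarith

lemma lambert (z : ℝ) (d N : ℕ) :
    (1 - z ^ d) * ∑ m ∈ Icc 1 N, (if d ∣ m then z ^ m else 0) = z ^ d - z ^ (d * (N / d + 1)) := by
  induction N with
  | zero => simp
  | succ N ih =>
    rw [Finset.sum_Icc_succ_top (by omega), mul_add, ih, Nat.succ_div]
    split_ifs with h
    · have e : d * (N / d + 1) = N + 1 := by
        have h1 := Nat.mul_div_cancel' h
        rwa [Nat.succ_div, if_pos h] at h1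
      rw [mul_add d (N / d + 1) 1, e, mul_one, pow_add z (N + 1) d]
      ring
    · simp

lemma lambert_err {z : ℝ} (hz : 0 < z) (hz1 : z < 1) (n N : ℕ) :
    |z ^ (n + 1) / ∑ i ∈ range (n + 1), z ^ i -
      (1 - z) * ∑ m ∈ Icc 1 N, (if n + 1 ∣ m then z ^ m else 0)| ≤ z ^ N := by
  have p1 := geo_pos hz n
  have h1 := lambert z (n + 1) N
  have h2 : (1 - z) * ∑ i ∈ range (n + 1), z ^ i = 1 - z ^ (n + 1) := mul_neg_geom_sum z _
  have h3 : 1 ≤ ∑ i ∈ range (n + 1), z ^ i := by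
    rw [geom_sum_succ]
    have : 0 ≤ z * ∑ i ∈ range n, z ^ i := by positivity
    linarith
  have h4 : z ^ ((n + 1) * (N / (n + 1) + 1)) ≤ z ^ N :=
    pow_le_pow_of_le_one hz.le hz1.le (Nat.lt_mul_div_succ N (Nat.succ_pos n)).le
  have e : z ^ (n + 1) / ∑ i ∈ range (n + 1), z ^ i -
      (1 - z) * ∑ m ∈ Icc 1 N, (if n + 1 ∣ m then z ^ m else 0) =
      z ^ ((n + 1) * (N / (n + 1) + 1)) / ∑ i ∈ range (n + 1), z ^ i := by
    rw [eq_div_iff p1.ne', sub_mul, div_mul_cancel₀ _ p1.ne']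
    rw [← h2] at h1
    linear_combination -h1
  rw [e, abs_of_nonneg (by positivity)]
  exact (div_le_self (by positivity) h3).trans h4

variable {q : ℕ} [NeZero q] {χ : DirichletCharacter ℂ q}

omit [NeZero q] in
open scoped ComplexOrder in
lemma one_le_zetaMul (hχ : χ ^ 2 = 1) (k : ℕ) (hk : k ≠ 0) : 1 ≤ zetaMul χ (k ^ 2) := by
  induction k using Nat.recOnPosPrimePosCoprime with
  | zero => exact absurd rfl hk
  | one => simp [χ.isMultiplicative_zetaMul.map_one]
  | prime_pow p n hp _ =>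
    have e : zetaMul χ ((p ^ n) ^ 2) = ∑ i ∈ range (n * 2 + 1), χ p ^ i := by
      rw [← pow_mul, zetaMul, ArithmeticFunction.coe_zeta_mul_apply, Nat.sum_divisors_prime_pow hp]
      exact sum_congr rfl fun i _ => by simp [toArithmeticFunction, hp.ne_zero]
    rw [e]
    rcases MulChar.isQuadratic_iff_sq_eq_one.mpr hχ p with h | h | h
    · rw [h, geom_sum_succ, zero_mul, zero_add]
    · rw [h, geom_sum_succ, one_mul, le_add_iff_nonneg_left]
      exact sum_nonneg fun _ _ => pow_nonneg zero_le_one _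
    · rw [h, neg_one_geom_sum, if_neg (by simp)]
  | coprime a b ha hb hab iha ihb =>
    rw [mul_pow, χ.isMultiplicative_zetaMul.map_mul_of_coprime (hab.pow 2 2)]
    exact one_le_mul_of_one_le_of_one_le (iha (by omega)) (ihb (by omega))

omit [NeZero q] in
lemma re_zetaMul {N m : ℕ} (hm : m ∈ Icc 1 N) :
    (zetaMul χ m).re = ∑ n ∈ range N, if n + 1 ∣ m then (χ (n + 1 : ℕ)).re else 0 := by
  rw [mem_Icc] at hm
  rw [zetaMul, ArithmeticFunction.coe_zeta_mul_apply, Complex.re_sum, ← Finset.sum_filter]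
  symm
  refine Finset.sum_nbij' (fun n => n + 1) (fun d => d - 1) (fun n hn => ?_) (fun d hd => ?_)
    (fun n _ => by simp) (fun d hd => ?_) fun n _ => ?_
  · exact Nat.mem_divisors.2 ⟨(mem_filter.1 hn).2, by omega⟩
  · have h1 := Nat.pos_of_mem_divisors hd
    have h2 := Nat.divisor_le hd
    refine mem_filter.2 ⟨mem_range.2 (by omega), ?_⟩
    rw [Nat.sub_add_cancel h1]
    exact Nat.dvd_of_mem_divisors hd
  · exact Nat.sub_add_cancel (Nat.pos_of_mem_divisors hd)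
  · simp [toArithmeticFunction]

lemma re_sum_range (h : χ ≠ 1) (n : ℕ) : |∑ i ∈ range n, (χ (i + 1 : ℕ)).re| ≤ 2 * q := by
  have h1 := norm_Sm_sub χ n
  rw [rho_ne h, zero_mul, sub_zero] at h1
  have h2 : ∀ n, ∑ i ∈ range n, (χ (i + 1 : ℕ)).re = (Sm χ n).re := by
    intro n
    induction n with
    | zero => simp [Sm]
    | succ n ih => rw [sum_range_succ, ih, Sm_succ, Complex.add_re]
  rw [h2]
  exact (Complex.abs_re_le_norm _).trans h1

lemma tail_low (h : χ ≠ 1) (N : ℕ) :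
    ∑ i ∈ range N, (χ (i + 1 : ℕ)).re * (1 / (i + 1 : ℝ)) - 4 * q / (N + 1) ≤
      (LFunction χ 1).re := by
  have key : ∀ s : ℝ, 1 < s →
      ∑ i ∈ range N, (χ (i + 1 : ℕ)).re * (i + 1 : ℝ) ^ (-s) - 4 * q / (N + 1) ≤
        (LFunction χ s).re := by
    intro s hs
    have hs' : 1 < (s : ℂ).re := by simpa using hs
    have h1 : HasSum (fun i : ℕ => (χ (i + 1 : ℕ)).re * (i + 1 : ℝ) ^ (-s)) (LFunction χ s).re := by
      have h2 := (hasSum_nat_add_iff' 1).2 (LSeriesSummable_of_one_lt_re χ hs').hasSum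
      have h3 := Complex.hasSum_re h2
      rw [LFunction_eq_LSeries χ hs']
      simp only [range_one, sum_singleton, LSeries.term_zero, sub_zero] at h3
      refine h3.congr_fun fun i => ?_
      rw [LSeries.term_of_ne_zero (Nat.succ_ne_zero i), ← Complex.ofReal_natCast,
        ← Complex.ofReal_cpow (Nat.cast_nonneg _), Complex.div_ofReal_re,
        Real.rpow_neg (by positivity), div_eq_mul_inv]
      push_cast
      rfl
    refine ge_of_tendsto ((tendsto_add_atTop_iff_nat N).2 h1.tendsto_sum_nat)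
      (Eventually.of_forall fun m => ?_)
    have h4 := abel_low (a := fun i => (χ (N + i + 1 : ℕ)).re)
      (c := fun i => ((N + i : ℕ) + 1 : ℝ) ^ (-s)) (B := 4 * q) (fun n => by
        have h5 := abs_le.1 (re_sum_range h (N + n))
        have h6 := abs_le.1 (re_sum_range h N)
        rw [sum_range_add] at h5
        linarith [h5.1, h6.2])
      (fun n => Real.rpow_le_rpow_of_nonpos (by positivity) (by push_cast; linarith) (by linarith))
      (fun n => by positivity) m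
    have h7 : ((N + 0 : ℕ) + 1 : ℝ) ^ (-s) ≤ 1 / (N + 1) := by
      rw [add_zero, one_div, ← Real.rpow_neg_one]
      exact Real.rpow_le_rpow_of_exponent_le (by linarith [Nat.cast_nonneg (α := ℝ) N])
        (by linarith)
    have h8 := mul_le_mul_of_nonneg_left h7 (show (0 : ℝ) ≤ 4 * q by positivity)
    show _ ≤ ∑ i ∈ range (m + N), _
    rw [add_comm m N, sum_range_add, ← mul_one_div (4 * (q : ℝ))]
    linarith
  have c1 : ContinuousAt (fun s : ℝ =>
      ∑ i ∈ range N, (χ (i + 1 : ℕ)).re * (i + 1 : ℝ) ^ (-s) - 4 * q / (N + 1)) 1 := by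
    refine ContinuousAt.sub (tendsto_finsetSum _ fun i _ => ?_) continuousAt_const
    exact ContinuousAt.mul continuousAt_const
      ((Real.continuousAt_const_rpow (by positivity)).comp continuousAt_neg)
  have c2 : ContinuousAt (fun s : ℝ => (LFunction χ s).re) 1 :=
    (Complex.continuous_re.comp ((differentiable_LFunction h).continuous.comp
      Complex.continuous_ofReal)).continuousAt
  have h9 := le_of_tendsto_of_tendsto (b := 𝓝[>] (1 : ℝ))
    (c1.tendsto.mono_left nhdsWithin_le_nhds) (c2.tendsto.mono_left nhdsWithin_le_nhds)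
    (by filter_upwards [self_mem_nhdsWithin] with s hs using key s hs)
  simpa only [Real.rpow_neg_one, one_div, Complex.ofReal_one] using h9

open scoped ComplexOrder in
lemma monsky (h : χ ≠ 1) (hχ : χ ^ 2 = 1) {z : ℝ} (hz : 0 < z) (hz1 : z < 1) {K N : ℕ}
    (hN : K ^ 2 ≤ N) : (1 - z) * (K * z ^ (K ^ 2) - 2 * q) - N * z ^ N ≤
      ∑ i ∈ range N, (χ (i + 1 : ℕ)).re * (1 / (i + 1 : ℝ)) := by
  have h1 := abel_low (a := fun i => (χ (i + 1 : ℕ)).re) (c := ew z) (B := 2 * q)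
    (fun n => (abs_le.1 (re_sum_range h n)).1) (ew_anti hz hz1) (ew_nonneg hz hz1) N
  have h2 : ew z 0 = 1 - z := by simp [ew]
  have h3 : ∑ i ∈ range N, ((χ (i + 1 : ℕ)).re * ew z i + (1 - z) * ((χ (i + 1 : ℕ)).re *
      ∑ m ∈ Icc 1 N, (if i + 1 ∣ m then z ^ m else 0)) - z ^ N) ≤
      ∑ i ∈ range N, (χ (i + 1 : ℕ)).re * (1 / (i + 1 : ℝ)) := by
    refine sum_le_sum fun i _ => ?_
    have h4 : |(χ (i + 1 : ℕ)).re| ≤ 1 := (Complex.abs_re_le_norm _).trans (χ.norm_le_one _)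
    have h5 := mul_le_mul h4 (lambert_err hz hz1 i N) (abs_nonneg _) zero_le_one
    rw [← abs_mul, one_mul] at h5
    have h6 := (abs_le.1 h5).1
    unfold ew
    linarith
  have h4 : ∑ i ∈ range N, (χ (i + 1 : ℕ)).re * ∑ m ∈ Icc 1 N, (if i + 1 ∣ m then z ^ m else 0) =
      ∑ m ∈ Icc 1 N, (zetaMul χ m).re * z ^ m := by
    simp only [mul_sum]
    rw [sum_comm]
    refine sum_congr rfl fun m hm => ?_
    rw [re_zetaMul hm, sum_mul]
    exact sum_congr rfl fun i _ => by split_ifs <;> simp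
  have h5 : K * z ^ (K ^ 2) ≤ ∑ m ∈ Icc 1 N, (zetaMul χ m).re * z ^ m := by
    have h6 : (Icc 1 K).image (fun k => k ^ 2) ⊆ Icc 1 N := by
      intro m hm
      obtain ⟨k, hk, rfl⟩ := mem_image.1 hm
      rw [mem_Icc] at hk ⊢
      exact ⟨Nat.one_le_pow _ _ hk.1, (Nat.pow_le_pow_left hk.2 2).trans hN⟩
    refine le_trans ?_ (sum_le_sum_of_subset_of_nonneg h6 fun m _ _ =>
      mul_nonneg (Complex.le_def.1 (zetaMul_nonneg hχ m)).1 (by positivity))
    rw [sum_image fun a _ b _ hab => Nat.pow_left_injective two_ne_zero hab]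
    have h7 := Finset.card_nsmul_le_sum (Icc 1 K)
      (fun k => (zetaMul χ (k ^ 2)).re * z ^ (k ^ 2)) (z ^ (K ^ 2)) fun k hk => by
        rw [mem_Icc] at hk
        have h8 : (1 : ℝ) ≤ (zetaMul χ (k ^ 2)).re :=
          (Complex.le_def.1 (one_le_zetaMul hχ k (by omega))).1
        exact (pow_le_pow_of_le_one hz.le hz1.le (Nat.pow_le_pow_left hk.2 2)).trans
          (le_mul_of_one_le_left (by positivity) h8)
    simpa using h7
  rw [sum_sub_distrib, sum_add_distrib, ← mul_sum, h4, sum_const, card_range, nsmul_eq_mul] at h3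
  rw [h2] at h1
  have h9 := mul_le_mul_of_nonneg_left h5 (sub_pos.2 hz1).le
  linarith

/-- the value at one -/
theorem norm_Zf_at_one (hχ : χ ^ 2 = 1) : 1 / (64 * (q : ℝ)) ≤ ‖Zf χ 1‖ := by
  have hq := one_le_q (q := q)
  by_cases h : χ = 1
  · subst h
    exact (one_div_le_one_div_of_le (by linarith) (by linarith)).trans norm_Zf_one_one
  rw [Zf_ne h]
  refine le_trans ?_ (Complex.re_le_norm _)
  set e : ℝ := 1 / (128 * (q : ℝ) ^ 2) with he
  have he0 : 0 < e := by positivity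
  have he1 : e < 1 := by
    rw [he, div_lt_one (by positivity)]
    nlinarith
  have hz : 0 < 1 - e := by linarith
  have hz1 : 1 - e < 1 := by linarith
  have h1 : 1 / 2 ≤ (1 - e) ^ ((8 * q) ^ 2) := by
    have h2 := one_add_mul_le_pow (a := -e) (by linarith) ((8 * q) ^ 2)
    have h3 : (((8 * q) ^ 2 : ℕ) : ℝ) * -e = -(1 / 2) := by
      rw [he]; push_cast; field_simp; norm_num
    rw [h3, ← sub_eq_add_neg 1 e] at h2
    linarith
  have h4 : 1 / (64 * (q : ℝ)) ≤
      (1 - (1 - e)) * (((8 * q : ℕ) : ℝ) * (1 - e) ^ ((8 * q) ^ 2) - 2 * q) := by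
    have h5 : 1 / (64 * (q : ℝ)) = e * (2 * q) := by rw [he]; field_simp; norm_num
    rw [h5, sub_sub_cancel]
    refine mul_le_mul_of_nonneg_left ?_ he0.le
    push_cast
    nlinarith
  have t1 := tendsto_self_mul_const_pow_of_lt_one hz.le hz1
  have t2 := (tendsto_one_div_add_atTop_nhds_zero_nat (𝕜 := ℝ)).const_mul (4 * (q : ℝ))
  have t3 := ((tendsto_const_nhds (x := 1 / (64 * (q : ℝ)))).sub t1).sub t2
  rw [mul_zero, sub_zero, sub_zero] at t3
  refine le_of_tendsto t3 ?_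
  filter_upwards [eventually_ge_atTop ((8 * q) ^ 2)] with N hN
  have h6 := monsky h hχ hz hz1 hN
  have h7 := tail_low h N
  rw [mul_one_div]
  linarith

end Pool.Agent.Lib.MP_458f0b_nt.Grow.SW
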