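import Pool.Agent.Lib.MP_458f0b_nt.Grow.SW2

/-! A polynomial lower bound on the line of ones, and bounds for the logarithmic derivatives. -/

open Finset Filter Topology Complex DirichletCharacter

namespace Pool.Agent.Lib.MP_458f0b_nt.Grow.SW

variable {q : ℕ} [NeZero q]

/-- the region -/
def Om (T : ℝ) : Set ℂ := {s | 1 ≤ s.re ∧ s.re ≤ 2 ∧ |s.im| ≤ 2 * T}

/-- `M` bounds all the functions and two derivatives on the region -/
structure Bd (q : ℕ) [NeZero q] (T M : ℝ) : Prop where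
  big : 128 ≤ M
  q_le : (q : ℝ) ≤ M
  T_nonneg : 0 ≤ T
  up : ∀ (χ : DirichletCharacter ℂ q) (s : ℂ), s ∈ Om T →
    ‖Zf χ s‖ ≤ M ∧ ‖deriv (Zf χ) s‖ ≤ M ∧ ‖deriv (deriv (Zf χ)) s‖ ≤ M

lemma bd {T : ℝ} (hT : 1 ≤ T) : Bd q T (5488 * q * T ^ 2) := by
  have hq := one_le_q (q := q)
  have hT2 : 1 ≤ T ^ 2 := one_le_pow₀ hT
  refine ⟨by nlinarith, by nlinarith, by linarith, fun χ s hs => ?_⟩
  have h1 : ‖s‖ + 3 ≤ 7 * T := by
    have := Complex.norm_le_abs_re_add_abs_im s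
    rw [abs_of_nonneg (by linarith [hs.1] : 0 ≤ s.re)] at this
    linarith [hs.2.1, hs.2.2]
  have h2 : 112 * q * (‖s‖ + 3) ^ 2 ≤ 5488 * q * T ^ 2 := by
    calc 112 * q * (‖s‖ + 3) ^ 2 ≤ 112 * q * (7 * T) ^ 2 := by gcongr
      _ = _ := by ring
  obtain ⟨a, b, c⟩ := upper χ hs.1
  exact ⟨a.trans h2, b.trans h2, c.trans h2⟩

lemma convex_Om (T : ℝ) : Convex ℝ (Om T) := by
  have e : Om T = {s : ℂ | 1 ≤ s.re} ∩ ({s : ℂ | s.re ≤ 2} ∩
      ({s : ℂ | -(2 * T) ≤ s.im} ∩ {s : ℂ | s.im ≤ 2 * T})) := by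
    ext s; simp [Om, abs_le]
  rw [e]
  exact (convex_halfSpace_re_ge 1).inter ((convex_halfSpace_re_le 2).inter
    ((convex_halfSpace_im_ge _).inter (convex_halfSpace_im_le _)))

variable {T M : ℝ}

lemma Bd.lip (H : Bd q T M) (χ : DirichletCharacter ℂ q) {s t : ℂ} (hs : s ∈ Om T)
    (ht : t ∈ Om T) : ‖Zf χ s‖ - M * ‖s - t‖ ≤ ‖Zf χ t‖ := by
  have h := (convex_Om T).norm_image_sub_le_of_norm_deriv_le (𝕜 := ℂ) (f := Zf χ)
    (fun z _ => Zf_diff χ z) (fun z hz => (H.up χ z hz).2.1) ht hs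
  linarith [norm_sub_norm_le (Zf χ s) (Zf χ t)]

lemma norm_L_le (χ : DirichletCharacter ℂ q) {s : ℂ} {δ : ℝ} (h0 : 0 < δ) (h1 : δ ≤ 1)
    (h : χ = 1 → δ ≤ ‖s - 1‖) : δ * ‖LFunction χ s‖ ≤ ‖Zf χ s‖ := by
  by_cases hχ : χ = 1
  · have h2 := h hχ
    subst hχ
    rw [Zf_one_apply (fun e => by rw [e, sub_self, norm_zero] at h2; linarith), norm_mul]
    exact mul_le_mul_of_nonneg_right h2 (norm_nonneg _)
  · rw [Zf_ne hχ]
    exact mul_le_of_le_one_left (norm_nonneg _) h1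

/-- the lower bound on the line -/
theorem Bd.low (H : Bd q T M) (χ : DirichletCharacter ℂ q) {y : ℝ} (hy : |y| ≤ T) :
    1 / M ^ 35 ≤ ‖Zf χ (1 + I * y)‖ := by
  have hM := H.big
  have hM0 : 0 < M := by linarith
  have hM1 : 1 ≤ M := by linarith
  have hT := H.T_nonneg
  obtain ⟨m, hm⟩ : ∃ m : ℝ, m = 1 / M := ⟨_, rfl⟩
  have hm0 : 0 < m := by rw [hm]; positivity
  have hmM : m * M = 1 := by rw [hm]; field_simp
  have hm1 : m ≤ 1 / 128 := by rw [hm]; exact one_div_le_one_div_of_le (by norm_num) hM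
  have hm2 : m ≤ 1 := by linarith
  have mem : ∀ x u : ℝ, 0 ≤ x → x ≤ 1 → |u| ≤ 2 * T → (1 + x + I * u : ℂ) ∈ Om T := by
    intro x u h1 h2 h3
    refine ⟨?_, ?_, ?_⟩ <;> simp <;> linarith
  have hy2 : |y| ≤ 2 * T := by linarith
  have m0 : (1 + I * y : ℂ) ∈ Om T := by simpa using mem 0 y le_rfl zero_le_one hy2
  rw [← one_div_pow, ← hm]
  by_cases hc : χ ^ 2 = 1 ∧ |y| ≤ m ^ 3
  · have h1 := H.lip χ (s := 1) (by simpa using mem 0 0 le_rfl zero_le_one (by simpa)) m0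
    have h2 : ‖(1 : ℂ) - (1 + I * y)‖ = |y| := by simp
    have h3 : m / 64 ≤ ‖Zf χ 1‖ := by
      refine le_trans ?_ (norm_Zf_at_one hc.1)
      rw [hm, div_div]
      exact one_div_le_one_div_of_le (by linarith [q_pos (q := q)]) (by linarith [H.q_le])
    have h4 : M * |y| ≤ m * m := by
      calc M * |y| ≤ M * m ^ 3 := mul_le_mul_of_nonneg_left hc.2 hM0.le
        _ = m * M * (m * m) := by ring
        _ = m * m := by rw [hmM, one_mul]
    have h5 : m ^ 35 ≤ m ^ 2 := pow_le_pow_of_le_one hm0.le hm2 (by norm_num)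
    rw [h2] at h1
    nlinarith
  have hx0 : 0 < m ^ 36 := by positivity
  have hx1 : m ^ 36 ≤ 1 := pow_le_one₀ hm0.le hm2
  have hδ0 : 0 < m ^ 3 := by positivity
  have hδ1 : m ^ 3 ≤ 1 := pow_le_one₀ hm0.le hm2
  have hyδ : χ ^ 2 = 1 → m ^ 3 ≤ |y| := fun h => (not_le.1 fun h' => hc ⟨h, h'⟩).le
  obtain ⟨x, hx⟩ : ∃ x : ℝ, x = m ^ 36 := ⟨_, rfl⟩
  rw [← hx] at hx0 hx1
  have key := norm_LFunction_product_ge_one χ hx0 y
  have a1 : x * ‖LFunctionTrivChar q (1 + x)‖ ≤ M := by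
    refine (norm_L_le 1 hx0 hx1 fun _ => ?_).trans
      (H.up 1 _ (by simpa using mem x 0 hx0.le hx1 (by simpa))).1
    simp [abs_of_pos hx0]
  have a2 : m ^ 3 * ‖LFunction χ (1 + x + I * y)‖ ≤ ‖Zf χ (1 + x + I * y)‖ := by
    refine norm_L_le χ hδ0 hδ1 fun h => (hyδ (by rw [h, one_pow])).trans ?_
    simpa using Complex.abs_im_le_norm (1 + x + I * y - 1)
  have a3 : m ^ 3 * ‖LFunction (χ ^ 2) (1 + x + 2 * I * y)‖ ≤ M := by
    have h2y : |2 * y| ≤ 2 * T := by rw [abs_mul, abs_two]; linarith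
    have e : (1 + x + 2 * I * y : ℂ) = 1 + x + I * ((2 * y : ℝ) : ℂ) := by push_cast; ring
    rw [e]
    refine (norm_L_le (χ ^ 2) hδ0 hδ1 fun h => (hyδ h).trans ?_).trans
      (H.up _ _ (mem x _ hx0.le hx1 h2y)).1
    have h3 := Complex.abs_im_le_norm (1 + x + I * ((2 * y : ℝ) : ℂ) - 1)
    have h4 : (1 + x + I * ((2 * y : ℝ) : ℂ) - 1 : ℂ).im = 2 * y := by simp
    rw [h4, abs_mul, abs_two] at h3
    linarith [abs_nonneg y]
  rw [norm_mul, norm_mul, norm_pow, norm_pow] at key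
  have h6 := H.lip χ (mem x y hx0.le hx1 hy2) m0
  have h7 : ‖(1 + x + I * y : ℂ) - (1 + I * y)‖ = x := by simp [abs_of_pos hx0]
  rw [h7] at h6
  set A := ‖LFunctionTrivChar q (1 + x)‖
  set B := ‖LFunction χ (1 + x + I * y)‖
  set C := ‖LFunction (χ ^ 2) (1 + x + 2 * I * y)‖
  set Z := ‖Zf χ (1 + x + I * y)‖
  have hA : 0 ≤ A := norm_nonneg _
  have hB : 0 ≤ B := norm_nonneg _
  have hC : 0 ≤ C := norm_nonneg _
  have hZ : 0 ≤ Z := norm_nonneg _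
  have h8 : (m ^ 32) ^ 4 ≤ Z ^ 4 := by
    have h9 : (x * A) ^ 3 * (m ^ 3 * B) ^ 4 * (m ^ 3 * C) ≤ M ^ 3 * Z ^ 4 * M := by gcongr
    calc (m ^ 32) ^ 4 = m ^ 127 * m := by ring
      _ ≤ m ^ 127 * (A ^ 3 * B ^ 4 * C) := by
        refine mul_le_mul_of_nonneg_left (hm2.trans key) (by positivity)
      _ = m ^ 4 * ((x * A) ^ 3 * (m ^ 3 * B) ^ 4 * (m ^ 3 * C)) := by rw [hx]; ring
      _ ≤ m ^ 4 * (M ^ 3 * Z ^ 4 * M) := by gcongr
      _ = (m * M) ^ 4 * Z ^ 4 := by ring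
      _ = Z ^ 4 := by rw [hmM, one_pow, one_mul]
  have h10 : m ^ 32 ≤ Z := le_of_pow_le_pow_left₀ (by norm_num) hZ h8
  have h11 : M * x = m ^ 35 := by
    rw [hx, show M * m ^ 36 = m * M * m ^ 35 by ring, hmM, one_mul]
  have h12 : 2 * m ^ 35 ≤ m ^ 32 := by
    have h13 : m ^ 3 ≤ m ^ 1 := pow_le_pow_of_le_one hm0.le hm2 (by norm_num)
    calc 2 * m ^ 35 = m ^ 32 * (2 * m ^ 3) := by ring
      _ ≤ m ^ 32 * 1 := mul_le_mul_of_nonneg_left (by linarith) (by positivity)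
      _ = m ^ 32 := mul_one _
  linarith

/-- the logarithmic derivative -/
noncomputable def ld (χ : DirichletCharacter ℂ q) (s : ℂ) : ℂ := deriv (Zf χ) s / Zf χ s

lemma Bd.ld_bd (H : Bd q T M) (χ : DirichletCharacter ℂ q) {y : ℝ} (hy : |y| ≤ T) :
    ‖ld χ (1 + I * y)‖ ≤ M ^ 36 ∧
      ∃ g : ℂ, HasDerivAt (ld χ) g (1 + I * y) ∧ ‖g‖ ≤ M ^ 73 := by
  have hM := H.big
  have hM0 : 0 < M := by linarith
  have hl := H.low χ hy
  obtain ⟨u0, u1, u2⟩ := H.up χ (1 + I * y) ⟨by simp, by simp, by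
    simpa using hy.trans (by linarith [H.T_nonneg])⟩
  have hp : 0 < ‖Zf χ (1 + I * y)‖ := lt_of_lt_of_le (by positivity) hl
  have hi : 1 / ‖Zf χ (1 + I * y)‖ ≤ M ^ 35 := (one_div_le hp (by positivity)).2 hl
  refine ⟨?_, _, ((Zf_diff χ).deriv _).hasDerivAt.div (Zf_diff χ _).hasDerivAt
    (norm_pos_iff.1 hp), ?_⟩
  · rw [ld, norm_div, div_eq_mul_one_div]
    calc _ ≤ M * M ^ 35 := by gcongr
      _ = M ^ 36 := by ring
  · rw [norm_div, norm_pow, div_eq_mul_one_div, ← one_div_pow]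
    have h1 := norm_sub_le (deriv (deriv (Zf χ)) (1 + I * y) * Zf χ (1 + I * y))
      (deriv (Zf χ) (1 + I * y) * deriv (Zf χ) (1 + I * y))
    rw [norm_mul, norm_mul] at h1
    calc _ ≤ (M * M + M * M) * (M ^ 35) ^ 2 := by
          gcongr
          exact h1.trans (by gcongr)
      _ = 2 * M ^ 72 := by ring
      _ ≤ M * M ^ 72 := by gcongr; linarith
      _ = M ^ 73 := by ring

open ArithmeticFunction.vonMangoldt in
lemma aux_eq {a : ZMod q} (ha : IsUnit a) : LFunctionResidueClassAux a =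
    fun s => ∑ χ : DirichletCharacter ℂ q, -(q.totient : ℂ)⁻¹ * χ a⁻¹ * ld χ s := by
  classical
  funext s
  have hu : IsUnit (a⁻¹ : ZMod q) := IsUnit.of_mul_eq_one _ (ZMod.inv_mul_of_unit a ha)
  rw [Fintype.sum_eq_sum_compl_add (1 : DirichletCharacter ℂ q), MulChar.one_apply hu, ld, Zf_one,
    LFunctionResidueClassAux, mul_sub, mul_sum, sub_eq_neg_add, ← sum_neg_distrib]
  congr 1
  · refine sum_congr (by ext; simp) fun χ hχ => ?_
    rw [ld, Zf_ne (by simpa using hχ)]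
    ring
  · ring

lemma norm_avg_le (a : ZMod q) {g : DirichletCharacter ℂ q → ℂ} {K : ℝ} (h : ∀ χ, ‖g χ‖ ≤ K) :
    ‖∑ χ : DirichletCharacter ℂ q, -(q.totient : ℂ)⁻¹ * χ a * g χ‖ ≤ K := by
  have hφ : (0 : ℝ) < q.totient := by exact_mod_cast Nat.totient_pos.2 (NeZero.pos q)
  refine (norm_sum_le _ _).trans ((sum_le_card_nsmul _ _ ((q.totient : ℝ)⁻¹ * K)
    fun χ _ => ?_).trans_eq ?_)
  · rw [norm_mul, norm_mul, norm_neg, norm_inv, Complex.norm_natCast, mul_assoc]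
    refine mul_le_mul_of_nonneg_left ?_ (by positivity)
    exact (mul_le_of_le_one_left (norm_nonneg _) (χ.norm_le_one _)).trans (h χ)
  · rw [card_univ, ← Nat.card_eq_fintype_card, card_eq_totient_of_hasEnoughRootsOfUnity ℂ q,
      nsmul_eq_mul, ← mul_assoc, mul_inv_cancel₀ hφ.ne', one_mul]

open ArithmeticFunction.vonMangoldt in
/-- the auxiliary function and its derivative on the line -/
theorem Bd.aux_bd (H : Bd q T M) {a : ZMod q} (ha : IsUnit a) {y : ℝ} (hy : |y| ≤ T) :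
    ‖LFunctionResidueClassAux a (1 + I * y)‖ ≤ M ^ 36 ∧
      ∃ g : ℂ, HasDerivAt (LFunctionResidueClassAux a) g (1 + I * y) ∧ ‖g‖ ≤ M ^ 73 := by
  choose g hg hg' using fun χ : DirichletCharacter ℂ q => (H.ld_bd χ hy).2
  rw [aux_eq ha]
  exact ⟨norm_avg_le _ fun χ => (H.ld_bd χ hy).1, _,
    HasDerivAt.fun_sum fun χ _ => (hg χ).const_mul _, norm_avg_le _ hg'⟩

end Pool.Agent.Lib.MP_458f0b_nt.Grow.SW
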