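import Pool.Agent.Lib.MP_458f0b_nt.Pois.WIc

/-! A quantitative form of the Wiener-Ikehara theorem. -/

open Finset Filter Topology Complex MeasureTheory

namespace Pool.Agent.Lib.MP_458f0b_nt.Grow.SW

open Pool.Agent.Lib.MP_458f0b_nt.Pois

lemma osc {h : ℝ → ℂ} {K K' ω : ℝ} (hω : 0 < ω)
    (H : ∀ t ∈ Set.Icc (0 : ℝ) 1, ‖h t‖ ≤ K ∧ ∃ g, HasDerivAt h g t ∧ ‖g‖ ≤ K') :
    |∫ t in (0 : ℝ)..1, (h t * Complex.exp (((-(t * ω) : ℝ) : ℂ) * I)).re| ≤ (2 * K + K') / ω := by
  have hω' : (ω : ℂ) ≠ 0 := by exact_mod_cast hω.ne'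
  have hd : ∀ t ∈ Set.uIcc (0 : ℝ) 1, HasDerivAt h (deriv h t) t := fun t ht => by
    rw [Set.uIcc_of_le zero_le_one] at ht
    obtain ⟨g, hg, _⟩ := (H t ht).2
    exact hg.differentiableAt.hasDerivAt
  have hb : ∀ t ∈ Set.Icc (0 : ℝ) 1, ‖deriv h t‖ ≤ K' := fun t ht => by
    obtain ⟨g, hg, hg'⟩ := (H t ht).2
    rwa [hg.deriv]
  have hv : ∀ t ∈ Set.uIcc (0 : ℝ) 1, HasDerivAt
      (fun t : ℝ => Complex.exp (((-(t * ω) : ℝ) : ℂ) * I) * (I / ω))
      (Complex.exp (((-(t * ω) : ℝ) : ℂ) * I)) t := fun t _ => by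
    have h1 := (((((hasDerivAt_id t).mul_const ω).neg.ofReal_comp).mul_const I).cexp).mul_const
      (I / ω)
    refine h1.congr_deriv ?_
    simp only [id, Pi.neg_apply, one_mul, ofReal_neg]
    field_simp
    simp
  have hn : ∀ t : ℝ, ‖Complex.exp (((-(t * ω) : ℝ) : ℂ) * I) * (I / ω)‖ = 1 / ω := fun t => by
    rw [norm_mul, Complex.norm_exp_ofReal_mul_I, norm_div, Complex.norm_I, Complex.norm_real,
      Real.norm_of_nonneg hω.le, one_mul]
  have hc : Continuous fun t : ℝ => Complex.exp (((-(t * ω) : ℝ) : ℂ) * I) := by fun_prop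
  have hi : IntervalIntegrable (deriv h) volume 0 1 := by
    rw [intervalIntegrable_iff_integrableOn_Ioc_of_le zero_le_one]
    refine Measure.integrableOn_of_bounded (M := K') measure_Ioc_lt_top.ne
      (measurable_deriv h).aestronglyMeasurable ?_
    filter_upwards [ae_restrict_mem measurableSet_Ioc] with t ht
    exact hb t (Set.Ioc_subset_Icc_self ht)
  have hI := intervalIntegral.integral_mul_deriv_eq_deriv_mul hd hv hi (hc.intervalIntegrable 0 1)
  have hj : IntervalIntegrable (fun t => h t * Complex.exp (((-(t * ω) : ℝ) : ℂ) * I))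
      volume 0 1 :=
    ContinuousOn.intervalIntegrable
      (ContinuousOn.mul (fun t ht => (hd t ht).continuousAt.continuousWithinAt) hc.continuousOn)
  have e := Complex.reCLM.intervalIntegral_comp_comm hj
  simp only [reCLM_apply] at e
  rw [e]
  refine (Complex.abs_re_le_norm _).trans ?_
  rw [hI]
  have b1 : ∀ t ∈ Set.Icc (0 : ℝ) 1,
      ‖h t * (Complex.exp (((-(t * ω) : ℝ) : ℂ) * I) * (I / ω))‖ ≤ K * (1 / ω) := fun t ht => by
    rw [norm_mul, hn]
    exact mul_le_mul_of_nonneg_right (H t ht).1 (by positivity)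
  have b2 := intervalIntegral.norm_integral_le_of_norm_le_const (a := 0) (b := 1)
    (C := K' * (1 / ω))
    (f := fun t => deriv h t * (Complex.exp (((-(t * ω) : ℝ) : ℂ) * I) * (I / ω))) fun t ht => by
      rw [Set.uIoc_of_le zero_le_one] at ht
      rw [norm_mul, hn]
      exact mul_le_mul_of_nonneg_right (hb t (Set.Ioc_subset_Icc_self ht)) (by positivity)
  rw [sub_zero, abs_one, mul_one] at b2
  refine (norm_sub_le _ _).trans ((add_le_add ((norm_sub_le _ _).trans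
    (add_le_add (b1 1 (by simp)) (b1 0 (by simp)))) b2).trans_eq ?_)
  ring

lemma fej_tail {r : ℝ} (hr : 0 < r) : (∫ v, fej v) - ∫ v in (-r)..r, fej v ≤ 10 / r := by
  have h1 : ∫ v in Set.Ioi r, fej v ≤ 5 / r := by
    have hi := integrableOn_Ioi_rpow_of_lt (show (-2 : ℝ) < -1 by norm_num) hr
    refine (setIntegral_mono_on fej_integrable.integrableOn (hi.const_mul 5) measurableSet_Ioi
      fun u hu => ?_).trans_eq ?_
    · have hu0 : 0 < u := hr.trans hu
      refine (wia_le u).trans (mul_le_mul_of_nonneg_left ?_ (by norm_num))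
      rw [Real.rpow_neg hu0.le, Real.rpow_two]
      exact inv_anti₀ (by positivity) (by linarith)
    · rw [integral_const_mul, integral_Ioi_rpow_of_lt (by norm_num) hr]
      norm_num [Real.rpow_neg_one, div_eq_mul_inv]
  have h2 : ∫ v in Set.Iic (-r), fej v = ∫ v in Set.Ioi r, fej v := by
    rw [← integral_comp_neg_Ioi]
    simp [fej]
  have h3 := intervalIntegral.integral_Iic_add_Ioi (b := r) fej_integrable.integrableOn
    fej_integrable.integrableOn
  have h4 := intervalIntegral.integral_Iic_sub_Iic (a := -r) (b := r) fej_integrable.integrableOn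
    fej_integrable.integrableOn
  have h5 : 10 / r = 5 / r + 5 / r := by ring
  linarith

lemma side {B : ℝ → ℝ} (hB : Measurable B) {K a lam d y ε : ℝ} (hK : ∀ u, |B u| ≤ K)
    (hlam : 0 < lam) (hd : 0 < d) (hy : d ≤ y) (hr : 20 / (∫ v, fej v) ≤ lam * d)
    (hI : lam * |∫ u in Set.Ioi (0 : ℝ), B u * fej (lam * (u - y))| ≤ ε)
    (ha : ∀ u, y - d ≤ u → u ≤ y + d → a ≤ B u) :
    a ≤ 2 / (∫ v, fej v) * (ε + K * (10 / (lam * d))) := by
  have hJ := fej_integral_pos
  have hr0 := mul_pos hlam hd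
  have hK0 : 0 ≤ K := (abs_nonneg _).trans (hK 0)
  have hε : 0 ≤ ε := le_trans (by positivity) hI
  have h1 := wib_loc_fej hB hK hlam hd hy ha
  have h2 := fej_tail hr0
  have h3 := mul_le_mul_of_nonneg_left h2 hK0
  have h4 := mul_le_mul_of_nonneg_left
    (le_abs_self (∫ u in Set.Ioi (0 : ℝ), B u * fej (lam * (u - y)))) hlam.le
  have h5 : 10 / (lam * d) ≤ (∫ v, fej v) / 2 := by
    rw [div_le_iff₀ hJ] at hr
    rw [div_le_iff₀ hr0]
    linarith
  rcases le_total a 0 with h | h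
  · exact h.trans (by positivity)
  · have h6 := mul_le_mul_of_nonneg_left
      (show (∫ v, fej v) / 2 ≤ ∫ v in (-(lam * d))..(lam * d), fej v by linarith) h
    rw [div_mul_eq_mul_div, le_div_iff₀ hJ]
    linarith

lemma tauber_q {H : ℝ → ℝ} (hHm : Measurable H) {C A lam d y ε : ℝ} (h0 : ∀ u, 0 ≤ H u)
    (hC : ∀ u, H u ≤ C) (hA0 : 0 ≤ A) (hA1 : A ≤ 1) (hmono : Monotone fun u => Real.exp u * H u)
    (hlam : 0 < lam) (hd : 0 < d) (hd1 : d ≤ 1 / 2) (hy : 1 ≤ y)
    (hr : 20 / (∫ v, fej v) ≤ lam * d)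
    (hI : ∀ y', y - d ≤ y' →
      lam * |∫ u in Set.Ioi (0 : ℝ), (H u - A) * fej (lam * (u - y'))| ≤ ε) :
    |H y - A| ≤ 2 / (∫ v, fej v) * (ε + (C + 1) * (10 / (lam * d))) + 4 * d * C := by
  have hK : ∀ u, |H u - A| ≤ C + 1 := fun u => by
    rw [abs_le]
    constructor <;> linarith [h0 u, hC u]
  have hC0 : 0 ≤ C := (h0 0).trans (hC 0)
  have he : Real.exp (2 * d) ≤ 1 + 4 * d := by
    have := Real.abs_exp_sub_one_le (x := 2 * d) (by rw [abs_of_pos (by linarith)]; linarith)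
    rw [abs_of_pos (show 0 < 2 * d by linarith)] at this
    linarith [le_abs_self (Real.exp (2 * d) - 1)]
  have hslow : ∀ u v : ℝ, u ≤ v → v ≤ u + 2 * d → H u ≤ H v + 4 * d * C := by
    intro u v huv hv
    have h1 : Real.exp u * H u ≤ Real.exp v * H v := hmono huv
    have h2 : Real.exp v ≤ Real.exp u * (1 + 4 * d) := by
      refine le_trans ?_ (mul_le_mul_of_nonneg_left he (Real.exp_pos u).le)
      rw [← Real.exp_add]
      exact Real.exp_le_exp.mpr hv
    have h3 := h1.trans (mul_le_mul_of_nonneg_right h2 (h0 v))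
    rw [mul_assoc] at h3
    have h4 := le_of_mul_le_mul_left h3 (Real.exp_pos u)
    have h5 := mul_le_mul_of_nonneg_left (hC v) (show 0 ≤ 4 * d by linarith)
    linarith
  have s1 := side (B := fun u => H u - A) (hHm.sub_const A) (a := H y - 4 * d * C - A) hK hlam hd
    (show d ≤ y + d by linarith) hr (hI _ (by linarith)) fun u h1 h2 => by
      have := hslow y u (by linarith) (by linarith)
      linarith
  have s2 := side (B := fun u => -(H u - A)) (hHm.sub_const A).neg (a := A - H y - 4 * d * C)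
    (fun u => by rw [abs_neg]; exact hK u) hlam hd (show d ≤ y - d by linarith) hr
    (by simpa only [neg_mul, integral_neg, abs_neg] using hI (y - d) le_rfl) fun u h1 h2 => by
      have := hslow u y (by linarith) (by linarith)
      linarith
  rw [abs_le]
  constructor <;> linarith

lemma path_bd {G : ℂ → ℂ} {A N lam : ℝ} (hA0 : 0 ≤ A) (hA1 : A ≤ 1) (hN : 1 ≤ N) (hlam : 1 ≤ lam)
    (hG : ∀ y : ℝ, |y| ≤ lam →
      ‖G (1 + I * y)‖ ≤ N ∧ ∃ g : ℂ, HasDerivAt G g (1 + I * y) ∧ ‖g‖ ≤ N)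
    {t : ℝ} (ht : t ∈ Set.Icc (0 : ℝ) 1) :
    ‖((2 * (1 - t) : ℝ) : ℂ) * ((G (1 + I * ((-(t * lam) : ℝ) : ℂ)) - A) /
        (1 + I * ((-(t * lam) : ℝ) : ℂ)))‖ ≤ 4 * N ∧
      ∃ g, HasDerivAt (fun t : ℝ => ((2 * (1 - t) : ℝ) : ℂ) *
        ((G (1 + I * ((-(t * lam) : ℝ) : ℂ)) - A) / (1 + I * ((-(t * lam) : ℝ) : ℂ)))) g t ∧
        ‖g‖ ≤ 10 * lam * N := by
  obtain ⟨h1, g, hg, hg'⟩ := hG (-(t * lam)) (by
    rw [abs_neg, abs_of_nonneg (mul_nonneg ht.1 (by linarith))]
    exact mul_le_of_le_one_left (by linarith) ht.2)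
  have hp : HasDerivAt (fun t : ℝ => 1 + I * ((-(t * lam) : ℝ) : ℂ)) (I * ((-(1 * lam) : ℝ) : ℂ))
      t := ((((hasDerivAt_id t).mul_const lam).neg.ofReal_comp).const_mul I).const_add 1
  have hw : HasDerivAt (fun t : ℝ => ((2 * (1 - t) : ℝ) : ℂ)) ((2 * -1 : ℝ) : ℂ) t :=
    (((hasDerivAt_id t).const_sub 1).const_mul 2).ofReal_comp
  set z : ℂ := 1 + I * ((-(t * lam) : ℝ) : ℂ) with hz
  have hz1 : 1 ≤ ‖z‖ := by simpa [hz] using Complex.re_le_norm z
  have hz0 : z ≠ 0 := norm_pos_iff.1 (by linarith)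
  have hF : HasDerivAt (fun s => (G s - A) / s) ((g * z - (G z - A) * 1) / z ^ 2) z :=
    (hg.sub_const _).div (hasDerivAt_id z) hz0
  have b0 : ‖G z - A‖ ≤ 2 * N := by
    have := norm_sub_le (G z) A
    rw [Complex.norm_real, Real.norm_of_nonneg hA0] at this
    linarith
  have b1 : ‖(G z - A) / z‖ ≤ 2 * N := by
    rw [norm_div]
    exact (div_le_self (norm_nonneg _) hz1).trans b0
  have b2 : ‖(g * z - (G z - A) * 1) / z ^ 2‖ ≤ 3 * N := by
    rw [norm_div, norm_pow, div_le_iff₀ (by positivity), mul_one]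
    have h2 := norm_sub_le (g * z) (G z - A)
    rw [norm_mul] at h2
    have h3 : ‖g‖ * ‖z‖ ≤ N * ‖z‖ := by gcongr
    have h4 : ‖z‖ ≤ ‖z‖ ^ 2 := by nlinarith
    nlinarith
  have b3 : ‖((2 * (1 - t) : ℝ) : ℂ)‖ ≤ 2 := by
    rw [Complex.norm_real, Real.norm_of_nonneg (by linarith [ht.2])]
    linarith [ht.1]
  have hc : HasDerivAt (fun t : ℝ => (G (1 + I * ((-(t * lam) : ℝ) : ℂ)) - A) /
      (1 + I * ((-(t * lam) : ℝ) : ℂ)))
      ((I * ((-(1 * lam) : ℝ) : ℂ)) • ((g * z - (G z - A) * 1) / z ^ 2)) t :=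
    HasDerivAt.scomp (g₁ := fun s => (G s - A) / s)
      (h := fun t : ℝ => 1 + I * ((-(t * lam) : ℝ) : ℂ)) t hF hp
  refine ⟨?_, _, hw.fun_mul hc, ?_⟩
  · rw [norm_mul]
    calc _ ≤ 2 * (2 * N) := by gcongr
      _ = _ := by ring
  · refine (norm_add_le _ _).trans ?_
    have e1 : ‖((2 * -1 : ℝ) : ℂ)‖ = 2 := by simp
    have e2 : ‖I * ((-(1 * lam) : ℝ) : ℂ)‖ = lam := by simp [abs_of_pos (show 0 < lam by linarith)]
    rw [norm_mul, norm_mul, norm_smul, e1, e2]
    calc _ ≤ 2 * (2 * N) + 2 * (lam * (3 * N)) := by gcongr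
      _ ≤ _ := by nlinarith

/-- quantitative Wiener-Ikehara theorem -/
theorem wi_q (a : ℕ → ℝ) (ha : ∀ n, 0 ≤ a n) {C : ℝ} (hC : ∀ n : ℕ, ∑ i ∈ Icc 1 n, a i ≤ C * n)
    {A : ℝ} (hA0 : 0 ≤ A) (hA1 : A ≤ 1) {G : ℂ → ℂ} (hG : ContinuousOn G {s : ℂ | 1 ≤ s.re})
    (hGe : ∀ s : ℂ, 1 < s.re → G s = LSeries (fun n => (a n : ℂ)) s - A / (s - 1))
    {N v x : ℝ} (hN : 1 ≤ N) (hv : 2 ≤ v) (hv' : 20 / (∫ u, fej u) ≤ v) (hx : 0 < x)
    (hy : 1 ≤ Real.log x)
    (hGb : ∀ y : ℝ, |y| ≤ v ^ 2 →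
      ‖G (1 + I * y)‖ ≤ N ∧ ∃ g : ℂ, HasDerivAt G g (1 + I * y) ∧ ‖g‖ ≤ N) :
    |(∑ i ∈ Icc 1 ⌊x⌋₊, a i) / x - A| ≤
      2 / (∫ u, fej u) * (36 * v ^ 2 * N / Real.log x + (C + 1) * (10 / v)) + 4 * (1 / v) * C := by
  set H : ℝ → ℝ := fun u => Real.exp (-u) * ∑ i ∈ Icc 1 ⌊Real.exp u⌋₊, a i with hH
  have hC0 : 0 ≤ C := by
    have := hC 1
    simp only [Icc_self, sum_singleton, Nat.cast_one, mul_one] at this
    exact (ha 1).trans this
  have hmono : Monotone fun u : ℝ => ∑ i ∈ Icc 1 ⌊Real.exp u⌋₊, a i :=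
    (wic_mono a ha).comp Real.exp_monotone
  have hHm : Measurable H := (Real.measurable_exp.comp measurable_neg).mul hmono.measurable
  have h0 : ∀ u, 0 ≤ H u := fun u => mul_nonneg (Real.exp_pos _).le (sum_nonneg fun i _ => ha i)
  have hHC : ∀ u, H u ≤ C := by
    intro u
    have h1 : ∑ i ∈ Icc 1 ⌊Real.exp u⌋₊, a i ≤ C * Real.exp u :=
      (hC _).trans (mul_le_mul_of_nonneg_left (Nat.floor_le (Real.exp_pos u).le) hC0)
    calc H u ≤ Real.exp (-u) * (C * Real.exp u) :=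
          mul_le_mul_of_nonneg_left h1 (Real.exp_pos _).le
      _ = C := by
          rw [Real.exp_neg]; field_simp
  have hmono' : Monotone fun u => Real.exp u * H u := by
    have : (fun u => Real.exp u * H u) = fun u : ℝ => ∑ i ∈ Icc 1 ⌊Real.exp u⌋₊, a i := by
      funext u
      simp only [hH]
      rw [← mul_assoc, ← Real.exp_add, add_neg_cancel, Real.exp_zero, one_mul]
    rw [this]; exact hmono
  have hBm : Measurable fun u => H u - A := hHm.sub_const A
  have hB : ∀ u, |H u - A| ≤ C + |A| := fun u =>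
    (abs_sub _ _).trans (by rw [abs_of_nonneg (h0 u)]; linarith [hHC u])
  have hG' : ContinuousOn (fun s : ℂ => (G (s + 1) - A) / (s + 1)) {s : ℂ | 0 ≤ s.re} := by
    refine ContinuousOn.div (ContinuousOn.sub ?_ continuousOn_const) (by fun_prop) ?_
    · refine hG.comp (by fun_prop) fun s hs => ?_
      have hs' : 0 ≤ s.re := hs
      show 1 ≤ (s + 1).re
      rw [Complex.add_re, Complex.one_re]; linarith
    · intro s hs h
      have hs' : 0 ≤ s.re := hs
      have := congrArg Complex.re h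
      rw [Complex.add_re, Complex.one_re, Complex.zero_re] at this
      linarith
  have hGe' : ∀ s : ℂ, 0 < s.re → (G (s + 1) - A) / (s + 1) =
      ∫ u in Set.Ioi (0 : ℝ), ((H u - A : ℝ) : ℂ) * Complex.exp (-(s * u)) := by
    intro s hs
    have h1 : (1 : ℝ) < (s + 1).re := by
      rw [Complex.add_re, Complex.one_re]; linarith
    have hs0 : s ≠ 0 := fun h => by rw [h, Complex.zero_re] at hs; exact lt_irrefl _ hs
    have hs1 : s + 1 ≠ 0 := fun h => by rw [h, Complex.zero_re] at h1; linarith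
    have hre : (-s).re < 0 := by rw [Complex.neg_re]; linarith
    have hE : IntegrableOn (fun u : ℝ => Complex.exp (-(s * u))) (Set.Ioi 0) := by
      simpa only [neg_mul] using integrableOn_exp_mul_complex_Ioi hre 0
    have hEi : ∫ u in Set.Ioi (0 : ℝ), Complex.exp (-(s * u)) = 1 / s := by
      have := integral_exp_mul_complex_Ioi hre 0
      simp only [neg_mul, Complex.ofReal_zero, mul_zero, Complex.exp_zero] at this
      rw [this, neg_div_neg_eq]
    have hHi : IntegrableOn (fun u : ℝ => (H u : ℂ) * Complex.exp (-(s * u))) (Set.Ioi 0) := by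
      refine Integrable.bdd_mul (c := C) hE
        (Complex.measurable_ofReal.comp hHm).aestronglyMeasurable
        (Eventually.of_forall fun u => ?_)
      rw [Complex.norm_real, Real.norm_of_nonneg (h0 u)]
      exact hHC u
    have hsplit : ∫ u in Set.Ioi (0 : ℝ), ((H u - A : ℝ) : ℂ) * Complex.exp (-(s * u)) =
        (∫ u in Set.Ioi (0 : ℝ), (H u : ℂ) * Complex.exp (-(s * u))) - A * (1 / s) := by
      rw [← hEi, ← integral_const_mul, ← integral_sub hHi (hE.const_mul _)]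
      refine setIntegral_congr_fun measurableSet_Ioi fun u _ => ?_
      push_cast
      ring
    rw [hsplit, hGe _ h1, wic_laplace a ha C hC s hs, add_sub_cancel_right]
    field_simp
    ring
  have hv0 : 0 < v := by linarith
  have hl1 : 1 ≤ v ^ 2 := one_le_pow₀ (by linarith)
  have hl0 : 0 < v ^ 2 := by positivity
  have hd1 : 1 / v ≤ 1 / 2 := one_div_le_one_div_of_le (by norm_num) hv
  have e : v ^ 2 * (1 / v) = v := by field_simp
  have key := tauber_q hHm h0 hHC hA0 hA1 hmono' hl0 (one_div_pos.2 hv0) hd1 hy (e.symm ▸ hv')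
    (ε := 36 * v ^ 2 * N / Real.log x) fun y' hy' => by
      have hy0 : 0 < y' := by linarith
      rw [wia_eq (fun u => H u - A) hBm (C + |A|) hB _ hG' hGe' hl0 y']
      have h1 := osc (mul_pos hl0 hy0) fun t ht => path_bd hA0 hA1 hN hl1 hGb (t := t) ht
      have h2 : (2 * (4 * N) + 10 * v ^ 2 * N) / (v ^ 2 * y') ≤ 36 * N / Real.log x := by
        rw [div_le_div_iff₀ (by positivity) (by linarith)]
        have h3 : Real.log x ≤ 2 * y' := by linarith
        calc _ ≤ (18 * v ^ 2 * N) * (2 * y') := by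
              gcongr
              nlinarith
          _ = _ := by ring
      rw [show 36 * v ^ 2 * N / Real.log x = v ^ 2 * (36 * N / Real.log x) by ring]
      refine mul_le_mul_of_nonneg_left (le_trans (le_of_eq ?_) (h1.trans h2)) hl0.le
      congr 1
      refine intervalIntegral.integral_congr fun t _ => ?_
      have e1 : (((0 : ℝ) : ℂ) - ((t * v ^ 2 : ℝ) : ℂ) * I + 1) =
          1 + I * ((-(t * v ^ 2) : ℝ) : ℂ) := by push_cast; ring
      simp only [e1]
      rw [mul_assoc ((2 * (1 - t) : ℝ) : ℂ), Complex.re_ofReal_mul, mul_assoc t, mul_comm (cexp _)]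
  rw [e] at key
  simp only [hH] at key
  rwa [Real.exp_neg, Real.exp_log hx, ← div_eq_inv_mul] at key

end Pool.Agent.Lib.MP_458f0b_nt.Grow.SW
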