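import Pool.Agent.Lib.MP_458f0b_nt.Grow.SW3
import Pool.Agent.Lib.MP_458f0b_nt.Grow.SW4

/-! The von Mangoldt function in progressions, with an error term uniform in the modulus. -/

open Finset Filter Topology Complex ArithmeticFunction.vonMangoldt

namespace Pool.Agent.Lib.MP_458f0b_nt.Grow.SW

open Pool.Agent.Lib.MP_458f0b_nt.Pois

lemma cheb {q : ℕ} (a : ZMod q) (n : ℕ) :
    ∑ i ∈ Icc 1 n, residueClass a i ≤ (Real.log 4 + 4) * n := by
  have h := Chebyshev.psi_le_const_mul_self (Nat.cast_nonneg (α := ℝ) n)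
  rw [Chebyshev.psi, Nat.floor_natCast] at h
  refine le_trans ?_ h
  rw [← Finset.Icc_add_one_left_eq_Ioc, zero_add]
  exact sum_le_sum fun i _ => residueClass_le a i

lemma tot_inv (q : ℕ) [NeZero q] : 0 ≤ (q.totient : ℝ)⁻¹ ∧ (q.totient : ℝ)⁻¹ ≤ 1 :=
  ⟨by positivity, inv_le_one_of_one_le₀ (by exact_mod_cast Nat.totient_pos.2 (NeZero.pos q))⟩

theorem psi_q : ∃ K v₀ : ℝ, 0 < K ∧ ∀ (q : ℕ) [NeZero q] (a : ZMod q), IsUnit a →
    ∀ v x : ℝ, v₀ ≤ v → 0 < x → v ^ 300 ≤ Real.log x →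
      |(∑ n ∈ Icc 1 ⌊x⌋₊, residueClass a n) / x - (q.totient : ℝ)⁻¹| ≤ K * q ^ 73 / v := by
  have hJ := fej_integral_pos
  obtain ⟨B, hB⟩ : ∃ B : ℝ, B = 5488 := ⟨_, rfl⟩
  obtain ⟨C, hC⟩ : ∃ C : ℝ, C = Real.log 4 + 4 := ⟨_, rfl⟩
  have hB0 : 0 < B := by rw [hB]; norm_num
  have hC0 : 0 < C := by rw [hC]; positivity
  refine ⟨2 / (∫ u, fej u) * (36 * B ^ 73 + (C + 1) * 10) + 4 * C, max 2 (20 / ∫ u, fej u),
    by positivity, fun q _ a ha v x hv hx hL => ?_⟩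
  have hv2 : 2 ≤ v := (le_max_left _ _).trans hv
  have hv1 : 1 ≤ v := by linarith
  have hv0 : 0 < v := by linarith
  have hq := one_le_q (q := q)
  have hq73 : (1 : ℝ) ≤ q ^ 73 := one_le_pow₀ hq
  have H := bd (q := q) (one_le_pow₀ hv1 (n := 2))
  rw [← hB] at H
  have hM : 1 ≤ B * q * (v ^ 2) ^ 2 := le_trans (by norm_num) H.big
  have hL1 : 1 ≤ Real.log x := (one_le_pow₀ hv1).trans hL
  have key := wi_q _ (residueClass_nonneg a) (cheb a) (tot_inv q).1 (tot_inv q).2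
    (continuousOn_LFunctionResidueClassAux a)
    (fun s hs => by rw [eqOn_LFunctionResidueClassAux ha hs]; push_cast; rfl)
    (one_le_pow₀ hM (n := 73)) hv2 ((le_max_right _ _).trans hv) hx hL1 fun y hy =>
      ⟨(H.aux_bd ha hy).1.trans (pow_le_pow_right₀ hM (by norm_num)), (H.aux_bd ha hy).2⟩
  rw [← hC] at key
  refine key.trans ?_
  have h1 : 36 * v ^ 2 * (B * q * (v ^ 2) ^ 2) ^ 73 / Real.log x ≤ 36 * B ^ 73 * q ^ 73 / v := by
    rw [div_le_div_iff₀ (by linarith) hv0]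
    calc _ = 36 * B ^ 73 * q ^ 73 * v ^ 295 := by ring
      _ ≤ 36 * B ^ 73 * q ^ 73 * Real.log x :=
        mul_le_mul_of_nonneg_left ((pow_le_pow_right₀ hv1 (by norm_num)).trans hL) (by positivity)
  have h2 : (C + 1) * (10 / v) ≤ (C + 1) * 10 * q ^ 73 / v := by
    rw [← mul_div_assoc]
    exact div_le_div_of_nonneg_right (le_mul_of_one_le_right (by positivity) hq73) hv0.le
  have h3 : 4 * (1 / v) * C ≤ 4 * C * q ^ 73 / v := by
    rw [show 4 * (1 / v) * C = 4 * C / v by ring]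
    exact div_le_div_of_nonneg_right (le_mul_of_one_le_right (by positivity) hq73) hv0.le
  calc _ ≤ 2 / (∫ u, fej u) * (36 * B ^ 73 * q ^ 73 / v + (C + 1) * 10 * q ^ 73 / v)
        + 4 * C * q ^ 73 / v := by gcongr
    _ = _ := by ring

end Pool.Agent.Lib.MP_458f0b_nt.Grow.SW
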