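import Pool.Agent.Lib.MP_458f0b_nt.Grow.Dual

open Finset Filter Topology

namespace Pool.Agent.Lib.MP_458f0b_nt.Grow

open Pool.Agent.Lib.MP_458f0b_nt.Pois

lemma wcsx_scale {W L D X r : ℕ} {ν u φ : ℤ → ℝ} {ε c : ℝ} (hS : SLF W L D X r ν ε)
    (hu : ∀ d, |u d| ≤ 1) (hc : 0 < c) (hφ : ∀ n, |φ n| ≤ c) (hM : CellM W L X φ) {j : ℕ}
    (hj : j ≤ 2) :
    |∑ n ∈ Icc (1 : ℤ) X, (ν n - 1) * φ n * Dl D X r u n ^ j| ≤ c * (RR D X r ^ j * (ε * X)) := by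
  have h := hS j hj u (fun n => ind X n * (φ n / c)) hu (fun n => by
    rw [abs_mul, abs_of_nonneg (ind_nonneg X n), abs_div, abs_of_pos hc]
    exact mul_le_of_le_one_right (ind_nonneg X n) ((div_le_one hc).2 (hφ n)))
    ((cellM_ind W L X).mul (hM.comp fun x => x / c))
  have e : ∑ n ∈ Icc (1 : ℤ) X, (ν n - 1) * φ n * Dl D X r u n ^ j =
      c * ∑ n ∈ Icc (1 : ℤ) X, (ν n - 1) * (ind X n * (φ n / c)) * Dl D X r u n ^ j := by
    rw [Finset.mul_sum]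
    refine Finset.sum_congr rfl fun n hn => ?_
    rw [ind_of_mem hn]
    field_simp
  rw [e, abs_mul, abs_of_pos hc]
  exact mul_le_mul_of_nonneg_left h hc.le

lemma wcsx_mass {W L D X r : ℕ} {ν : ℤ → ℝ} {ε : ℝ} (hε : ε ≤ 1) (hS : SLF W L D X r ν ε) :
    ∑ n ∈ Icc (1 : ℤ) X, ν n ≤ 2 * X := by
  have h := wcsx_scale (u := fun _ => 0) (φ := fun _ => 1) hS (fun _ => by simp) one_pos
    (fun _ => by simp) (fun _ _ _ _ _ _ => rfl) (Nat.zero_le 2)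
  simp only [pow_zero, mul_one, one_mul] at h
  rw [Finset.sum_sub_distrib, Finset.sum_const, Int.card_Icc, nsmul_eq_mul, mul_one,
    add_sub_cancel_right, Int.toNat_natCast] at h
  have h1 := (abs_le.1 h).2
  have h2 : ε * X ≤ X := mul_le_of_le_one_left (Nat.cast_nonneg X) hε
  linarith

lemma wcsx_sq {W L D X r : ℕ} {ν u : ℤ → ℝ} {ε : ℝ} (hD : 0 < D) (hS : SLF W L D X r ν ε)
    (hu : ∀ d, |u d| ≤ 1) :
    ∑ n ∈ Icc (1 : ℤ) X, (ν n - 1) * (Dl D X r u n - cellAv W L X (Dl D X r u) n) ^ 2 ≤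
      4 * RR D X r ^ 2 * (ε * X) := by
  have hR : 0 < RR D X r := by
    unfold RR
    have : (0 : ℝ) < D := by exact_mod_cast hD
    positivity
  have hb : ∀ n, |cellAv W L X (Dl D X r u) n| ≤ RR D X r :=
    abs_cellAv_le hR.le fun n _ => abs_Dl_le D X r hu n
  have hm := cellM_cellAv W L X (Dl D X r u)
  have h2 := wcsx_scale (φ := fun _ => 1) hS hu one_pos (fun _ => by simp)
    (fun _ _ _ _ _ _ => rfl) (le_refl 2)
  have h1 := wcsx_scale hS hu hR hb hm one_le_two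
  have h0 := wcsx_scale (φ := fun n => cellAv W L X (Dl D X r u) n ^ 2) hS hu (pow_pos hR 2)
    (fun n => by
      rw [abs_pow]
      exact pow_le_pow_left₀ (abs_nonneg _) (hb n) 2) (hm.comp fun x => x ^ 2) (Nat.zero_le 2)
  have e : ∑ n ∈ Icc (1 : ℤ) X, (ν n - 1) * (Dl D X r u n - cellAv W L X (Dl D X r u) n) ^ 2 =
      ∑ n ∈ Icc (1 : ℤ) X, (ν n - 1) * 1 * Dl D X r u n ^ 2 -
        2 * ∑ n ∈ Icc (1 : ℤ) X, (ν n - 1) * cellAv W L X (Dl D X r u) n * Dl D X r u n ^ 1 +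
        ∑ n ∈ Icc (1 : ℤ) X, (ν n - 1) * cellAv W L X (Dl D X r u) n ^ 2 * Dl D X r u n ^ 0 := by
    rw [Finset.mul_sum, ← Finset.sum_sub_distrib, ← Finset.sum_add_distrib]
    exact Finset.sum_congr rfl fun n _ => by ring
  rw [e]
  have a2 := (abs_le.1 h2).2
  have a1 := (abs_le.1 h1).1
  have a0 := (abs_le.1 h0).2
  have e1 : RR D X r * (RR D X r ^ 1 * (ε * X)) = RR D X r ^ 2 * (ε * X) := by ring
  have e0 : RR D X r ^ 2 * (RR D X r ^ 0 * (ε * X)) = RR D X r ^ 2 * (ε * X) := by ring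
  rw [e1] at a1
  rw [e0] at a0
  linarith

theorem weighted_cs {W L D X r : ℕ} {ν H u : ℤ → ℝ} {ε B κ : ℝ} (hD : 0 < D)
    (hν0 : ∀ n, 0 ≤ ν n) (hε0 : 0 ≤ ε) (hε : ε ≤ 1) (hS : SLF W L D X r ν ε)
    (hu : ∀ d, |u d| ≤ 1) (hB : 0 ≤ B) (hκ : 0 ≤ κ)
    (hH : ∀ n ∈ Icc (1 : ℤ) X, |H n| ≤ B * ν n + κ) :
    |∑ n ∈ Icc (1 : ℤ) X, H n * (Dl D X r u n - cellAv W L X (Dl D X r u) n)| ≤
      √(2 * (B + κ) * X) *
        √((B + κ) * nn X (fun n => Dl D X r u n - cellAv W L X (Dl D X r u) n) +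
          4 * B * RR D X r ^ 2 * (ε * X)) := by
  have hq := wcsx_sq hD hS hu
  have hm := wcsx_mass hε hS
  unfold nn
  beta_reduce
  set g : ℤ → ℝ := fun n => Dl D X r u n - cellAv W L X (Dl D X r u) n with hg
  have hX : (0 : ℝ) ≤ X := Nat.cast_nonneg X
  have hw : ∀ n, 0 ≤ B * ν n + κ := fun n => add_nonneg (mul_nonneg hB (hν0 n)) hκ
  have h1 : |∑ n ∈ Icc (1 : ℤ) X, H n * g n| ≤ ∑ n ∈ Icc (1 : ℤ) X, (B * ν n + κ) * |g n| := by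
    refine (Finset.abs_sum_le_sum_abs _ _).trans (Finset.sum_le_sum fun n hn => ?_)
    rw [abs_mul]
    exact mul_le_mul_of_nonneg_right (hH n hn) (abs_nonneg _)
  have h2 : (∑ n ∈ Icc (1 : ℤ) X, (B * ν n + κ) * |g n|) ^ 2 ≤
      (∑ n ∈ Icc (1 : ℤ) X, (B * ν n + κ)) * ∑ n ∈ Icc (1 : ℤ) X, (B * ν n + κ) * g n ^ 2 :=
    Finset.sum_sq_le_sum_mul_sum_of_sq_le_mul _ (fun n _ => hw n)
      (fun n _ => mul_nonneg (hw n) (sq_nonneg _)) fun n _ =>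
        le_of_eq (by rw [mul_pow, sq_abs]; ring)
  have h3 : ∑ n ∈ Icc (1 : ℤ) X, (B * ν n + κ) ≤ 2 * (B + κ) * X := by
    rw [Finset.sum_add_distrib, ← Finset.mul_sum, Finset.sum_const, Int.card_Icc, nsmul_eq_mul,
      add_sub_cancel_right, Int.toNat_natCast]
    have := mul_le_mul_of_nonneg_left hm hB
    have := mul_nonneg hκ hX
    linarith
  have h4 : ∑ n ∈ Icc (1 : ℤ) X, (B * ν n + κ) * g n ^ 2 ≤
      (B + κ) * ∑ n ∈ Icc (1 : ℤ) X, g n ^ 2 + 4 * B * RR D X r ^ 2 * (ε * X) := by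
    have e : ∑ n ∈ Icc (1 : ℤ) X, (B * ν n + κ) * g n ^ 2 =
        (B + κ) * ∑ n ∈ Icc (1 : ℤ) X, g n ^ 2 +
          B * ∑ n ∈ Icc (1 : ℤ) X, (ν n - 1) * g n ^ 2 := by
      rw [Finset.mul_sum, Finset.mul_sum, ← Finset.sum_add_distrib]
      exact Finset.sum_congr rfl fun n _ => by ring
    have := mul_le_mul_of_nonneg_left hq hB
    rw [e]
    linarith
  have h5 : 0 ≤ 2 * (B + κ) * X := by positivity
  have h6 : 0 ≤ ∑ n ∈ Icc (1 : ℤ) X, (B * ν n + κ) * g n ^ 2 :=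
    Finset.sum_nonneg fun n _ => mul_nonneg (hw n) (sq_nonneg _)
  rw [← Real.sqrt_mul h5]
  exact h1.trans (Real.le_sqrt_of_sq_le (h2.trans (mul_le_mul h3 h4 h6 h5)))

end Pool.Agent.Lib.MP_458f0b_nt.Grow
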