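import Pool.Agent.Lib.MP_458f0b_nt.Grow.CellL2
import Pool.Agent.Lib.MP_458f0b_nt.Grow.WCSx

open Finset Filter Topology

namespace Pool.Agent.Lib.MP_458f0b_nt.Grow

open Pool.Agent.Lib.MP_458f0b_nt.Pois

lemma stepx_one {x c : ℝ} (hc : 0 ≤ c) (h : x ≤ c ^ 2) : √x ≤ c :=
  Real.sqrt_le_iff.2 ⟨hc, h⟩

lemma stepx_two {x y a b : ℝ} (hx : 0 ≤ x) (ha : 0 ≤ a) (hb : 0 ≤ b) (h : x * y ≤ a ^ 2 + b ^ 2) :
    √x * √y ≤ a + b := by
  rw [← Real.sqrt_mul hx]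
  exact stepx_one (add_nonneg ha hb) (h.trans (by nlinarith [mul_nonneg ha hb]))

lemma stepx_pair_sub (D X r : ℕ) (u : ℤ → ℝ) (F G : ℤ → ℤ → ℝ) :
    Pair D X r u (fun d a => F d a - G d a) = Pair D X r u F - Pair D X r u G := by
  unfold Pair
  rw [← SC_sub]
  congr 1
  funext d a
  ring

lemma stepx_nn_nu0 {X w : ℕ} (hnu : ∑ n ∈ Icc (1 : ℤ) X, nu0 w n ≤ 2 * X) :
    nn X (nu0 w) ≤ kap w * (2 * X) := by
  have h1 : nn X (nu0 w) ≤ ∑ n ∈ Icc (1 : ℤ) X, kap w * nu0 w n :=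
    Finset.sum_le_sum fun n _ => by
      rw [sq]
      exact mul_le_mul_of_nonneg_right (nu0_le w n) (nu0_nonneg w n)
  rw [← Finset.mul_sum] at h1
  exact h1.trans (mul_le_mul_of_nonneg_left hnu (kap_pos w).le)

lemma stepx_split {D : ℕ} (hD : 0 < D) (X r w L : ℕ) (u : ℤ → ℝ) :
    Real.log X * Pair D X (r + 1) u (fun _ _ => 1) =
      ∑ n ∈ Icc (1 : ℤ) X, nu0 w n * Dl D X r u n +
      ∑ n ∈ Icc (1 : ℤ) X, (pr X n - nu0 w n) *
        (Dl D X r u n - cellAv w.factorial L X (Dl D X r u) n) +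
      ∑ n ∈ Icc (1 : ℤ) X,
        cellAv w.factorial L X (fun n => pr X n - nu0 w n) n * Dl D X r u n := by
  rw [← cellAv_adj, ← sum_pi_Dl hD, Finset.mul_sum, ← Finset.sum_add_distrib,
    ← Finset.sum_add_distrib]
  refine Finset.sum_congr rfl fun n _ => ?_
  rw [pr_eq]
  ring

lemma stepx_cs {a b c M M0 K S D X N : ℝ} (hD : 0 ≤ D) (hM0 : 0 ≤ M) (hM : M ≤ M0)
    (hX : 0 ≤ X) (hK : 0 ≤ K) (hS : 0 ≤ S) (hS2 : S ^ 2 = D * X * M0)
    (hb : 0 ≤ b) (hc : 0 ≤ c) (ha : a ≤ c ^ 2) (hN : N ≤ a * K ^ 2 * X) :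
    b * √(D * N * M) ≤ c * K * b * S := by
  have h1 : D * N * M ≤ (c * K * S) ^ 2 := by
    have h2 : N ≤ c ^ 2 * K ^ 2 * X := hN.trans (by gcongr)
    calc D * N * M ≤ D * (c ^ 2 * K ^ 2 * X) * M0 := by gcongr
      _ = (c * K * S) ^ 2 := by rw [mul_pow, hS2]; ring
  have h3 := stepx_one (by positivity) h1
  calc b * √(D * N * M) ≤ b * (c * K * S) := by gcongr
    _ = c * K * b * S := by ring

theorem step_abs {D X r w L : ℕ} (hD : 0 < D) {u ν : ℤ → ℝ} (hu : ∀ d, |u d| ≤ 1)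
    {η Γ ε Z B E0 V0 M0 : ℝ} (hη : 0 ≤ η) (hΓ : 0 ≤ Γ)
    (hop : ∀ f E, Flat w L X f E → AA D X f ≤ η * D * nn X f + Γ * E ^ 2)
    (hν0 : ∀ n, 0 ≤ ν n) (hνZ : ∀ n, ν n ≤ Z) (hZ : 1 ≤ Z) (hε0 : 0 ≤ ε) (hε : Z * ε ≤ 1)
    (hS : SLF w.factorial L D X r ν ε) (hB : 0 ≤ B)
    (hpr : ∀ n, pr X n ≤ B * (ind X n * ν n))
    (hflat : Flat w L X (fun n => pr X n - nu0 w n) E0) (hE0 : 0 ≤ E0)
    (hV : SC D (fun d a => (cs X (nu0 w) d a - mean0 w X d a) ^ 2) ≤ V0)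
    (hM : Mo D X (2 * r) ≤ M0) (hnu : ∑ n ∈ Icc (1 : ℤ) X, nu0 w n ≤ 2 * X) :
    |Real.log X * Pair D X (r + 1) u (fun _ _ => 1) - Pair D X r u (mean0 w X)| ≤
      6 * (B + kap w) * (√η + r) * √(D * X * M0) + √(M0 * V0) + √(M0 * Γ) * E0 +
        3 * (B + kap w) * RR D X r * X * √ε := by
  have hk1 := one_le_kap w
  have hMn := Mo_nonneg D X (2 * r)
  have hM0 : 0 ≤ M0 := hMn.trans hM
  have hDn : (0 : ℝ) ≤ D := Nat.cast_nonneg D
  have hXn : (0 : ℝ) ≤ X := Nat.cast_nonneg X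
  have hrn : (0 : ℝ) ≤ r := Nat.cast_nonneg r
  have hR := RR_nonneg D X r
  have hε1 : ε ≤ 1 := by nlinarith
  have hH : ∀ n ∈ Icc (1 : ℤ) X, |pr X n - nu0 w n| ≤ B * ν n + kap w := fun n hn => by
    have h1 := hpr n
    rw [ind_of_mem hn, one_mul] at h1
    have h2 := pr_nonneg X n
    have h3 := nu0_le w n
    have h4 := nu0_nonneg w n
    have h5 := mul_nonneg hB (hν0 n)
    rw [abs_le]
    constructor <;> linarith
  have hS2 : √(D * X * M0) ^ 2 = D * X * M0 := Real.sq_sqrt (by positivity)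
  have hs2 : √η ^ 2 = η := Real.sq_sqrt hη
  have hT2 : √(M0 * Γ) ^ 2 = M0 * Γ := Real.sq_sqrt (by positivity)
  have he2 : √ε ^ 2 = ε := Real.sq_sqrt hε0
  have hS0 := Real.sqrt_nonneg (D * X * M0)
  have hs0 := Real.sqrt_nonneg η
  have hT0 := Real.sqrt_nonneg (M0 * Γ)
  have he0 := Real.sqrt_nonneg ε
  have a1 := pair_excl hD X r hu (nu0 w)
  have a2 := pair_cs D X r hu (fun d a => cs X (nu0 w) d a - mean0 w X d a)
  have a3 := pair_excl hD X r hu (cellAv w.factorial L X (fun n => pr X n - nu0 w n))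
  have a4 := pair_cs D X r hu (cs X (cellAv w.factorial L X (fun n => pr X n - nu0 w n)))
  have a5 := weighted_cs (H := fun n => pr X n - nu0 w n) hD hν0 hε0 hε1 hS hu hB
    (kap_pos w).le hH
  have b1 := stepx_nn_nu0 hnu
  have b3 := hbar_L2 (H := fun n => pr X n - nu0 w n) hν0 hνZ hZ hε0 hε hS hB (kap_pos w).le hH
  have b4 := hop _ _ (flat_cellAv hflat)
  have b5 := delta0_L2 (r := r) hD hu hη hop
  rw [stepx_pair_sub] at a2
  rw [stepx_split hD X r w L u]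
  set K := B + kap w with hK
  have hK1 : 1 ≤ K := by linarith
  have hK0 : 0 ≤ K := by linarith
  have hkK : kap w ≤ K ^ 2 := by nlinarith
  have c1 := a1.trans (stepx_cs (a := 2) (c := 3 / 2) (K := K) hDn hMn hM hXn hK0
    hS0 hS2 hrn (by norm_num) (by norm_num) (b1.trans (by
      have := mul_le_mul_of_nonneg_right hkK hXn
      linarith)))
  have c3 := a3.trans (stepx_cs (a := 6) (c := 5 / 2) (K := K) hDn hMn hM hXn hK0
    hS0 hS2 hrn (by norm_num) (by norm_num) b3)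
  have c2 : _ ≤ √(M0 * V0) := a2.trans (by
    rw [← Real.sqrt_mul hMn]
    exact Real.sqrt_le_sqrt (mul_le_mul hM hV (SC_nonneg D fun _ _ => sq_nonneg _) hM0))
  have c4 : _ ≤ 5 / 2 * K * √η * √(D * X * M0) + √(M0 * Γ) * E0 :=
    a4.trans (stepx_two hMn (by positivity) (by positivity) (by
      have h1 : AA D X (cellAv w.factorial L X (fun n => pr X n - nu0 w n)) ≤
          η * D * (6 * K ^ 2 * X) + Γ * E0 ^ 2 := b4.trans (by gcongr)
      have h2 := mul_le_mul hM h1 (AA_nonneg _ _ _) hM0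
      refine h2.trans ?_
      rw [mul_pow, mul_pow, mul_pow, mul_pow, hS2, hs2, hT2]
      have h3 : 0 ≤ K ^ 2 * η * (D * X * M0) := by positivity
      linarith))
  have c5 : _ ≤ 3 / 2 * K * (√η + r) * √(D * X * M0) + 3 * K * RR D X r * X * √ε :=
    a5.trans (stepx_two (by positivity) (by positivity) (by positivity) (by
      have h1 : nn X (fun n => Dl D X r u n - cellAv w.factorial L X (Dl D X r u) n) ≤
          (√η + r) ^ 2 * (D * M0) := b5.trans (by gcongr)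
      have hBK : B ≤ K := by linarith
      have h2 : K * nn X (fun n => Dl D X r u n - cellAv w.factorial L X (Dl D X r u) n) +
          4 * B * RR D X r ^ 2 * (ε * X) ≤
          K * ((√η + r) ^ 2 * (D * M0)) + 4 * K * RR D X r ^ 2 * (ε * X) := by gcongr
      refine (mul_le_mul_of_nonneg_left h2 (by positivity)).trans ?_
      rw [mul_pow, mul_pow, mul_pow, mul_pow, mul_pow, mul_pow, mul_pow, hS2, he2]
      have h3 : 0 ≤ K ^ 2 * (√η + r) ^ 2 * (D * X * M0) := by positivity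
      have h4 : 0 ≤ K ^ 2 * RR D X r ^ 2 * (X : ℝ) ^ 2 * ε := by positivity
      linarith))
  have d1 : 0 ≤ K * r * √(D * X * M0) := by positivity
  have d2 : 0 ≤ K * √η * √(D * X * M0) := by positivity
  rw [abs_le] at c1 c2 c3 c4 c5 ⊢
  constructor <;> linarith [c1.1, c1.2, c2.1, c2.2, c3.1, c3.2, c4.1, c4.2, c5.1, c5.2]

end Pool.Agent.Lib.MP_458f0b_nt.Grow
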