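import Pool.Agent.Lib.MP_458f0b_nt.Grow.Defs

open Finset Filter Topology

namespace Pool.Agent.Lib.MP_458f0b_nt.Grow

open Pool.Agent.Lib.MP_458f0b_nt.Pois

/-- indicator of the multiples of `p` -/
noncomputable def varperI (p : ℕ) (x : ℤ) : ℝ := if (p : ℤ) ∣ x then 1 else 0

/-- local factor of the model -/
noncomputable def varperN (p : ℕ) (x : ℤ) : ℝ := (1 - (p : ℝ)⁻¹)⁻¹ * (1 - varperI p x)

/-- local correlation -/
noncomputable def varperK (p : ℕ) (x : ℤ) : ℝ :=
  1 - ((p : ℝ) - 1)⁻¹ ^ 2 + p * ((p : ℝ) - 1)⁻¹ ^ 2 * varperI p x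

/-- the model (`σ` true) and its mean along the progression (`σ` false) -/
noncomputable def varperF (w : ℕ) (d : ℤ) (σ : Bool) (x a : ℤ) : ℝ :=
  ∏ p ∈ w.primesLE, if (p : ℤ) ∣ d ∨ σ = true then varperN p (a + x * d) else 1

lemma varper_I_congr {p : ℕ} {x y : ℤ} (h : (p : ℤ) ∣ x - y) : varperI p x = varperI p y := by
  simp only [varperI, dvd_iff_dvd_of_dvd_sub h]

lemma varper_crt (S : Finset ℕ) (hS : ∀ p ∈ S, p.Prime) (G : ℕ → ℤ → ℝ)
    (hG : ∀ p ∈ S, ∀ x y, (p : ℤ) ∣ x - y → G p x = G p y) :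
    ∑ a ∈ Ico (0 : ℤ) (∏ p ∈ S, p : ℕ), ∏ p ∈ S, G p a
      = (∏ p ∈ S, p : ℕ) * ∏ p ∈ S, ((∑ i ∈ range p, G p (0 + i)) / p) := by
  have hpos : (0 : ℝ) < (∏ p ∈ S, p : ℕ) := by
    exact_mod_cast prod_pos fun p hp => (hS p hp).pos
  have h1 := count_box1 (∏ p ∈ S, p) fun a => ∏ p ∈ S, G p a
  have h2 := box_crt (U := Unit) S hS (fun p t => G p (t ())) fun p hp t t' h => hG p hp _ _ (h ())
  have h3 := count_range (fun a => ∏ p ∈ S, G p a) 0 (∏ p ∈ S, p)
  rw [zero_add] at h3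
  rw [h2, eq_div_iff hpos.ne', ← h3] at h1
  rw [← h1, mul_comm]
  congr 1
  exact prod_congr rfl fun p _ => count_box1 p (G p)

lemma varper_one {p : ℕ} (hp : p.Prime) (x : ℤ) : ∑ i ∈ range p, varperI p (0 + i + x) = 1 := by
  have h0 : (p : ℝ) ≠ 0 := Nat.cast_ne_zero.2 hp.ne_zero
  have h1 := box_form (U := Unit) hp x (fun _ => 1)
    ⟨(), fun h => hp.one_lt.ne' (by exact_mod_cast Int.eq_one_of_dvd_one (by positivity) h)⟩
  have h2 := count_box1 p fun a => varperI p (a + x)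
  have h3 : (fun t : Unit → ℤ => varperI p (t () + x))
      = fun t => if (p : ℤ) ∣ frm x (fun _ => 1) t then (1 : ℝ) else 0 := by
    funext t
    simp [varperI, frm, add_comm]
  rw [h3, h1, eq_div_iff h0, inv_mul_cancel₀ h0] at h2
  exact h2.symm

lemma varper_II (p : ℕ) (a x y : ℤ) :
    varperI p (a + x) * varperI p (a + y) = varperI p (a + x) * varperI p (x - y) := by
  by_cases h : (p : ℤ) ∣ a + x
  · congr 1
    unfold varperI
    rw [show x - y = (a + x) - (a + y) by ring]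
    simp only [dvd_sub_right h]
  · simp [varperI, h]

lemma varper_N1 {p : ℕ} (hp : p.Prime) (x : ℤ) :
    (∑ i ∈ range p, varperN p (0 + i + x)) / p = 1 := by
  have h0 : (p : ℝ) ≠ 0 := Nat.cast_ne_zero.2 hp.ne_zero
  have h1 : (p : ℝ) - 1 ≠ 0 := sub_ne_zero.2 (by exact_mod_cast hp.ne_one)
  simp only [varperN, ← mul_sum, sum_sub_distrib, varper_one hp, sum_const, card_range,
    nsmul_eq_mul, mul_one]
  field_simp

lemma varper_N2 {p : ℕ} (hp : p.Prime) (x y : ℤ) :
    (∑ i ∈ range p, varperN p (0 + i + x) * varperN p (0 + i + y)) / p = varperK p (x - y) := by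
  have h0 : (p : ℝ) ≠ 0 := Nat.cast_ne_zero.2 hp.ne_zero
  have h1 : (p : ℝ) - 1 ≠ 0 := sub_ne_zero.2 (by exact_mod_cast hp.ne_one)
  have h2 : ∀ a, varperN p (a + x) * varperN p (a + y) = (1 - (p : ℝ)⁻¹)⁻¹ ^ 2 *
      (1 - varperI p (a + x) - varperI p (a + y) + varperI p (a + x) * varperI p (x - y)) := by
    intro a
    rw [← varper_II, varperN, varperN]
    ring
  simp only [h2, ← mul_sum, sum_add_distrib, sum_sub_distrib, ← sum_mul, varper_one hp, sum_const,
    card_range, nsmul_eq_mul, mul_one, varperK]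
  field_simp
  ring

lemma varper_K_dvd {p : ℕ} (hp : p.Prime) {x : ℤ} (h : (p : ℤ) ∣ x) :
    varperK p x = (1 - (p : ℝ)⁻¹)⁻¹ := by
  have h0 : (p : ℝ) ≠ 0 := Nat.cast_ne_zero.2 hp.ne_zero
  have h1 : (p : ℝ) - 1 ≠ 0 := sub_ne_zero.2 (by exact_mod_cast hp.ne_one)
  rw [varperK, varperI, if_pos h]
  field_simp
  ring

lemma varper_om (w : ℕ) (d : ℤ) :
    (om w d)⁻¹ = ∏ p ∈ w.primesLE.filter (fun p : ℕ => (p : ℤ) ∣ d), (1 - (p : ℝ)⁻¹)⁻¹ := by
  rw [om, V, prod_inv_distrib]

lemma varper_FF (w : ℕ) (d : ℤ) (σ τ : Bool) (x y : ℤ) :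
    ∑ a ∈ Ico (0 : ℤ) (∏ p ∈ w.primesLE, p : ℕ), varperF w d σ x a * varperF w d τ y a
      = (∏ p ∈ w.primesLE, p : ℕ) * ((om w d)⁻¹ *
        ∏ p ∈ w.primesLE.filter (fun p : ℕ => ¬ (p : ℤ) ∣ d),
          if σ = true ∧ τ = true then varperK p (x - y) else 1) := by
  simp only [varperF, ← prod_mul_distrib]
  rw [varper_crt _ (fun _ => Nat.prime_of_mem_primesLE) (fun p a =>
    (if (p : ℤ) ∣ d ∨ σ = true then varperN p (a + x * d) else 1) *
      if (p : ℤ) ∣ d ∨ τ = true then varperN p (a + y * d) else 1) fun p _ a b h => by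
      simp only [varperN, varper_I_congr (show (p : ℤ) ∣ a + x * d - (b + x * d) by simpa using h),
        varper_I_congr (show (p : ℤ) ∣ a + y * d - (b + y * d) by simpa using h)],
    ← prod_filter_mul_prod_filter_not w.primesLE (fun p : ℕ => (p : ℤ) ∣ d)
      fun p : ℕ => (_ : ℝ) / p, varper_om]
  refine congrArg _ (congrArg₂ _ ?_ ?_)
  · refine prod_congr rfl fun p hp => ?_
    have hp' := Nat.prime_of_mem_primesLE (mem_filter.1 hp).1
    have hd := (mem_filter.1 hp).2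
    simp only [hd, true_or, if_true]
    rw [varper_N2 hp', varper_K_dvd hp' (dvd_sub (hd.mul_left _) (hd.mul_left _))]
  · refine prod_congr rfl fun p hp => ?_
    have hp' := Nat.prime_of_mem_primesLE (mem_filter.1 hp).1
    have hd := (mem_filter.1 hp).2
    have h0 : (p : ℝ) ≠ 0 := Nat.cast_ne_zero.2 hp'.ne_zero
    cases σ <;> cases τ <;>
      simp only [hd, false_or, Bool.false_eq_true, if_false, if_true, mul_one, one_mul, and_self,
        and_false, false_and, varper_N1 hp', varper_N2 hp']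
    · simp [h0]
    · rw [← sub_mul]
      simp only [varperK, varperI, (Nat.prime_iff_prime_int.1 hp').dvd_mul, hd, or_false]

lemma varper_F1 (w : ℕ) (d x a : ℤ) : varperF w d true x a = nu0 w (a + x * d) := by
  simp only [varperF, or_true, if_true, varperN, prod_mul_distrib, nu0, nu]
  split_ifs with h
  · rw [prod_eq_one (f := fun p => 1 - varperI p (a + x * d)) fun p hp => by
      rw [varperI, if_neg (h p hp), sub_zero], mul_one, V, prod_inv_distrib]
  · push Not at h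
    obtain ⟨p, hp, h⟩ := h
    rw [prod_eq_zero (f := fun p => 1 - varperI p (a + x * d)) hp (by
      rw [varperI, if_pos h, sub_self]), mul_zero]

lemma varper_F0 (w : ℕ) (d a : ℤ) :
    varperF w d false 0 a = if Cop w d a then (om w d)⁻¹ else 0 := by
  simp only [varperF, Bool.false_eq_true, or_false, zero_mul, add_zero]
  split_ifs with h
  · rw [varper_om, prod_filter]
    refine prod_congr rfl fun p hp => ?_
    split_ifs with hd
    · rw [varperN, varperI, if_neg (h p hp hd), sub_zero, mul_one]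
    · rfl
  · unfold Cop at h
    push Not at h
    obtain ⟨p, hp, hd, h⟩ := h
    exact prod_eq_zero hp (by rw [if_pos hd, varperN, varperI, if_pos h, sub_self, mul_zero])

lemma varper_cnt (n m : ℕ) (x : ℤ) :
    ∑ y ∈ range n, varperI m (x - y) ≤ n / m + 1 := by
  have h1 : ((range n).filter fun y : ℕ => (m : ℤ) ∣ x - y).card ≤ (range (n / m + 1)).card := by
    refine card_le_card_of_injOn (fun y => y / m) (fun y hy => ?_) fun y hy z hz e => ?_
    · have := mem_range.1 (mem_filter.1 hy).1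
      exact mem_coe.2 (mem_range.2 (Nat.lt_succ_of_le (Nat.div_le_div_right this.le)))
    · have a := dvd_sub (mem_filter.1 hy).2 (mem_filter.1 hz).2
      rw [show x - y - (x - z) = z - y by ring, ← Nat.modEq_iff_dvd] at a
      rw [← Nat.div_add_mod y m, ← Nat.div_add_mod z m, a]
      exact congrArg (fun t => m * t + z % m) e
  rw [card_range] at h1
  simp only [varperI, sum_boole]
  refine (Nat.cast_le.2 h1).trans ?_
  push_cast
  linarith [Nat.cast_div_le (α := ℝ) (m := n) (n := m)]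

lemma varper_row (n : ℕ) (x : ℤ) (T : Finset ℕ) (hT : ∀ p ∈ T, p.Prime) :
    ∀ m : ℕ, 0 < m → (∀ p ∈ T, ¬ p ∣ m) →
      ∑ y ∈ range n, varperI m (x - y) * ∏ p ∈ T, varperK p (x - y)
        ≤ n / m + ∏ p ∈ T, (1 - (p : ℝ)⁻¹)⁻¹ := by
  induction T using Finset.induction_on with
  | empty => intro m _ _; simpa using varper_cnt n m x
  | insert p T hpT ih =>
    intro m hm h
    have hp := hT p (mem_insert_self _ _)
    have hT' : ∀ q ∈ T, q.Prime := fun q hq => hT q (mem_insert_of_mem hq)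
    have h1 := ih hT' m hm fun q hq => h q (mem_insert_of_mem hq)
    have h2 := ih hT' (m * p) (Nat.mul_pos hm hp.pos) fun q hq e =>
      (((hT' q hq).dvd_mul).1 e).elim (h q (mem_insert_of_mem hq)) fun e' =>
        hpT ((Nat.prime_dvd_prime_iff_eq (hT' q hq) hp).1 e' ▸ hq)
    have h3 : ∀ z, varperI (m * p) z = varperI m z * varperI p z := fun z => by
      have c : IsCoprime (m : ℤ) p := Nat.isCoprime_iff_coprime.2
        ((hp.coprime_iff_not_dvd.2 (h p (mem_insert_self _ _))).symm)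
      unfold varperI
      push_cast
      by_cases a : (m : ℤ) ∣ z <;> by_cases b : (p : ℤ) ∣ z
      · simp [a, b, c.mul_dvd a b]
      · rw [if_neg fun e => b (dvd_of_mul_left_dvd e), if_neg b, mul_zero]
      · rw [if_neg fun e => a (dvd_of_mul_right_dvd e), if_neg a, zero_mul]
      · rw [if_neg fun e => a (dvd_of_mul_right_dvd e), if_neg a, zero_mul]
    have p2 : (2 : ℝ) ≤ p := by exact_mod_cast hp.two_le
    have m0 : (0 : ℝ) < m := by exact_mod_cast hm
    have b1 : ((p : ℝ) - 1)⁻¹ ^ 2 ≤ 1 :=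
      pow_le_one₀ (inv_nonneg.2 (by linarith)) (inv_le_one_of_one_le₀ (by linarith))
    have b2 := varper_K_dvd hp (dvd_zero (p : ℤ))
    rw [varperK, varperI, if_pos (dvd_zero _), mul_one] at b2
    have b3 : (p : ℝ) * (n / (m * p : ℕ)) = n / m := by
      push_cast
      field_simp
    have h4 : ∑ y ∈ range n, varperI m (x - y) * ∏ p ∈ insert p T, varperK p (x - y)
        = (1 - ((p : ℝ) - 1)⁻¹ ^ 2) *
            ∑ y ∈ range n, varperI m (x - y) * ∏ p ∈ T, varperK p (x - y)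
          + p * ((p : ℝ) - 1)⁻¹ ^ 2 *
            ∑ y ∈ range n, varperI (m * p) (x - y) * ∏ p ∈ T, varperK p (x - y) := by
      rw [mul_sum, mul_sum, ← sum_add_distrib]
      refine sum_congr rfl fun y _ => ?_
      rw [prod_insert hpT, h3, varperK]
      ring
    rw [h4, prod_insert hpT, ← b2]
    refine (add_le_add (mul_le_mul_of_nonneg_left h1 (sub_nonneg.2 b1))
      (mul_le_mul_of_nonneg_left h2 (by positivity))).trans (le_of_eq ?_)
    linear_combination ((p : ℝ) - 1)⁻¹ ^ 2 * b3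

theorem var_per (w n : ℕ) (d : ℤ) :
    ∑ a ∈ Ico (0 : ℤ) (∏ p ∈ w.primesLE, p : ℕ), (∑ q ∈ range n, nu0 w (a + q * d) -
        n * (if Cop w d a then (om w d)⁻¹ else 0)) ^ 2 ≤
      (∏ p ∈ w.primesLE, p : ℕ) * (n * kap w ^ 2) := by
  have h1 : ∀ a, (∑ q ∈ range n, nu0 w (a + q * d) -
        n * (if Cop w d a then (om w d)⁻¹ else 0)) ^ 2
      = ∑ q ∈ range n, ∑ q' ∈ range n, varperF w d true q a * varperF w d true q' a
        - 2 * n * ∑ q ∈ range n, varperF w d true q a * varperF w d false 0 a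
        + n ^ 2 * (varperF w d false 0 a * varperF w d false 0 a) := fun a => by
    rw [← sum_mul_sum, ← sum_mul, ← varper_F0]
    simp only [varper_F1]
    ring
  have h2 : ∀ q : ℕ, ∑ q' ∈ range n, ∏ p ∈ w.primesLE.filter (fun p : ℕ => ¬ (p : ℤ) ∣ d),
      varperK p ((q : ℤ) - q') ≤ n + ∏ p ∈ w.primesLE.filter (fun p : ℕ => ¬ (p : ℤ) ∣ d),
        (1 - (p : ℝ)⁻¹)⁻¹ := fun q => by
    simpa [varperI] using varper_row n q _
      (fun p hp => Nat.prime_of_mem_primesLE (mem_filter.1 hp).1) 1 one_pos fun p hp =>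
        (Nat.prime_of_mem_primesLE (mem_filter.1 hp).1).not_dvd_one
  have h3 := sum_le_sum (s := range n) fun q _ => h2 q
  have h4 : (om w d)⁻¹ * ∏ p ∈ w.primesLE.filter (fun p : ℕ => ¬ (p : ℤ) ∣ d),
      (1 - (p : ℝ)⁻¹)⁻¹ = kap w := by
    rw [varper_om, prod_filter_mul_prod_filter_not, kap_eq_prod]
  rw [sum_const, card_range, nsmul_eq_mul] at h3
  rw [sum_congr rfl fun a _ => h1 a, sum_add_distrib, sum_sub_distrib, ← mul_sum, ← mul_sum,
    sum_comm, sum_congr rfl fun q _ => sum_comm, sum_comm (s := Ico _ _)]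
  simp only [varper_FF, and_self, if_true, Bool.false_eq_true, and_false, if_false, prod_const_one,
    mul_one, ← mul_sum, sum_const, card_range, nsmul_eq_mul]
  have h5 := mul_le_mul_of_nonneg_left h3 (inv_pos.2 (om_pos w d)).le
  have h6 : (n : ℝ) * kap w ≤ n * kap w ^ 2 :=
    mul_le_mul_of_nonneg_left (le_self_pow₀ (one_le_kap w) two_ne_zero) (Nat.cast_nonneg n)
  generalize (∑ q ∈ range n, ∑ q' ∈ range n, ∏ p ∈ _, varperK p _) = Y at h5 ⊢
  have h7 : (om w d)⁻¹ * Y - n ^ 2 * (om w d)⁻¹ ≤ n * kap w ^ 2 := by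
    rw [← h4] at h6
    rw [← h4]
    linarith
  refine le_trans (le_of_eq ?_) (mul_le_mul_of_nonneg_left h7 (Nat.cast_nonneg _))
  ring

end Pool.Agent.Lib.MP_458f0b_nt.Grow
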